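import Pool.Agent.H93.Nut.Conf

/-!
Skeletons with enough room have complete joins.
-/

set_option autoImplicit false
set_option linter.unusedSectionVars false
set_option linter.unusedVariables false

namespace Pool.Agent.H93.Nut

open Finset Pool.Agent.TH296.Nut

section

variable {P : Type} [Fintype P] [DecidableEq P]

theorem Sk.base {m : ℤ} {S : P → P → ℤ} {D t x : P → ℤ} {z γ : P → ZMod 2}
    {a b e d u v : P} (s : Sk m S D t x z γ a b e d u v) (c r : ℕ) (hr : 1 ≤ r)
    (hN : Fintype.card P = r + 3 + c) (hm : m + 4 < r * (c - 1 - r))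
    (hev : Even ((r : ℤ) * (Fintype.card P) - m)) : HasCf c (Fintype.card P) := by
  have zne : ∀ {p q : P}, z p + z q = 1 → p ≠ q := by
    rintro p q hh rfl
    rw [zmod2_add_self] at hh
    exact zero_ne_one hh
  have had := zne s.za
  have hbe := zne s.zb
  have hab := s.ab
  have hcd := s.cd
  have hac := s.ac
  have hbd := s.bd
  let F : P → P → ℤ := fun i j => (S i j) ^ 2 + ew a b i j + ew e d i j + ew a e i j + ew b d i j
  have g0 : GW (fun i j => (S i j) ^ 2) := by
    refine ⟨?_, ?_, ?_⟩
    · intro i j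
      rcases s.val i j with h | h | h <;> rw [h] <;> norm_num
    · intro i j
      rw [s.symm]
    · intro i
      rw [s.diag]; norm_num
  have sqz : ∀ {p q : P}, S p q = 0 → (S p q) ^ 2 = 0 := by
    intro p q h; rw [h]; norm_num
  have gF : GW F := by
    apply GW.add _ s.bd
    · rw [sqz s.nbd]
      unfold ew
      split_ifs <;> simp_all
    apply GW.add _ s.ac
    · rw [sqz s.nac]
      unfold ew
      split_ifs <;> simp_all
    apply GW.add _ s.cd
    · rw [sqz s.ncd]
      unfold ew
      split_ifs <;> simp_all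
    exact GW.add g0 s.ab (sqz s.nab)
  have sF : ∀ i, ∑ j, F i j = ∑ j, (S i j) ^ 2 + 2 * mrk a b e d i := by
    intro i
    simp only [F, Finset.sum_add_distrib, ew_sum, mrk]
    ring
  let f : P → ℤ := fun i => r - t i - mrk a b e d i
  have smrk : ∑ i, mrk a b e d i = 4 := by
    simp only [mrk, Finset.sum_add_distrib, Finset.sum_ite_eq', Finset.mem_univ, if_true]
    norm_num
  have mrk0 : ∀ i, 0 ≤ mrk a b e d i := by
    intro i
    unfold mrk
    split_ifs <;> norm_num
  have sf : ∑ i, f i = r * (Fintype.card P) - m - 4 := by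
    simp only [f, Finset.sum_sub_distrib, smrk, s.tsum]
    rw [Finset.sum_const, Finset.card_univ, nsmul_eq_mul]
    ring
  have hr' : (1 : ℤ) ≤ r := by exact_mod_cast hr
  obtain ⟨w, gw, aw, dw⟩ := exists_factor (F := F) (f := f) (A := r + 3) (B := r * (r + 2)) gF
    (by
      intro i
      have h1 := s.tmk i
      show 0 ≤ (r : ℤ) - t i - mrk a b e d i
      linarith)
    (by
      rw [sf]
      have : Even (4 : ℤ) := ⟨2, by norm_num⟩
      exact hev.sub this)
    (by
      intro i _
      rw [sF]
      have h1 := s.smk i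
      show (r : ℤ) - t i - mrk a b e d i + _ ≤ _
      push_cast
      linarith)
    (by
      intro X hX
      have h1 : ∑ i ∈ X, f i ≤ ∑ _i ∈ X, (r : ℤ) := by
        refine Finset.sum_le_sum fun i _ => ?_
        have h2 := s.t0 i
        have h3 := mrk0 i
        show (r : ℤ) - t i - mrk a b e d i ≤ r
        linarith
      rw [Finset.sum_const, nsmul_eq_mul] at h1
      have h2 : ((X.card : ℕ) : ℤ) ≤ r + 2 := by exact_mod_cast (by omega : X.card ≤ r + 2)
      nlinarith)
    (by
      rw [sf, hN]
      push_cast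
      nlinarith)
  let C : P → P → ℤ := fun i j => 1 - (if i = j then 1 else 0) - F i j - w i j
  have gC : GW C := by
    refine ⟨?_, ?_, ?_⟩
    · intro i j
      show 1 - (if i = j then 1 else 0) - F i j - w i j = 0 ∨
        1 - (if i = j then 1 else 0) - F i j - w i j = 1
      by_cases h : i = j
      · subst h
        rw [if_pos rfl, gF.diag, gw.diag]
        left; norm_num
      · rw [if_neg h]
        rcases gw.zo i j with e1 | e1
        · rcases gF.zo i j with e2 | e2 <;> rw [e1, e2] <;> norm_num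
        · rw [e1, aw i j e1]; norm_num
    · intro i j
      show 1 - (if i = j then 1 else 0) - F i j - w i j =
        1 - (if j = i then 1 else 0) - F j i - w j i
      rw [gF.symm i j, gw.symm i j]
      by_cases h : i = j
      · rw [if_pos h, if_pos h.symm]
      · rw [if_neg h, if_neg (Ne.symm h)]
    · intro i
      show 1 - (if i = i then 1 else 0) - F i i - w i i = 0
      rw [if_pos rfl, gF.diag, gw.diag]; norm_num
  refine ⟨P, inferInstance, inferInstance, m, S, D, t, x, z, γ, a, b, e, d, u, v, C,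
    ⟨s, gC, ?_, ?_⟩, rfl⟩
  · intro i j h
    have hij := gC.ne h
    have h' : 1 - (if i = j then 1 else 0) - F i j - w i j = 1 := h
    rw [if_neg hij] at h'
    have h1 := gF.nonneg i j
    have h2 := gw.nonneg i j
    have h3 : F i j = 0 := by linarith
    have h4 : (S i j) ^ 2 + ew a b i j + ew e d i j + ew a e i j + ew b d i j = 0 := h3
    have k0 : 0 ≤ (S i j) ^ 2 := sq_nonneg _
    have k : ∀ {p q : P}, p ≠ q → 0 ≤ ew p q i j := by
      intro p q hpq
      rcases ew_cases hpq i j with h | ⟨h, -⟩ <;> rw [h]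
      norm_num
    have k1 := k s.ab
    have k2 := k s.cd
    have k3 := k s.ac
    have k4 := k s.bd
    refine ⟨?_, ?_, ?_, ?_, ?_⟩
    · have : (S i j) ^ 2 = 0 := by linarith
      exact pow_eq_zero_iff (two_ne_zero) |>.1 this
    · linarith
    · linarith
    · linarith
    · linarith
  · intro i
    show ∑ j, (1 - (if i = j then 1 else 0) - F i j - w i j) = _
    rw [Finset.sum_sub_distrib, Finset.sum_sub_distrib, Finset.sum_sub_distrib, sF, dw,
      Finset.sum_const, Finset.card_univ, nsmul_eq_mul, Finset.sum_ite_eq,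
      if_pos (Finset.mem_univ i), hN]
    have h1 := s.tdef i
    show _ - ((r : ℤ) - t i - mrk a b e d i) = _
    push_cast
    linarith

end

/-! ### certificates -/

section

variable {n : ℕ}

/-- the matrix of a skeleton -/
def sm (S : Fin n → Fin n → ℤ) (D : Fin n → ℤ) (i j : Fin n) : ℤ :=
  S i j - if i = j then D i else 0

theorem sm_sum {A : Type} [CommRing A] (S : Fin n → Fin n → ℤ) (D : Fin n → ℤ) (y : Fin n → A)
    (i : Fin n) : ∑ j, (sm S D i j : A) * y j = ∑ j, (S i j : A) * y j - D i * y i := by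
  unfold sm
  simp only [Int.cast_sub, Int.cast_ite, Int.cast_zero, sub_mul, ite_mul, zero_mul,
    Finset.sum_sub_distrib]
  congr 1
  rw [Finset.sum_ite_eq, if_pos (Finset.mem_univ i)]

theorem cert {A : Type} [CommRing A] {S : Fin n → Fin n → ℤ} {D : Fin n → ℤ}
    {L : Fin n → Fin n → A} {x : Fin n → A} {δ : A} {p : Fin n}
    (hL : ∀ i j, ∑ k, L i k * (sm S D k j : A) =
      δ * ((if i = j then x p else 0) - (if j = p then x i else 0)))
    (y : Fin n → A) (hy : ∀ i, ∑ j, (S i j : A) * y j - D i * y i = 0) (i : Fin n) :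
    δ * (x p * y i - x i * y p) = 0 := by
  have h1 : ∑ j, (∑ k, L i k * (sm S D k j : A)) * y j = 0 := by
    simp only [Finset.sum_mul]
    rw [Finset.sum_comm]
    apply Finset.sum_eq_zero
    intro k _
    have h2 := sm_sum S D y k
    rw [hy k] at h2
    simp only [mul_assoc]
    rw [← Finset.mul_sum, h2, mul_zero]
  simp only [hL] at h1
  rw [← h1]
  have e : ∀ j, δ * ((if i = j then x p else 0) - (if j = p then x i else 0)) * y j =
      (if i = j then δ * (x p * y i) else 0) - (if j = p then δ * (x i * y p) else 0) := by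
    intro j
    by_cases k1 : i = j
    · by_cases k2 : j = p
      · rw [if_pos k1, if_pos k2, if_pos k1, if_pos k2, k1, k2]; ring
      · rw [if_pos k1, if_neg k2, if_pos k1, if_neg k2, k1]; ring
    · by_cases k2 : j = p
      · rw [if_neg k1, if_pos k2, if_neg k1, if_pos k2, k2]; ring
      · rw [if_neg k1, if_neg k2, if_neg k1, if_neg k2]; ring
  simp only [e, Finset.sum_sub_distrib]
  rw [Finset.sum_ite_eq, if_pos (Finset.mem_univ i), Finset.sum_ite_eq', if_pos (Finset.mem_univ p)]
  ring

theorem cert_real {S : Fin n → Fin n → ℤ} {D : Fin n → ℤ}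
    {L : Fin n → Fin n → ℤ} {x : Fin n → ℤ} {δ : ℤ} {p : Fin n} (hδ : δ ≠ 0) (hp : x p ≠ 0)
    (hL : ∀ i j, ∑ k, L i k * sm S D k j =
      δ * ((if i = j then x p else 0) - (if j = p then x i else 0)))
    (y : Fin n → ℝ) (hy : ∀ i, ∑ j, (S i j : ℝ) * y j - D i * y i = 0) :
    ∃ c : ℝ, ∀ i, y i = c * x i := by
  have hp' : (x p : ℝ) ≠ 0 := by exact_mod_cast hp
  have hδ' : (δ : ℝ) ≠ 0 := by exact_mod_cast hδ
  refine ⟨y p / x p, fun i => ?_⟩
  have h1 := cert (A := ℝ) (S := S) (D := D) (L := fun i j => (L i j : ℝ))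
    (x := fun i => (x i : ℝ)) (δ := (δ : ℝ)) (p := p) (by
      intro i j
      have := congrArg (fun n : ℤ => (n : ℝ)) (hL i j)
      push_cast at this
      exact this) y hy i
  have h2 := (mul_eq_zero.1 h1).resolve_left hδ'
  field_simp
  linarith

theorem cert_two {S : Fin n → Fin n → ℤ} {D : Fin n → ℤ}
    {L : Fin n → Fin n → ZMod 2} {z : Fin n → ZMod 2} {p : Fin n} (hp : z p = 1)
    (hL : ∀ i j, ∑ k, L i k * (sm S D k j : ZMod 2) =
      ((if i = j then z p else 0) - (if j = p then z i else 0)))
    (y : Fin n → ZMod 2) (hy : ∀ i, ∑ j, (S i j : ZMod 2) * y j - D i * y i = 0) :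
    (∀ i, y i = 0) ∨ (∀ i, y i = z i) := by
  have h1 := cert (A := ZMod 2) (S := S) (D := D) (L := L) (x := z) (δ := 1) (p := p) (by
    intro i j
    rw [hL i j, one_mul]) y hy
  have h2 : ∀ i, y i = z i * y p := by
    intro i
    have := h1 i
    rw [one_mul, hp, one_mul] at this
    exact sub_eq_zero.1 this
  have h3 : ∀ a : ZMod 2, a = 0 ∨ a = 1 := by decide
  rcases h3 (y p) with h | h
  · left; intro i; rw [h2, h, mul_zero]
  · right; intro i; rw [h2, h, mul_one]

end

end Pool.Agent.H93.Nut
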