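import Pool.Graph.R_seed8.TH296.Nut.All

/-!
Degrees divisible by four, orders two modulo four.
-/

set_option autoImplicit false

namespace Pool.Agent.H93.Nut

open Finset Pool.Agent.TH296.Nut

theorem good_classA {ρ n : ℕ} (hρ : 4 ∣ ρ) (h0 : 0 < ρ) (hn : n % 4 = 2) (hn2 : ρ + 6 ≤ n) :
    Good ρ n := by
  obtain ⟨j, rfl⟩ := hρ
  obtain ⟨M, rfl⟩ : ∃ M, n = 2 * M := ⟨n / 2, by omega⟩
  have hM : 5 ≤ M := by omega
  have hodd : M % 2 = 1 := by omega
  haveI : NeZero M := ⟨by omega⟩
  let F : Finset (ZMod M) := {0, 1, -1, 2, -2}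
  have hF5 : F.card ≤ 5 := by
    refine le_trans (Finset.card_insert_le _ _) ?_
    refine Nat.succ_le_succ (le_trans (Finset.card_insert_le _ _) ?_)
    refine Nat.succ_le_succ (le_trans (Finset.card_insert_le _ _) ?_)
    refine Nat.succ_le_succ (le_trans (Finset.card_insert_le _ _) ?_)
    simp
  have hFs : ∀ x, x ∈ F → -x ∈ F := by
    intro x hx
    simp only [F, Finset.mem_insert, Finset.mem_singleton] at hx ⊢
    rcases hx with rfl | rfl | rfl | rfl | rfl <;> simp
  have hF2 : ∀ x : ZMod M, x = -x → x ∈ F := by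
    intro x hx
    have h2 : (2 : ZMod M) * x = 0 := by linear_combination hx
    have hu : IsUnit (2 : ZMod M) := by
      have : IsUnit ((2 : ℕ) : ZMod M) := by
        rw [ZMod.isUnit_iff_coprime]
        rw [Nat.coprime_comm]
        exact (Nat.coprime_two_left).2 (Nat.odd_iff.2 hodd) |>.symm |>.symm |>.symm
      simpa using this
    have h3 : x = 0 := by
      obtain ⟨u, hu⟩ := hu
      rw [← hu] at h2
      exact (Units.mul_right_eq_zero u).1 h2
    rw [h3]
    simp [F]
  obtain ⟨T, hT1, hT2, hT3⟩ := exists_symm F hFs hF2 (j - 1) (by omega)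
  have hm : ∀ x, x ∈ F → x ∉ T := fun x hx hT => hT2 x hT hx
  have h := caseA hM (4 * j) T hT1 (hm 0 (by simp [F])) (hm 1 (by simp [F])) (hm 2 (by simp [F]))
    (by rw [hT3]; omega)
  refine ⟨_, inferInstance, _, _, h.double (by omega), ?_⟩
  rw [Fintype.card_prod, Fintype.card_bool, ZMod.card, mul_comm]

end Pool.Agent.H93.Nut
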