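import Pool.Agent.H93.Nut.Seed

/-!
Degrees two modulo four, orders two modulo four.
-/

set_option autoImplicit false
set_option linter.unusedSectionVars false
set_option linter.unusedVariables false

namespace Pool.Agent.H93.Nut

open Finset Pool.Agent.TH296.Nut

section

variable {P : Type} [Fintype P] [DecidableEq P]

theorem nonsing_b {S C : P → P → ℤ} {D x : P → ℤ} {l : ℤ} (hl : 0 ≤ l)
    (hval : ∀ i j, S i j = 0 ∨ S i j = 1 ∨ S i j = -1) (hS : ∀ i j, S i j = S j i)
    (hd : ∀ i, S i i = 0) (hC : GW C)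
    (hdeg : ∀ i, 2 * ∑ j, C i j + ∑ j, (S i j) ^ 2 + D i = 4 * l + 2)
    (hker : ∀ i, ∑ j, S i j * x j - D i * x i = 0) (hx : (∑ i, x i) % 2 = 1)
    (hN : Fintype.card P % 2 = 1)
    (hz : ∀ y : P → ZMod 2, (∀ i, ∑ j, (S i j : ZMod 2) * y j + D i * y i = 0) →
      (∀ i, y i = 0) ∨ (∀ i, y i = 1) ∨ (∀ i, y i = x i) ∨ (∀ i, y i = 1 + x i)) :
    Nonsing S C D := by
  by_contra hcon
  obtain ⟨u, hu, i1, hi1⟩ := exists_odd hcon
  have htsymm : ∀ i j, tm S C D i j = tm S C D j i := by
    intro i j
    unfold tm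
    rw [hC.symm i j, hS i j]
    by_cases h : i = j
    · rw [if_pos h, if_pos h.symm, h]
    · rw [if_neg h, if_neg (Ne.symm h)]
  have hrow : ∀ j, ∑ i, tm S C D i j = 4 * l + 2 := by
    intro j
    have h1 := tm_sum (A := ℤ) S C D j (fun _ => 1)
    simp only [Int.cast_id, mul_one] at h1
    simp only [htsymm _ j]
    rw [h1]
    exact hdeg j
  have hcol : ∀ y : P → ℤ, ∑ i, ∑ j, tm S C D i j * y j = (4 * l + 2) * ∑ j, y j := by
    intro y
    rw [Finset.sum_comm, Finset.mul_sum]
    refine Finset.sum_congr rfl fun j _ => ?_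
    rw [← Finset.sum_mul, hrow]
  have hu0 : ∑ j, u j = 0 := by
    have h1 := hcol u
    simp only [hu, Finset.sum_const_zero] at h1
    have h2 : (4 * l + 2) ≠ 0 := by omega
    rcases mul_eq_zero.1 h1.symm with h | h
    · exact absurd h h2
    · exact h
  have hu0' : ∑ j, (u j : ZMod 2) = 0 := by
    have := congrArg (fun n : ℤ => (n : ZMod 2)) hu0
    push_cast at this
    exact this
  have hx' : ∑ j, (x j : ZMod 2) = 1 := by
    have h1 : (∑ i, x i - 1) % 2 = 0 := by omega
    have := to_two h1
    push_cast at this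
    exact this
  have hN' : ∑ _j : P, (1 : ZMod 2) = 1 := by
    rw [Finset.sum_const, Finset.card_univ, nsmul_eq_mul, mul_one]
    have h1 : (((Fintype.card P : ℕ) : ℤ) - 1) % 2 = 0 := by omega
    have := to_two h1
    push_cast at this
    exact this
  rcases hz (fun i => (u i : ZMod 2)) (fun i => by
      have := tm_mod (S := S) (C := C) (D := D) (u := u) (i := i)
      rw [hu i] at this
      rw [← this]; simp) with h | h | h | h
  · exact hi1 (zmod2_cast.1 (h i1))
  · simp only [h] at hu0'
    rw [hN'] at hu0'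
    exact one_ne_zero hu0'
  · simp only [h] at hu0'
    rw [hx'] at hu0'
    exact one_ne_zero hu0'
  · -- the vector k
    let nS : P → P → ℤ := fun i j => if S i j = -1 then 1 else 0
    have hnS : ∀ i j, (S i j) ^ 2 = S i j + 2 * nS i j := by
      intro i j
      show (S i j) ^ 2 = S i j + 2 * (if S i j = -1 then 1 else 0)
      rcases hval i j with e | e | e <;> rw [e] <;> norm_num
    have nsymm : ∀ i j, nS i j = nS j i := by
      intro i j
      show (if S i j = -1 then (1 : ℤ) else 0) = if S j i = -1 then 1 else 0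
      rw [hS i j]
    let k : P → ℤ := fun i => ∑ j, (C i j + nS i j) * x j + D i * x i
    have hk : ∀ i, ∑ j, tm S C D i j * x j = 2 * k i := by
      intro i
      have h1 := tm_sum (A := ℤ) S C D i x
      simp only [Int.cast_id] at h1
      rw [h1]
      show _ = 2 * (∑ j, (C i j + nS i j) * x j + D i * x i)
      have h2 : ∑ j, (S i j) ^ 2 * x j = ∑ j, S i j * x j + 2 * ∑ j, nS i j * x j := by
        rw [Finset.mul_sum, ← Finset.sum_add_distrib]
        refine Finset.sum_congr rfl fun j _ => ?_
        rw [hnS]; ring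
      have h3 := hker i
      rw [h2]
      simp only [add_mul, Finset.sum_add_distrib]
      linarith
    have hk1 : ∑ i, k i = (2 * l + 1) * ∑ i, x i := by
      have h1 := hcol x
      simp only [hk, ← Finset.mul_sum] at h1
      linarith
    have hk1' : ∑ i, (k i : ZMod 2) = 1 := by
      have := congrArg (fun n : ℤ => (n : ZMod 2)) hk1
      push_cast at this
      rw [this, hx', zmod2_two]
      simp
    have hk2 : ∑ i, u i * k i = 0 := by
      have h1 : ∑ i, u i * (∑ j, tm S C D i j * x j) = 0 := by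
        simp only [Finset.mul_sum]
        rw [Finset.sum_comm]
        apply Finset.sum_eq_zero
        intro j _
        have h3 : ∑ i, u i * (tm S C D i j * x j) = (∑ i, tm S C D j i * u i) * x j := by
          rw [Finset.sum_mul]
          refine Finset.sum_congr rfl fun i _ => ?_
          rw [htsymm i j]; ring
        rw [h3, hu j, zero_mul]
      have h2 : ∑ i, u i * (∑ j, tm S C D i j * x j) = 2 * ∑ i, u i * k i := by
        rw [Finset.mul_sum]
        refine Finset.sum_congr rfl fun i _ => ?_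
        rw [hk]; ring
      rw [h2] at h1
      linarith
    have hk2' : ∑ i, (u i : ZMod 2) * k i = 0 := by
      have := congrArg (fun n : ℤ => (n : ZMod 2)) hk2
      push_cast at this
      exact this
    simp only [h, add_mul, one_mul, Finset.sum_add_distrib, hk1'] at hk2'
    -- the quadratic form
    have hq : ∑ i, (x i : ZMod 2) * k i = ∑ i, (D i : ZMod 2) * x i := by
      have h1 : ∀ i, (x i : ZMod 2) * k i = ∑ j, (x i : ZMod 2) * (((C i j + nS i j : ℤ) : ZMod 2)
          * x j) + D i * x i := by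
        intro i
        show (x i : ZMod 2) * ((∑ j, (C i j + nS i j) * x j + D i * x i : ℤ) : ZMod 2) = _
        push_cast
        rw [mul_add, Finset.mul_sum, mul_left_comm (x i : ZMod 2) (D i : ZMod 2), zmod2_mul_self]
      simp only [h1, Finset.sum_add_distrib]
      have h2 : ∑ i, ∑ j, (x i : ZMod 2) * (((C i j + nS i j : ℤ) : ZMod 2) * x j) = 0 := by
        apply alt_zero
        · intro i j
          rw [hC.symm i j, nsymm i j]; ring
        · intro i
          have h3 : nS i i = 0 := by
            show (if S i i = -1 then (1 : ℤ) else 0) = 0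
            rw [hd]; norm_num
          rw [hC.diag, h3]; simp
      rw [h2, zero_add]
    have hD : ∑ i, (D i : ZMod 2) * x i = 0 := by
      have h1 : ∑ i, (x i : ZMod 2) * (∑ j, (S i j : ZMod 2) * x j + D i * x i) = 0 := by
        apply Finset.sum_eq_zero
        intro i _
        have h2 := congrArg (fun n : ℤ => (n : ZMod 2)) (hker i)
        push_cast at h2
        rw [zmod2_sub] at h2
        rw [h2, mul_zero]
      simp only [mul_add, Finset.sum_add_distrib, Finset.mul_sum] at h1
      have h3 : ∑ i, ∑ j, (x i : ZMod 2) * ((S i j : ZMod 2) * x j) = 0 := by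
        apply alt_zero
        · intro i j; rw [hS i j]; ring
        · intro i; rw [hd]; simp
      rw [h3, zero_add] at h1
      rw [← h1]
      refine Finset.sum_congr rfl fun i _ => ?_
      rw [mul_left_comm, zmod2_mul_self]
    rw [hq, hD, add_zero] at hk2'
    exact one_ne_zero hk2'

/-- two more points -/
abbrev O2 (P : Type) := Option (Option P)

/-- an old point -/
abbrev wo (i : P) : O2 P := some (some i)

/-- first new point -/
abbrev w1 : O2 P := some none

/-- second new point -/
abbrev w2 : O2 P := none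

theorem ex2_all {P : Type} {R : Option (Option P) → Prop} (h0 : ∀ i, R (some (some i)))
    (h1 : R (some none)) (h2 : R none) : ∀ i, R i
  | some (some i) => h0 i
  | some none => h1
  | none => h2

/-- extension of a function to two more points -/
def ex2 {P A : Type} (f : P → A) (g1 g2 : A) : Option (Option P) → A
  | some (some i) => f i
  | some none => g1
  | none => g2

theorem sum_o2 {A : Type} [AddCommMonoid A] (f : O2 P → A) :
    ∑ j, f j = f w2 + (f w1 + ∑ i, f (wo i)) := by
  rw [Fintype.sum_option, Fintype.sum_option]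

/-- the signed graph after the insertion of two vertices on the edge `u v` -/
def tB (S : P → P → ℤ) (u v : P) : Option (Option P) → Option (Option P) → ℤ
  | some (some i), some (some j) => S i j - ew u v i j
  | some (some i), some none => if i = u then 1 else 0
  | some (some i), none => if i = v then -1 else 0
  | some none, some (some j) => if j = u then 1 else 0
  | none, some (some j) => if j = v then -1 else 0
  | some none, some none => 0
  | some none, none => 1
  | none, some none => 1
  | none, none => 0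

theorem ew_row {A : Type} [CommRing A] (u v i : P) (f : P → A) :
    ∑ j, ((ew u v i j : ℤ) : A) * f j = (if i = u then f v else 0) + (if i = v then f u else 0) := by
  have e : ∀ j, ((ew u v i j : ℤ) : A) * f j = (if i = u then (if j = v then f v else 0)
      else 0) + (if i = v then (if j = u then f u else 0) else 0) := by
    intro j
    unfold ew
    by_cases h1 : i = u <;> by_cases h2 : i = v <;> by_cases h3 : j = v <;> by_cases h4 : j = u <;>
      simp [h1, h2, h3, h4] <;> (subst_vars; simp_all) <;> ring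
  simp only [e, Finset.sum_add_distrib]
  congr 1
  · split_ifs <;> simp
  · split_ifs <;> simp

theorem sysB {A : Type} [CommRing A] (S : P → P → ℤ) (D : P → ℤ) (u v : P) (y : O2 P → A) :
    (∀ i, ∑ j, (tB S u v i j : A) * y j - ((ex2 D 0 0 i : ℤ) : A) * y i = 0) ↔
      (∀ i, ∑ j, (S i j : A) * y (wo j) - (D i : A) * y (wo i) = 0) ∧ y w1 = y (wo v) ∧
        y w2 = - y (wo u) := by
  have r0 : ∀ i, ∑ j, (tB S u v (wo i) j : A) * y j = ∑ j, (S i j : A) * y (wo j) +
      (if i = u then y w1 - y (wo v) else 0) - (if i = v then y w2 + y (wo u) else 0) := by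
    intro i
    rw [sum_o2]
    simp only [tB, Int.cast_sub, sub_mul, Finset.sum_sub_distrib, ew_row]
    split_ifs <;> push_cast <;> ring
  have r1 : ∑ j, (tB S u v w1 j : A) * y j = y (wo u) + y w2 := by
    rw [sum_o2]
    simp only [tB, Int.cast_ite, Int.cast_one, Int.cast_zero, ite_mul, one_mul, zero_mul,
      Finset.sum_ite_eq', Finset.mem_univ, if_true]
    ring
  have r2 : ∑ j, (tB S u v w2 j : A) * y j = y w1 - y (wo v) := by
    rw [sum_o2]
    simp only [tB, Int.cast_ite, Int.cast_one, Int.cast_zero, Int.cast_neg, ite_mul, one_mul,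
      zero_mul, neg_mul, Finset.sum_ite_eq', Finset.mem_univ, if_true]
    ring
  constructor
  · intro h
    have h1 := h w1
    have h2 := h w2
    rw [r1] at h1
    rw [r2] at h2
    simp only [ex2, Int.cast_zero, zero_mul, sub_zero] at h1 h2
    have k1 : y w1 = y (wo v) := sub_eq_zero.1 h2
    have k2 : y w2 = - y (wo u) := by linear_combination h1
    refine ⟨?_, k1, k2⟩
    intro i
    have h3 := h (wo i)
    rw [r0, k1, k2] at h3
    simp only [ex2] at h3
    rw [← h3]
    split_ifs <;> ring
  · rintro ⟨h, k1, k2⟩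
    refine ex2_all ?_ ?_ ?_
    · intro i
      rw [r0, k1, k2]
      simp only [ex2]
      have h3 := h i
      split_ifs <;> linear_combination h3
    · rw [r1, k2]
      simp only [ex2, Int.cast_zero]
      ring
    · rw [r2, k1]
      simp only [ex2, Int.cast_zero]
      ring

/-- A skeleton for degrees two modulo four. -/
structure SB (m : ℤ) (S : P → P → ℤ) (D h x : P → ℤ) (u v : P) : Prop where
  val : ∀ i j, S i j = 0 ∨ S i j = 1 ∨ S i j = -1
  symm : ∀ i j, S i j = S j i
  diag : ∀ i, S i i = 0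
  dval : ∀ i, D i = 0 ∨ D i = 1
  hdef : ∀ i, 2 * h i = ∑ j, (S i j) ^ 2 + D i
  h1 : ∀ i, 1 ≤ h i
  h2 : ∀ i, h i ≤ 2
  ht : ∀ i, h i + 1 ≤ ∑ j, (S i j) ^ 2
  tsum : ∑ i, (∑ j, (S i j) ^ 2 - h i - 1) = m
  nz : ∀ i, x i ≠ 0
  ker : ∀ i, ∑ j, S i j * x j - D i * x i = 0
  uniq : ∀ y : P → ℝ, (∀ i, ∑ j, (S i j : ℝ) * y j - D i * y i = 0) →
    ∃ c : ℝ, ∀ i, y i = c * x i
  zu : ∀ y : P → ZMod 2, (∀ i, ∑ j, (S i j : ZMod 2) * y j - D i * y i = 0) →
    (∀ i, y i = 0) ∨ (∀ i, y i = 1) ∨ (∀ i, y i = x i) ∨ (∀ i, y i = 1 + x i)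
  xodd : (∑ i, x i) % 2 = 1
  card : Fintype.card P % 2 = 1
  uv : S u v = 1
  ne : u ≠ v
  xuv : (x u + x v) % 2 = 0

theorem SB.grow {m : ℤ} {S : P → P → ℤ} {D h x : P → ℤ} {u v : P} (s : SB m S D h x u v) :
    SB m (tB S u v) (ex2 D 0 0) (ex2 h 1 1) (ex2 x (x v) (- x u)) (wo u) w1 := by
  have hne : u ≠ v := s.ne
  have hsq : ∀ i, ∑ j, (tB S u v i j) ^ 2 = ex2 (fun i => ∑ j, (S i j) ^ 2) 2 2 i := by
    refine ex2_all ?_ ?_ ?_
    · intro i
      rw [sum_o2]
      simp only [tB, ex2]
      have e1 : ∀ j, (S i j - ew u v i j) ^ 2 = (S i j) ^ 2 - ew u v i j := by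
        intro j
        rcases ew_S s.symm s.uv hne i j with e | ⟨e, e'⟩
        · rw [e]; ring
        · rw [e, e']; norm_num
      simp only [e1, Finset.sum_sub_distrib, ew_sum]
      split_ifs <;> ring
    · rw [sum_o2]
      simp only [tB, ex2, ite_pow, one_pow, zero_pow two_ne_zero]
      simp
    · rw [sum_o2]
      simp only [tB, ex2, ite_pow, one_pow, zero_pow two_ne_zero]
      simp
  refine
    { val := ?_, symm := ?_, diag := ?_, dval := ?_, hdef := ?_, h1 := ?_, h2 := ?_, ht := ?_
      tsum := ?_, nz := ?_, ker := ?_, uniq := ?_, zu := ?_, xodd := ?_, card := ?_, uv := ?_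
      ne := ?_, xuv := ?_ }
  · refine ex2_all ?_ ?_ ?_
    · intro i
      refine ex2_all ?_ ?_ ?_
      · intro j
        simp only [tB]
        rcases ew_S s.symm s.uv hne i j with e | ⟨e, e'⟩
        · rw [e, sub_zero]; exact s.val i j
        · rw [e, e']; left; norm_num
      · simp only [tB]; split_ifs <;> simp
      · simp only [tB]; split_ifs <;> simp
    · refine ex2_all ?_ ?_ ?_
      · intro j
        simp only [tB]; split_ifs <;> simp
      · simp [tB]
      · simp [tB]
    · refine ex2_all ?_ ?_ ?_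
      · intro j
        simp only [tB]; split_ifs <;> simp
      · simp [tB]
      · simp [tB]
  · refine ex2_all ?_ ?_ ?_
    · intro i
      refine ex2_all ?_ ?_ ?_
      · intro j
        simp only [tB]
        rw [s.symm i j, ew_symm]
      · rfl
      · rfl
    · refine ex2_all ?_ ?_ ?_
      · intro j; rfl
      · rfl
      · rfl
    · refine ex2_all ?_ ?_ ?_
      · intro j; rfl
      · rfl
      · rfl
  · refine ex2_all ?_ rfl rfl
    intro i
    simp only [tB]
    rw [s.diag, ew_diag hne, sub_zero]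
  · refine ex2_all s.dval (Or.inl rfl) (Or.inl rfl)
  · intro i
    rw [hsq]
    revert i
    refine ex2_all ?_ ?_ ?_
    · intro i; exact s.hdef i
    · rfl
    · rfl
  · refine ex2_all s.h1 le_rfl le_rfl
  · refine ex2_all s.h2 (by simp [ex2]) (by simp [ex2])
  · intro i
    rw [hsq]
    revert i
    refine ex2_all ?_ ?_ ?_
    · intro i; exact s.ht i
    · simp [ex2]
    · simp [ex2]
  · simp only [hsq]
    rw [sum_o2]
    simp only [ex2]
    rw [s.tsum]
    norm_num
  · refine ex2_all s.nz (s.nz v) (neg_ne_zero.2 (s.nz u))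
  · have := (sysB (A := ℤ) S D u v (ex2 x (x v) (- x u))).2
      ⟨fun i => by simpa [ex2] using s.ker i, rfl, rfl⟩
    intro i
    have h1 := this i
    simp only [Int.cast_id] at h1
    exact h1
  · intro y hy
    obtain ⟨h2, k1, k2⟩ := (sysB (A := ℝ) S D u v y).1 hy
    obtain ⟨c, hc⟩ := s.uniq (fun i => y (wo i)) h2
    refine ⟨c, ?_⟩
    refine ex2_all ?_ ?_ ?_
    · intro i; exact hc i
    · rw [k1]; exact hc v
    · rw [k2]
      show - y (wo u) = c * ((- x u : ℤ) : ℝ)
      have e2 : y (wo u) = c * x u := hc u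
      push_cast
      rw [e2]; ring
  · intro y hy
    obtain ⟨h2, k1, k2⟩ := (sysB (A := ZMod 2) S D u v y).1 hy
    have e3 : ((x u : ℤ) : ZMod 2) = x v := by
      apply to_two
      have := s.xuv
      omega
    rcases s.zu (fun i => y (wo i)) h2 with h3 | h3 | h3 | h3
    · left
      have a1 : y (wo v) = 0 := h3 v
      have a2 : y (wo u) = 0 := h3 u
      refine ex2_all h3 ?_ ?_
      · rw [k1]; exact a1
      · rw [k2, a2]; rfl
    · right; left
      have a1 : y (wo v) = 1 := h3 v
      have a2 : y (wo u) = 1 := h3 u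
      refine ex2_all h3 ?_ ?_
      · rw [k1]; exact a1
      · rw [k2, a2]; rfl
    · right; right; left
      have a1 : y (wo v) = x v := h3 v
      have a2 : y (wo u) = x u := h3 u
      refine ex2_all h3 ?_ ?_
      · rw [k1]; exact a1
      · rw [k2, a2]
        show - (x u : ZMod 2) = ((- x u : ℤ) : ZMod 2)
        push_cast; rfl
    · right; right; right
      have a1 : y (wo v) = 1 + x v := h3 v
      have a2 : y (wo u) = 1 + x u := h3 u
      refine ex2_all h3 ?_ ?_
      · rw [k1]; exact a1
      · rw [k2, a2]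
        show - (1 + (x u : ZMod 2)) = 1 + ((- x u : ℤ) : ZMod 2)
        push_cast
        rw [zmod2_neg, zmod2_neg]
  · rw [sum_o2]
    simp only [ex2]
    have h1 := s.xodd
    have h2 := s.xuv
    omega
  · rw [Fintype.card_option, Fintype.card_option]
    have := s.card
    omega
  · simp [tB]
  · simp
  · simp only [ex2]
    exact s.xuv

/-- a configuration for degrees two modulo four -/
structure CfB (c : ℕ) (m : ℤ) (S : P → P → ℤ) (D h x : P → ℤ) (u v : P) (C : P → P → ℤ) :
    Prop where
  sb : SB m S D h x u v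
  gw : GW C
  av : ∀ i j, C i j = 1 → S i j = 0
  deg : ∀ i, ∑ j, C i j = c + 1 - h i

end

/-- there is a configuration of order `N` -/
def HasCfB (c N : ℕ) : Prop :=
  ∃ (P : Type) (_ : Fintype P) (_ : DecidableEq P) (m : ℤ) (S : P → P → ℤ) (D h x : P → ℤ)
    (u v : P) (C : P → P → ℤ), CfB c m S D h x u v C ∧ Fintype.card P = N

section

variable {P : Type} [Fintype P] [DecidableEq P]

theorem CfB.grow {c : ℕ} {m : ℤ} {S : P → P → ℤ} {D h x : P → ℤ} {u v : P} {C : P → P → ℤ}
    (q : CfB c m S D h x u v C) (hc : Even c) (hc8 : 8 ≤ c) (hN : c + 2 ≤ Fintype.card P) :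
    HasCfB c (Fintype.card P + 2) := by
  obtain ⟨k, rfl⟩ := hc
  have hmin : ∀ i, ((k + k - 1 : ℕ) : ℤ) ≤ ∑ j, C i j := by
    intro i
    rw [q.deg]
    have := q.sb.h2 i
    have e : ((k + k - 1 : ℕ) : ℤ) = k + k - 1 := by omega
    rw [e]
    push_cast
    linarith
  obtain ⟨C2, g2, l2, pq2, ap2, aq2, d2, dp2, dq2⟩ := insert_two q.gw {u} {v} (k + k) (k + k - 1)
    hmin (by rw [card_singleton]; omega) (by rw [card_singleton]; omega)
    (by rw [card_singleton]; omega) (by rw [card_singleton]; omega)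
  have hsv := q.sb.symm
  have huv := q.sb.uv
  have up : ∀ i j, C2 (some (some i)) (some (some j)) = 1 → C i j = 1 := by
    intro i j hh
    have h1 := l2 i j
    rcases q.gw.zo i j with e1 | e1
    · omega
    · exact e1
  refine ⟨O2 P, inferInstance, inferInstance, m, tB S u v, _, _, _, wo u, w1, C2,
    ⟨q.sb.grow, g2, ?_, ?_⟩, ?_⟩
  · refine ex2_all ?_ ?_ ?_
    · intro i
      refine ex2_all ?_ ?_ ?_
      · intro j hh
        have h1 := q.av i j (up i j hh)
        simp only [tB]
        rw [h1, ew_zero_of hsv huv h1, sub_zero]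
      · intro hh
        simp only [tB]
        rw [if_neg]
        rintro rfl
        rw [g2.symm] at hh
        exact ap2 _ hh (mem_singleton_self _)
      · intro hh
        simp only [tB]
        rw [if_neg]
        rintro rfl
        rw [g2.symm] at hh
        exact aq2 _ hh (mem_singleton_self _)
    · refine ex2_all ?_ ?_ ?_
      · intro j hh
        simp only [tB]
        rw [if_neg]
        rintro rfl
        exact ap2 _ hh (mem_singleton_self _)
      · intro _; rfl
      · intro hh; rw [pq2] at hh; exact absurd hh zero_ne_one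
    · refine ex2_all ?_ ?_ ?_
      · intro j hh
        simp only [tB]
        rw [if_neg]
        rintro rfl
        exact aq2 _ hh (mem_singleton_self _)
      · intro hh; rw [g2.symm, pq2] at hh; exact absurd hh zero_ne_one
      · intro _; rfl
  · refine ex2_all ?_ ?_ ?_
    · intro i
      rw [d2, q.deg]; rfl
    · rw [dp2]; simp [ex2]
    · rw [dq2]; simp [ex2]
  · rw [Fintype.card_option, Fintype.card_option]

theorem CfB.good {l : ℕ} {m : ℤ} {S : P → P → ℤ} {D h x : P → ℤ} {u v : P} {C : P → P → ℤ}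
    (q : CfB (2 * l) m S D h x u v C) : Good (4 * l + 2) (2 * Fintype.card P) := by
  have s := q.sb
  have hdeg : ∀ i, 2 * ∑ j, C i j + ∑ j, (S i j) ^ 2 + D i = 4 * l + 2 := by
    intro i
    rw [q.deg]
    have := s.hdef i
    push_cast
    linarith
  have hn : Nonsing S C D := by
    refine nonsing_b (l := (l : ℤ)) (by positivity) s.val s.symm s.diag q.gw hdeg s.ker s.xodd
      s.card ?_
    intro y hy
    apply s.zu
    intro i
    rw [zmod2_sub]
    exact hy i
  refine nut_pairs (S := S) (C := C) (D := D) ⟨s.val, s.symm, s.diag, s.dval, q.gw, q.av, ?_⟩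
    (fun i => (x i : ℝ)) (fun i => by exact_mod_cast s.nz i) ?_ ?_ hn
  · intro i
    rw [hdeg i]
    push_cast
    ring
  · intro i
    have := s.ker i
    have h2 : ∑ j, S i j * x j = D i * x i := by linarith
    exact_mod_cast h2
  · intro y hy
    apply s.uniq y
    intro i
    rw [hy i, sub_self]

theorem SB.base {m : ℤ} {S : P → P → ℤ} {D h x : P → ℤ} {u v : P} (s : SB m S D h x u v)
    (c r : ℕ) (hr : 1 ≤ r) (hN : Fintype.card P = r + 3 + c) (hm : m < r * (c - 1 - r))
    (hev : Even ((r : ℤ) * (Fintype.card P) - m)) : HasCfB c (Fintype.card P) := by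
  have g0 : GW (fun i j => (S i j) ^ 2) := by
    refine ⟨?_, ?_, ?_⟩
    · intro i j
      rcases s.val i j with h | h | h <;> rw [h] <;> norm_num
    · intro i j
      rw [s.symm]
    · intro i
      rw [s.diag]; norm_num
  let f : P → ℤ := fun i => r - (∑ j, (S i j) ^ 2 - h i - 1)
  have sf : ∑ i, f i = r * (Fintype.card P) - m := by
    simp only [f, Finset.sum_sub_distrib (fun _ => (r : ℤ))]
    rw [s.tsum, Finset.sum_const, Finset.card_univ, nsmul_eq_mul]
    ring
  have hr' : (1 : ℤ) ≤ r := by exact_mod_cast hr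
  have hsD : ∀ i, ∑ j, (S i j) ^ 2 - h i - 1 ≤ 1 := by
    intro i
    have h1 := s.hdef i
    have h2 := s.h2 i
    have h3 : 0 ≤ D i := by rcases s.dval i with e | e <;> rw [e]; norm_num
    linarith
  obtain ⟨w, gw, aw, dw⟩ := exists_factor (F := fun i j => (S i j) ^ 2) (f := f) (A := r + 3)
    (B := r * (r + 2)) g0
    (by
      intro i
      have h1 := hsD i
      show 0 ≤ (r : ℤ) - (∑ j, (S i j) ^ 2 - h i - 1)
      linarith)
    (by rw [sf]; exact hev)
    (by
      intro i _
      have h1 := s.h2 i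
      show (r : ℤ) - (∑ j, (S i j) ^ 2 - h i - 1) + ∑ j, (S i j) ^ 2 ≤ _
      push_cast
      linarith)
    (by
      intro X hX
      have h1 : ∑ i ∈ X, f i ≤ ∑ _i ∈ X, (r : ℤ) := by
        refine Finset.sum_le_sum fun i _ => ?_
        have h2 := s.ht i
        show (r : ℤ) - (∑ j, (S i j) ^ 2 - h i - 1) ≤ r
        linarith
      rw [Finset.sum_const, nsmul_eq_mul] at h1
      have h2 : ((X.card : ℕ) : ℤ) ≤ r + 2 := by exact_mod_cast (by omega : X.card ≤ r + 2)
      nlinarith)
    (by
      rw [sf, hN]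
      push_cast
      nlinarith)
  let C : P → P → ℤ := fun i j => 1 - (if i = j then 1 else 0) - (S i j) ^ 2 - w i j
  have gC : GW C := by
    refine ⟨?_, ?_, ?_⟩
    · intro i j
      show 1 - (if i = j then 1 else 0) - (S i j) ^ 2 - w i j = 0 ∨
        1 - (if i = j then 1 else 0) - (S i j) ^ 2 - w i j = 1
      by_cases h : i = j
      · subst h
        rw [if_pos rfl, s.diag, gw.diag]
        left; norm_num
      · rw [if_neg h]
        rcases gw.zo i j with e1 | e1
        · have e2 : (S i j) ^ 2 = 0 ∨ (S i j) ^ 2 = 1 := g0.zo i j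
          rcases e2 with e2 | e2 <;> rw [e1, e2] <;> norm_num
        · have e3 : (S i j) ^ 2 = 0 := aw i j e1
          rw [e1, e3]; norm_num
    · intro i j
      show 1 - (if i = j then 1 else 0) - (S i j) ^ 2 - w i j =
        1 - (if j = i then 1 else 0) - (S j i) ^ 2 - w j i
      rw [s.symm i j, gw.symm i j]
      by_cases h : i = j
      · rw [if_pos h, if_pos h.symm]
      · rw [if_neg h, if_neg (Ne.symm h)]
    · intro i
      show 1 - (if i = i then 1 else 0) - (S i i) ^ 2 - w i i = 0
      rw [if_pos rfl, s.diag, gw.diag]; norm_num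
  refine ⟨P, inferInstance, inferInstance, m, S, D, h, x, u, v, C, ⟨s, gC, ?_, ?_⟩, rfl⟩
  · intro i j hh
    have hij := gC.ne hh
    have h' : 1 - (if i = j then 1 else 0) - (S i j) ^ 2 - w i j = 1 := hh
    rw [if_neg hij] at h'
    have h1 := gw.nonneg i j
    have h2 : 0 ≤ (S i j) ^ 2 := sq_nonneg _
    have : (S i j) ^ 2 = 0 := by linarith
    exact pow_eq_zero_iff (two_ne_zero) |>.1 this
  · intro i
    show ∑ j, (1 - (if i = j then 1 else 0) - (S i j) ^ 2 - w i j) = _
    rw [Finset.sum_sub_distrib, Finset.sum_sub_distrib, Finset.sum_sub_distrib, dw,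
      Finset.sum_const, Finset.card_univ, nsmul_eq_mul, Finset.sum_ite_eq,
      if_pos (Finset.mem_univ i), hN]
    show _ - ((r : ℤ) - (∑ j, (S i j) ^ 2 - h i - 1)) = _
    push_cast
    linarith

end

theorem HasCfB.good {l N : ℕ} (h : HasCfB (2 * l) N) : Good (4 * l + 2) (2 * N) := by
  obtain ⟨P, _, _, m, S, D, t, x, u, v, C, h, rfl⟩ := h
  exact h.good

theorem HasCfB.grow {c N : ℕ} (h : HasCfB c N) (hc : Even c) (hc8 : 8 ≤ c) (hN : c + 2 ≤ N) :
    HasCfB c (N + 2) := by
  obtain ⟨P, _, _, m, S, D, t, x, u, v, C, h, rfl⟩ := h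
  exact h.grow hc hc8 hN

/-- there is a skeleton of order `N` -/
def HasSB (m : ℤ) (N : ℕ) : Prop :=
  ∃ (P : Type) (_ : Fintype P) (_ : DecidableEq P) (S : P → P → ℤ) (D h x : P → ℤ)
    (u v : P), SB m S D h x u v ∧ Fintype.card P = N

theorem HasSB.grow {m : ℤ} {N : ℕ} (h : HasSB m N) : HasSB m (N + 2) := by
  obtain ⟨P, _, _, S, D, t, x, u, v, h, rfl⟩ := h
  exact ⟨O2 P, inferInstance, inferInstance, _, _, _, _, _, _, h.grow, by
    rw [Fintype.card_option, Fintype.card_option]⟩

theorem HasSB.grows {m : ℤ} {N : ℕ} (h : HasSB m N) (k : ℕ) : HasSB m (N + 2 * k) := by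
  induction k with
  | zero => exact h
  | succ k ih => exact ih.grow

theorem HasSB.base {m : ℤ} {N : ℕ} (h : HasSB m N) (c r : ℕ) (hr : 1 ≤ r)
    (hN : N = r + 3 + c) (hm : m < r * (c - 1 - r))
    (hev : Even ((r : ℤ) * N - m)) : HasCfB c N := by
  obtain ⟨P, _, _, S, D, t, x, u, v, h, rfl⟩ := h
  exact h.base c r hr hN hm hev

section

variable {n : ℕ}

/-- conditions on integer data -/
def okB (m : ℤ) (S : Fin n → Fin n → ℤ) (D h x : Fin n → ℤ) (u v : Fin n)
    (L L2 : Fin n → Fin n → ℤ) (δ : ℤ) (p q q' : Fin n) : Prop :=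
  (∀ i j, S i j = 0 ∨ S i j = 1 ∨ S i j = -1) ∧ (∀ i j, S i j = S j i) ∧ (∀ i, S i i = 0) ∧
  (∀ i, D i = 0 ∨ D i = 1) ∧ (∀ i, 2 * h i = ∑ j, (S i j) ^ 2 + D i) ∧ (∀ i, 1 ≤ h i) ∧
  (∀ i, h i ≤ 2) ∧ (∀ i, h i + 1 ≤ ∑ j, (S i j) ^ 2) ∧
  (∑ i, (∑ j, (S i j) ^ 2 - h i - 1) = m) ∧ (∀ i, x i ≠ 0) ∧
  (∀ i, ∑ j, S i j * x j - D i * x i = 0) ∧
  (δ ≠ 0) ∧ (∀ i j, ∑ k, L i k * sm S D k j =
      δ * ((if i = j then x p else 0) - (if j = p then x i else 0))) ∧
  (x q % 2 = 0) ∧ (x q' % 2 = 1) ∧
  (∀ i j, (∑ k, L2 i k * sm S D k j -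
      ((if i = j then 1 else 0) - (if j = q then 1 + x i else 0) -
        (if j = q' then x i else 0))) % 2 = 0) ∧
  ((∑ i, x i) % 2 = 1) ∧ (n % 2 = 1) ∧ S u v = 1 ∧ u ≠ v ∧ (x u + x v) % 2 = 0

instance (m : ℤ) (S : Fin n → Fin n → ℤ) (D h x : Fin n → ℤ) (u v : Fin n)
    (L L2 : Fin n → Fin n → ℤ) (δ : ℤ) (p q q' : Fin n) :
    Decidable (okB m S D h x u v L L2 δ p q q') := by
  unfold okB
  infer_instance

theorem SB.of_ok {m : ℤ} {S : Fin n → Fin n → ℤ} {D h x : Fin n → ℤ} {u v : Fin n}
    {L L2 : Fin n → Fin n → ℤ} {δ : ℤ} {p q q' : Fin n} (k : okB m S D h x u v L L2 δ p q q') :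
    SB m S D h x u v := by
  obtain ⟨val, symm, diag, dval, hdef, h1, h2, ht, tsum, nz, ker, hδ, hL, hq, hq', hL2, xodd, card,
    uv, ne, xuv⟩ := k
  refine ⟨val, symm, diag, dval, hdef, h1, h2, ht, tsum, nz, ker, cert_real hδ (nz p) hL, ?_, xodd,
    by rw [Fintype.card_fin]; exact card, uv, ne, xuv⟩
  intro y hy
  have key : ∀ i, y i = (1 + x i) * y q + x i * y q' := by
    intro i
    have e1 : ∑ j, (∑ k, (L2 i k : ZMod 2) * (sm S D k j : ZMod 2)) * y j = 0 := by
      simp only [Finset.sum_mul]
      rw [Finset.sum_comm]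
      apply Finset.sum_eq_zero
      intro k _
      have e2 := sm_sum S D y k
      rw [hy k] at e2
      simp only [mul_assoc]
      rw [← Finset.mul_sum, e2, mul_zero]
    have e3 : ∀ j, ∑ k, (L2 i k : ZMod 2) * (sm S D k j : ZMod 2) =
        (if i = j then 1 else 0) - (if j = q then 1 + (x i : ZMod 2) else 0) -
        (if j = q' then (x i : ZMod 2) else 0) := by
      intro j
      have := to_two (hL2 i j)
      push_cast at this
      exact this
    simp only [e3] at e1
    have e4 : ∀ j, ((if i = j then 1 else 0) - (if j = q then 1 + (x i : ZMod 2) else 0) -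
        (if j = q' then (x i : ZMod 2) else 0)) * y j = (if i = j then y i else 0) -
        (if j = q then (1 + x i) * y q else 0) - (if j = q' then x i * y q' else 0) := by
      intro j
      rw [sub_mul, sub_mul]
      congr 1
      · congr 1
        · by_cases e : i = j
          · rw [if_pos e, if_pos e, one_mul, e]
          · rw [if_neg e, if_neg e, zero_mul]
        · by_cases e : j = q
          · rw [if_pos e, if_pos e, e]
          · rw [if_neg e, if_neg e, zero_mul]
      · by_cases e : j = q'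
        · rw [if_pos e, if_pos e, e]
        · rw [if_neg e, if_neg e, zero_mul]
    simp only [e4, Finset.sum_sub_distrib] at e1
    rw [Finset.sum_ite_eq, if_pos (Finset.mem_univ i), Finset.sum_ite_eq',
      if_pos (Finset.mem_univ q), Finset.sum_ite_eq', if_pos (Finset.mem_univ q')] at e1
    linear_combination e1
  have h3 : ∀ a : ZMod 2, a = 0 ∨ a = 1 := by decide
  rcases h3 (y q) with a | a <;> rcases h3 (y q') with b | b
  · left; intro i; rw [key, a, b]; ring
  · right; right; left; intro i; rw [key, a, b]; ring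
  · right; right; right; intro i; rw [key, a, b]; ring
  · right; left; intro i; rw [key, a, b]
    have : (1 + (x i : ZMod 2)) * 1 + x i * 1 = 1 + (x i + x i) := by ring
    rw [this, zmod2_add_self, add_zero]

end

end Pool.Agent.H93.Nut
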