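import Pool.Agent.H93.Nut.ClassB

/-!
The skeleton of order eleven.
-/

set_option autoImplicit false
set_option maxRecDepth 100000

namespace Pool.Agent.H93.Nut

open Pool.Agent.TH296.Nut

theorem sb11 : SB (P := Fin 11) 6 (lm [[0, -1, 0, 0, 0, 1, 0, 1, 1, 0, 0], [-1, 0, 0, 1, 0, 0,
  1, 0, 0, 0, 1], [0, 0, 0, 1, 0, 0, 0, 0, 0, 1, 0], [0, 1, 1, 0, 0, 0, 0, 0, 1, 1, 0], [0, 0,
  0, 0, 0, 0, 1, 0, 1, 0, 0], [1, 0, 0, 0, 0, 0, 0, 1, 0, 1, 0], [0, 1, 0, 0, 1, 0, 0, 1, 0, 0,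
  1], [1, 0, 0, 0, 0, 1, 1, 0, -1, 0, 0], [1, 0, 0, 1, 1, 0, 0, -1, 0, 0, 0], [0, 0, 1, 1, 0, 1,
  0, 0, 0, 0, 0], [0, 1, 0, 0, 0, 0, 1, 0, 0, 0, 0]]) (lv [0, 0, 0, 0, 0, 1, 0, 0, 0, 1, 0]) (lv
  [2, 2, 1, 2, 1, 2, 2, 2, 2, 2, 1]) (lv [3, 2, -3, 1, -5, 1, -2, -1, 2, -1, 4]) 5 0 :=
SB.of_ok (L := lm [[0, 0, 0, 0, 0, 0, 0, 0, 0, 0, 0], [-15, -14, 23, -5, 17, -13, 14, -3, -14,
  5, 0], [6, 12, -30, 18, -18, 18, -12, 6, 12, 6, 0], [-6, -4, 22, -10, 10, -2, 4, -6, -4, 10,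
  0], [6, -4, -14, 2, -2, 10, 4, 6, 20, -2, 0], [6, -4, 10, 2, -2, -14, 4, 6, -4, -2, 0], [-3,
  2, -5, -1, 13, 7, -2, 9, 2, 1, 0], [0, -8, 8, -8, 8, 8, 8, 0, -8, 8, 0], [3, -2, 5, 1, 11, -7,
  2, -9, -2, -1, 0], [6, 4, 2, 10, -10, 2, -4, 6, 4, -10, 0], [9, 26, -17, 11, -23, -5, -2, -3,
  2, -11, 0]]) (L2 := lm [[0, 0, 0, 0, 0, 0, 0, 0, 0, 0, 0], [0, 0, 0, 0, 0, 0, 0, 0, 0, 0, 0],
  [1, 0, 0, 1, 0, 1, 0, 0, 0, 0, 0], [1, 1, 1, 0, 1, 1, 1, 0, 1, 0, 0], [0, 0, 1, 0, 1, 1, 0, 1,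
  1, 0, 0], [0, 0, 0, 0, 1, 0, 0, 1, 0, 0, 0], [0, 1, 0, 0, 0, 0, 1, 0, 1, 0, 0], [1, 1, 0, 0,
  0, 0, 1, 1, 1, 0, 0], [0, 1, 0, 0, 1, 0, 1, 0, 1, 0, 0], [1, 1, 0, 0, 1, 1, 1, 0, 1, 0, 0],
  [1, 1, 1, 0, 1, 1, 0, 0, 0, 0, 0]]) (δ := 8) (p := 0) (q := 1) (q' := 0)
    (by decide +kernel)

theorem cfB_all {c : ℕ} (hc : Even c) (hc8 : 8 ≤ c) : ∀ k : ℕ, HasCfB c (c + 5 + 2 * k) := by
  intro k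
  induction k with
  | zero =>
    obtain ⟨j, hj⟩ : ∃ j, c + 5 = 11 + 2 * j := ⟨(c - 6) / 2, by
      obtain ⟨i, rfl⟩ := hc
      omega⟩
    have h : HasSB 6 (c + 5) := by
      rw [hj]
      exact HasSB.grows ⟨Fin 11, inferInstance, inferInstance, _, _, _, _, _, _, sb11, Fintype.card_fin 11⟩ j
    refine h.base c 2 (by norm_num) (by ring) ?_ ?_
    · push_cast
      omega
    · exact ⟨(c : ℤ) + 5 - 3, by push_cast; ring⟩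
  | succ k ih =>
    have := ih.grow hc hc8 (by omega)
    rwa [show c + 5 + 2 * (k + 1) = c + 5 + 2 * k + 2 by ring]

/-- Degrees two modulo four and orders two modulo four. -/
theorem good_classB {ρ n : ℕ} (hρ : ρ % 4 = 2) (h18 : 18 ≤ ρ) (hn : n % 4 = 2)
    (hn2 : ρ + 8 ≤ n) : Good ρ n := by
  obtain ⟨l, rfl⟩ : ∃ l, ρ = 4 * l + 2 := ⟨ρ / 4, by omega⟩
  obtain ⟨k, hk⟩ : ∃ k, n = 2 * (2 * l + 5 + 2 * k) := ⟨(n - (4 * l + 10)) / 4, by omega⟩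
  rw [hk]
  exact (cfB_all (c := 2 * l) ⟨l, by ring⟩ (by omega) k).good

end Pool.Agent.H93.Nut
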