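import Pool.Agent.H93.Nut.CoreExp

/-!
Even degrees and odd orders.
-/

set_option autoImplicit false

namespace Pool.Agent.H93.Nut

open Finset Pool.Agent.TH296.Nut

theorem so_one {N : ℕ} (hN : 10 ≤ N) : (N % 3 = 0 ∧ HasSO 12 1 2 N) ∨ (N % 3 = 1 ∧ HasSO 10 1 2 N) ∨
    (N % 3 = 2 ∧ HasSO 8 1 2 N) := by
  have h : N % 3 = 0 ∨ N % 3 = 1 ∨ N % 3 = 2 := by omega
  rcases h with h | h | h
  · left
    refine ⟨h, ?_⟩
    obtain ⟨k, rfl⟩ : ∃ k, N = 9 + 3 * k := ⟨(N - 9) / 3, by omega⟩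
    exact HasSO.growsA ⟨Fin 9, inferInstance, inferInstance, _, _, _, _, _, _, _, _, _, so9,
      Fintype.card_fin 9⟩ k
  · right; left
    refine ⟨h, ?_⟩
    obtain ⟨k, rfl⟩ : ∃ k, N = 10 + 3 * k := ⟨(N - 10) / 3, by omega⟩
    exact HasSO.growsA ⟨Fin 10, inferInstance, inferInstance, _, _, _, _, _, _, _, _, _, so10,
      Fintype.card_fin 10⟩ k
  · right; right
    refine ⟨h, ?_⟩
    obtain ⟨k, rfl⟩ : ∃ k, N = 8 + 3 * k := ⟨(N - 8) / 3, by omega⟩
    exact HasSO.growsA ⟨Fin 8, inferInstance, inferInstance, _, _, _, _, _, _, _, _, _, so8,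
      Fintype.card_fin 8⟩ k

theorem so_zero {N : ℕ} (hN : 13 ≤ N) : ∃ τ : ℤ, τ ≤ 11 ∧ Even ((N : ℤ) - τ) ∧ HasSO τ 0 2 N := by
  have h : N % 6 = 0 ∨ N % 6 = 1 ∨ N % 6 = 2 ∨ N % 6 = 3 ∨ N % 6 = 4 ∨ N % 6 = 5 := by omega
  rcases h with h | h | h | h | h | h
  · -- multiples of six, even: so9y
    refine ⟨10, by norm_num, ?_, ?_⟩
    · rw [Int.even_iff]; omega
    · obtain ⟨k, rfl⟩ : ∃ k, N = 9 + 3 * k := ⟨(N - 9) / 3, by omega⟩
      exact HasSO.growsA ⟨Fin 9, inferInstance, inferInstance, _, _, _, _, _, _, _, _, _, so9y,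
        Fintype.card_fin 9⟩ k
  · refine ⟨7, by norm_num, ?_, ?_⟩
    · rw [Int.even_iff]; omega
    · obtain ⟨k, rfl⟩ : ∃ k, N = 7 + 3 * k := ⟨(N - 7) / 3, by omega⟩
      exact HasSO.growsA ⟨Fin 7, inferInstance, inferInstance, _, _, _, _, _, _, _, _, _, so7z,
        Fintype.card_fin 7⟩ k
  · refine ⟨8, by norm_num, ?_, ?_⟩
    · rw [Int.even_iff]; omega
    · obtain ⟨k, rfl⟩ : ∃ k, N = 8 + 3 * k := ⟨(N - 8) / 3, by omega⟩
      exact HasSO.growsA ⟨Fin 8, inferInstance, inferInstance, _, _, _, _, _, _, _, _, _, so8z,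
        Fintype.card_fin 8⟩ k
  · refine ⟨11, by norm_num, ?_, ?_⟩
    · rw [Int.even_iff]; omega
    · obtain ⟨k, rfl⟩ : ∃ k, N = 9 + 3 * k := ⟨(N - 9) / 3, by omega⟩
      exact HasSO.growsA ⟨Fin 9, inferInstance, inferInstance, _, _, _, _, _, _, _, _, _, so9z,
        Fintype.card_fin 9⟩ k
  · refine ⟨10, by norm_num, ?_, ?_⟩
    · rw [Int.even_iff]; omega
    · obtain ⟨k, rfl⟩ : ∃ k, N = 10 + 3 * k := ⟨(N - 10) / 3, by omega⟩
      exact HasSO.growsA ⟨Fin 10, inferInstance, inferInstance, _, _, _, _, _, _, _, _, _, so10z,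
        Fintype.card_fin 10⟩ k
  · refine ⟨11, by norm_num, ?_, ?_⟩
    · rw [Int.even_iff]; omega
    · obtain ⟨k, rfl⟩ : ∃ k, N = 8 + 3 * k := ⟨(N - 8) / 3, by omega⟩
      exact HasSO.growsA ⟨Fin 8, inferInstance, inferInstance, _, _, _, _, _, _, _, _, _, so8y,
        Fintype.card_fin 8⟩ k

theorem cfO_six {c : ℕ} (hc : 11 ≤ c) : HasCfO c (c - 3) 0 (c + 3) := by
  rcases so_one (N := c + 3) (by omega) with ⟨h0, h⟩ | ⟨h0, h⟩ | ⟨h0, h⟩
  · refine h.base c 2 (by omega) (by norm_num) (by norm_num) (by ring) (by norm_num) ?_ ?_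
    · push_cast
      omega
    · rw [Int.even_iff]; push_cast; omega
  · refine h.base c 2 (by omega) (by norm_num) (by norm_num) (by ring) (by norm_num) ?_ ?_
    · push_cast
      omega
    · rw [Int.even_iff]; push_cast; omega
  · refine h.base c 2 (by omega) (by norm_num) (by norm_num) (by ring) (by norm_num) ?_ ?_
    · push_cast
      omega
    · rw [Int.even_iff]; push_cast; omega

theorem cfO_eight {c : ℕ} (hc : 11 ≤ c) : HasCfO c (c - 3) 0 (c + 4) := by
  by_cases h11 : c = 11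
  · subst h11
    have h : HasSO 7 0 2 13 := HasSO.growsA (N := 7) ⟨Fin 7, inferInstance, inferInstance, _, _, _,
      _, _, _, _, _, _, so7z, Fintype.card_fin 7⟩ 2
    exact h.growB.base 11 3 (by norm_num) (by norm_num) (by norm_num) (by norm_num) (by norm_num)
      (by norm_num) (by decide)
  · obtain ⟨τ, h1, h2, h⟩ := so_zero (N := c + 2) (by omega)
    have h3 := h.growB
    refine h3.base c 3 (by omega) (by norm_num) (by norm_num) (by ring) (by norm_num) ?_ ?_
    · push_cast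
      omega
    · rw [Int.even_iff] at h2 ⊢
      push_cast at h2 ⊢
      omega

theorem cfO_all {c : ℕ} (hc : 7 ≤ c) {N : ℕ} (hN : c + 3 ≤ N) : ∃ δ ℓ, HasCfO c δ ℓ N := by
  by_cases h11 : 11 ≤ c
  · rcases Nat.even_or_odd' (N - (c + 3)) with ⟨k, hk | hk⟩
    · refine ⟨c - 3, 0, ?_⟩
      rw [show N = c + 3 + 2 * k by omega]
      exact (cfO_six h11).grows (by omega) (by omega) (by omega) (by omega) k
    · refine ⟨c - 3, 0, ?_⟩
      rw [show N = c + 4 + 2 * k by omega]
      exact (cfO_eight h11).grows (by omega) (by omega) (by omega) (by omega) k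
  · have h : c = 7 ∨ c = 8 ∨ c = 9 ∨ c = 10 := by omega
    rcases h with rfl | rfl | rfl | rfl
    · by_cases h17 : 17 ≤ N
      · rcases Nat.even_or_odd' (N - 17) with ⟨k, hk | hk⟩
        · refine ⟨6, 9, ?_⟩
          rw [show N = 17 + 2 * k by omega]
          exact co7x17.grows (by omega) (by omega) (by omega) (by omega) k
        · refine ⟨6, 9, ?_⟩
          rw [show N = 18 + 2 * k by omega]
          exact co7x18.grows (by omega) (by omega) (by omega) (by omega) k
      · have h : N = 10 ∨ N = 11 ∨ N = 12 ∨ N = 13 ∨ N = 14 ∨ N = 15 ∨ N = 16 := by omega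
        rcases h with rfl | rfl | rfl | rfl | rfl | rfl | rfl
        · exact ⟨_, _, co7x10⟩
        · exact ⟨_, _, co7x11⟩
        · exact ⟨_, _, co7x12⟩
        · exact ⟨_, _, co7x13⟩
        · exact ⟨_, _, co7x14⟩
        · exact ⟨_, _, co7x15⟩
        · exact ⟨_, _, co7x16⟩
    · rcases Nat.even_or_odd' (N - 11) with ⟨k, hk | hk⟩
      · refine ⟨6, 2, ?_⟩
        rw [show N = 11 + 2 * k by omega]
        exact co8x11.grows (by omega) (by omega) (by omega) (by omega) k
      · by_cases h12 : N = 12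
        · subst h12
          exact ⟨_, _, co8x12⟩
        · refine ⟨6, 4, ?_⟩
          rw [show N = 14 + 2 * (k - 1) by omega]
          exact co8x14.grows (by omega) (by omega) (by omega) (by omega) (k - 1)
    · by_cases h14 : 14 ≤ N
      · rcases Nat.even_or_odd' (N - 14) with ⟨k, hk | hk⟩
        · refine ⟨7, 4, ?_⟩
          rw [show N = 14 + 2 * k by omega]
          exact co9x14.grows (by omega) (by omega) (by omega) (by omega) k
        · refine ⟨7, 5, ?_⟩
          rw [show N = 15 + 2 * k by omega]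
          exact co9x15.grows (by omega) (by omega) (by omega) (by omega) k
      · have h : N = 12 ∨ N = 13 := by omega
        rcases h with rfl | rfl
        · exact ⟨_, _, co9x12⟩
        · exact ⟨_, _, co9x13⟩
    · rcases Nat.even_or_odd' (N - 13) with ⟨k, hk | hk⟩
      · refine ⟨7, 0, ?_⟩
        rw [show N = 13 + 2 * k by omega]
        exact co10x13.grows (by omega) (by omega) (by omega) (by omega) k
      · refine ⟨7, 0, ?_⟩
        rw [show N = 14 + 2 * k by omega]
        exact co10x14.grows (by omega) (by omega) (by omega) (by omega) k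

/-- Even degrees and odd orders. -/
theorem good_classO {ρ n : ℕ} (hρ : Even ρ) (h16 : 16 ≤ ρ) (hn : Odd n) (hn2 : ρ + 5 ≤ n) :
    Good ρ n := by
  obtain ⟨j, rfl⟩ := hρ
  obtain ⟨i, rfl⟩ := hn
  by_cases h : 2 * i + 1 = j + j + 5
  · have := seed_five (n := 2 * i + 1) (by omega)
    rwa [show 2 * i + 1 - 5 = j + j by omega] at this
  · obtain ⟨δ, ℓ, h⟩ := cfO_all (c := j - 1) (by omega) (N := i - 1) (by omega)
    have := h.good
    rwa [show 2 * (j - 1) + 2 = j + j by omega, show 2 * (i - 1) + 3 = 2 * i + 1 by omega] at this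

end Pool.Agent.H93.Nut
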