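import Pool.Agent.H93.Nut.Expand

set_option autoImplicit false
set_option linter.unusedSectionVars false

namespace Pool.Agent.H93.Nut

open Finset

section

variable {V : Type} [DecidableEq V] [Fintype V]

theorem lower_sum {C : V → V → ℤ} (hC : GW C) (A : Finset V) (v : V) :
    ∑ u, C v u - A.card ≤ ∑ u ∈ Aᶜ, C v u := by
  have h1 := Finset.sum_compl_add_sum A (fun u => C v u)
  have h2 : ∑ u ∈ A, C v u ≤ A.card := by
    have : ∑ u ∈ A, C v u ≤ ∑ _u ∈ A, (1 : ℤ) := Finset.sum_le_sum fun u _ => hC.le_one v u
    simpa using this
  linarith

/-- Insertion of two vertices of the same degree. -/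
theorem insert_two {C : V → V → ℤ} (hC : GW C) (Ap Aq : Finset V) (c δ : ℕ)
    (hδ : ∀ v, (δ : ℤ) ≤ ∑ u, C v u)
    (hp : c / 2 + Ap.card + 1 ≤ δ) (hq : c / 2 + Aq.card + 2 ≤ δ)
    (hcp : 2 * (c / 2) + Ap.card + 1 ≤ Fintype.card V)
    (hcq : 2 * (c / 2) + Aq.card + 1 ≤ Fintype.card V) :
    ∃ C' : Option (Option V) → Option (Option V) → ℤ, GW C' ∧
      (∀ v w, C' (some (some v)) (some (some w)) ≤ C v w) ∧
      C' (some none) none = 0 ∧
      (∀ v, C' (some none) (some (some v)) = 1 → v ∉ Ap) ∧
      (∀ v, C' none (some (some v)) = 1 → v ∉ Aq) ∧
      (∀ v, ∑ u, C' (some (some v)) u = ∑ u, C v u) ∧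
      ∑ u, C' (some none) u = c ∧ ∑ u, C' none u = c := by
  rcases Nat.even_or_odd' c with ⟨m, rfl | rfl⟩
  · have hm : 2 * m / 2 = m := by omega
    rw [hm] at hp hq hcp hcq
    obtain ⟨C1, g1, l1, n1, d1, e1⟩ := insert_one (m := m) hC (W := Apᶜ)
      (by rw [Finset.card_compl]; omega)
      (by
        intro v _
        have h1 := lower_sum hC Ap v
        have h2 := hδ v
        have h3 : ((m + Ap.card + 1 : ℕ) : ℤ) ≤ δ := by exact_mod_cast hp
        push_cast at h3
        linarith)
    set A' : Finset (Option V) := insert none (Aq.map Function.Embedding.some) with hA'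
    have cA : A'.card = Aq.card + 1 := by
      rw [hA', Finset.card_insert_of_notMem (by simp), Finset.card_map]
    obtain ⟨C2, g2, l2, n2, d2, e2⟩ := insert_one (m := m) g1 (W := A'ᶜ)
      (by rw [Finset.card_compl, cA, Fintype.card_option]; omega)
      (by
        intro v hv
        have h1 := lower_sum g1 A' v
        rw [cA] at h1
        rcases v with _ | v
        · exfalso
          rw [Finset.mem_compl] at hv
          exact hv (by simp [hA'])
        · have h2 := hδ v
          have h3 : ((m + Aq.card + 2 : ℕ) : ℤ) ≤ δ := by exact_mod_cast hq
          rw [d1 v] at h1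
          push_cast at h1 h3
          linarith)
    refine ⟨C2, g2, ?_, ?_, ?_, ?_, ?_, ?_, ?_⟩
    · intro v w
      exact (l2 _ _).trans (l1 _ _)
    · rw [g2.symm]
      refine (g2.zo _ _).resolve_right fun h => ?_
      have := n2 _ h
      rw [Finset.mem_compl] at this
      exact this (by simp [hA'])
    · intro v hv
      have h1 := l2 none (some v)
      have h2 : C1 none (some v) = 1 := by
        have := g1.le_one none (some v)
        have h3 : C2 (some none) (some (some v)) = 1 := hv
        omega
      exact Finset.mem_compl.1 (n1 v h2)
    · intro v hv h
      have := n2 _ hv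
      rw [Finset.mem_compl] at this
      exact this (by simp [hA', h])
    · intro v
      rw [d2, d1]
    · rw [d2, e1]
      push_cast
      ring
    · rw [e2]
      push_cast
      ring
  · have hm : (2 * m + 1) / 2 = m := by omega
    rw [hm] at hp hq hcp hcq
    -- the shared edge
    obtain ⟨x, hx⟩ : ∃ x, x ∉ Ap := by
      by_contra hcon
      push Not at hcon
      have : Ap = univ := Finset.eq_univ_iff_forall.2 hcon
      rw [this, Finset.card_univ] at hcp
      omega
    obtain ⟨y, hxy, hy⟩ : ∃ y, C x y = 1 ∧ y ∉ Aq := by
      by_contra hcon
      push Not at hcon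
      have h1 := lower_sum hC Aq x
      have h2 : ∑ u ∈ Aqᶜ, C x u = 0 := by
        apply Finset.sum_eq_zero
        intro u hu
        refine (hC.zo x u).resolve_right fun h => ?_
        exact (Finset.mem_compl.1 hu) (hcon u h)
      have h3 := hδ x
      have h4 : ((m + Aq.card + 2 : ℕ) : ℤ) ≤ δ := by exact_mod_cast hq
      push_cast at h4
      rw [h2] at h1
      have : (0 : ℤ) ≤ m := by positivity
      linarith
    have hne := hC.ne hxy
    have g0 := hC.sub hxy
    set C0 : V → V → ℤ := fun u v => C u v - ew x y u v with hC0
    have s0 : ∀ v, ∑ u, C0 v u = ∑ u, C v u - ((if v = x then 1 else 0) +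
        (if v = y then 1 else 0)) := by
      intro v
      rw [hC0]
      simp only
      rw [Finset.sum_sub_distrib, ew_sum]
    have l0 : ∀ u v, C0 u v ≤ C u v := by
      intro u v
      have : 0 ≤ ew x y u v := by
        rcases ew_cases hne u v with e | ⟨e, _⟩ <;> rw [e]
        norm_num
      rw [hC0]
      simp only
      linarith
    obtain ⟨C1, g1, l1, n1, d1, e1⟩ := insert_one (m := m) g0 (W := (insert x Ap)ᶜ)
      (by rw [Finset.card_compl, Finset.card_insert_of_notMem hx]; omega)
      (by
        intro v hv
        have hvx : v ≠ x := by
          rintro rfl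
          exact (Finset.mem_compl.1 hv) (Finset.mem_insert_self _ _)
        have h0 : ∑ u ∈ (insert x Ap)ᶜ, C0 v u = ∑ u ∈ (insert x Ap)ᶜ, C v u := by
          refine Finset.sum_congr rfl fun u hu => ?_
          have hux : u ≠ x := by
            rintro rfl
            exact (Finset.mem_compl.1 hu) (Finset.mem_insert_self _ _)
          rw [hC0]
          simp only
          unfold ew
          simp [hvx, hux]
        have h1 := lower_sum hC (insert x Ap) v
        rw [Finset.card_insert_of_notMem hx] at h1
        have h2 := hδ v
        have h3 : ((m + Ap.card + 1 : ℕ) : ℤ) ≤ δ := by exact_mod_cast hp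
        push_cast at h1 h3
        show (m : ℤ) ≤ ∑ u ∈ (insert x Ap)ᶜ, C0 v u
        rw [h0]
        linarith)
    set A' : Finset (Option V) := insert none ((insert y Aq).map Function.Embedding.some) with hA'
    have cA : A'.card = Aq.card + 2 := by
      rw [hA', Finset.card_insert_of_notMem (by simp), Finset.card_map,
        Finset.card_insert_of_notMem hy]
    obtain ⟨C2, g2, l2, n2, d2, e2⟩ := insert_one (m := m) g1 (W := A'ᶜ)
      (by rw [Finset.card_compl, cA, Fintype.card_option]; omega)
      (by
        intro v hv
        rcases v with _ | v
        · exfalso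
          rw [Finset.mem_compl] at hv
          exact hv (by simp [hA'])
        · have hvy : v ≠ y := by
            rintro rfl
            rw [Finset.mem_compl] at hv
            exact hv (by simp [hA'])
          have h2 := hδ v
          have h3 : ((m + Aq.card + 2 : ℕ) : ℤ) ≤ δ := by exact_mod_cast hq
          push_cast at h3
          have h4 := Finset.sum_compl_add_sum A' (fun u => C1 (some v) u)
          rw [d1 v] at h4
          have h5 : ∑ u, C0 v u = _ := s0 v
          rw [if_neg hvy, add_zero] at h5
          by_cases hvx : v = x
          · subst hvx
            rw [if_pos rfl] at h5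
            have h6 : ∑ u ∈ A', C1 (some v) u ≤ Aq.card + 1 := by
              have h7 : C1 (some v) (some y) = 0 := by
                have h8 := l1 v y
                have h9 : C0 v y = 0 := by
                  rw [hC0]
                  simp only
                  rw [hxy]
                  unfold ew
                  simp [hne]
                rw [h9] at h8
                exact le_antisymm h8 (g1.nonneg _ _)
              have h10 : A' = insert (some y) (insert none (Aq.map Function.Embedding.some)) := by
                rw [hA', Finset.map_insert, Finset.insert_comm]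
                rfl
              have h11 : (some y : Option V) ∉ insert none (Aq.map Function.Embedding.some) := by
                simp [hy]
              rw [h10, Finset.sum_insert h11, h7, zero_add]
              have h12 : ∑ u ∈ insert none (Aq.map Function.Embedding.some), C1 (some v) u
                  ≤ ∑ _u ∈ insert none (Aq.map Function.Embedding.some), (1 : ℤ) :=
                Finset.sum_le_sum fun u _ => g1.le_one _ _
              rw [Finset.sum_const, Finset.card_insert_of_notMem (by simp), Finset.card_map] at h12
              simpa using h12
            show (m : ℤ) ≤ ∑ u ∈ A'ᶜ, C1 (some v) u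
            have h13 : ∑ u, C0 v u = ∑ u, C v u - 1 := h5
            have h14 : ∑ i ∈ A'ᶜ, C1 (some v) i + ∑ i ∈ A', C1 (some v) i = ∑ u, C0 v u := h4
            linarith
          · rw [if_neg hvx] at h5
            have h6 : ∑ u ∈ A', C1 (some v) u ≤ Aq.card + 2 := by
              have h12 : ∑ u ∈ A', C1 (some v) u ≤ ∑ _u ∈ A', (1 : ℤ) :=
                Finset.sum_le_sum fun u _ => g1.le_one _ _
              rw [Finset.sum_const, cA] at h12
              simpa using h12
            show (m : ℤ) ≤ ∑ u ∈ A'ᶜ, C1 (some v) u
            have h13 : ∑ u, C0 v u = ∑ u, C v u - 0 := h5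
            have h14 : ∑ i ∈ A'ᶜ, C1 (some v) i + ∑ i ∈ A', C1 (some v) i = ∑ u, C0 v u := h4
            linarith)
    have z1 : C2 (some none) (some (some x)) = 0 := by
      have h1 := l2 none (some x)
      have h2 : C1 none (some x) = 0 := (g1.zo _ _).resolve_right fun h => by
        have := n1 x h
        rw [Finset.mem_compl] at this
        exact this (Finset.mem_insert_self _ _)
      rw [h2] at h1
      exact le_antisymm h1 (g2.nonneg _ _)
    have z2 : C2 none (some (some y)) = 0 := (g2.zo _ _).resolve_right fun h => by
      have := n2 _ h
      rw [Finset.mem_compl] at this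
      exact this (by simp [hA'])
    have z3 : C2 none (some none) = 0 := (g2.zo _ _).resolve_right fun h => by
      have := n2 _ h
      rw [Finset.mem_compl] at this
      exact this (by simp [hA'])
    have g3 := g2.add (a := some none) (b := some (some x)) (by simp) z1
    have g4 := g3.add (a := none) (b := some (some y)) (by simp) (by
      rw [z2]
      unfold ew
      simp)
    refine ⟨_, g4, ?_, ?_, ?_, ?_, ?_, ?_, ?_⟩
    · intro v w
      have h1 : ew (some none) (some (some x)) (some (some v)) (some (some w)) = 0 := by
        unfold ew
        simp
      have h2 : ew none (some (some y)) (some (some v)) (some (some w)) = 0 := by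
        unfold ew
        simp
      show C2 _ _ + _ + _ ≤ _
      rw [h1, h2, add_zero, add_zero]
      exact ((l2 _ _).trans (l1 _ _)).trans (l0 _ _)
    · have h1 : ew (some none) (some (some x)) (some none) none = 0 := by
        unfold ew
        simp
      have h2 : ew none (some (some y)) (some none) none = 0 := by
        unfold ew
        simp
      show C2 _ _ + _ + _ = _
      rw [h1, h2, g2.symm, z3]
      norm_num
    · intro v hv hvA
      have h2 : ew none (some (some y)) (some none) (some (some v)) = 0 := by
        unfold ew
        simp
      have h3 : C2 (some none) (some (some v)) + ew (some none) (some (some x)) (some none)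
          (some (some v)) + ew none (some (some y)) (some none) (some (some v)) = 1 := hv
      rw [h2, add_zero] at h3
      by_cases hvx : v = x
      · subst hvx; exact hx hvA
      · have h1 : ew (some none) (some (some x)) (some none) (some (some v)) = 0 := by
          unfold ew
          simp [hvx]
        rw [h1, add_zero] at h3
        have h4 := l2 none (some v)
        have h5 : C1 none (some v) = 1 := by
          have := g1.le_one none (some v)
          omega
        have := n1 v h5
        rw [Finset.mem_compl] at this
        exact this (Finset.mem_insert_of_mem hvA)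
    · intro v hv hvA
      have h2 : ew (some none) (some (some x)) none (some (some v)) = 0 := by
        unfold ew
        simp
      have h3 : C2 none (some (some v)) + ew (some none) (some (some x)) none
          (some (some v)) + ew none (some (some y)) none (some (some v)) = 1 := hv
      rw [h2, add_zero] at h3
      by_cases hvx : v = y
      · subst hvx; exact hy hvA
      · have h1 : ew none (some (some y)) none (some (some v)) = 0 := by
          unfold ew
          simp [hvx]
        rw [h1, add_zero] at h3
        have := n2 _ h3
        rw [Finset.mem_compl] at this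
        exact this (by simp [hA', hvA])
    · intro v
      show ∑ u, (C2 (some (some v)) u + ew (some none) (some (some x)) (some (some v)) u +
        ew none (some (some y)) (some (some v)) u) = _
      rw [Finset.sum_add_distrib, Finset.sum_add_distrib, ew_sum, ew_sum, d2, d1]
      show ∑ u, C0 v u + _ + _ = _
      rw [s0]
      simp only [Option.some.injEq, reduceCtorEq, if_false]
      ring
    · show ∑ u, (C2 (some none) u + ew (some none) (some (some x)) (some none) u +
        ew none (some (some y)) (some none) u) = _
      rw [Finset.sum_add_distrib, Finset.sum_add_distrib, ew_sum, ew_sum, d2, e1]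
      simp
    · show ∑ u, (C2 none u + ew (some none) (some (some x)) none u +
        ew none (some (some y)) none u) = _
      rw [Finset.sum_add_distrib, Finset.sum_add_distrib, ew_sum, ew_sum, e2]
      simp

end

end Pool.Agent.H93.Nut
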