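import Pool.Agent.H93.Nut.Skel
import Pool.Agent.H93.Nut.ExpandTwo

/-!
Configurations: skeletons with complete joins, and their growth.
-/

set_option autoImplicit false
set_option linter.unusedSectionVars false
set_option linter.unusedVariables false

namespace Pool.Agent.H93.Nut

open Finset Pool.Agent.TH296.Nut

section

variable {P : Type} [Fintype P] [DecidableEq P]

/-- the joins avoid the signed graph and the switch -/
def Av (S : P → P → ℤ) (a b e d : P) (C : P → P → ℤ) : Prop :=
  ∀ i j, C i j = 1 → S i j = 0 ∧ ew a b i j = 0 ∧ ew e d i j = 0 ∧ ew a e i j = 0 ∧ ew b d i j = 0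

theorem ew_oo (a b i j : P) : ew (oo a) (oo b) (oo i) (oo j) = ew a b i j := by
  simp [ew]

theorem ew_new_left (a b : P) : (∀ j, ew (oo a) (oo b) op j = 0) ∧
    (∀ j, ew (oo a) (oo b) oq j = 0) ∧ (∀ j, ew (oo a) (oo b) or j = 0) := by
  refine ⟨?_, ?_, ?_⟩ <;> intro j <;> simp [ew]

theorem ew_new_right (a b : P) : (∀ j, ew (oo a) (oo b) j op = 0) ∧
    (∀ j, ew (oo a) (oo b) j oq = 0) ∧ (∀ j, ew (oo a) (oo b) j or = 0) := by
  refine ⟨?_, ?_, ?_⟩ <;> intro j <;> simp [ew]

theorem Av.grow {S : P → P → ℤ} {a b e d u v : P} {C' : O3 P → O3 P → ℤ}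
    (hS : ∀ i j, S i j = S j i) (huv : S u v = 1)
    (hs : ∀ i j, C' i j = C' j i) (h00 : Av S a b e d (fun i j => C' (oo i) (oo j)))
    (h1 : C' op (oo u) ≠ 1) (h2 : C' op oq ≠ 1) (h3 : C' oq or ≠ 1) (h4 : C' or (oo v) ≠ 1) :
    Av (tS S u v) (oo a) (oo b) (oo e) (oo d) C' := by
  have key : ∀ i j, C' i j = 1 → tS S u v i j = 0 := by
    refine ex3_all ?_ ?_ ?_ ?_
    · intro i
      refine ex3_all ?_ ?_ ?_ ?_
      · intro j h
        obtain ⟨k, -⟩ := h00 i j h
        simp only [tS]
        rw [k, ew_zero_of hS huv k, sub_zero]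
      · intro h
        simp only [tS]
        rw [if_neg]
        rintro rfl
        rw [hs] at h
        exact h1 h
      · intro h; rfl
      · intro h
        simp only [tS]
        rw [if_neg]
        rintro rfl
        rw [hs] at h
        exact h4 h
    · refine ex3_all ?_ ?_ ?_ ?_
      · intro i h
        simp only [tS]
        rw [if_neg]
        rintro rfl
        exact h1 h
      · intro h; rfl
      · intro h; exact absurd h h2
      · intro h; rfl
    · refine ex3_all ?_ ?_ ?_ ?_
      · intro i h; rfl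
      · intro h; rw [hs] at h; exact absurd h h2
      · intro h; rfl
      · intro h; exact absurd h h3
    · refine ex3_all ?_ ?_ ?_ ?_
      · intro i h
        simp only [tS]
        rw [if_neg]
        rintro rfl
        exact h4 h
      · intro h; rfl
      · intro h; rw [hs] at h; exact absurd h h3
      · intro h; rfl
  have key2 : ∀ s s' : P, (∀ i j, C' (oo i) (oo j) = 1 → ew s s' i j = 0) →
      ∀ i j, C' i j = 1 → ew (oo s) (oo s') i j = 0 := by
    intro s s' hh
    refine ex3_all ?_ ?_ ?_ ?_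
    · intro i
      refine ex3_all ?_ ?_ ?_ ?_
      · intro j h
        rw [ew_oo]; exact hh i j h
      · intro _; exact (ew_new_right s s').1 _
      · intro _; exact (ew_new_right s s').2.1 _
      · intro _; exact (ew_new_right s s').2.2 _
    · intro j _; exact (ew_new_left s s').1 _
    · intro j _; exact (ew_new_left s s').2.1 _
    · intro j _; exact (ew_new_left s s').2.2 _
  intro i j h
  exact ⟨key i j h, key2 a b (fun i j h => (h00 i j h).2.1) i j h,
    key2 e d (fun i j h => (h00 i j h).2.2.1) i j h, key2 a e (fun i j h => (h00 i j h).2.2.2.1) i j h,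
    key2 b d (fun i j h => (h00 i j h).2.2.2.2) i j h⟩

/-- a configuration -/
structure Cf (c : ℕ) (m : ℤ) (S : P → P → ℤ) (D t x : P → ℤ) (z γ : P → ZMod 2)
    (a b e d u v : P) (C : P → P → ℤ) : Prop where
  sk : Sk m S D t x z γ a b e d u v
  gw : GW C
  av : Av S a b e d C
  deg : ∀ i, ∑ j, C i j = c + 1 - t i - D i - mrk a b e d i

end

/-- there is a configuration of order `N` -/
def HasCf (c N : ℕ) : Prop :=
  ∃ (P : Type) (_ : Fintype P) (_ : DecidableEq P) (m : ℤ) (S : P → P → ℤ) (D t x : P → ℤ)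
    (z γ : P → ZMod 2) (a b e d u v : P) (C : P → P → ℤ),
    Cf c m S D t x z γ a b e d u v C ∧ Fintype.card P = N

section

variable {P : Type} [Fintype P] [DecidableEq P]

theorem Cf.min {c : ℕ} {m : ℤ} {S : P → P → ℤ} {D t x : P → ℤ} {z γ : P → ZMod 2}
    {a b e d u v : P} {C : P → P → ℤ} (h : Cf c m S D t x z γ a b e d u v C) (hc : 1 ≤ c) (i : P) :
    ((c - 1 : ℕ) : ℤ) ≤ ∑ j, C i j := by
  rw [h.deg i]
  have h1 := h.sk.tmk i
  have h2 := h.sk.dval i
  push_cast [hc]
  rcases h2 with h2 | h2 <;> rw [h2] <;> linarith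

theorem Cf.even {c : ℕ} {m : ℤ} {S : P → P → ℤ} {D t x : P → ℤ} {z γ : P → ZMod 2}
    {a b e d u v : P} {C : P → P → ℤ} (h : Cf c m S D t x z γ a b e d u v C) (hc : Even c)
    (hc6 : 6 ≤ c) (hN : c + 2 ≤ Fintype.card P) :
    HasCf c (Fintype.card P + 3) := by
  obtain ⟨k, rfl⟩ := hc
  obtain ⟨C2, g2, l2, pq2, ap2, aq2, d2, dp2, dq2⟩ := insert_two h.gw {u} ∅ (k + k) (k + k - 1)
    (h.min (by omega)) (by rw [card_singleton]; omega) (by rw [card_empty]; omega)
    (by rw [card_singleton]; omega) (by rw [card_empty]; omega)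
  have hmin : ∀ w, ((k + k - 1 : ℕ) : ℤ) ≤ ∑ j, C2 w j := by
    rintro (_ | _ | w)
    · rw [dq2]; push_cast; omega
    · rw [dp2]; push_cast; omega
    · rw [d2]; exact h.min (by omega) w
  let A : Finset (Option (Option P)) := {some (some v), none}
  have hA : A.card = 2 := by
    show ({some (some v), none} : Finset (Option (Option P))).card = 2
    rw [card_pair]; simp
  obtain ⟨C3, g3, l3, n3, d3, e3⟩ := insert_one g2 (W := Aᶜ) (m := k) (by
    rw [card_compl, hA, Fintype.card_option, Fintype.card_option]; omega) (by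
    intro w _
    have h1 := lower_sum g2 A w
    have h2 := hmin w
    rw [hA] at h1
    have h3 : ((k + k - 1 : ℕ) : ℤ) = (k : ℤ) + k - 1 := by omega
    rw [h3] at h2
    push_cast at h1
    omega)
  have up : ∀ i j, C3 (some i) (some j) = 1 → C2 i j = 1 := by
    intro i j hh
    have h1 := l3 i j
    rcases g2.zo i j with e1 | e1
    · omega
    · exact e1
  have up2 : ∀ i j, C2 (some (some i)) (some (some j)) = 1 → C i j = 1 := by
    intro i j hh
    have h1 := l2 i j
    rcases h.gw.zo i j with e1 | e1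
    · omega
    · exact e1
  refine ⟨O3 P, inferInstance, inferInstance, m, tS S u v, _, _, _, _, _, oo a, oo b, oo e, oo d,
    oo u, op, C3, ⟨h.sk.grow, g3, ?_, ?_⟩, ?_⟩
  · refine Av.grow h.sk.symm h.sk.uv g3.symm ?_ ?_ ?_ ?_ ?_
    · intro i j hh
      exact h.av i j (up2 _ _ (up _ _ hh))
    · intro hh
      exact ap2 u (up _ _ hh) (mem_singleton_self u)
    · intro hh
      have := up _ _ hh
      rw [pq2] at this
      exact zero_ne_one this
    · intro hh
      rw [g3.symm] at hh
      have := n3 _ hh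
      rw [mem_compl] at this
      exact this (by simp [A])
    · intro hh
      have := n3 _ hh
      rw [mem_compl] at this
      exact this (by simp [A])
  · refine ex3_all ?_ ?_ ?_ ?_
    · intro i
      rw [d3, d2, h.deg i]
      simp [ex3, mrk]
    · rw [d3, dp2]
      simp [ex3, mrk]
    · rw [d3, dq2]
      simp [ex3, mrk]
    · rw [e3]
      simp [ex3, mrk]
      ring
  · rw [Fintype.card_option, Fintype.card_option, Fintype.card_option]

theorem Cf.odd {c : ℕ} {m : ℤ} {S : P → P → ℤ} {D t x : P → ℤ} {z γ : P → ZMod 2}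
    {a b e d u v : P} {C : P → P → ℤ} (h : Cf c m S D t x z γ a b e d u v C)
    (hc7 : 7 ≤ c) (hN : c + 3 ≤ Fintype.card P) :
    HasCf c (Fintype.card P + 6) := by
  have hc1 : ((c - 1 : ℕ) : ℤ) = (c : ℤ) - 1 := by omega
  obtain ⟨C2, g2, l2, pq2, ap2, aq2, d2, dp2, dq2⟩ := insert_two h.gw {u} ∅ c (c - 1)
    (h.min (by omega)) (by rw [card_singleton]; omega) (by rw [card_empty]; omega)
    (by rw [card_singleton]; omega) (by rw [card_empty]; omega)
  have hmin2 : ∀ w, ((c - 1 : ℕ) : ℤ) ≤ ∑ j, C2 w j := by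
    rintro (_ | _ | w)
    · rw [dq2]; omega
    · rw [dp2]; omega
    · rw [d2]; exact h.min (by omega) w
  obtain ⟨C4, g4, l4, pq4, ap4, aq4, d4, dp4, dq4⟩ := insert_two g2 {some (some v), none}
    {some (some u)} c (c - 1) hmin2 (by rw [card_pair (by simp)]; omega)
    (by rw [card_singleton]; omega)
    (by rw [card_pair (by simp), Fintype.card_option, Fintype.card_option]; omega)
    (by rw [card_singleton, Fintype.card_option, Fintype.card_option]; omega)
  have hmin4 : ∀ w, ((c - 1 : ℕ) : ℤ) ≤ ∑ j, C4 w j := by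
    rintro (_ | _ | w)
    · rw [dq4]; omega
    · rw [dp4]; omega
    · rw [d4]; exact hmin2 w
  obtain ⟨C6, g6, l6, pq6, ap6, aq6, d6, dp6, dq6⟩ := insert_two g4 {none}
    {some (some (some none))} c (c - 1) hmin4 (by rw [card_singleton]; omega)
    (by rw [card_singleton]; omega)
    (by rw [card_singleton, Fintype.card_option, Fintype.card_option, Fintype.card_option,
          Fintype.card_option]; omega)
    (by rw [card_singleton, Fintype.card_option, Fintype.card_option, Fintype.card_option,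
          Fintype.card_option]; omega)
  have up6 : ∀ i j, C6 (some (some i)) (some (some j)) = 1 → C4 i j = 1 := by
    intro i j hh
    have h1 := l6 i j
    rcases g4.zo i j with e1 | e1
    · omega
    · exact e1
  have up4 : ∀ i j, C4 (some (some i)) (some (some j)) = 1 → C2 i j = 1 := by
    intro i j hh
    have h1 := l4 i j
    rcases g2.zo i j with e1 | e1
    · omega
    · exact e1
  have up2 : ∀ i j, C2 (some (some i)) (some (some j)) = 1 → C i j = 1 := by
    intro i j hh
    have h1 := l2 i j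
    rcases h.gw.zo i j with e1 | e1
    · omega
    · exact e1
  refine ⟨O3 (O3 P), inferInstance, inferInstance, m, tS (tS S u v) (oo u) op, _, _, _, _, _,
    oo (oo a), oo (oo b), oo (oo e), oo (oo d),
    oo (oo u), op, C6, ⟨h.sk.grow.grow, g6, ?_, ?_⟩, ?_⟩
  · refine Av.grow h.sk.grow.symm h.sk.grow.uv g6.symm ?_ ?_ ?_ ?_ ?_
    · refine Av.grow h.sk.symm h.sk.uv (fun i j => g6.symm _ _) ?_ ?_ ?_ ?_ ?_
      · intro i j hh
        exact h.av i j (up2 _ _ (up4 _ _ (up6 _ _ hh)))
      · intro hh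
        exact ap2 u (up4 _ _ (up6 _ _ hh)) (mem_singleton_self u)
      · intro hh
        have := up4 _ _ (up6 _ _ hh)
        rw [pq2] at this
        exact zero_ne_one this
      · intro hh
        have := up6 _ _ hh
        rw [g4.symm] at this
        exact ap4 _ this (by simp)
      · intro hh
        exact ap4 _ (up6 _ _ hh) (by simp)
    · intro hh
      exact aq4 _ (up6 _ _ hh) (by simp)
    · intro hh
      rw [g6.symm] at hh
      exact ap6 _ hh (by simp)
    · rw [pq6]; exact zero_ne_one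
    · intro hh
      exact aq6 _ hh (by simp)
  · refine ex3_all ?_ ?_ ?_ ?_
    · refine ex3_all ?_ ?_ ?_ ?_
      · intro i
        rw [d6, d4, d2, h.deg i]
        simp [ex3, mrk]
      · rw [d6, d4, dp2]
        simp [ex3, mrk]
      · rw [d6, d4, dq2]
        simp [ex3, mrk]
      · rw [d6, dp4]
        simp [ex3, mrk]
    · rw [d6, dq4]
      simp [ex3, mrk]
    · rw [dp6]
      simp [ex3, mrk]
    · rw [dq6]
      simp [ex3, mrk]
  · simp only [Fintype.card_option]

/-- configurations give nut graphs -/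
theorem Cf.good {c : ℕ} {m : ℤ} {S : P → P → ℤ} {D t x : P → ℤ} {z γ : P → ZMod 2}
    {a b e d u v : P} {C : P → P → ℤ} (h : Cf c m S D t x z γ a b e d u v C) :
    Good (2 * c + 3) (2 * Fintype.card P) := by
  have s := h.sk
  have hmr : ∀ i, mrk a b e d i = (if i = a then 1 else 0) + (if i = b then 1 else 0) +
      (if i = e then 1 else 0) + (if i = d then 1 else 0) := fun i => rfl
  have hc0 : ∀ {p q : P}, p ≠ q → (∀ i j, C i j = 1 → ew p q i j = 0) → C p q = 0 := by
    intro p q hpq hh
    rcases h.gw.zo p q with e1 | e1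
    · exact e1
    · have := hh p q e1
      simp [ew] at this
      omega
  have cab := hc0 s.ab (fun i j hh => (h.av i j hh).2.1)
  have ccd := hc0 s.cd (fun i j hh => (h.av i j hh).2.2.1)
  have cac := hc0 s.ac (fun i j hh => (h.av i j hh).2.2.2.1)
  have cbd := hc0 s.bd (fun i j hh => (h.av i j hh).2.2.2.2)
  have zne : ∀ {p q : P}, z p + z q = 1 → p ≠ q := by
    rintro p q hh rfl
    rw [zmod2_add_self] at hh
    exact zero_ne_one hh
  have hz : ∀ y : P → ZMod 2, (∀ i, ∑ j, (S i j : ZMod 2) * y j + D i * y i = 0) →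
      (∀ i, y i = 0) ∨ (∀ i, y i = z i) := by
    intro y hy
    apply s.zu
    intro i
    rw [zmod2_sub]
    exact hy i
  have hγ : ∀ i, ∑ j, (S i j : ZMod 2) * γ j + D i * γ i = 1 + D i := by
    intro i
    rw [← zmod2_sub]
    exact s.g i
  have h1 : ∀ i, ∑ j, (S i j : ZMod 2) + D i = 1 := by
    intro i
    have h2 := congrArg (fun n : ℤ => (n : ZMod 2)) (s.tdef i)
    push_cast at h2
    simp only [zmod2_sq] at h2
    rw [zmod2_two, zero_mul, zmod2_sub, zmod2_sub] at h2
    calc ∑ j, (S i j : ZMod 2) + D i = (∑ j, (S i j : ZMod 2) + D i + 1) + 1 := by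
          rw [add_assoc, add_assoc, zmod2_add_self, add_zero]
      _ = 1 := by rw [← h2, zero_add]
  have fin : ∀ C' : P → P → ℤ, GW C' → (∀ i j, C' i j = 1 → S i j = 0) →
      (∀ i, ∑ j, C' i j = ∑ j, C i j + mrk a b e d i) → Nonsing S C' D →
      Good (2 * c + 3) (2 * Fintype.card P) := by
    intro C' hg ha hd hn
    refine nut_pairs (S := S) (C := C') (D := D) ⟨s.val, s.symm, s.diag, s.dval, hg, ha, ?_⟩
      (fun i => (x i : ℝ)) (fun i => by exact_mod_cast s.nz i) ?_ ?_ hn
    · intro i
      rw [hd i, h.deg i]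
      have := s.tdef i
      push_cast
      linarith
    · intro i
      have := s.ker i
      have h2 : ∑ j, S i j * x j = D i * x i := by linarith
      exact_mod_cast h2
    · intro y hy
      apply s.uniq y
      intro i
      rw [hy i, sub_self]
  have g1 : GW (fun i j => C i j + ew a b i j + ew e d i j) := by
    apply GW.add (h.gw.add s.ab cab) s.cd
    rw [ccd, zero_add]
    unfold ew
    have n1 := zne s.za
    have n2 := zne s.zb
    have n3 := s.ac
    have n4 := s.bd
    split_ifs <;> simp_all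
  have g2 : GW (fun i j => C i j + ew a e i j + ew b d i j) := by
    apply GW.add (h.gw.add s.ac cac) s.bd
    rw [cbd, zero_add]
    unfold ew
    have n1 := zne s.za
    have n2 := zne s.zb
    have n3 := s.ab
    have n4 := s.cd
    split_ifs <;> simp_all
  rcases dichotomy s.symm s.diag h.gw z γ hz s.za s.zb hγ s.g' h1 s.ab s.cd s.ac s.bd with hn | hn
  · refine fin _ g1 ?_ ?_ hn
    · intro i j hh
      rcases h.gw.zo i j with e1 | e1
      · rcases ew_cases s.ab i j with e2 | ⟨e2, ⟨rfl, rfl⟩ | ⟨rfl, rfl⟩⟩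
        · rcases ew_cases s.cd i j with e3 | ⟨e3, ⟨rfl, rfl⟩ | ⟨rfl, rfl⟩⟩
          · rw [e1, e2, e3] at hh; norm_num at hh
          · exact s.ncd
          · rw [s.symm]; exact s.ncd
        · exact s.nab
        · rw [s.symm]; exact s.nab
      · exact (h.av i j e1).1
    · intro i
      rw [Finset.sum_add_distrib, Finset.sum_add_distrib, ew_sum, ew_sum, hmr]
      ring
  · refine fin _ g2 ?_ ?_ hn
    · intro i j hh
      rcases h.gw.zo i j with e1 | e1
      · rcases ew_cases s.ac i j with e2 | ⟨e2, ⟨rfl, rfl⟩ | ⟨rfl, rfl⟩⟩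
        · rcases ew_cases s.bd i j with e3 | ⟨e3, ⟨rfl, rfl⟩ | ⟨rfl, rfl⟩⟩
          · rw [e1, e2, e3] at hh; norm_num at hh
          · exact s.nbd
          · rw [s.symm]; exact s.nbd
        · exact s.nac
        · rw [s.symm]; exact s.nac
      · exact (h.av i j e1).1
    · intro i
      rw [Finset.sum_add_distrib, Finset.sum_add_distrib, ew_sum, ew_sum, hmr]
      ring

end

theorem HasCf.good {c N : ℕ} (h : HasCf c N) : Good (2 * c + 3) (2 * N) := by
  obtain ⟨P, _, _, m, S, D, t, x, z, γ, a, b, e, d, u, v, C, h, rfl⟩ := h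
  exact h.good

theorem HasCf.even {c N : ℕ} (h : HasCf c N) (hc : Even c) (hc6 : 6 ≤ c) (hN : c + 2 ≤ N) :
    HasCf c (N + 3) := by
  obtain ⟨P, _, _, m, S, D, t, x, z, γ, a, b, e, d, u, v, C, h, rfl⟩ := h
  exact h.even hc hc6 hN

theorem HasCf.odd {c N : ℕ} (h : HasCf c N) (hc7 : 7 ≤ c) (hN : c + 3 ≤ N) :
    HasCf c (N + 6) := by
  obtain ⟨P, _, _, m, S, D, t, x, z, γ, a, b, e, d, u, v, C, h, rfl⟩ := h
  exact h.odd hc7 hN

end Pool.Agent.H93.Nut
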