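import Pool.Agent.H93.Nut.ExpandTwo

/-!
Adding vertices when a few vertices have low degree.
-/

set_option autoImplicit false
set_option linter.unusedSectionVars false

namespace Pool.Agent.H93.Nut

open Finset

section

variable {V : Type} [DecidableEq V] [Fintype V]

theorem matching_low {C : V → V → ℤ} (hC : GW C) {W L : Finset V} {m : ℕ}
    (hW : 2 * m + L.card ≤ W.card) (hd : ∀ v ∈ W, v ∉ L → (m : ℤ) ≤ ∑ u ∈ W, C v u) :
    ∀ j : ℕ, j ≤ m → ∃ μ, Mt C W μ ∧ (univ.filter (fun v => μ v ≠ v)).card = 2 * j := by
  intro j
  induction j with
  | zero =>
    intro _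
    refine ⟨id, ⟨fun _ => rfl, fun v h => absurd rfl h, fun v h => absurd rfl h⟩, ?_⟩
    simp
  | succ j ih =>
    intro hj
    obtain ⟨μ, hμ, hc⟩ := ih (by omega)
    set U := univ.filter (fun v => μ v ≠ v) with hU
    have mU : ∀ v, v ∈ U ↔ μ v ≠ v := by
      intro v
      simp [hU]
    have hUW : U ⊆ W := fun v hv => hμ.mem v ((mU v).1 hv)
    have hcard : 2 ≤ ((W \ U) \ L).card := by
      have h1 := Finset.le_card_sdiff L (W \ U)
      rw [Finset.card_sdiff_of_subset hUW] at h1
      omega
    by_cases hadj : ∃ u ∈ W \ U, ∃ v ∈ W \ U, C u v = 1
    · obtain ⟨u, hu, v, hv, huv⟩ := hadj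
      rw [Finset.mem_sdiff, mU, not_not] at hu hv
      have huv' := hC.ne huv
      refine ⟨fun z => if z = u then v else if z = v then u else μ z, ⟨?_, ?_, ?_⟩, ?_⟩
      · intro z
        by_cases h1 : z = u
        · subst h1
          simp [huv'.symm]
        · by_cases h2 : z = v
          · subst h2
            simp [huv'.symm]
          · have h3 : μ z ≠ u := fun e => h1 (by rw [← hμ.inv z, e, hu.2])
            have h4 : μ z ≠ v := fun e => h2 (by rw [← hμ.inv z, e, hv.2])
            simp [h1, h2, h3, h4, hμ.inv z]
      · intro z hz
        by_cases h1 : z = u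
        · rw [h1]; exact hu.1
        · by_cases h2 : z = v
          · rw [h2]; exact hv.1
          · simp only [h1, h2, if_false] at hz
            exact hμ.mem z hz
      · intro z hz
        by_cases h1 : z = u
        · subst h1
          simp [huv]
        · by_cases h2 : z = v
          · subst h2
            simp only [h1, if_false, if_true]
            rw [hC.symm]
            exact huv
          · simp only [h1, h2, if_false] at hz ⊢
            exact hμ.adj z hz
      · have : univ.filter (fun z => (if z = u then v else if z = v then u else μ z) ≠ z)
            = insert u (insert v U) := by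
          ext z
          simp only [Finset.mem_filter, Finset.mem_univ, true_and, Finset.mem_insert, mU]
          by_cases h1 : z = u
          · subst h1
            simp [huv'.symm]
          · by_cases h2 : z = v
            · subst h2
              simp [huv', h1]
            · simp [h1, h2]
        rw [this, Finset.card_insert_of_notMem, Finset.card_insert_of_notMem, hc]
        · ring
        · rw [mU, not_not]; exact hv.2
        · rw [Finset.mem_insert, mU]
          push Not
          exact ⟨huv', hu.2⟩
    · push Not at hadj
      obtain ⟨u, hu', v, hv', huv⟩ := Finset.one_lt_card.1 (by omega : 1 < ((W \ U) \ L).card)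
      obtain ⟨hu, huL⟩ := Finset.mem_sdiff.1 hu'
      obtain ⟨hv, hvL⟩ := Finset.mem_sdiff.1 hv'
      have hnb : ∀ u ∈ W \ U, u ∉ L → (m : ℤ) ≤ ∑ x ∈ U, C u x := by
        intro u hu huL
        have h1 := hd u (Finset.mem_sdiff.1 hu).1 huL
        have h2 : ∑ x ∈ W, C u x = ∑ x ∈ U, C u x := by
          symm
          apply Finset.sum_subset hUW
          intro x hx hxU
          exact (hC.zo u x).resolve_right (hadj u hu x (Finset.mem_sdiff.2 ⟨hx, hxU⟩))
        rw [h2] at h1
        exact h1
      have k1 := hnb u hu huL
      have k2 := hnb v hv hvL
      have k3 : ∑ x ∈ U, C v (μ x) = ∑ x ∈ U, C v x := by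
        apply Finset.sum_bij' (fun x _ => μ x) (fun x _ => μ x)
        · intro x hx
          rw [mU] at hx ⊢
          rw [hμ.inv]
          exact hx.symm
        · intro x hx
          rw [mU] at hx ⊢
          rw [hμ.inv]
          exact hx.symm
        · intro x _
          exact hμ.inv x
        · intro x _
          exact hμ.inv x
        · intro x _
          rfl
      have k4 : ∑ x ∈ U, (1 : ℤ) < ∑ x ∈ U, (C u x + C v (μ x)) := by
        rw [Finset.sum_add_distrib, k3, Finset.sum_const, hc]
        simp only [nsmul_eq_mul, mul_one]
        push_cast
        have : (j : ℤ) + 1 ≤ m := by exact_mod_cast hj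
        linarith
      obtain ⟨x, hx, hlt⟩ := Finset.exists_lt_of_sum_lt k4
      have a1 := hC.le_one u x
      have a2 := hC.le_one v (μ x)
      have a3 : C u x = 1 := by linarith
      have a4 : C v (μ x) = 1 := by linarith
      rw [Finset.mem_sdiff, mU, not_not] at hu hv
      rw [mU] at hx
      have hxW := hμ.mem x hx
      have hy : μ (μ x) ≠ μ x := by rw [hμ.inv]; exact hx.symm
      have hyW := hμ.mem _ hy
      have n1 : u ≠ x := fun e => hx (by rw [← e]; exact hu.2)
      have n2 : v ≠ x := fun e => hx (by rw [← e]; exact hv.2)
      have n3 : u ≠ μ x := fun e => hy (by rw [← e]; exact hu.2)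
      have n4 : v ≠ μ x := fun e => hy (by rw [← e]; exact hv.2)
      have n5 : x ≠ μ x := hx.symm
      set y := μ x with hydef
      have hyx : μ y = x := hμ.inv x
      refine ⟨fun z => if z = u then x else if z = x then u else if z = v then y else
        if z = y then v else μ z, ⟨?_, ?_, ?_⟩, ?_⟩
      · intro z
        by_cases h1 : z = u
        · subst h1
          simp [n1.symm]
        · by_cases h2 : z = x
          · subst h2
            simp [n1.symm]
          · by_cases h3 : z = v
            · subst h3
              simp [h1, h2, n3.symm, n4.symm, n5.symm]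
            · by_cases h4 : z = y
              · simp [h4, n3.symm, n4.symm, n5.symm, huv.symm, n2]
              · have q1 : μ z ≠ u := fun e => h1 (by rw [← hμ.inv z, e, hu.2])
                have q2 : μ z ≠ x := fun e => h4 (by rw [← hμ.inv z, e])
                have q3 : μ z ≠ v := fun e => h3 (by rw [← hμ.inv z, e, hv.2])
                have q4 : μ z ≠ y := fun e => h2 (by rw [← hμ.inv z, e, hyx])
                simp [h1, h2, h3, h4, q1, q2, q3, q4, hμ.inv z]
      · intro z hz
        by_cases h1 : z = u
        · rw [h1]; exact hu.1
        · by_cases h2 : z = x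
          · rw [h2]; exact hxW
          · by_cases h3 : z = v
            · rw [h3]; exact hv.1
            · by_cases h4 : z = y
              · rw [h4]; exact hyW
              · simp only [h1, h2, h3, h4, if_false] at hz
                exact hμ.mem z hz
      · intro z hz
        by_cases h1 : z = u
        · subst h1
          simp [a3]
        · by_cases h2 : z = x
          · subst h2
            simp only [h1, if_false, if_true]
            rw [hC.symm]
            exact a3
          · by_cases h3 : z = v
            · subst h3
              simp only [h1, h2, if_false, if_true]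
              exact a4
            · by_cases h4 : z = y
              · rw [h4] at h1 h2 h3 ⊢
                simp only [h1, h2, h3, if_false, if_true]
                rw [hC.symm]
                exact a4
              · simp only [h1, h2, h3, h4, if_false] at hz ⊢
                exact hμ.adj z hz
      · have : univ.filter (fun z => (if z = u then x else if z = x then u else if z = v then y else
            if z = y then v else μ z) ≠ z) = insert u (insert v U) := by
          ext z
          simp only [Finset.mem_filter, Finset.mem_univ, true_and, Finset.mem_insert, mU]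
          by_cases h1 : z = u
          · subst h1
            simp [n1.symm]
          · by_cases h2 : z = x
            · subst h2
              have hx' : μ z ≠ z := hx
              simp [n1, h1, hx']
            · by_cases h3 : z = v
              · subst h3
                simp [h1, h2, n4.symm]
              · by_cases h4 : z = y
                · rw [h4]
                  simp [n3.symm, n5.symm, n4.symm, n4, hyx, n5]
                · simp [h1, h2, h3, h4]
        rw [this, Finset.card_insert_of_notMem, Finset.card_insert_of_notMem, hc]
        · ring
        · rw [mU, not_not]; exact hv.2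
        · rw [Finset.mem_insert, mU]
          push Not
          exact ⟨huv, hu.2⟩

/-- Insertion of one vertex of even degree. -/
theorem insert_one_low {C : V → V → ℤ} (hC : GW C) {W L : Finset V} {m : ℕ}
    (hW : 2 * m + L.card ≤ W.card) (hd : ∀ v ∈ W, v ∉ L → (m : ℤ) ≤ ∑ u ∈ W, C v u) :
    ∃ C' : Option V → Option V → ℤ, GW C' ∧ (∀ v w, C' (some v) (some w) ≤ C v w) ∧
      (∀ v, C' none (some v) = 1 → v ∈ W) ∧
      (∀ v, ∑ u, C' (some v) u = ∑ u, C v u) ∧ ∑ u, C' none u = 2 * m := by
  obtain ⟨μ, hμ, hc⟩ := matching_low hC hW hd m le_rfl
  have hs : ∀ v w, μ v = w ↔ μ w = v := by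
    intro v w
    constructor
    · rintro rfl; exact hμ.inv v
    · rintro rfl; exact hμ.inv w
  refine ⟨ins C μ, ⟨?_, ?_, ?_⟩, ?_, ?_, ?_, ?_⟩
  · rintro (_ | u) (_ | v)
    · exact Or.inl rfl
    · show (if μ v ≠ v then (1 : ℤ) else 0) = 0 ∨ (if μ v ≠ v then (1 : ℤ) else 0) = 1
      split_ifs <;> simp
    · show (if μ u ≠ u then (1 : ℤ) else 0) = 0 ∨ (if μ u ≠ u then (1 : ℤ) else 0) = 1
      split_ifs <;> simp
    · show C u v - (if μ u = v ∧ u ≠ v then 1 else 0) = 0 ∨
        C u v - (if μ u = v ∧ u ≠ v then 1 else 0) = 1
      split_ifs with h
      · left
        have := hμ.adj u (by rw [h.1]; exact h.2.symm)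
        rw [h.1] at this
        rw [this]; norm_num
      · rw [sub_zero]; exact hC.zo u v
  · rintro (_ | u) (_ | v)
    · rfl
    · rfl
    · rfl
    · show C u v - (if μ u = v ∧ u ≠ v then 1 else 0) = C v u - (if μ v = u ∧ v ≠ u then 1 else 0)
      rw [hC.symm u v]
      congr 1
      have : (μ u = v ∧ u ≠ v) ↔ (μ v = u ∧ v ≠ u) := by
        rw [hs u v, ne_comm]
      simp only [this]
  · rintro (_ | u)
    · rfl
    · show C u u - (if μ u = u ∧ u ≠ u then 1 else 0) = 0
      simp [hC.diag]
  · intro v w
    show C v w - (if μ v = w ∧ v ≠ w then 1 else 0) ≤ C v w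
    split_ifs <;> linarith
  · intro v hv
    have : (if μ v ≠ v then (1 : ℤ) else 0) = 1 := hv
    split_ifs at this with h
    · exact hμ.mem v h
    · exact absurd this zero_ne_one
  · intro v
    rw [Fintype.sum_option]
    show (if μ v ≠ v then (1 : ℤ) else 0) + ∑ u, (C v u - (if μ v = u ∧ v ≠ u then 1 else 0)) = _
    rw [Finset.sum_sub_distrib]
    have : ∑ u, (if μ v = u ∧ v ≠ u then (1 : ℤ) else 0) = if μ v ≠ v then 1 else 0 := by
      have e : ∀ u, (if μ v = u ∧ v ≠ u then (1 : ℤ) else 0)
          = if u = μ v then (if μ v ≠ v then 1 else 0) else 0 := by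
        intro u
        by_cases h : u = μ v
        · subst h
          by_cases h2 : μ v = v
          · simp [h2]
          · have h3 : v ≠ μ v := fun e => h2 e.symm
            simp [h2, h3]
        · have h3 : μ v ≠ u := fun e => h e.symm
          simp [h, h3]
      simp only [e]
      rw [Finset.sum_ite_eq' univ (μ v)]
      simp
    rw [this]
    ring
  · rw [Fintype.sum_option]
    show (0 : ℤ) + ∑ v, (if μ v ≠ v then (1 : ℤ) else 0) = _
    rw [Finset.sum_boole, hc]
    push_cast
    ring

/-- Insertion of two vertices of the same degree. -/
theorem insert_two_low {C : V → V → ℤ} (hC : GW C) (Ap Aq L : Finset V) (c δ : ℕ)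
    (hδ : ∀ v, v ∉ L → (δ : ℤ) ≤ ∑ u, C v u)
    (hp : c / 2 + Ap.card + c % 2 ≤ δ) (hq : c / 2 + Aq.card + 1 + c % 2 ≤ δ)
    (hcp : 2 * (c / 2) + L.card + Ap.card + c % 2 ≤ Fintype.card V)
    (hcq : 2 * (c / 2) + L.card + Aq.card + c % 2 ≤ Fintype.card V)
    (hcr : L.card + Ap.card < Fintype.card V) :
    ∃ C' : Option (Option V) → Option (Option V) → ℤ, GW C' ∧
      (∀ v w, C' (some (some v)) (some (some w)) ≤ C v w) ∧
      C' (some none) none = 0 ∧
      (∀ v, C' (some none) (some (some v)) = 1 → v ∉ Ap) ∧
      (∀ v, C' none (some (some v)) = 1 → v ∉ Aq) ∧
      (∀ v, ∑ u, C' (some (some v)) u = ∑ u, C v u) ∧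
      ∑ u, C' (some none) u = c ∧ ∑ u, C' none u = c := by
  rcases Nat.even_or_odd' c with ⟨m, rfl | rfl⟩
  · have hm : 2 * m / 2 = m := by omega
    have hm2 : 2 * m % 2 = 0 := by omega
    rw [hm, hm2] at hp hq hcp hcq
    obtain ⟨C1, g1, l1, n1, d1, e1⟩ := insert_one_low (m := m) hC (W := Apᶜ) (L := L)
      (by rw [Finset.card_compl]; omega)
      (by
        intro v _ hvL
        have h1 := lower_sum hC Ap v
        have h2 := hδ v hvL
        have h3 : ((m + Ap.card + 0 : ℕ) : ℤ) ≤ δ := by exact_mod_cast hp
        push_cast at h3
        linarith)
    set A' : Finset (Option V) := insert none (Aq.map Function.Embedding.some) with hA'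
    have cA : A'.card = Aq.card + 1 := by
      rw [hA', Finset.card_insert_of_notMem (by simp), Finset.card_map]
    obtain ⟨C2, g2, l2, n2, d2, e2⟩ := insert_one_low (m := m) g1 (W := A'ᶜ)
      (L := L.map Function.Embedding.some)
      (by rw [Finset.card_compl, cA, Fintype.card_option, Finset.card_map]; omega)
      (by
        intro v hv hvL
        have h1 := lower_sum g1 A' v
        rw [cA] at h1
        rcases v with _ | v
        · exfalso
          rw [Finset.mem_compl] at hv
          exact hv (by simp [hA'])
        · have hvL' : v ∉ L := fun h => hvL (by simp [h])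
          have h2 := hδ v hvL'
          have h3 : ((m + Aq.card + 1 + 0 : ℕ) : ℤ) ≤ δ := by exact_mod_cast hq
          rw [d1 v] at h1
          push_cast at h1 h3
          linarith)
    refine ⟨C2, g2, ?_, ?_, ?_, ?_, ?_, ?_, ?_⟩
    · intro v w
      exact (l2 _ _).trans (l1 _ _)
    · rw [g2.symm]
      refine (g2.zo _ _).resolve_right fun h => ?_
      have := n2 _ h
      rw [Finset.mem_compl] at this
      exact this (by simp [hA'])
    · intro v hv
      have h1 := l2 none (some v)
      have h2 : C1 none (some v) = 1 := by
        have := g1.le_one none (some v)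
        have h3 : C2 (some none) (some (some v)) = 1 := hv
        omega
      exact Finset.mem_compl.1 (n1 v h2)
    · intro v hv h
      have := n2 _ hv
      rw [Finset.mem_compl] at this
      exact this (by simp [hA', h])
    · intro v
      rw [d2, d1]
    · rw [d2, e1]
      push_cast
      ring
    · rw [e2]
      push_cast
      ring
  · have hm : (2 * m + 1) / 2 = m := by omega
    have hm2 : (2 * m + 1) % 2 = 1 := by omega
    rw [hm, hm2] at hp hq hcp hcq
    -- the shared edge
    obtain ⟨x, hxL, hx⟩ : ∃ x, x ∉ L ∧ x ∉ Ap := by
      by_contra hcon
      push Not at hcon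
      have : L ∪ Ap = univ := Finset.eq_univ_iff_forall.2 fun z => by
        rw [Finset.mem_union]
        by_cases h : z ∈ L
        · exact Or.inl h
        · exact Or.inr (hcon z h)
      have h2 := Finset.card_union_le L Ap
      rw [this, Finset.card_univ] at h2
      omega
    obtain ⟨y, hxy, hy⟩ : ∃ y, C x y = 1 ∧ y ∉ Aq := by
      by_contra hcon
      push Not at hcon
      have h1 := lower_sum hC Aq x
      have h2 : ∑ u ∈ Aqᶜ, C x u = 0 := by
        apply Finset.sum_eq_zero
        intro u hu
        refine (hC.zo x u).resolve_right fun h => ?_
        exact (Finset.mem_compl.1 hu) (hcon u h)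
      have h3 := hδ x hxL
      have h4 : ((m + Aq.card + 1 + 1 : ℕ) : ℤ) ≤ δ := by exact_mod_cast hq
      push_cast at h4
      rw [h2] at h1
      have : (0 : ℤ) ≤ m := by positivity
      linarith
    have hne := hC.ne hxy
    have g0 := hC.sub hxy
    set C0 : V → V → ℤ := fun u v => C u v - ew x y u v with hC0
    have s0 : ∀ v, ∑ u, C0 v u = ∑ u, C v u - ((if v = x then 1 else 0) +
        (if v = y then 1 else 0)) := by
      intro v
      rw [hC0]
      simp only
      rw [Finset.sum_sub_distrib, ew_sum]
    have l0 : ∀ u v, C0 u v ≤ C u v := by
      intro u v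
      have : 0 ≤ ew x y u v := by
        rcases ew_cases hne u v with e | ⟨e, _⟩ <;> rw [e]
        norm_num
      rw [hC0]
      simp only
      linarith
    obtain ⟨C1, g1, l1, n1, d1, e1⟩ := insert_one_low (m := m) g0 (W := (insert x Ap)ᶜ) (L := L)
      (by rw [Finset.card_compl, Finset.card_insert_of_notMem hx]; omega)
      (by
        intro v hv hvL
        have hvx : v ≠ x := by
          rintro rfl
          exact (Finset.mem_compl.1 hv) (Finset.mem_insert_self _ _)
        have h0 : ∑ u ∈ (insert x Ap)ᶜ, C0 v u = ∑ u ∈ (insert x Ap)ᶜ, C v u := by
          refine Finset.sum_congr rfl fun u hu => ?_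
          have hux : u ≠ x := by
            rintro rfl
            exact (Finset.mem_compl.1 hu) (Finset.mem_insert_self _ _)
          rw [hC0]
          simp only
          unfold ew
          simp [hvx, hux]
        have h1 := lower_sum hC (insert x Ap) v
        rw [Finset.card_insert_of_notMem hx] at h1
        have h2 := hδ v hvL
        have h3 : ((m + Ap.card + 1 : ℕ) : ℤ) ≤ δ := by exact_mod_cast hp
        push_cast at h1 h3
        show (m : ℤ) ≤ ∑ u ∈ (insert x Ap)ᶜ, C0 v u
        rw [h0]
        linarith)
    set A' : Finset (Option V) := insert none ((insert y Aq).map Function.Embedding.some) with hA'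
    have cA : A'.card = Aq.card + 2 := by
      rw [hA', Finset.card_insert_of_notMem (by simp), Finset.card_map,
        Finset.card_insert_of_notMem hy]
    obtain ⟨C2, g2, l2, n2, d2, e2⟩ := insert_one_low (m := m) g1 (W := A'ᶜ)
      (L := L.map Function.Embedding.some)
      (by rw [Finset.card_compl, cA, Fintype.card_option, Finset.card_map]; omega)
      (by
        intro v hv hvL
        rcases v with _ | v
        · exfalso
          rw [Finset.mem_compl] at hv
          exact hv (by simp [hA'])
        · have hvL' : v ∉ L := fun h => hvL (by simp [h])
          have hvy : v ≠ y := by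
            rintro rfl
            rw [Finset.mem_compl] at hv
            exact hv (by simp [hA'])
          have h2 := hδ v hvL'
          have h3 : ((m + Aq.card + 1 + 1 : ℕ) : ℤ) ≤ δ := by exact_mod_cast hq
          push_cast at h3
          have h4 := Finset.sum_compl_add_sum A' (fun u => C1 (some v) u)
          rw [d1 v] at h4
          have h5 : ∑ u, C0 v u = _ := s0 v
          rw [if_neg hvy, add_zero] at h5
          by_cases hvx : v = x
          · subst hvx
            rw [if_pos rfl] at h5
            have h6 : ∑ u ∈ A', C1 (some v) u ≤ Aq.card + 1 := by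
              have h7 : C1 (some v) (some y) = 0 := by
                have h8 := l1 v y
                have h9 : C0 v y = 0 := by
                  rw [hC0]
                  simp only
                  rw [hxy]
                  unfold ew
                  simp [hne]
                rw [h9] at h8
                exact le_antisymm h8 (g1.nonneg _ _)
              have h10 : A' = insert (some y) (insert none (Aq.map Function.Embedding.some)) := by
                rw [hA', Finset.map_insert, Finset.insert_comm]
                rfl
              have h11 : (some y : Option V) ∉ insert none (Aq.map Function.Embedding.some) := by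
                simp [hy]
              rw [h10, Finset.sum_insert h11, h7, zero_add]
              have h12 : ∑ u ∈ insert none (Aq.map Function.Embedding.some), C1 (some v) u
                  ≤ ∑ _u ∈ insert none (Aq.map Function.Embedding.some), (1 : ℤ) :=
                Finset.sum_le_sum fun u _ => g1.le_one _ _
              rw [Finset.sum_const, Finset.card_insert_of_notMem (by simp), Finset.card_map] at h12
              simpa using h12
            show (m : ℤ) ≤ ∑ u ∈ A'ᶜ, C1 (some v) u
            have h13 : ∑ u, C0 v u = ∑ u, C v u - 1 := h5
            have h14 : ∑ i ∈ A'ᶜ, C1 (some v) i + ∑ i ∈ A', C1 (some v) i = ∑ u, C0 v u := h4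
            linarith
          · rw [if_neg hvx] at h5
            have h6 : ∑ u ∈ A', C1 (some v) u ≤ Aq.card + 2 := by
              have h12 : ∑ u ∈ A', C1 (some v) u ≤ ∑ _u ∈ A', (1 : ℤ) :=
                Finset.sum_le_sum fun u _ => g1.le_one _ _
              rw [Finset.sum_const, cA] at h12
              simpa using h12
            show (m : ℤ) ≤ ∑ u ∈ A'ᶜ, C1 (some v) u
            have h13 : ∑ u, C0 v u = ∑ u, C v u - 0 := h5
            have h14 : ∑ i ∈ A'ᶜ, C1 (some v) i + ∑ i ∈ A', C1 (some v) i = ∑ u, C0 v u := h4
            linarith)
    have z1 : C2 (some none) (some (some x)) = 0 := by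
      have h1 := l2 none (some x)
      have h2 : C1 none (some x) = 0 := (g1.zo _ _).resolve_right fun h => by
        have := n1 x h
        rw [Finset.mem_compl] at this
        exact this (Finset.mem_insert_self _ _)
      rw [h2] at h1
      exact le_antisymm h1 (g2.nonneg _ _)
    have z2 : C2 none (some (some y)) = 0 := (g2.zo _ _).resolve_right fun h => by
      have := n2 _ h
      rw [Finset.mem_compl] at this
      exact this (by simp [hA'])
    have z3 : C2 none (some none) = 0 := (g2.zo _ _).resolve_right fun h => by
      have := n2 _ h
      rw [Finset.mem_compl] at this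
      exact this (by simp [hA'])
    have g3 := g2.add (a := some none) (b := some (some x)) (by simp) z1
    have g4 := g3.add (a := none) (b := some (some y)) (by simp) (by
      rw [z2]
      unfold ew
      simp)
    refine ⟨_, g4, ?_, ?_, ?_, ?_, ?_, ?_, ?_⟩
    · intro v w
      have h1 : ew (some none) (some (some x)) (some (some v)) (some (some w)) = 0 := by
        unfold ew
        simp
      have h2 : ew none (some (some y)) (some (some v)) (some (some w)) = 0 := by
        unfold ew
        simp
      show C2 _ _ + _ + _ ≤ _
      rw [h1, h2, add_zero, add_zero]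
      exact ((l2 _ _).trans (l1 _ _)).trans (l0 _ _)
    · have h1 : ew (some none) (some (some x)) (some none) none = 0 := by
        unfold ew
        simp
      have h2 : ew none (some (some y)) (some none) none = 0 := by
        unfold ew
        simp
      show C2 _ _ + _ + _ = _
      rw [h1, h2, g2.symm, z3]
      norm_num
    · intro v hv hvA
      have h2 : ew none (some (some y)) (some none) (some (some v)) = 0 := by
        unfold ew
        simp
      have h3 : C2 (some none) (some (some v)) + ew (some none) (some (some x)) (some none)
          (some (some v)) + ew none (some (some y)) (some none) (some (some v)) = 1 := hv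
      rw [h2, add_zero] at h3
      by_cases hvx : v = x
      · subst hvx; exact hx hvA
      · have h1 : ew (some none) (some (some x)) (some none) (some (some v)) = 0 := by
          unfold ew
          simp [hvx]
        rw [h1, add_zero] at h3
        have h4 := l2 none (some v)
        have h5 : C1 none (some v) = 1 := by
          have := g1.le_one none (some v)
          omega
        have := n1 v h5
        rw [Finset.mem_compl] at this
        exact this (Finset.mem_insert_of_mem hvA)
    · intro v hv hvA
      have h2 : ew (some none) (some (some x)) none (some (some v)) = 0 := by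
        unfold ew
        simp
      have h3 : C2 none (some (some v)) + ew (some none) (some (some x)) none
          (some (some v)) + ew none (some (some y)) none (some (some v)) = 1 := hv
      rw [h2, add_zero] at h3
      by_cases hvx : v = y
      · subst hvx; exact hy hvA
      · have h1 : ew none (some (some y)) none (some (some v)) = 0 := by
          unfold ew
          simp [hvx]
        rw [h1, add_zero] at h3
        have := n2 _ h3
        rw [Finset.mem_compl] at this
        exact this (by simp [hA', hvA])
    · intro v
      show ∑ u, (C2 (some (some v)) u + ew (some none) (some (some x)) (some (some v)) u +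
        ew none (some (some y)) (some (some v)) u) = _
      rw [Finset.sum_add_distrib, Finset.sum_add_distrib, ew_sum, ew_sum, d2, d1]
      show ∑ u, C0 v u + _ + _ = _
      rw [s0]
      simp only [Option.some.injEq, reduceCtorEq, if_false]
      ring
    · show ∑ u, (C2 (some none) u + ew (some none) (some (some x)) (some none) u +
        ew none (some (some y)) (some none) u) = _
      rw [Finset.sum_add_distrib, Finset.sum_add_distrib, ew_sum, ew_sum, d2, e1]
      simp
    · show ∑ u, (C2 none u + ew (some none) (some (some x)) none u +
        ew none (some (some y)) none u) = _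
      rw [Finset.sum_add_distrib, Finset.sum_add_distrib, ew_sum, ew_sum, e2]
      simp

end

end Pool.Agent.H93.Nut
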