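import Pool.Agent.H93.Nut.Seed
import Pool.Agent.H93.Nut.ExpandLow

/-!
Pairs with three more vertices: graphs of odd order.
-/

set_option autoImplicit false
set_option linter.unusedSectionVars false
set_option linter.unusedVariables false

namespace Pool.Agent.H93.Nut

open Finset Pool.Agent.TH296.Nut

section

variable {P : Type} [Fintype P] [DecidableEq P]

/-- joins to the core -/
def bb (e : P → ℤ) (y : Fin 3 → P) (i : P) (k : Fin 3) : ℤ := e i * (1 - if i = y k then 1 else 0)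

/-- the graph data -/
structure OG (ρ : ℕ) (S C G : P → P → ℤ) (D e : P → ℤ) (y : Fin 3 → P) : Prop where
  val : ∀ i j, S i j = 0 ∨ S i j = 1 ∨ S i j = -1
  symm : ∀ i j, S i j = S j i
  diag : ∀ i, S i i = 0
  dval : ∀ i, D i = 0 ∨ D i = 1
  gw : GW C
  gval : ∀ i j, G i j = 0 ∨ G i j = 1 ∨ G i j = -1
  gS : ∀ i j, G i j ≠ 0 → S i j = 0
  gG : ∀ i j, G i j ≠ 0 → G j i = 0
  av : ∀ i j, C i j = 1 → S i j = 0 ∧ G i j = 0
  grow : ∀ i, ∑ j, G i j = 0
  gcol : ∀ i j, G i j ≠ 0 → ∃ k, j = y k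
  inj : Function.Injective y
  ev : ∀ i, e i = 0 ∨ e i = 1
  ey : ∀ k, e (y k) = 1
  deg : ∀ i, 2 * ∑ j, C i j + ∑ j, (S i j) ^ 2 + D i + ∑ j, (G i j) ^ 2 + ∑ j, (G j i) ^ 2 +
    ∑ k, bb e y i k = ρ
  degc : ∀ k, 2 * ∑ i, bb e y i k = ρ

/-- twice the weights -/
def ow (S C G : P → P → ℤ) (D e : P → ℤ) (y : Fin 3 → P) :
    ((P × Bool) ⊕ Fin 3) → ((P × Bool) ⊕ Fin 3) → ℤ
  | Sum.inl p, Sum.inl q => 2 * C p.1 q.1 + (S p.1 q.1) ^ 2 + isg p.2 * isg q.2 * S p.1 q.1 +
      (if p.1 = q.1 then D p.1 * (1 - isg p.2 * isg q.2) else 0) +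
      ((G p.1 q.1) ^ 2 + isg p.2 * G p.1 q.1) + ((G q.1 p.1) ^ 2 + isg q.2 * G q.1 p.1)
  | Sum.inl p, Sum.inr k => 2 * bb e y p.1 k
  | Sum.inr k, Sum.inl p => 2 * bb e y p.1 k
  | Sum.inr _, Sum.inr _ => 0

theorem isg_cases (s : Bool) : isg s = 1 ∨ isg s = -1 := by
  cases s <;> simp [isg]

theorem isg_false : isg false = 1 := by simp [isg]

theorem isg_true : isg true = -1 := by simp [isg]

theorem sum_bool {A : Type} [AddCommMonoid A] (F : P × Bool → A) :
    ∑ z, F z = ∑ l, (F (l, false) + F (l, true)) := by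
  rw [Fintype.sum_prod_type]
  refine Finset.sum_congr rfl fun l _ => ?_
  rw [Fintype.sum_bool, add_comm]

section rows

variable {A : Type} [CommRing A] (S C G : P → P → ℤ) (D e : P → ℤ) (y : Fin 3 → P)
  (f : ((P × Bool) ⊕ Fin 3) → A)

theorem row_pair (i : P) (s : Bool) :
    ∑ v, (ow S C G D e y (Sum.inl (i, s)) v : A) * f v =
      ∑ j, ((2 * C i j + (S i j) ^ 2 + (G i j) ^ 2 + (G j i) ^ 2 : ℤ) : A) *
        (f (Sum.inl (j, false)) + f (Sum.inl (j, true))) +
      (D i : A) * (f (Sum.inl (i, false)) + f (Sum.inl (i, true))) +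
      ∑ j, (G j i : A) * (f (Sum.inl (j, false)) - f (Sum.inl (j, true))) +
      2 * ∑ k, (bb e y i k : A) * f (Sum.inr k) +
      (isg s : A) * (∑ j, (S i j : A) * (f (Sum.inl (j, false)) - f (Sum.inl (j, true))) -
        (D i : A) * (f (Sum.inl (i, false)) - f (Sum.inl (i, true))) +
        ∑ j, (G i j : A) * (f (Sum.inl (j, false)) + f (Sum.inl (j, true)))) := by
  rw [Fintype.sum_sum_type, sum_bool]
  have e1 : ∀ j, (ow S C G D e y (Sum.inl (i, s)) (Sum.inl (j, false)) : A) *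
      f (Sum.inl (j, false)) + (ow S C G D e y (Sum.inl (i, s)) (Sum.inl (j, true)) : A) *
      f (Sum.inl (j, true)) =
      ((2 * C i j + (S i j) ^ 2 + (G i j) ^ 2 + (G j i) ^ 2 : ℤ) : A) *
        (f (Sum.inl (j, false)) + f (Sum.inl (j, true))) +
      (if i = j then (D i : A) * (f (Sum.inl (i, false)) + f (Sum.inl (i, true))) -
        (isg s : A) * ((D i : A) * (f (Sum.inl (i, false)) - f (Sum.inl (i, true)))) else 0) +
      (G j i : A) * (f (Sum.inl (j, false)) - f (Sum.inl (j, true))) +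
      (isg s : A) * ((S i j : A) * (f (Sum.inl (j, false)) - f (Sum.inl (j, true)))) +
      (isg s : A) * ((G i j : A) * (f (Sum.inl (j, false)) + f (Sum.inl (j, true)))) := by
    intro j
    simp only [ow, isg_false, isg_true]
    by_cases h : i = j
    · subst h
      simp only [if_true]
      push_cast
      ring
    · simp only [if_neg h]
      push_cast
      ring
  have e2 : ∀ k, (ow S C G D e y (Sum.inl (i, s)) (Sum.inr k) : A) * f (Sum.inr k) =
      2 * ((bb e y i k : A) * f (Sum.inr k)) := by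
    intro k
    simp only [ow]
    push_cast
    ring
  simp only [e1, e2]
  rw [Finset.sum_add_distrib, Finset.sum_add_distrib, Finset.sum_add_distrib,
    Finset.sum_add_distrib, Finset.sum_ite_eq, if_pos (Finset.mem_univ i), ← Finset.mul_sum,
    ← Finset.mul_sum, ← Finset.mul_sum]
  ring

theorem row_core (k : Fin 3) :
    ∑ v, (ow S C G D e y (Sum.inr k) v : A) * f v =
      2 * ∑ i, (bb e y i k : A) * (f (Sum.inl (i, false)) + f (Sum.inl (i, true))) := by
  rw [Fintype.sum_sum_type, sum_bool]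
  simp only [ow, Int.cast_zero, zero_mul, Finset.sum_const_zero, add_zero]
  rw [Finset.mul_sum]
  refine Finset.sum_congr rfl fun i _ => ?_
  push_cast
  ring

end rows

end

end Pool.Agent.H93.Nut
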