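import Pool.Agent.H93.Nut.CoreSkel

/-!
Configurations for graphs of odd order.
-/

set_option autoImplicit false
set_option linter.unusedSectionVars false
set_option linter.unusedVariables false

namespace Pool.Agent.H93.Nut

open Finset Pool.Agent.TH296.Nut

section

variable {P : Type} [Fintype P] [DecidableEq P]

/-- a configuration -/
structure CfO (c δ : ℕ) (τ ν T : ℤ) (S G : P → P → ℤ) (D e h a : P → ℤ) (y : Fin 3 → P)
    (u v : P) (C : P → P → ℤ) (L : Finset P) : Prop where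
  so : SO τ ν T S G D e h a y u v
  gw : GW C
  av : ∀ i j, C i j = 1 → S i j = 0 ∧ G i j = 0
  deg : ∀ i, ∑ j, C i j = c + 1 - h i
  cnu : (Fintype.card P : ℤ) = c + 2 + ν
  low : ∀ i, i ∉ L → (δ : ℤ) ≤ c + 1 - h i

end

/-- there is a configuration of order `N` -/
def HasCfO (c δ ℓ N : ℕ) : Prop :=
  ∃ (P : Type) (_ : Fintype P) (_ : DecidableEq P) (τ ν T : ℤ) (S G : P → P → ℤ)
    (D e h a : P → ℤ) (y : Fin 3 → P) (u v : P) (C : P → P → ℤ) (L : Finset P),
    CfO c δ τ ν T S G D e h a y u v C L ∧ Fintype.card P = N ∧ L.card = ℓ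

section

variable {P : Type} [Fintype P] [DecidableEq P]

theorem CfO.grow {c δ : ℕ} {τ ν T : ℤ} {S G : P → P → ℤ} {D e h a : P → ℤ} {y : Fin 3 → P}
    {u v : P} {C : P → P → ℤ} {L : Finset P} (q : CfO c δ τ ν T S G D e h a y u v C L)
    (h1 : c / 2 + 2 + c % 2 ≤ δ) (h2 : 2 * (c / 2) + L.card + 1 + c % 2 ≤ Fintype.card P)
    (h3 : L.card + 1 < Fintype.card P) (h4 : δ ≤ c) :
    HasCfO c δ L.card (Fintype.card P + 2) := by
  obtain ⟨C2, g2, l2, pq2, ap2, aq2, d2, dp2, dq2⟩ := insert_two_low q.gw {u} {v} L c δ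
    (fun i hi => by rw [q.deg]; exact q.low i hi) (by rw [card_singleton]; omega)
    (by rw [card_singleton]; omega) (by rw [card_singleton]; omega)
    (by rw [card_singleton]; omega) (by rw [card_singleton]; omega)
  have hsv := q.so.symm
  have huv := q.so.uv
  have up : ∀ i j, C2 (some (some i)) (some (some j)) = 1 → C i j = 1 := by
    intro i j hh
    have h1 := l2 i j
    rcases q.gw.zo i j with e1 | e1
    · omega
    · exact e1
  have key : ∀ i j, C2 i j = 1 → tB S u v i j = 0 := by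
    refine ex2_all ?_ ?_ ?_
    · intro i
      refine ex2_all ?_ ?_ ?_
      · intro j hh
        have h1 := (q.av i j (up i j hh)).1
        simp only [tB]
        rw [h1, ew_zero_of hsv huv h1, sub_zero]
      · intro hh
        simp only [tB]
        rw [if_neg]
        rintro rfl
        rw [g2.symm] at hh
        exact ap2 _ hh (mem_singleton_self _)
      · intro hh
        simp only [tB]
        rw [if_neg]
        rintro rfl
        rw [g2.symm] at hh
        exact aq2 _ hh (mem_singleton_self _)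
    · refine ex2_all ?_ ?_ ?_
      · intro j hh
        simp only [tB]
        rw [if_neg]
        rintro rfl
        exact ap2 _ hh (mem_singleton_self _)
      · intro _; rfl
      · intro hh; rw [pq2] at hh; exact absurd hh zero_ne_one
    · refine ex2_all ?_ ?_ ?_
      · intro j hh
        simp only [tB]
        rw [if_neg]
        rintro rfl
        exact aq2 _ hh (mem_singleton_self _)
      · intro hh; rw [g2.symm, pq2] at hh; exact absurd hh zero_ne_one
      · intro _; rfl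
  have hinj : Function.Injective (wo : P → O2 P) := by
    intro i j hij
    simpa using hij
  refine ⟨O2 P, inferInstance, inferInstance, τ + 4, ν + 2, T, tB S u v, z2 G, _, _, _, _, _,
    wo u, w1, C2, L.map ⟨wo, hinj⟩, ⟨q.so.growB, g2, ?_, ?_, ?_, ?_⟩, ?_, ?_⟩
  · intro i j hh
    refine ⟨key i j hh, ?_⟩
    by_contra hne
    obtain ⟨i', j', rfl, rfl, h5⟩ := z2_ne hne
    exact h5 (q.av i' j' (up i' j' hh)).2
  · refine ex2_all ?_ ?_ ?_
    · intro i
      rw [d2, q.deg]; rfl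
    · rw [dp2]; simp [ex2]
    · rw [dq2]; simp [ex2]
  · rw [Fintype.card_option, Fintype.card_option]
    have := q.cnu
    push_cast
    linarith
  · have h4' : (δ : ℤ) ≤ c := by exact_mod_cast h4
    refine ex2_all ?_ ?_ ?_
    · intro i hi
      apply q.low i
      intro hL
      exact hi (Finset.mem_map.2 ⟨i, hL, rfl⟩)
    · intro _
      simp only [ex2]
      linarith
    · intro _
      simp only [ex2]
      linarith
  · rw [Fintype.card_option, Fintype.card_option]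
  · rw [Finset.card_map]

theorem CfO.good {c δ : ℕ} {τ ν T : ℤ} {S G : P → P → ℤ} {D e h a : P → ℤ} {y : Fin 3 → P}
    {u v : P} {C : P → P → ℤ} {L : Finset P} (q : CfO c δ τ ν T S G D e h a y u v C L) :
    Good (2 * c + 2) (2 * Fintype.card P + 3) := by
  have s := q.so
  obtain ⟨u0, hu0⟩ := s.odd
  refine nut_odd (S := S) (C := C) (G := G) (D := D) (e := e) (y := y)
    ⟨s.val, s.symm, s.diag, s.dval, q.gw, s.gval, s.gS, s.gG, q.av, s.grow, s.gcol, s.inj, s.ev,
      s.ey, ?_, ?_⟩ (by omega) a s.nz s.ker s.hw hu0 ?_ ?_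
  · intro i
    rw [q.deg]
    have := s.hdef i
    push_cast
    linarith
  · intro k
    rw [s.nu k, q.cnu]
    push_cast
    ring
  · intro z hz
    apply s.M z
    intro i
    have h1 := hz i
    simp only [add_mul, Finset.sum_add_distrib] at h1
    rw [← sub_eq_zero, sub_neg_eq_add, ← h1]
    ring
  · intro x h1 h2 h3
    apply s.K x h1 _ h3
    rw [← h2]
    refine Finset.sum_congr rfl fun k _ => ?_
    simp only [add_mul, Finset.sum_add_distrib]
    ring

theorem SO.base {τ ν T : ℤ} {S G : P → P → ℤ} {D e h a : P → ℤ} {y : Fin 3 → P} {u v : P}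
    (s : SO τ ν T S G D e h a y u v) (c r : ℕ) (hc : 3 ≤ c) (hr : 1 ≤ r) (hν : ν = r - 1)
    (hN : Fintype.card P = r + 1 + c) (hT : T ≤ r) (hm : τ < r * (c - 3 - r))
    (hev : Even ((r : ℤ) * (Fintype.card P) - τ)) : HasCfO c (c - 3) 0 (Fintype.card P) := by
  let F : P → P → ℤ := fun i j => (S i j) ^ 2 + (G i j) ^ 2 + (G j i) ^ 2
  have gdiag : ∀ i, G i i = 0 := by
    intro i
    by_contra hne
    exact hne (s.gG i i hne)
  have sqz : ∀ {b : ℤ}, b = 0 ∨ b = 1 ∨ b = -1 → b ^ 2 = 0 ∨ b ^ 2 = 1 := by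
    intro b hb
    rcases hb with h | h | h <;> rw [h] <;> norm_num
  have g0 : GW F := by
    refine ⟨?_, ?_, ?_⟩
    · intro i j
      show (S i j) ^ 2 + (G i j) ^ 2 + (G j i) ^ 2 = 0 ∨ (S i j) ^ 2 + (G i j) ^ 2 + (G j i) ^ 2 = 1
      by_cases g1 : G i j = 0
      · by_cases g2 : G j i = 0
        · rw [g1, g2]
          simpa using sqz (s.val i j)
        · have s0 : S i j = 0 := by rw [s.symm]; exact s.gS j i g2
          rw [g1, s0]
          simpa using sqz (s.gval j i)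
      · rw [s.gS i j g1, s.gG i j g1]
        simpa using sqz (s.gval i j)
    · intro i j
      show (S i j) ^ 2 + (G i j) ^ 2 + (G j i) ^ 2 = (S j i) ^ 2 + (G j i) ^ 2 + (G i j) ^ 2
      rw [s.symm i j]; ring
    · intro i
      show (S i i) ^ 2 + (G i i) ^ 2 + (G i i) ^ 2 = 0
      rw [s.diag, gdiag]; norm_num
  have sF : ∀ i, ∑ j, F i j = ∑ j, (S i j) ^ 2 + ∑ j, (G i j) ^ 2 + ∑ j, (G j i) ^ 2 := by
    intro i
    simp only [F, Finset.sum_add_distrib]
  let f : P → ℤ := fun i => r - (∑ j, (S i j) ^ 2 + ∑ j, (G i j) ^ 2 + ∑ j, (G j i) ^ 2 - h i + 1)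
  have sf : ∑ i, f i = r * (Fintype.card P) - τ := by
    show ∑ i, ((r : ℤ) - (∑ j, (S i j) ^ 2 + ∑ j, (G i j) ^ 2 + ∑ j, (G j i) ^ 2 - h i + 1)) = _
    rw [Finset.sum_sub_distrib, s.tsum, Finset.sum_const, Finset.card_univ, nsmul_eq_mul]
    ring
  have hr' : (1 : ℤ) ≤ r := by exact_mod_cast hr
  obtain ⟨w, gw, aw, dw⟩ := exists_factor (F := F) (f := f) (A := r + 3)
    (B := r * (r + 2)) g0
    (by
      intro i
      have h1 := s.tT i
      show 0 ≤ (r : ℤ) - (∑ j, (S i j) ^ 2 + ∑ j, (G i j) ^ 2 + ∑ j, (G j i) ^ 2 - h i + 1)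
      linarith)
    (by rw [sf]; exact hev)
    (by
      intro i _
      rw [sF]
      have h1 := s.hmax i
      show (r : ℤ) - (∑ j, (S i j) ^ 2 + ∑ j, (G i j) ^ 2 + ∑ j, (G j i) ^ 2 - h i + 1) + _ ≤ _
      push_cast
      linarith)
    (by
      intro X hX
      have h1 : ∑ i ∈ X, f i ≤ ∑ _i ∈ X, (r : ℤ) := by
        refine Finset.sum_le_sum fun i _ => ?_
        have h2 := s.t0 i
        show (r : ℤ) - (∑ j, (S i j) ^ 2 + ∑ j, (G i j) ^ 2 + ∑ j, (G j i) ^ 2 - h i + 1) ≤ r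
        linarith
      rw [Finset.sum_const, nsmul_eq_mul] at h1
      have h2 : ((X.card : ℕ) : ℤ) ≤ r + 2 := by exact_mod_cast (by omega : X.card ≤ r + 2)
      nlinarith)
    (by
      rw [sf, hN]
      push_cast
      nlinarith)
  let C : P → P → ℤ := fun i j => 1 - (if i = j then 1 else 0) - F i j - w i j
  have gC : GW C := by
    refine ⟨?_, ?_, ?_⟩
    · intro i j
      show 1 - (if i = j then 1 else 0) - F i j - w i j = 0 ∨
        1 - (if i = j then 1 else 0) - F i j - w i j = 1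
      by_cases h : i = j
      · subst h
        rw [if_pos rfl, g0.diag, gw.diag]
        left; norm_num
      · rw [if_neg h]
        rcases gw.zo i j with e1 | e1
        · rcases g0.zo i j with e2 | e2 <;> rw [e1, e2] <;> norm_num
        · rw [e1, aw i j e1]; norm_num
    · intro i j
      show 1 - (if i = j then 1 else 0) - F i j - w i j =
        1 - (if j = i then 1 else 0) - F j i - w j i
      rw [g0.symm i j, gw.symm i j]
      by_cases h : i = j
      · rw [if_pos h, if_pos h.symm]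
      · rw [if_neg h, if_neg (Ne.symm h)]
    · intro i
      show 1 - (if i = i then 1 else 0) - F i i - w i i = 0
      rw [if_pos rfl, g0.diag, gw.diag]; norm_num
  refine ⟨P, inferInstance, inferInstance, τ, ν, T, S, G, D, e, h, a, y, u, v, C, ∅,
    ⟨s, gC, ?_, ?_, ?_, ?_⟩, rfl, rfl⟩
  · intro i j hh
    have hij := gC.ne hh
    have h' : 1 - (if i = j then 1 else 0) - F i j - w i j = 1 := hh
    rw [if_neg hij] at h'
    have h1 := gw.nonneg i j
    have h2 := g0.nonneg i j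
    have h3 : (S i j) ^ 2 + (G i j) ^ 2 + (G j i) ^ 2 = 0 := by
      show F i j = 0
      linarith
    have k0 : 0 ≤ (S i j) ^ 2 := sq_nonneg _
    have k1 : 0 ≤ (G i j) ^ 2 := sq_nonneg _
    have k2 : 0 ≤ (G j i) ^ 2 := sq_nonneg _
    have k3 : (S i j) ^ 2 = 0 := by linarith
    have k4 : (G i j) ^ 2 = 0 := by linarith
    exact ⟨pow_eq_zero_iff (two_ne_zero) |>.1 k3, pow_eq_zero_iff (two_ne_zero) |>.1 k4⟩
  · intro i
    show ∑ j, (1 - (if i = j then 1 else 0) - F i j - w i j) = _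
    rw [Finset.sum_sub_distrib, Finset.sum_sub_distrib, Finset.sum_sub_distrib, dw, sF,
      Finset.sum_const, Finset.card_univ, nsmul_eq_mul, Finset.sum_ite_eq,
      if_pos (Finset.mem_univ i), hN]
    show _ - ((r : ℤ) - (∑ j, (S i j) ^ 2 + ∑ j, (G i j) ^ 2 + ∑ j, (G j i) ^ 2 - h i + 1)) = _
    push_cast
    linarith
  · rw [hN, hν]
    push_cast
    ring
  · intro i _
    have h1 := s.hmax i
    have h2 : ((c - 3 : ℕ) : ℤ) = c - 3 := by omega
    rw [h2]
    linarith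

end

theorem HasCfO.good {c δ ℓ N : ℕ} (h : HasCfO c δ ℓ N) : Good (2 * c + 2) (2 * N + 3) := by
  obtain ⟨P, _, _, τ, ν, T, S, G, D, e, h, a, y, u, v, C, L, q, rfl, -⟩ := h
  exact q.good

theorem HasCfO.grow {c δ ℓ N : ℕ} (h : HasCfO c δ ℓ N) (h1 : c / 2 + 2 + c % 2 ≤ δ)
    (h2 : 2 * (c / 2) + ℓ + 1 + c % 2 ≤ N) (h3 : ℓ + 1 < N) (h4 : δ ≤ c) :
    HasCfO c δ ℓ (N + 2) := by
  obtain ⟨P, _, _, τ, ν, T, S, G, D, e, h, a, y, u, v, C, L, q, rfl, rfl⟩ := h
  exact q.grow h1 h2 h3 h4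

theorem HasCfO.grows {c δ ℓ N : ℕ} (h : HasCfO c δ ℓ N) (h1 : c / 2 + 2 + c % 2 ≤ δ)
    (h2 : 2 * (c / 2) + ℓ + 1 + c % 2 ≤ N) (h3 : ℓ + 1 < N) (h4 : δ ≤ c) (k : ℕ) :
    HasCfO c δ ℓ (N + 2 * k) := by
  induction k with
  | zero => exact h
  | succ k ih => exact ih.grow h1 (by omega) (by omega) h4

/-- there is a skeleton of order `N` -/
def HasSO (τ ν T : ℤ) (N : ℕ) : Prop :=
  ∃ (P : Type) (_ : Fintype P) (_ : DecidableEq P) (S G : P → P → ℤ)
    (D e h a : P → ℤ) (y : Fin 3 → P) (u v : P), SO τ ν T S G D e h a y u v ∧ Fintype.card P = N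

theorem HasSO.growA {τ ν T : ℤ} {N : ℕ} (h : HasSO τ ν T N) : HasSO τ ν T (N + 3) := by
  obtain ⟨P, _, _, S, G, D, e, h, a, y, u, v, s, rfl⟩ := h
  exact ⟨O3 P, inferInstance, inferInstance, _, _, _, _, _, _, _, _, _, s.growA, by
    rw [Fintype.card_option, Fintype.card_option, Fintype.card_option]⟩

theorem HasSO.growsA {τ ν T : ℤ} {N : ℕ} (h : HasSO τ ν T N) (k : ℕ) :
    HasSO τ ν T (N + 3 * k) := by
  induction k with
  | zero => exact h
  | succ k ih => exact ih.growA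

theorem HasSO.growB {τ ν T : ℤ} {N : ℕ} (h : HasSO τ ν T N) : HasSO (τ + 4) (ν + 2) T (N + 2) := by
  obtain ⟨P, _, _, S, G, D, e, h, a, y, u, v, s, rfl⟩ := h
  exact ⟨O2 P, inferInstance, inferInstance, _, _, _, _, _, _, _, _, _, s.growB, by
    rw [Fintype.card_option, Fintype.card_option]⟩

theorem HasSO.base {τ ν T : ℤ} {N : ℕ} (h : HasSO τ ν T N) (c r : ℕ) (hc : 3 ≤ c) (hr : 1 ≤ r)
    (hν : ν = r - 1) (hN : N = r + 1 + c) (hT : T ≤ r) (hm : τ < r * (c - 3 - r))
    (hev : Even ((r : ℤ) * N - τ)) : HasCfO c (c - 3) 0 N := by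
  obtain ⟨P, _, _, S, G, D, e, h, a, y, u, v, s, rfl⟩ := h
  exact s.base c r hc hr hν hN hT hm hev

section

variable {n : ℕ}

/-- conditions on integer data -/
def okO (τ ν T : ℤ) (S G : Fin n → Fin n → ℤ) (D e h a : Fin n → ℤ) (y : Fin 3 → Fin n)
    (u v : Fin n) (u0 : Fin n) (LM : Fin n → Fin n → ℤ) (LK : Fin n → Fin (n + 2) → ℤ) : Prop :=
  (∀ i j, S i j = 0 ∨ S i j = 1 ∨ S i j = -1) ∧ (∀ i j, S i j = S j i) ∧ (∀ i, S i i = 0) ∧
  (∀ i, D i = 0 ∨ D i = 1) ∧ (∀ i j, G i j = 0 ∨ G i j = 1 ∨ G i j = -1) ∧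
  (∀ i j, G i j ≠ 0 → S i j = 0) ∧ (∀ i j, G i j ≠ 0 → G j i = 0) ∧ (∀ i, ∑ j, G i j = 0) ∧
  (∀ i j, G i j ≠ 0 → ∃ k, j = y k) ∧ (∀ k l, y k = y l → k = l) ∧ (∀ i, e i = 0 ∨ e i = 1) ∧
  (∀ k, e (y k) = 1) ∧
  (∀ i, 2 * h i = ∑ j, (S i j) ^ 2 + D i + ∑ j, (G i j) ^ 2 + ∑ j, (G j i) ^ 2 +
    ∑ k, bb e y i k) ∧ (∀ i, 1 ≤ h i) ∧ (∀ i, h i ≤ 4) ∧
  (∀ i, 0 ≤ ∑ j, (S i j) ^ 2 + ∑ j, (G i j) ^ 2 + ∑ j, (G j i) ^ 2 - h i + 1) ∧
  (∀ i, ∑ j, (S i j) ^ 2 + ∑ j, (G i j) ^ 2 + ∑ j, (G j i) ^ 2 - h i + 1 ≤ T) ∧ 2 ≤ T ∧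
  (∑ i, (∑ j, (S i j) ^ 2 + ∑ j, (G i j) ^ 2 + ∑ j, (G j i) ^ 2 - h i + 1) = τ) ∧
  (∀ k, ∑ i, bb e y i k = n - 1 - ν) ∧ (∀ i, a i ≠ 0) ∧
  (∀ i, ∑ j, S i j * a j - D i * a i = 0) ∧ (∀ k, ∑ l, G l (y k) * a l ≠ 0) ∧
  ((a u0 - 1) % 2 = 0) ∧
  (∀ i j, (∑ k, LM i k * (S k j + G k j - if k = j then D j else 0) -
    (if i = j then 1 else 0)) % 2 = 0) ∧
  (∀ i k, (∃ l, k = y l) → LK i (Fin.castAdd 2 k) = 0) ∧
  (∀ i j, (∑ k, LK i (Fin.castAdd 2 k) * (S k j - if k = j then D j else 0) +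
    LK i (Fin.natAdd n 0) * (∑ k, (S (y k) j - (if y k = j then D j else 0) + G j (y k))) +
    LK i (Fin.natAdd n 1) * D j - ((if i = j then 1 else 0) - (if j = u0 then a i else 0))) % 2 = 0)
    ∧ S u v = 1 ∧ a u ≠ a v

instance (τ ν T : ℤ) (S G : Fin n → Fin n → ℤ) (D e h a : Fin n → ℤ) (y : Fin 3 → Fin n)
    (u v : Fin n) (u0 : Fin n) (LM : Fin n → Fin n → ℤ) (LK : Fin n → Fin (n + 2) → ℤ) :
    Decidable (okO τ ν T S G D e h a y u v u0 LM LK) := by
  unfold okO
  infer_instance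

theorem SO.of_ok {τ ν T : ℤ} {S G : Fin n → Fin n → ℤ} {D e h a : Fin n → ℤ} {y : Fin 3 → Fin n}
    {u v : Fin n} {u0 : Fin n} {LM : Fin n → Fin n → ℤ} {LK : Fin n → Fin (n + 2) → ℤ}
    (k : okO τ ν T S G D e h a y u v u0 LM LK) : SO τ ν T S G D e h a y u v := by
  obtain ⟨c1, c2, c3, c4, c5, c6, c7, c8, c9, c10, c11, c12, c13, c14, c15, c16, c17, c18, c19,
    c20, c21, c22, c23, c24, c25, c26, c27, c28, c29⟩ := k
  refine ⟨c1, c2, c3, c4, c5, c6, c7, c8, c9, fun k l => c10 k l, c11, c12, c13, c14, c15, c16, c17,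
    c18, c19, ?_, c21, c22, c23, ⟨u0, ?_⟩, ?_, ?_, c28, c29⟩
  · intro k
    rw [c20 k, Fintype.card_fin]
  · have := to_two c24
    push_cast at this
    exact this
  · intro z hz i
    have e1 : ∀ k, ∑ j, ((S k j + G k j - if k = j then D j else 0 : ℤ) : ZMod 2) * z j = 0 := by
      intro k
      have h1 := hz k
      have h2 : ∀ j, ((S k j + G k j - if k = j then D j else 0 : ℤ) : ZMod 2) * z j =
          (S k j : ZMod 2) * z j + (G k j : ZMod 2) * z j -
          (if k = j then (D k : ZMod 2) * z k else 0) := by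
        intro j
        by_cases e : k = j
        · rw [if_pos e, if_pos e, e]; push_cast; ring
        · rw [if_neg e, if_neg e]; push_cast; ring
      simp only [h2, Finset.sum_sub_distrib, Finset.sum_add_distrib]
      rw [Finset.sum_ite_eq, if_pos (Finset.mem_univ k)]
      linear_combination h1
    have e2 : ∑ j, (∑ k, (LM i k : ZMod 2) *
        ((S k j + G k j - if k = j then D j else 0 : ℤ) : ZMod 2)) * z j = 0 := by
      simp only [Finset.sum_mul]
      rw [Finset.sum_comm]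
      apply Finset.sum_eq_zero
      intro k _
      simp only [mul_assoc]
      rw [← Finset.mul_sum, e1, mul_zero]
    have e3 : ∀ j, ∑ k, (LM i k : ZMod 2) *
        ((S k j + G k j - if k = j then D j else 0 : ℤ) : ZMod 2) = if i = j then 1 else 0 := by
      intro j
      have := to_two (c25 i j)
      push_cast at this ⊢
      exact this
    simp only [e3, ite_mul, one_mul, zero_mul] at e2
    rw [Finset.sum_ite_eq, if_pos (Finset.mem_univ i)] at e2
    exact e2
  · intro x hK1 hK2 hK3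
    have key : ∀ i, x i = a i * x u0 := by
      intro i
      have e3 : ∀ j, ∑ k, (LK i (Fin.castAdd 2 k) : ZMod 2) * ((S k j : ZMod 2) -
          (if k = j then (D j : ZMod 2) else 0)) +
          (LK i (Fin.natAdd n 0) : ZMod 2) * (∑ k, ((S (y k) j : ZMod 2) -
          (if y k = j then (D j : ZMod 2) else 0) + G j (y k))) +
          (LK i (Fin.natAdd n 1) : ZMod 2) * D j = (if i = j then 1 else 0) -
          (if j = u0 then (a i : ZMod 2) else 0) := by
        intro j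
        have := to_two (c27 i j)
        push_cast at this ⊢
        exact this
      have r1 : ∀ k, ∑ j, ((S k j : ZMod 2) - (if k = j then (D j : ZMod 2) else 0)) * x j =
          ∑ j, (S k j : ZMod 2) * x j - D k * x k := by
        intro k
        have h2 : ∀ j, ((S k j : ZMod 2) - (if k = j then (D j : ZMod 2) else 0)) * x j =
            (S k j : ZMod 2) * x j - (if k = j then (D k : ZMod 2) * x k else 0) := by
          intro j
          by_cases e : k = j
          · rw [if_pos e, if_pos e, e]; ring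
          · rw [if_neg e, if_neg e]; ring
        simp only [h2, Finset.sum_sub_distrib]
        rw [Finset.sum_ite_eq, if_pos (Finset.mem_univ k)]
      have t1 : ∑ j, (∑ k, (LK i (Fin.castAdd 2 k) : ZMod 2) * ((S k j : ZMod 2) -
          (if k = j then (D j : ZMod 2) else 0))) * x j = 0 := by
        simp only [Finset.sum_mul]
        rw [Finset.sum_comm]
        apply Finset.sum_eq_zero
        intro k _
        simp only [mul_assoc]
        rw [← Finset.mul_sum, r1]
        by_cases hk : ∃ l, k = y l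
        · rw [c26 i k hk]; simp
        · push Not at hk
          rw [hK1 k hk, mul_zero]
      have t2 : ∑ j, (∑ k, ((S (y k) j : ZMod 2) - (if y k = j then (D j : ZMod 2) else 0) +
          G j (y k))) * x j = 0 := by
        refine Eq.trans ?_ hK2
        simp only [Finset.sum_mul]
        rw [Finset.sum_comm]
        refine Finset.sum_congr rfl fun k _ => ?_
        simp only [add_mul, Finset.sum_add_distrib]
        rw [r1]
      have t3 : ∑ j, ((∑ k, (LK i (Fin.castAdd 2 k) : ZMod 2) * ((S k j : ZMod 2) -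
          (if k = j then (D j : ZMod 2) else 0)) +
          (LK i (Fin.natAdd n 0) : ZMod 2) * (∑ k, ((S (y k) j : ZMod 2) -
          (if y k = j then (D j : ZMod 2) else 0) + G j (y k))) +
          (LK i (Fin.natAdd n 1) : ZMod 2) * D j)) * x j = 0 := by
        have split : ∀ (A B D' : Fin n → ZMod 2) (c c' : ZMod 2),
            ∑ j, (A j + c * B j + c' * D' j) * x j =
              ∑ j, A j * x j + c * ∑ j, B j * x j + c' * ∑ j, D' j * x j := by
          intro A B D' c c'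
          rw [Finset.mul_sum, Finset.mul_sum, ← Finset.sum_add_distrib, ← Finset.sum_add_distrib]
          exact Finset.sum_congr rfl fun j _ => by ring
        refine (split _ _ _ _ _).trans ?_
        rw [t1, t2, hK3]
        ring
      simp only [e3, sub_mul, ite_mul, one_mul, zero_mul, Finset.sum_sub_distrib] at t3
      rw [Finset.sum_ite_eq, if_pos (Finset.mem_univ i), Finset.sum_ite_eq',
        if_pos (Finset.mem_univ u0)] at t3
      exact sub_eq_zero.1 t3
    have h3 : ∀ b : ZMod 2, b = 0 ∨ b = 1 := by decide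
    rcases h3 (x u0) with hb | hb
    · left; intro i; rw [key, hb, mul_zero]
    · right; intro i; rw [key, hb, mul_one]

/-- conditions on the joins -/
def okOc (c δ : ℕ) (ν : ℤ) (S G : Fin n → Fin n → ℤ) (h : Fin n → ℤ) (C : Fin n → Fin n → ℤ)
    (L : Fin n → Bool) (ℓ : ℕ) : Prop :=
  (∀ i j, C i j = 0 ∨ C i j = 1) ∧ (∀ i j, C i j = C j i) ∧ (∀ i, C i i = 0) ∧
  (∀ i j, C i j = 1 → S i j = 0 ∧ G i j = 0) ∧ (∀ i, ∑ j, C i j = c + 1 - h i) ∧
  ((n : ℤ) = c + 2 + ν) ∧ (∀ i, L i = false → (δ : ℤ) ≤ c + 1 - h i) ∧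
  (univ.filter (fun i => L i = true)).card = ℓ

instance (c δ : ℕ) (ν : ℤ) (S G : Fin n → Fin n → ℤ) (h : Fin n → ℤ) (C : Fin n → Fin n → ℤ)
    (L : Fin n → Bool) (ℓ : ℕ) : Decidable (okOc c δ ν S G h C L ℓ) := by
  unfold okOc
  infer_instance

theorem HasCfO.of_ok {c δ ℓ : ℕ} {τ ν T : ℤ} {S G : Fin n → Fin n → ℤ} {D e h a : Fin n → ℤ}
    {y : Fin 3 → Fin n} {u v : Fin n} {u0 : Fin n} {LM : Fin n → Fin n → ℤ}
    {LK : Fin n → Fin (n + 2) → ℤ} {C : Fin n → Fin n → ℤ} {L : Fin n → Bool}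
    (k : okO τ ν T S G D e h a y u v u0 LM LK) (k' : okOc c δ ν S G h C L ℓ) :
    HasCfO c δ ℓ n := by
  obtain ⟨c1, c2, c3, c4, c5, c6, c7, c8⟩ := k'
  refine ⟨Fin n, inferInstance, inferInstance, τ, ν, T, S, G, D, e, h, a, y, u, v, C,
    univ.filter (fun i => L i = true), ⟨SO.of_ok k, ⟨c1, c2, c3⟩, c4, c5, ?_, ?_⟩,
    Fintype.card_fin n, c8⟩
  · rw [Fintype.card_fin]; exact c6
  · intro i hi
    apply c7 i
    by_contra hne
    exact hi (by simpa using hne)

end

end Pool.Agent.H93.Nut
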