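import Pool.Agent.H93.Nut.CoreSeeds

/-!
Configurations of small order.
-/

set_option autoImplicit false
set_option maxRecDepth 100000

namespace Pool.Agent.H93.Nut

theorem co7x10 : HasCfO 7 6 9 10 :=
HasCfO.of_ok (n := 10) (τ := 10) (ν := 1) (T := 2) (S := lm [[0, 1, 0, 0, 0, 0, -1, 0, 1, 0],
  [1, 0, 1, 0, 0, 1, 0, 0, 0, 0], [0, 1, 0, 0, 0, 0, 0, 1, 0, 0], [0, 0, 0, 0, 0, 0, 0, 1, 0,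
  1], [0, 0, 0, 0, 0, 0, 0, -1, 0, -1], [0, 1, 0, 0, 0, 0, 1, 0, 0, 0], [-1, 0, 0, 0, 0, 1, 0,
  0, 1, 0], [0, 0, 1, 1, -1, 0, 0, 0, 0, 0], [1, 0, 0, 0, 0, 0, 1, 0, 0, 0], [0, 0, 0, 1, -1, 0,
  0, 0, 0, 0]]) (G := lm [[0, 0, 0, 0, 0, 0, 0, 0, 0, 0], [0, 0, 0, 0, 0, 0, 0, 0, 0, 0], [0, 0,
  0, 0, 0, 0, 0, 0, 0, 0], [1, -1, 0, 0, 0, 0, 0, 0, 0, 0], [0, 1, -1, 0, 0, 0, 0, 0, 0, 0], [0,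
  0, 0, 0, 0, 0, 0, 0, 0, 0], [0, 0, 0, 0, 0, 0, 0, 0, 0, 0], [0, 0, 0, 0, 0, 0, 0, 0, 0, 0],
  [0, 0, 0, 0, 0, 0, 0, 0, 0, 0], [0, 0, 0, 0, 0, 0, 0, 0, 0, 0]]) (D := lv [0, 1, 1, 1, 1, 1,
  0, 1, 1, 1]) (e := lv [1, 1, 1, 1, 1, 1, 1, 0, 1, 1]) (h := lv [3, 4, 3, 4, 4, 3, 3, 2, 3, 3])
  (a := lv [2, -2, -3, 1, -1, -1, 1, -1, 3, 2]) (y := ![0, 1, 2]) (u := 1) (v := 2) (u0 := 2)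
  (LM := lm [[1, 0, 0, 0, 0, 1, 1, 0, 0, 0], [0, 0, 0, 0, 0, 1, 1, 0, 1, 0], [1, 0, 1, 1, 1, 0,
  0, 1, 1, 0], [0, 0, 1, 0, 1, 0, 0, 0, 0, 1], [0, 0, 0, 0, 1, 1, 1, 1, 1, 1], [0, 1, 1, 1, 1,
  0, 0, 1, 0, 0], [0, 1, 1, 1, 1, 0, 1, 1, 1, 0], [1, 0, 0, 1, 1, 1, 1, 1, 0, 0], [1, 1, 1, 1,
  1, 1, 0, 1, 0, 0], [0, 0, 1, 0, 0, 1, 1, 1, 1, 1]]) (LK := lmk [[0, 0, 0, 1, 1, 1, 0, 1, 1, 1,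
  0, 1], [0, 0, 0, 0, 0, 1, 1, 0, 1, 0, 0, 0], [0, 0, 0, 0, 0, 0, 0, 0, 0, 0, 0, 0], [0, 0, 0,
  1, 0, 0, 0, 1, 0, 1, 0, 0], [0, 0, 0, 0, 1, 0, 0, 1, 0, 1, 0, 0], [0, 0, 0, 1, 1, 1, 1, 1, 0,
  0, 1, 0], [0, 0, 0, 1, 1, 1, 0, 1, 1, 0, 1, 0], [0, 0, 0, 1, 1, 0, 0, 1, 0, 0, 0, 0], [0, 0,
  0, 0, 0, 0, 0, 0, 1, 1, 1, 1], [0, 0, 0, 1, 1, 0, 0, 0, 0, 1, 0, 0]]) (C := lm [[0, 0, 1, 0,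
  1, 1, 0, 1, 0, 1], [0, 0, 0, 0, 0, 0, 1, 1, 1, 1], [1, 0, 0, 1, 0, 1, 1, 0, 0, 1], [0, 0, 1,
  0, 1, 1, 0, 0, 1, 0], [1, 0, 0, 1, 0, 0, 1, 0, 1, 0], [1, 0, 1, 1, 0, 0, 0, 1, 1, 0], [0, 1,
  1, 0, 1, 0, 0, 1, 0, 1], [1, 1, 0, 0, 0, 1, 1, 0, 1, 1], [0, 1, 0, 1, 1, 1, 0, 1, 0, 0], [1,
  1, 1, 0, 0, 0, 1, 1, 0, 0]]) (L := fun i => decide (lv [1, 1, 1, 1, 1, 1, 1, 0, 1, 1] i = 1))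
    (by decide +kernel) (by decide +kernel)

theorem co7x11 : HasCfO 7 6 9 11 :=
HasCfO.of_ok (n := 11) (τ := 15) (ν := 2) (T := 2) (S := lm [[0, 0, 1, 0, 0, 0, 1, 0, 0, 0, 0],
  [0, 0, 0, 0, 0, 1, 0, 0, 0, 0, 0], [1, 0, 0, -1, 0, 0, 0, 0, 0, 0, 0], [0, 0, -1, 0, 0, 1, 1,
  0, 0, 0, 0], [0, 0, 0, 0, 0, -1, 0, 0, 1, 0, 0], [0, 1, 0, 1, -1, 0, 0, 0, 0, 0, 0], [1, 0, 0,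
  1, 0, 0, 0, 1, 0, 0, 0], [0, 0, 0, 0, 0, 0, 1, 0, 0, 0, -1], [0, 0, 0, 0, 1, 0, 0, 0, 0, 1,
  0], [0, 0, 0, 0, 0, 0, 0, 0, 1, 0, 1], [0, 0, 0, 0, 0, 0, 0, -1, 0, 1, 0]]) (G := lm [[0, 0,
  0, 0, 0, 0, 0, 0, 0, 0, 0], [0, 0, 0, 0, 0, 0, 0, 0, 0, 0, 0], [0, 0, 0, 0, 0, 0, 0, 0, 0, 0,
  0], [1, -1, 0, 0, 0, 0, 0, 0, 0, 0, 0], [0, 1, -1, 0, 0, 0, 0, 0, 0, 0, 0], [-1, 0, 1, 0, 0,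
  0, 0, 0, 0, 0, 0], [0, 0, 0, 0, 0, 0, 0, 0, 0, 0, 0], [0, 0, 0, 0, 0, 0, 0, 0, 0, 0, 0], [0,
  0, 0, 0, 0, 0, 0, 0, 0, 0, 0], [0, 0, 0, 0, 0, 0, 0, 0, 0, 0, 0], [0, 0, 0, 0, 0, 0, 0, 0, 0,
  0, 0]]) (D := lv [0, 1, 0, 0, 1, 0, 0, 1, 1, 0, 0]) (e := lv [1, 1, 1, 1, 1, 1, 1, 1, 1, 0,
  0]) (h := lv [3, 3, 3, 4, 4, 4, 3, 3, 3, 1, 1]) (a := lv [-1, 2, 1, -1, 1, 2, -1, 2, 3, 2,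
  -3]) (y := ![0, 1, 2]) (u := 8) (v := 9) (u0 := 0) (LM := lm [[1, 1, 0, 1, 0, 0, 0, 0, 0, 0,
  0], [1, 0, 1, 0, 0, 1, 0, 1, 1, 1, 1], [0, 1, 1, 0, 1, 0, 1, 0, 1, 0, 1], [1, 1, 1, 1, 0, 0,
  0, 0, 0, 0, 0], [1, 1, 1, 0, 1, 0, 1, 1, 0, 1, 0], [1, 1, 1, 0, 0, 1, 0, 1, 1, 1, 1], [1, 1,
  1, 0, 1, 0, 1, 0, 1, 0, 1], [0, 0, 1, 0, 0, 0, 1, 0, 0, 0, 0], [1, 1, 0, 0, 1, 0, 0, 1, 1, 1,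
  1], [0, 0, 1, 0, 0, 0, 1, 0, 0, 0, 1], [1, 1, 0, 0, 1, 0, 0, 1, 1, 0, 1]]) (LK := lmk [[0, 0,
  0, 0, 0, 0, 0, 0, 0, 0, 0, 0, 0], [0, 0, 0, 0, 0, 0, 0, 0, 1, 0, 1, 0, 1], [0, 0, 0, 1, 1, 1,
  1, 1, 1, 1, 1, 0, 1], [0, 0, 0, 1, 0, 0, 0, 0, 1, 0, 1, 1, 1], [0, 0, 0, 1, 0, 1, 0, 0, 0, 0,
  0, 1, 0], [0, 0, 0, 1, 1, 0, 1, 0, 0, 0, 0, 1, 1], [0, 0, 0, 1, 0, 1, 0, 1, 1, 1, 1, 1, 0],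
  [0, 0, 0, 1, 0, 0, 1, 0, 1, 0, 1, 1, 1], [0, 0, 0, 0, 0, 1, 1, 0, 0, 0, 0, 0, 1], [0, 0, 0, 1,
  0, 0, 1, 0, 1, 0, 0, 1, 1], [0, 0, 0, 0, 0, 1, 1, 0, 0, 1, 0, 0, 1]]) (C := lm [[0, 1, 0, 0,
  1, 0, 0, 1, 0, 1, 1], [1, 0, 1, 0, 0, 0, 1, 0, 0, 1, 1], [0, 1, 0, 0, 0, 0, 1, 1, 1, 0, 1],
  [0, 0, 0, 0, 1, 0, 0, 0, 1, 1, 1], [1, 0, 0, 1, 0, 0, 0, 0, 0, 1, 1], [0, 0, 0, 0, 0, 0, 1, 1,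
  0, 1, 1], [0, 1, 1, 0, 0, 1, 0, 0, 1, 1, 0], [1, 0, 1, 0, 0, 1, 0, 0, 1, 1, 0], [0, 0, 1, 1,
  0, 0, 1, 1, 0, 0, 1], [1, 1, 0, 1, 1, 1, 1, 1, 0, 0, 0], [1, 1, 1, 1, 1, 1, 0, 0, 1, 0, 0]])
  (L := fun i => decide (lv [1, 1, 1, 1, 1, 1, 1, 1, 1, 0, 0] i = 1))
    (by decide +kernel) (by decide +kernel)

theorem co7x12 : HasCfO 7 6 9 12 :=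
HasCfO.of_ok (n := 12) (τ := 14) (ν := 3) (T := 2) (S := lm [[0, 1, 0, 0, 0, 0, -1, 0, 1, 0, 0,
  0], [1, 0, 0, 0, 0, 1, 0, 0, 0, 0, 1, 0], [0, 0, 0, 0, 0, 0, 0, 1, 0, 0, 0, -1], [0, 0, 0, 0,
  0, 0, 0, 1, 0, 1, 0, 0], [0, 0, 0, 0, 0, 0, 0, -1, 0, -1, 0, 0], [0, 1, 0, 0, 0, 0, 1, 0, 0,
  0, 0, 0], [-1, 0, 0, 0, 0, 1, 0, 0, 1, 0, 0, 0], [0, 0, 1, 1, -1, 0, 0, 0, 0, 0, 0, 0], [1, 0,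
  0, 0, 0, 0, 1, 0, 0, 0, 0, 0], [0, 0, 0, 1, -1, 0, 0, 0, 0, 0, 0, 0], [0, 1, 0, 0, 0, 0, 0, 0,
  0, 0, 0, 1], [0, 0, -1, 0, 0, 0, 0, 0, 0, 0, 1, 0]]) (G := lm [[0, 0, 0, 0, 0, 0, 0, 0, 0, 0,
  0, 0], [0, 0, 0, 0, 0, 0, 0, 0, 0, 0, 0, 0], [0, 0, 0, 0, 0, 0, 0, 0, 0, 0, 0, 0], [1, -1, 0,
  0, 0, 0, 0, 0, 0, 0, 0, 0], [0, 1, -1, 0, 0, 0, 0, 0, 0, 0, 0, 0], [0, 0, 0, 0, 0, 0, 0, 0, 0,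
  0, 0, 0], [0, 0, 0, 0, 0, 0, 0, 0, 0, 0, 0, 0], [0, 0, 0, 0, 0, 0, 0, 0, 0, 0, 0, 0], [0, 0,
  0, 0, 0, 0, 0, 0, 0, 0, 0, 0], [0, 0, 0, 0, 0, 0, 0, 0, 0, 0, 0, 0], [0, 0, 0, 0, 0, 0, 0, 0,
  0, 0, 0, 0], [0, 0, 0, 0, 0, 0, 0, 0, 0, 0, 0, 0]]) (D := lv [0, 1, 1, 1, 1, 1, 0, 1, 1, 1, 0,
  0]) (e := lv [1, 1, 1, 1, 1, 1, 1, 0, 1, 1, 0, 0]) (h := lv [3, 4, 3, 4, 4, 3, 3, 2, 3, 3, 1,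
  1]) (a := lv [2, -2, -3, 1, -1, -1, 1, -1, 3, 2, -3, 2]) (y := ![0, 1, 2]) (u := 1) (v := 10)
  (u0 := 2) (LM := lm [[1, 0, 0, 0, 0, 1, 1, 0, 0, 0, 0, 0], [0, 0, 0, 0, 0, 1, 1, 0, 1, 0, 0,
  0], [1, 0, 1, 1, 1, 0, 0, 1, 1, 0, 1, 0], [0, 0, 1, 0, 1, 0, 0, 0, 0, 1, 1, 0], [0, 0, 0, 0,
  1, 1, 1, 1, 1, 1, 0, 0], [0, 1, 1, 1, 1, 0, 0, 1, 0, 0, 1, 1], [0, 1, 1, 1, 1, 0, 1, 1, 1, 0,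
  1, 1], [1, 0, 0, 1, 1, 1, 1, 1, 0, 0, 0, 0], [1, 1, 1, 1, 1, 1, 0, 1, 0, 0, 1, 1], [0, 0, 1,
  0, 0, 1, 1, 1, 1, 1, 1, 0], [1, 0, 1, 1, 1, 0, 0, 1, 1, 0, 1, 1], [0, 0, 0, 0, 0, 1, 1, 0, 1,
  0, 1, 0]]) (LK := lmk [[0, 0, 0, 1, 1, 1, 0, 1, 1, 1, 0, 0, 0, 1], [0, 0, 0, 0, 0, 1, 1, 0, 1,
  0, 0, 0, 0, 0], [0, 0, 0, 0, 0, 0, 0, 0, 0, 0, 0, 0, 0, 0], [0, 0, 0, 1, 0, 0, 0, 1, 0, 1, 0,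
  0, 0, 0], [0, 0, 0, 0, 1, 0, 0, 1, 0, 1, 0, 0, 0, 0], [0, 0, 0, 1, 1, 1, 1, 1, 0, 0, 1, 1, 1,
  0], [0, 0, 0, 1, 1, 1, 0, 1, 1, 0, 1, 1, 1, 0], [0, 0, 0, 1, 1, 0, 0, 1, 0, 0, 0, 0, 0, 0],
  [0, 0, 0, 0, 0, 0, 0, 0, 1, 1, 1, 1, 1, 1], [0, 0, 0, 1, 1, 0, 0, 0, 0, 1, 0, 0, 0, 0], [0, 0,
  0, 0, 0, 0, 0, 0, 0, 0, 0, 1, 0, 0], [0, 0, 0, 0, 0, 1, 1, 0, 1, 0, 1, 0, 0, 0]]) (C := lm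
  [[0, 0, 0, 0, 1, 1, 0, 0, 0, 1, 1, 1], [0, 0, 0, 0, 0, 0, 1, 1, 1, 0, 0, 1], [0, 0, 0, 1, 0,
  0, 1, 0, 1, 1, 1, 0], [0, 0, 1, 0, 1, 1, 0, 0, 0, 0, 0, 1], [1, 0, 0, 1, 0, 0, 1, 0, 0, 0, 1,
  0], [1, 0, 0, 1, 0, 0, 0, 0, 0, 1, 1, 1], [0, 1, 1, 0, 1, 0, 0, 1, 0, 0, 1, 0], [0, 1, 0, 0,
  0, 0, 1, 0, 1, 1, 1, 1], [0, 1, 1, 0, 0, 0, 0, 1, 0, 0, 1, 1], [1, 0, 1, 0, 0, 1, 0, 1, 0, 0,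
  0, 1], [1, 0, 1, 0, 1, 1, 1, 1, 1, 0, 0, 0], [1, 1, 0, 1, 0, 1, 0, 1, 1, 1, 0, 0]]) (L := fun
  i => decide (lv [1, 1, 1, 1, 1, 1, 1, 0, 1, 1, 0, 0] i = 1))
    (by decide +kernel) (by decide +kernel)

theorem co7x13 : HasCfO 7 6 9 13 :=
HasCfO.of_ok (n := 13) (τ := 19) (ν := 4) (T := 2) (S := lm [[0, 0, 1, 0, 0, 0, 1, 0, 0, 0, 0,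
  0, 0], [0, 0, 0, 0, 0, 1, 0, 0, 0, 0, 0, 0, 0], [1, 0, 0, -1, 0, 0, 0, 0, 0, 0, 0, 0, 0], [0,
  0, -1, 0, 0, 1, 1, 0, 0, 0, 0, 0, 0], [0, 0, 0, 0, 0, -1, 0, 0, 1, 0, 0, 0, 0], [0, 1, 0, 1,
  -1, 0, 0, 0, 0, 0, 0, 0, 0], [1, 0, 0, 1, 0, 0, 0, 1, 0, 0, 0, 0, 0], [0, 0, 0, 0, 0, 0, 1, 0,
  0, 0, -1, 0, 0], [0, 0, 0, 0, 1, 0, 0, 0, 0, 0, 0, 1, 0], [0, 0, 0, 0, 0, 0, 0, 0, 0, 0, 1, 0,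
  -1], [0, 0, 0, 0, 0, 0, 0, -1, 0, 1, 0, 0, 0], [0, 0, 0, 0, 0, 0, 0, 0, 1, 0, 0, 0, 1], [0, 0,
  0, 0, 0, 0, 0, 0, 0, -1, 0, 1, 0]]) (G := lm [[0, 0, 0, 0, 0, 0, 0, 0, 0, 0, 0, 0, 0], [0, 0,
  0, 0, 0, 0, 0, 0, 0, 0, 0, 0, 0], [0, 0, 0, 0, 0, 0, 0, 0, 0, 0, 0, 0, 0], [1, -1, 0, 0, 0, 0,
  0, 0, 0, 0, 0, 0, 0], [0, 1, -1, 0, 0, 0, 0, 0, 0, 0, 0, 0, 0], [-1, 0, 1, 0, 0, 0, 0, 0, 0,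
  0, 0, 0, 0], [0, 0, 0, 0, 0, 0, 0, 0, 0, 0, 0, 0, 0], [0, 0, 0, 0, 0, 0, 0, 0, 0, 0, 0, 0, 0],
  [0, 0, 0, 0, 0, 0, 0, 0, 0, 0, 0, 0, 0], [0, 0, 0, 0, 0, 0, 0, 0, 0, 0, 0, 0, 0], [0, 0, 0, 0,
  0, 0, 0, 0, 0, 0, 0, 0, 0], [0, 0, 0, 0, 0, 0, 0, 0, 0, 0, 0, 0, 0], [0, 0, 0, 0, 0, 0, 0, 0,
  0, 0, 0, 0, 0]]) (D := lv [0, 1, 0, 0, 1, 0, 0, 1, 1, 0, 0, 0, 0]) (e := lv [1, 1, 1, 1, 1, 1,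
  1, 1, 1, 0, 0, 0, 0]) (h := lv [3, 3, 3, 4, 4, 4, 3, 3, 3, 1, 1, 1, 1]) (a := lv [-1, 2, 1,
  -1, 1, 2, -1, 2, 3, 2, -3, 2, -3]) (y := ![0, 1, 2]) (u := 8) (v := 11) (u0 := 0) (LM := lm
  [[1, 1, 0, 1, 0, 0, 0, 0, 0, 0, 0, 0, 0], [1, 0, 1, 0, 0, 1, 0, 1, 1, 1, 1, 1, 1], [0, 1, 1,
  0, 1, 0, 1, 0, 1, 0, 1, 0, 1], [1, 1, 1, 1, 0, 0, 0, 0, 0, 0, 0, 0, 0], [1, 1, 1, 0, 1, 0, 1,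
  1, 0, 1, 0, 1, 0], [1, 1, 1, 0, 0, 1, 0, 1, 1, 1, 1, 1, 1], [1, 1, 1, 0, 1, 0, 1, 0, 1, 0, 1,
  0, 1], [0, 0, 1, 0, 0, 0, 1, 0, 0, 0, 0, 0, 0], [1, 1, 0, 0, 1, 0, 0, 1, 1, 1, 1, 1, 1], [0,
  0, 1, 0, 0, 0, 1, 0, 0, 0, 1, 0, 0], [1, 1, 0, 0, 1, 0, 0, 1, 1, 0, 1, 0, 1], [0, 0, 1, 0, 0,
  0, 1, 0, 0, 0, 1, 0, 1], [1, 1, 0, 0, 1, 0, 0, 1, 1, 1, 1, 0, 1]]) (LK := lmk [[0, 0, 0, 0, 0,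
  0, 0, 0, 0, 0, 0, 0, 0, 0, 0], [0, 0, 0, 0, 0, 0, 0, 0, 1, 0, 1, 0, 1, 0, 1], [0, 0, 0, 1, 1,
  1, 1, 1, 1, 1, 1, 1, 1, 0, 1], [0, 0, 0, 1, 0, 0, 0, 0, 1, 0, 1, 0, 1, 1, 1], [0, 0, 0, 1, 0,
  1, 0, 0, 0, 0, 0, 0, 0, 1, 0], [0, 0, 0, 1, 1, 0, 1, 0, 0, 0, 0, 0, 0, 1, 1], [0, 0, 0, 1, 0,
  1, 0, 1, 1, 1, 1, 1, 1, 1, 0], [0, 0, 0, 1, 0, 0, 1, 0, 1, 0, 1, 0, 1, 1, 1], [0, 0, 0, 0, 0,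
  1, 1, 0, 0, 0, 0, 0, 0, 0, 1], [0, 0, 0, 1, 0, 0, 1, 0, 1, 0, 0, 0, 1, 1, 1], [0, 0, 0, 0, 0,
  1, 1, 0, 0, 1, 0, 1, 0, 0, 1], [0, 0, 0, 1, 0, 0, 1, 0, 1, 0, 0, 0, 0, 1, 1], [0, 0, 0, 0, 0,
  1, 1, 0, 0, 0, 0, 1, 0, 0, 1]]) (C := lm [[0, 0, 0, 0, 0, 0, 0, 1, 0, 1, 1, 1, 1], [0, 0, 1,
  0, 0, 0, 0, 0, 1, 1, 0, 1, 1], [0, 1, 0, 0, 0, 0, 1, 1, 0, 0, 1, 0, 1], [0, 0, 0, 0, 0, 0, 0,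
  0, 0, 1, 1, 1, 1], [0, 0, 0, 0, 0, 0, 1, 1, 0, 1, 1, 0, 0], [0, 0, 0, 0, 0, 0, 0, 1, 1, 1, 0,
  1, 0], [0, 0, 1, 0, 1, 0, 0, 0, 0, 0, 1, 1, 1], [1, 0, 1, 0, 1, 1, 0, 0, 1, 0, 0, 0, 0], [0,
  1, 0, 0, 0, 1, 0, 1, 0, 1, 0, 0, 1], [1, 1, 0, 1, 1, 1, 0, 0, 1, 0, 0, 1, 0], [1, 0, 1, 1, 1,
  0, 1, 0, 0, 0, 0, 1, 1], [1, 1, 0, 1, 0, 1, 1, 0, 0, 1, 1, 0, 0], [1, 1, 1, 1, 0, 0, 1, 0, 1,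
  0, 1, 0, 0]]) (L := fun i => decide (lv [1, 1, 1, 1, 1, 1, 1, 1, 1, 0, 0, 0, 0] i = 1))
    (by decide +kernel) (by decide +kernel)

theorem co7x14 : HasCfO 7 6 9 14 :=
HasCfO.of_ok (n := 14) (τ := 18) (ν := 5) (T := 2) (S := lm [[0, 1, 0, 0, 0, 0, -1, 0, 1, 0, 0,
  0, 0, 0], [1, 0, 0, 0, 0, 1, 0, 0, 0, 0, 0, 0, 1, 0], [0, 0, 0, 0, 0, 0, 0, 1, 0, 0, 0, -1, 0,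
  0], [0, 0, 0, 0, 0, 0, 0, 1, 0, 1, 0, 0, 0, 0], [0, 0, 0, 0, 0, 0, 0, -1, 0, -1, 0, 0, 0, 0],
  [0, 1, 0, 0, 0, 0, 1, 0, 0, 0, 0, 0, 0, 0], [-1, 0, 0, 0, 0, 1, 0, 0, 1, 0, 0, 0, 0, 0], [0,
  0, 1, 1, -1, 0, 0, 0, 0, 0, 0, 0, 0, 0], [1, 0, 0, 0, 0, 0, 1, 0, 0, 0, 0, 0, 0, 0], [0, 0, 0,
  1, -1, 0, 0, 0, 0, 0, 0, 0, 0, 0], [0, 0, 0, 0, 0, 0, 0, 0, 0, 0, 0, 1, 0, -1], [0, 0, -1, 0,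
  0, 0, 0, 0, 0, 0, 1, 0, 0, 0], [0, 1, 0, 0, 0, 0, 0, 0, 0, 0, 0, 0, 0, 1], [0, 0, 0, 0, 0, 0,
  0, 0, 0, 0, -1, 0, 1, 0]]) (G := lm [[0, 0, 0, 0, 0, 0, 0, 0, 0, 0, 0, 0, 0, 0], [0, 0, 0, 0,
  0, 0, 0, 0, 0, 0, 0, 0, 0, 0], [0, 0, 0, 0, 0, 0, 0, 0, 0, 0, 0, 0, 0, 0], [1, -1, 0, 0, 0, 0,
  0, 0, 0, 0, 0, 0, 0, 0], [0, 1, -1, 0, 0, 0, 0, 0, 0, 0, 0, 0, 0, 0], [0, 0, 0, 0, 0, 0, 0, 0,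
  0, 0, 0, 0, 0, 0], [0, 0, 0, 0, 0, 0, 0, 0, 0, 0, 0, 0, 0, 0], [0, 0, 0, 0, 0, 0, 0, 0, 0, 0,
  0, 0, 0, 0], [0, 0, 0, 0, 0, 0, 0, 0, 0, 0, 0, 0, 0, 0], [0, 0, 0, 0, 0, 0, 0, 0, 0, 0, 0, 0,
  0, 0], [0, 0, 0, 0, 0, 0, 0, 0, 0, 0, 0, 0, 0, 0], [0, 0, 0, 0, 0, 0, 0, 0, 0, 0, 0, 0, 0, 0],
  [0, 0, 0, 0, 0, 0, 0, 0, 0, 0, 0, 0, 0, 0], [0, 0, 0, 0, 0, 0, 0, 0, 0, 0, 0, 0, 0, 0]]) (D :=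
  lv [0, 1, 1, 1, 1, 1, 0, 1, 1, 1, 0, 0, 0, 0]) (e := lv [1, 1, 1, 1, 1, 1, 1, 0, 1, 1, 0, 0,
  0, 0]) (h := lv [3, 4, 3, 4, 4, 3, 3, 2, 3, 3, 1, 1, 1, 1]) (a := lv [2, -2, -3, 1, -1, -1, 1,
  -1, 3, 2, -3, 2, -3, 2]) (y := ![0, 1, 2]) (u := 1) (v := 12) (u0 := 2) (LM := lm [[1, 0, 0,
  0, 0, 1, 1, 0, 0, 0, 0, 0, 0, 0], [0, 0, 0, 0, 0, 1, 1, 0, 1, 0, 0, 0, 0, 0], [1, 0, 1, 1, 1,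
  0, 0, 1, 1, 0, 1, 0, 1, 0], [0, 0, 1, 0, 1, 0, 0, 0, 0, 1, 1, 0, 1, 0], [0, 0, 0, 0, 1, 1, 1,
  1, 1, 1, 0, 0, 0, 0], [0, 1, 1, 1, 1, 0, 0, 1, 0, 0, 1, 1, 1, 1], [0, 1, 1, 1, 1, 0, 1, 1, 1,
  0, 1, 1, 1, 1], [1, 0, 0, 1, 1, 1, 1, 1, 0, 0, 0, 0, 0, 0], [1, 1, 1, 1, 1, 1, 0, 1, 0, 0, 1,
  1, 1, 1], [0, 0, 1, 0, 0, 1, 1, 1, 1, 1, 1, 0, 1, 0], [1, 0, 1, 1, 1, 0, 0, 1, 1, 0, 1, 1, 1,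
  0], [0, 0, 0, 0, 0, 1, 1, 0, 1, 0, 1, 0, 1, 0], [1, 0, 1, 1, 1, 0, 0, 1, 1, 0, 1, 1, 1, 1],
  [0, 0, 0, 0, 0, 1, 1, 0, 1, 0, 0, 0, 1, 0]]) (LK := lmk [[0, 0, 0, 1, 1, 1, 0, 1, 1, 1, 0, 0,
  0, 0, 0, 1], [0, 0, 0, 0, 0, 1, 1, 0, 1, 0, 0, 0, 0, 0, 0, 0], [0, 0, 0, 0, 0, 0, 0, 0, 0, 0,
  0, 0, 0, 0, 0, 0], [0, 0, 0, 1, 0, 0, 0, 1, 0, 1, 0, 0, 0, 0, 0, 0], [0, 0, 0, 0, 1, 0, 0, 1,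
  0, 1, 0, 0, 0, 0, 0, 0], [0, 0, 0, 1, 1, 1, 1, 1, 0, 0, 1, 1, 1, 1, 1, 0], [0, 0, 0, 1, 1, 1,
  0, 1, 1, 0, 1, 1, 1, 1, 1, 0], [0, 0, 0, 1, 1, 0, 0, 1, 0, 0, 0, 0, 0, 0, 0, 0], [0, 0, 0, 0,
  0, 0, 0, 0, 1, 1, 1, 1, 1, 1, 1, 1], [0, 0, 0, 1, 1, 0, 0, 0, 0, 1, 0, 0, 0, 0, 0, 0], [0, 0,
  0, 0, 0, 0, 0, 0, 0, 0, 0, 1, 0, 0, 0, 0], [0, 0, 0, 0, 0, 1, 1, 0, 1, 0, 1, 0, 1, 0, 0, 0],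
  [0, 0, 0, 0, 0, 0, 0, 0, 0, 0, 0, 1, 0, 1, 0, 0], [0, 0, 0, 0, 0, 1, 1, 0, 1, 0, 0, 0, 1, 0,
  0, 0]]) (C := lm [[0, 0, 1, 0, 1, 1, 0, 1, 0, 1, 0, 0, 0, 0], [0, 0, 0, 0, 0, 0, 0, 1, 1, 0,
  0, 1, 0, 1], [1, 0, 0, 0, 0, 0, 1, 0, 0, 0, 1, 0, 1, 1], [0, 0, 0, 0, 0, 0, 1, 0, 0, 0, 1, 0,
  1, 1], [1, 0, 0, 0, 0, 0, 0, 0, 1, 0, 0, 1, 1, 0], [1, 0, 0, 0, 0, 0, 0, 1, 0, 0, 1, 0, 1, 1],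
  [0, 0, 1, 1, 0, 0, 0, 0, 0, 1, 1, 1, 0, 0], [1, 1, 0, 0, 0, 1, 0, 0, 0, 0, 1, 1, 0, 1], [0, 1,
  0, 0, 1, 0, 0, 0, 0, 1, 0, 1, 1, 0], [1, 0, 0, 0, 0, 0, 1, 0, 1, 0, 1, 0, 0, 1], [0, 0, 1, 1,
  0, 1, 1, 1, 0, 1, 0, 0, 1, 0], [0, 1, 0, 0, 1, 0, 1, 1, 1, 0, 0, 0, 1, 1], [0, 0, 1, 1, 1, 1,
  0, 0, 1, 0, 1, 1, 0, 0], [0, 1, 1, 1, 0, 1, 0, 1, 0, 1, 0, 1, 0, 0]]) (L := fun i => decide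
  (lv [1, 1, 1, 1, 1, 1, 1, 0, 1, 1, 0, 0, 0, 0] i = 1))
    (by decide +kernel) (by decide +kernel)

theorem co7x15 : HasCfO 7 6 9 15 :=
HasCfO.of_ok (n := 15) (τ := 23) (ν := 6) (T := 2) (S := lm [[0, 0, 1, 0, 0, 0, 1, 0, 0, 0, 0,
  0, 0, 0, 0], [0, 0, 0, 0, 0, 1, 0, 0, 0, 0, 0, 0, 0, 0, 0], [1, 0, 0, -1, 0, 0, 0, 0, 0, 0, 0,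
  0, 0, 0, 0], [0, 0, -1, 0, 0, 1, 1, 0, 0, 0, 0, 0, 0, 0, 0], [0, 0, 0, 0, 0, -1, 0, 0, 1, 0,
  0, 0, 0, 0, 0], [0, 1, 0, 1, -1, 0, 0, 0, 0, 0, 0, 0, 0, 0, 0], [1, 0, 0, 1, 0, 0, 0, 1, 0, 0,
  0, 0, 0, 0, 0], [0, 0, 0, 0, 0, 0, 1, 0, 0, 0, -1, 0, 0, 0, 0], [0, 0, 0, 0, 1, 0, 0, 0, 0, 0,
  0, 0, 0, 1, 0], [0, 0, 0, 0, 0, 0, 0, 0, 0, 0, 1, 0, -1, 0, 0], [0, 0, 0, 0, 0, 0, 0, -1, 0,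
  1, 0, 0, 0, 0, 0], [0, 0, 0, 0, 0, 0, 0, 0, 0, 0, 0, 0, 1, 0, -1], [0, 0, 0, 0, 0, 0, 0, 0, 0,
  -1, 0, 1, 0, 0, 0], [0, 0, 0, 0, 0, 0, 0, 0, 1, 0, 0, 0, 0, 0, 1], [0, 0, 0, 0, 0, 0, 0, 0, 0,
  0, 0, -1, 0, 1, 0]]) (G := lm [[0, 0, 0, 0, 0, 0, 0, 0, 0, 0, 0, 0, 0, 0, 0], [0, 0, 0, 0, 0,
  0, 0, 0, 0, 0, 0, 0, 0, 0, 0], [0, 0, 0, 0, 0, 0, 0, 0, 0, 0, 0, 0, 0, 0, 0], [1, -1, 0, 0, 0,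
  0, 0, 0, 0, 0, 0, 0, 0, 0, 0], [0, 1, -1, 0, 0, 0, 0, 0, 0, 0, 0, 0, 0, 0, 0], [-1, 0, 1, 0,
  0, 0, 0, 0, 0, 0, 0, 0, 0, 0, 0], [0, 0, 0, 0, 0, 0, 0, 0, 0, 0, 0, 0, 0, 0, 0], [0, 0, 0, 0,
  0, 0, 0, 0, 0, 0, 0, 0, 0, 0, 0], [0, 0, 0, 0, 0, 0, 0, 0, 0, 0, 0, 0, 0, 0, 0], [0, 0, 0, 0,
  0, 0, 0, 0, 0, 0, 0, 0, 0, 0, 0], [0, 0, 0, 0, 0, 0, 0, 0, 0, 0, 0, 0, 0, 0, 0], [0, 0, 0, 0,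
  0, 0, 0, 0, 0, 0, 0, 0, 0, 0, 0], [0, 0, 0, 0, 0, 0, 0, 0, 0, 0, 0, 0, 0, 0, 0], [0, 0, 0, 0,
  0, 0, 0, 0, 0, 0, 0, 0, 0, 0, 0], [0, 0, 0, 0, 0, 0, 0, 0, 0, 0, 0, 0, 0, 0, 0]]) (D := lv [0,
  1, 0, 0, 1, 0, 0, 1, 1, 0, 0, 0, 0, 0, 0]) (e := lv [1, 1, 1, 1, 1, 1, 1, 1, 1, 0, 0, 0, 0, 0,
  0]) (h := lv [3, 3, 3, 4, 4, 4, 3, 3, 3, 1, 1, 1, 1, 1, 1]) (a := lv [-1, 2, 1, -1, 1, 2, -1,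
  2, 3, 2, -3, 2, -3, 2, -3]) (y := ![0, 1, 2]) (u := 8) (v := 13) (u0 := 0) (LM := lm [[1, 1,
  0, 1, 0, 0, 0, 0, 0, 0, 0, 0, 0, 0, 0], [1, 0, 1, 0, 0, 1, 0, 1, 1, 1, 1, 1, 1, 1, 1], [0, 1,
  1, 0, 1, 0, 1, 0, 1, 0, 1, 0, 1, 0, 1], [1, 1, 1, 1, 0, 0, 0, 0, 0, 0, 0, 0, 0, 0, 0], [1, 1,
  1, 0, 1, 0, 1, 1, 0, 1, 0, 1, 0, 1, 0], [1, 1, 1, 0, 0, 1, 0, 1, 1, 1, 1, 1, 1, 1, 1], [1, 1,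
  1, 0, 1, 0, 1, 0, 1, 0, 1, 0, 1, 0, 1], [0, 0, 1, 0, 0, 0, 1, 0, 0, 0, 0, 0, 0, 0, 0], [1, 1,
  0, 0, 1, 0, 0, 1, 1, 1, 1, 1, 1, 1, 1], [0, 0, 1, 0, 0, 0, 1, 0, 0, 0, 1, 0, 0, 0, 0], [1, 1,
  0, 0, 1, 0, 0, 1, 1, 0, 1, 0, 1, 0, 1], [0, 0, 1, 0, 0, 0, 1, 0, 0, 0, 1, 0, 1, 0, 0], [1, 1,
  0, 0, 1, 0, 0, 1, 1, 1, 1, 0, 1, 0, 1], [0, 0, 1, 0, 0, 0, 1, 0, 0, 0, 1, 0, 1, 0, 1], [1, 1,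
  0, 0, 1, 0, 0, 1, 1, 1, 1, 1, 1, 0, 1]]) (LK := lmk [[0, 0, 0, 0, 0, 0, 0, 0, 0, 0, 0, 0, 0,
  0, 0, 0, 0], [0, 0, 0, 0, 0, 0, 0, 0, 1, 0, 1, 0, 1, 0, 1, 0, 1], [0, 0, 0, 1, 1, 1, 1, 1, 1,
  1, 1, 1, 1, 1, 1, 0, 1], [0, 0, 0, 1, 0, 0, 0, 0, 1, 0, 1, 0, 1, 0, 1, 1, 1], [0, 0, 0, 1, 0,
  1, 0, 0, 0, 0, 0, 0, 0, 0, 0, 1, 0], [0, 0, 0, 1, 1, 0, 1, 0, 0, 0, 0, 0, 0, 0, 0, 1, 1], [0,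
  0, 0, 1, 0, 1, 0, 1, 1, 1, 1, 1, 1, 1, 1, 1, 0], [0, 0, 0, 1, 0, 0, 1, 0, 1, 0, 1, 0, 1, 0, 1,
  1, 1], [0, 0, 0, 0, 0, 1, 1, 0, 0, 0, 0, 0, 0, 0, 0, 0, 1], [0, 0, 0, 1, 0, 0, 1, 0, 1, 0, 0,
  0, 1, 0, 1, 1, 1], [0, 0, 0, 0, 0, 1, 1, 0, 0, 1, 0, 1, 0, 1, 0, 0, 1], [0, 0, 0, 1, 0, 0, 1,
  0, 1, 0, 0, 0, 0, 0, 1, 1, 1], [0, 0, 0, 0, 0, 1, 1, 0, 0, 0, 0, 1, 0, 1, 0, 0, 1], [0, 0, 0,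
  1, 0, 0, 1, 0, 1, 0, 0, 0, 0, 0, 0, 1, 1], [0, 0, 0, 0, 0, 1, 1, 0, 0, 0, 0, 0, 0, 1, 0, 0,
  1]]) (C := lm [[0, 0, 0, 0, 0, 0, 0, 0, 0, 0, 1, 1, 1, 1, 1], [0, 0, 0, 0, 0, 0, 0, 0, 1, 0,
  0, 1, 1, 1, 1], [0, 0, 0, 0, 0, 0, 0, 0, 0, 0, 1, 1, 1, 1, 1], [0, 0, 0, 0, 0, 0, 0, 0, 1, 1,
  1, 0, 0, 1, 0], [0, 0, 0, 0, 0, 0, 1, 0, 0, 1, 1, 0, 1, 0, 0], [0, 0, 0, 0, 0, 0, 1, 1, 1, 0,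
  0, 1, 0, 0, 0], [0, 0, 0, 0, 1, 1, 0, 0, 0, 1, 1, 0, 1, 0, 0], [0, 0, 0, 0, 0, 1, 0, 0, 0, 1,
  0, 0, 1, 1, 1], [0, 1, 0, 1, 0, 1, 0, 0, 0, 0, 0, 1, 0, 0, 1], [0, 0, 0, 1, 1, 0, 1, 1, 0, 0,
  0, 1, 0, 1, 1], [1, 0, 1, 1, 1, 0, 1, 0, 0, 0, 0, 0, 1, 0, 1], [1, 1, 1, 0, 0, 1, 0, 0, 1, 1,
  0, 0, 0, 1, 0], [1, 1, 1, 0, 1, 0, 1, 1, 0, 0, 1, 0, 0, 0, 0], [1, 1, 1, 1, 0, 0, 0, 1, 0, 1,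
  0, 1, 0, 0, 0], [1, 1, 1, 0, 0, 0, 0, 1, 1, 1, 1, 0, 0, 0, 0]]) (L := fun i => decide (lv [1,
  1, 1, 1, 1, 1, 1, 1, 1, 0, 0, 0, 0, 0, 0] i = 1))
    (by decide +kernel) (by decide +kernel)

theorem co7x16 : HasCfO 7 6 9 16 :=
HasCfO.of_ok (n := 16) (τ := 22) (ν := 7) (T := 2) (S := lm [[0, 1, 0, 0, 0, 0, -1, 0, 1, 0, 0,
  0, 0, 0, 0, 0], [1, 0, 0, 0, 0, 1, 0, 0, 0, 0, 0, 0, 0, 0, 1, 0], [0, 0, 0, 0, 0, 0, 0, 1, 0,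
  0, 0, -1, 0, 0, 0, 0], [0, 0, 0, 0, 0, 0, 0, 1, 0, 1, 0, 0, 0, 0, 0, 0], [0, 0, 0, 0, 0, 0, 0,
  -1, 0, -1, 0, 0, 0, 0, 0, 0], [0, 1, 0, 0, 0, 0, 1, 0, 0, 0, 0, 0, 0, 0, 0, 0], [-1, 0, 0, 0,
  0, 1, 0, 0, 1, 0, 0, 0, 0, 0, 0, 0], [0, 0, 1, 1, -1, 0, 0, 0, 0, 0, 0, 0, 0, 0, 0, 0], [1, 0,
  0, 0, 0, 0, 1, 0, 0, 0, 0, 0, 0, 0, 0, 0], [0, 0, 0, 1, -1, 0, 0, 0, 0, 0, 0, 0, 0, 0, 0, 0],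
  [0, 0, 0, 0, 0, 0, 0, 0, 0, 0, 0, 1, 0, -1, 0, 0], [0, 0, -1, 0, 0, 0, 0, 0, 0, 0, 1, 0, 0, 0,
  0, 0], [0, 0, 0, 0, 0, 0, 0, 0, 0, 0, 0, 0, 0, 1, 0, -1], [0, 0, 0, 0, 0, 0, 0, 0, 0, 0, -1,
  0, 1, 0, 0, 0], [0, 1, 0, 0, 0, 0, 0, 0, 0, 0, 0, 0, 0, 0, 0, 1], [0, 0, 0, 0, 0, 0, 0, 0, 0,
  0, 0, 0, -1, 0, 1, 0]]) (G := lm [[0, 0, 0, 0, 0, 0, 0, 0, 0, 0, 0, 0, 0, 0, 0, 0], [0, 0, 0,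
  0, 0, 0, 0, 0, 0, 0, 0, 0, 0, 0, 0, 0], [0, 0, 0, 0, 0, 0, 0, 0, 0, 0, 0, 0, 0, 0, 0, 0], [1,
  -1, 0, 0, 0, 0, 0, 0, 0, 0, 0, 0, 0, 0, 0, 0], [0, 1, -1, 0, 0, 0, 0, 0, 0, 0, 0, 0, 0, 0, 0,
  0], [0, 0, 0, 0, 0, 0, 0, 0, 0, 0, 0, 0, 0, 0, 0, 0], [0, 0, 0, 0, 0, 0, 0, 0, 0, 0, 0, 0, 0,
  0, 0, 0], [0, 0, 0, 0, 0, 0, 0, 0, 0, 0, 0, 0, 0, 0, 0, 0], [0, 0, 0, 0, 0, 0, 0, 0, 0, 0, 0,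
  0, 0, 0, 0, 0], [0, 0, 0, 0, 0, 0, 0, 0, 0, 0, 0, 0, 0, 0, 0, 0], [0, 0, 0, 0, 0, 0, 0, 0, 0,
  0, 0, 0, 0, 0, 0, 0], [0, 0, 0, 0, 0, 0, 0, 0, 0, 0, 0, 0, 0, 0, 0, 0], [0, 0, 0, 0, 0, 0, 0,
  0, 0, 0, 0, 0, 0, 0, 0, 0], [0, 0, 0, 0, 0, 0, 0, 0, 0, 0, 0, 0, 0, 0, 0, 0], [0, 0, 0, 0, 0,
  0, 0, 0, 0, 0, 0, 0, 0, 0, 0, 0], [0, 0, 0, 0, 0, 0, 0, 0, 0, 0, 0, 0, 0, 0, 0, 0]]) (D := lv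
  [0, 1, 1, 1, 1, 1, 0, 1, 1, 1, 0, 0, 0, 0, 0, 0]) (e := lv [1, 1, 1, 1, 1, 1, 1, 0, 1, 1, 0,
  0, 0, 0, 0, 0]) (h := lv [3, 4, 3, 4, 4, 3, 3, 2, 3, 3, 1, 1, 1, 1, 1, 1]) (a := lv [2, -2,
  -3, 1, -1, -1, 1, -1, 3, 2, -3, 2, -3, 2, -3, 2]) (y := ![0, 1, 2]) (u := 1) (v := 14) (u0 :=
  2) (LM := lm [[1, 0, 0, 0, 0, 1, 1, 0, 0, 0, 0, 0, 0, 0, 0, 0], [0, 0, 0, 0, 0, 1, 1, 0, 1, 0,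
  0, 0, 0, 0, 0, 0], [1, 0, 1, 1, 1, 0, 0, 1, 1, 0, 1, 0, 1, 0, 1, 0], [0, 0, 1, 0, 1, 0, 0, 0,
  0, 1, 1, 0, 1, 0, 1, 0], [0, 0, 0, 0, 1, 1, 1, 1, 1, 1, 0, 0, 0, 0, 0, 0], [0, 1, 1, 1, 1, 0,
  0, 1, 0, 0, 1, 1, 1, 1, 1, 1], [0, 1, 1, 1, 1, 0, 1, 1, 1, 0, 1, 1, 1, 1, 1, 1], [1, 0, 0, 1,
  1, 1, 1, 1, 0, 0, 0, 0, 0, 0, 0, 0], [1, 1, 1, 1, 1, 1, 0, 1, 0, 0, 1, 1, 1, 1, 1, 1], [0, 0,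
  1, 0, 0, 1, 1, 1, 1, 1, 1, 0, 1, 0, 1, 0], [1, 0, 1, 1, 1, 0, 0, 1, 1, 0, 1, 1, 1, 0, 1, 0],
  [0, 0, 0, 0, 0, 1, 1, 0, 1, 0, 1, 0, 1, 0, 1, 0], [1, 0, 1, 1, 1, 0, 0, 1, 1, 0, 1, 1, 1, 1,
  1, 0], [0, 0, 0, 0, 0, 1, 1, 0, 1, 0, 0, 0, 1, 0, 1, 0], [1, 0, 1, 1, 1, 0, 0, 1, 1, 0, 1, 1,
  1, 1, 1, 1], [0, 0, 0, 0, 0, 1, 1, 0, 1, 0, 0, 0, 0, 0, 1, 0]]) (LK := lmk [[0, 0, 0, 1, 1, 1,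
  0, 1, 1, 1, 0, 0, 0, 0, 0, 0, 0, 1], [0, 0, 0, 0, 0, 1, 1, 0, 1, 0, 0, 0, 0, 0, 0, 0, 0, 0],
  [0, 0, 0, 0, 0, 0, 0, 0, 0, 0, 0, 0, 0, 0, 0, 0, 0, 0], [0, 0, 0, 1, 0, 0, 0, 1, 0, 1, 0, 0,
  0, 0, 0, 0, 0, 0], [0, 0, 0, 0, 1, 0, 0, 1, 0, 1, 0, 0, 0, 0, 0, 0, 0, 0], [0, 0, 0, 1, 1, 1,
  1, 1, 0, 0, 1, 1, 1, 1, 1, 1, 1, 0], [0, 0, 0, 1, 1, 1, 0, 1, 1, 0, 1, 1, 1, 1, 1, 1, 1, 0],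
  [0, 0, 0, 1, 1, 0, 0, 1, 0, 0, 0, 0, 0, 0, 0, 0, 0, 0], [0, 0, 0, 0, 0, 0, 0, 0, 1, 1, 1, 1,
  1, 1, 1, 1, 1, 1], [0, 0, 0, 1, 1, 0, 0, 0, 0, 1, 0, 0, 0, 0, 0, 0, 0, 0], [0, 0, 0, 0, 0, 0,
  0, 0, 0, 0, 0, 1, 0, 0, 0, 0, 0, 0], [0, 0, 0, 0, 0, 1, 1, 0, 1, 0, 1, 0, 1, 0, 1, 0, 0, 0],
  [0, 0, 0, 0, 0, 0, 0, 0, 0, 0, 0, 1, 0, 1, 0, 0, 0, 0], [0, 0, 0, 0, 0, 1, 1, 0, 1, 0, 0, 0,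
  1, 0, 1, 0, 0, 0], [0, 0, 0, 0, 0, 0, 0, 0, 0, 0, 0, 1, 0, 1, 0, 1, 0, 0], [0, 0, 0, 0, 0, 1,
  1, 0, 1, 0, 0, 0, 0, 0, 1, 0, 0, 0]]) (C := lm [[0, 0, 0, 0, 0, 0, 0, 1, 0, 0, 1, 1, 1, 0, 0,
  1], [0, 0, 0, 0, 0, 0, 0, 0, 0, 0, 1, 1, 1, 1, 0, 0], [0, 0, 0, 1, 0, 0, 0, 0, 1, 1, 0, 0, 0,
  0, 1, 1], [0, 0, 1, 0, 0, 1, 0, 0, 0, 0, 0, 0, 1, 0, 0, 1], [0, 0, 0, 0, 0, 1, 0, 0, 1, 0, 0,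
  0, 1, 1, 0, 0], [0, 0, 0, 1, 1, 0, 0, 0, 1, 1, 0, 0, 0, 0, 1, 0], [0, 0, 0, 0, 0, 0, 0, 0, 0,
  0, 1, 1, 1, 1, 1, 0], [1, 0, 0, 0, 0, 0, 0, 0, 1, 1, 0, 1, 0, 0, 1, 1], [0, 0, 1, 0, 1, 1, 0,
  1, 0, 0, 0, 0, 0, 1, 0, 0], [0, 0, 1, 0, 0, 1, 0, 1, 0, 0, 1, 1, 0, 0, 0, 0], [1, 1, 0, 0, 0,
  0, 1, 0, 0, 1, 0, 0, 1, 0, 1, 1], [1, 1, 0, 0, 0, 0, 1, 1, 0, 1, 0, 0, 0, 1, 0, 1], [1, 1, 0,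
  1, 1, 0, 1, 0, 0, 0, 1, 0, 0, 0, 1, 0], [0, 1, 0, 0, 1, 0, 1, 0, 1, 0, 0, 1, 0, 0, 1, 1], [0,
  0, 1, 0, 0, 1, 1, 1, 0, 0, 1, 0, 1, 1, 0, 0], [1, 0, 1, 1, 0, 0, 0, 1, 0, 0, 1, 1, 0, 1, 0,
  0]]) (L := fun i => decide (lv [1, 1, 1, 1, 1, 1, 1, 0, 1, 1, 0, 0, 0, 0, 0, 0] i = 1))
    (by decide +kernel) (by decide +kernel)

theorem co7x17 : HasCfO 7 6 9 17 :=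
HasCfO.of_ok (n := 17) (τ := 27) (ν := 8) (T := 2) (S := lm [[0, 0, 1, 0, 0, 0, 1, 0, 0, 0, 0,
  0, 0, 0, 0, 0, 0], [0, 0, 0, 0, 0, 1, 0, 0, 0, 0, 0, 0, 0, 0, 0, 0, 0], [1, 0, 0, -1, 0, 0, 0,
  0, 0, 0, 0, 0, 0, 0, 0, 0, 0], [0, 0, -1, 0, 0, 1, 1, 0, 0, 0, 0, 0, 0, 0, 0, 0, 0], [0, 0, 0,
  0, 0, -1, 0, 0, 1, 0, 0, 0, 0, 0, 0, 0, 0], [0, 1, 0, 1, -1, 0, 0, 0, 0, 0, 0, 0, 0, 0, 0, 0,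
  0], [1, 0, 0, 1, 0, 0, 0, 1, 0, 0, 0, 0, 0, 0, 0, 0, 0], [0, 0, 0, 0, 0, 0, 1, 0, 0, 0, -1, 0,
  0, 0, 0, 0, 0], [0, 0, 0, 0, 1, 0, 0, 0, 0, 0, 0, 0, 0, 0, 0, 1, 0], [0, 0, 0, 0, 0, 0, 0, 0,
  0, 0, 1, 0, -1, 0, 0, 0, 0], [0, 0, 0, 0, 0, 0, 0, -1, 0, 1, 0, 0, 0, 0, 0, 0, 0], [0, 0, 0,
  0, 0, 0, 0, 0, 0, 0, 0, 0, 1, 0, -1, 0, 0], [0, 0, 0, 0, 0, 0, 0, 0, 0, -1, 0, 1, 0, 0, 0, 0,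
  0], [0, 0, 0, 0, 0, 0, 0, 0, 0, 0, 0, 0, 0, 0, 1, 0, -1], [0, 0, 0, 0, 0, 0, 0, 0, 0, 0, 0,
  -1, 0, 1, 0, 0, 0], [0, 0, 0, 0, 0, 0, 0, 0, 1, 0, 0, 0, 0, 0, 0, 0, 1], [0, 0, 0, 0, 0, 0, 0,
  0, 0, 0, 0, 0, 0, -1, 0, 1, 0]]) (G := lm [[0, 0, 0, 0, 0, 0, 0, 0, 0, 0, 0, 0, 0, 0, 0, 0,
  0], [0, 0, 0, 0, 0, 0, 0, 0, 0, 0, 0, 0, 0, 0, 0, 0, 0], [0, 0, 0, 0, 0, 0, 0, 0, 0, 0, 0, 0,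
  0, 0, 0, 0, 0], [1, -1, 0, 0, 0, 0, 0, 0, 0, 0, 0, 0, 0, 0, 0, 0, 0], [0, 1, -1, 0, 0, 0, 0,
  0, 0, 0, 0, 0, 0, 0, 0, 0, 0], [-1, 0, 1, 0, 0, 0, 0, 0, 0, 0, 0, 0, 0, 0, 0, 0, 0], [0, 0, 0,
  0, 0, 0, 0, 0, 0, 0, 0, 0, 0, 0, 0, 0, 0], [0, 0, 0, 0, 0, 0, 0, 0, 0, 0, 0, 0, 0, 0, 0, 0,
  0], [0, 0, 0, 0, 0, 0, 0, 0, 0, 0, 0, 0, 0, 0, 0, 0, 0], [0, 0, 0, 0, 0, 0, 0, 0, 0, 0, 0, 0,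
  0, 0, 0, 0, 0], [0, 0, 0, 0, 0, 0, 0, 0, 0, 0, 0, 0, 0, 0, 0, 0, 0], [0, 0, 0, 0, 0, 0, 0, 0,
  0, 0, 0, 0, 0, 0, 0, 0, 0], [0, 0, 0, 0, 0, 0, 0, 0, 0, 0, 0, 0, 0, 0, 0, 0, 0], [0, 0, 0, 0,
  0, 0, 0, 0, 0, 0, 0, 0, 0, 0, 0, 0, 0], [0, 0, 0, 0, 0, 0, 0, 0, 0, 0, 0, 0, 0, 0, 0, 0, 0],
  [0, 0, 0, 0, 0, 0, 0, 0, 0, 0, 0, 0, 0, 0, 0, 0, 0], [0, 0, 0, 0, 0, 0, 0, 0, 0, 0, 0, 0, 0,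
  0, 0, 0, 0]]) (D := lv [0, 1, 0, 0, 1, 0, 0, 1, 1, 0, 0, 0, 0, 0, 0, 0, 0]) (e := lv [1, 1, 1,
  1, 1, 1, 1, 1, 1, 0, 0, 0, 0, 0, 0, 0, 0]) (h := lv [3, 3, 3, 4, 4, 4, 3, 3, 3, 1, 1, 1, 1, 1,
  1, 1, 1]) (a := lv [-1, 2, 1, -1, 1, 2, -1, 2, 3, 2, -3, 2, -3, 2, -3, 2, -3]) (y := ![0, 1,
  2]) (u := 8) (v := 15) (u0 := 0) (LM := lm [[1, 1, 0, 1, 0, 0, 0, 0, 0, 0, 0, 0, 0, 0, 0, 0,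
  0], [1, 0, 1, 0, 0, 1, 0, 1, 1, 1, 1, 1, 1, 1, 1, 1, 1], [0, 1, 1, 0, 1, 0, 1, 0, 1, 0, 1, 0,
  1, 0, 1, 0, 1], [1, 1, 1, 1, 0, 0, 0, 0, 0, 0, 0, 0, 0, 0, 0, 0, 0], [1, 1, 1, 0, 1, 0, 1, 1,
  0, 1, 0, 1, 0, 1, 0, 1, 0], [1, 1, 1, 0, 0, 1, 0, 1, 1, 1, 1, 1, 1, 1, 1, 1, 1], [1, 1, 1, 0,
  1, 0, 1, 0, 1, 0, 1, 0, 1, 0, 1, 0, 1], [0, 0, 1, 0, 0, 0, 1, 0, 0, 0, 0, 0, 0, 0, 0, 0, 0],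
  [1, 1, 0, 0, 1, 0, 0, 1, 1, 1, 1, 1, 1, 1, 1, 1, 1], [0, 0, 1, 0, 0, 0, 1, 0, 0, 0, 1, 0, 0,
  0, 0, 0, 0], [1, 1, 0, 0, 1, 0, 0, 1, 1, 0, 1, 0, 1, 0, 1, 0, 1], [0, 0, 1, 0, 0, 0, 1, 0, 0,
  0, 1, 0, 1, 0, 0, 0, 0], [1, 1, 0, 0, 1, 0, 0, 1, 1, 1, 1, 0, 1, 0, 1, 0, 1], [0, 0, 1, 0, 0,
  0, 1, 0, 0, 0, 1, 0, 1, 0, 1, 0, 0], [1, 1, 0, 0, 1, 0, 0, 1, 1, 1, 1, 1, 1, 0, 1, 0, 1], [0,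
  0, 1, 0, 0, 0, 1, 0, 0, 0, 1, 0, 1, 0, 1, 0, 1], [1, 1, 0, 0, 1, 0, 0, 1, 1, 1, 1, 1, 1, 1, 1,
  0, 1]]) (LK := lmk [[0, 0, 0, 0, 0, 0, 0, 0, 0, 0, 0, 0, 0, 0, 0, 0, 0, 0, 0], [0, 0, 0, 0, 0,
  0, 0, 0, 1, 0, 1, 0, 1, 0, 1, 0, 1, 0, 1], [0, 0, 0, 1, 1, 1, 1, 1, 1, 1, 1, 1, 1, 1, 1, 1, 1,
  0, 1], [0, 0, 0, 1, 0, 0, 0, 0, 1, 0, 1, 0, 1, 0, 1, 0, 1, 1, 1], [0, 0, 0, 1, 0, 1, 0, 0, 0,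
  0, 0, 0, 0, 0, 0, 0, 0, 1, 0], [0, 0, 0, 1, 1, 0, 1, 0, 0, 0, 0, 0, 0, 0, 0, 0, 0, 1, 1], [0,
  0, 0, 1, 0, 1, 0, 1, 1, 1, 1, 1, 1, 1, 1, 1, 1, 1, 0], [0, 0, 0, 1, 0, 0, 1, 0, 1, 0, 1, 0, 1,
  0, 1, 0, 1, 1, 1], [0, 0, 0, 0, 0, 1, 1, 0, 0, 0, 0, 0, 0, 0, 0, 0, 0, 0, 1], [0, 0, 0, 1, 0,
  0, 1, 0, 1, 0, 0, 0, 1, 0, 1, 0, 1, 1, 1], [0, 0, 0, 0, 0, 1, 1, 0, 0, 1, 0, 1, 0, 1, 0, 1, 0,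
  0, 1], [0, 0, 0, 1, 0, 0, 1, 0, 1, 0, 0, 0, 0, 0, 1, 0, 1, 1, 1], [0, 0, 0, 0, 0, 1, 1, 0, 0,
  0, 0, 1, 0, 1, 0, 1, 0, 0, 1], [0, 0, 0, 1, 0, 0, 1, 0, 1, 0, 0, 0, 0, 0, 0, 0, 1, 1, 1], [0,
  0, 0, 0, 0, 1, 1, 0, 0, 0, 0, 0, 0, 1, 0, 1, 0, 0, 1], [0, 0, 0, 1, 0, 0, 1, 0, 1, 0, 0, 0, 0,
  0, 0, 0, 0, 1, 1], [0, 0, 0, 0, 0, 1, 1, 0, 0, 0, 0, 0, 0, 0, 0, 1, 0, 0, 1]]) (C := lm [[0,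
  0, 0, 0, 1, 0, 0, 0, 1, 0, 0, 1, 0, 1, 1, 0, 0], [0, 0, 0, 0, 0, 0, 1, 0, 1, 0, 1, 0, 0, 1, 0,
  1, 0], [0, 0, 0, 0, 0, 0, 0, 1, 0, 0, 1, 1, 1, 0, 0, 0, 1], [0, 0, 0, 0, 0, 0, 0, 0, 0, 0, 1,
  0, 1, 0, 1, 1, 0], [1, 0, 0, 0, 0, 0, 0, 0, 0, 1, 0, 0, 0, 1, 0, 0, 1], [0, 0, 0, 0, 0, 0, 0,
  0, 0, 0, 1, 1, 1, 0, 0, 0, 1], [0, 1, 0, 0, 0, 0, 0, 0, 0, 1, 1, 1, 0, 1, 0, 0, 0], [0, 0, 1,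
  0, 0, 0, 0, 0, 0, 1, 0, 1, 1, 0, 0, 1, 0], [1, 1, 0, 0, 0, 0, 0, 0, 0, 0, 0, 0, 0, 1, 1, 0,
  1], [0, 0, 0, 0, 1, 0, 1, 1, 0, 0, 0, 1, 0, 1, 1, 1, 0], [0, 1, 1, 1, 0, 1, 1, 0, 0, 0, 0, 0,
  1, 0, 1, 0, 0], [1, 0, 1, 0, 0, 1, 1, 1, 0, 1, 0, 0, 0, 0, 0, 0, 1], [0, 0, 1, 1, 0, 1, 0, 1,
  0, 0, 1, 0, 0, 0, 0, 1, 1], [1, 1, 0, 0, 1, 0, 1, 0, 1, 1, 0, 0, 0, 0, 0, 1, 0], [1, 0, 0, 1,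
  0, 0, 0, 0, 1, 1, 1, 0, 0, 0, 0, 1, 1], [0, 1, 0, 1, 0, 0, 0, 1, 0, 1, 0, 0, 1, 1, 1, 0, 0],
  [0, 0, 1, 0, 1, 1, 0, 0, 1, 0, 0, 1, 1, 0, 1, 0, 0]]) (L := fun i => decide (lv [1, 1, 1, 1,
  1, 1, 1, 1, 1, 0, 0, 0, 0, 0, 0, 0, 0] i = 1))
    (by decide +kernel) (by decide +kernel)

theorem co7x18 : HasCfO 7 6 9 18 :=
HasCfO.of_ok (n := 18) (τ := 26) (ν := 9) (T := 2) (S := lm [[0, 1, 0, 0, 0, 0, -1, 0, 1, 0, 0,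
  0, 0, 0, 0, 0, 0, 0], [1, 0, 0, 0, 0, 1, 0, 0, 0, 0, 0, 0, 0, 0, 0, 0, 1, 0], [0, 0, 0, 0, 0,
  0, 0, 1, 0, 0, 0, -1, 0, 0, 0, 0, 0, 0], [0, 0, 0, 0, 0, 0, 0, 1, 0, 1, 0, 0, 0, 0, 0, 0, 0,
  0], [0, 0, 0, 0, 0, 0, 0, -1, 0, -1, 0, 0, 0, 0, 0, 0, 0, 0], [0, 1, 0, 0, 0, 0, 1, 0, 0, 0,
  0, 0, 0, 0, 0, 0, 0, 0], [-1, 0, 0, 0, 0, 1, 0, 0, 1, 0, 0, 0, 0, 0, 0, 0, 0, 0], [0, 0, 1, 1,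
  -1, 0, 0, 0, 0, 0, 0, 0, 0, 0, 0, 0, 0, 0], [1, 0, 0, 0, 0, 0, 1, 0, 0, 0, 0, 0, 0, 0, 0, 0,
  0, 0], [0, 0, 0, 1, -1, 0, 0, 0, 0, 0, 0, 0, 0, 0, 0, 0, 0, 0], [0, 0, 0, 0, 0, 0, 0, 0, 0, 0,
  0, 1, 0, -1, 0, 0, 0, 0], [0, 0, -1, 0, 0, 0, 0, 0, 0, 0, 1, 0, 0, 0, 0, 0, 0, 0], [0, 0, 0,
  0, 0, 0, 0, 0, 0, 0, 0, 0, 0, 1, 0, -1, 0, 0], [0, 0, 0, 0, 0, 0, 0, 0, 0, 0, -1, 0, 1, 0, 0,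
  0, 0, 0], [0, 0, 0, 0, 0, 0, 0, 0, 0, 0, 0, 0, 0, 0, 0, 1, 0, -1], [0, 0, 0, 0, 0, 0, 0, 0, 0,
  0, 0, 0, -1, 0, 1, 0, 0, 0], [0, 1, 0, 0, 0, 0, 0, 0, 0, 0, 0, 0, 0, 0, 0, 0, 0, 1], [0, 0, 0,
  0, 0, 0, 0, 0, 0, 0, 0, 0, 0, 0, -1, 0, 1, 0]]) (G := lm [[0, 0, 0, 0, 0, 0, 0, 0, 0, 0, 0, 0,
  0, 0, 0, 0, 0, 0], [0, 0, 0, 0, 0, 0, 0, 0, 0, 0, 0, 0, 0, 0, 0, 0, 0, 0], [0, 0, 0, 0, 0, 0,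
  0, 0, 0, 0, 0, 0, 0, 0, 0, 0, 0, 0], [1, -1, 0, 0, 0, 0, 0, 0, 0, 0, 0, 0, 0, 0, 0, 0, 0, 0],
  [0, 1, -1, 0, 0, 0, 0, 0, 0, 0, 0, 0, 0, 0, 0, 0, 0, 0], [0, 0, 0, 0, 0, 0, 0, 0, 0, 0, 0, 0,
  0, 0, 0, 0, 0, 0], [0, 0, 0, 0, 0, 0, 0, 0, 0, 0, 0, 0, 0, 0, 0, 0, 0, 0], [0, 0, 0, 0, 0, 0,
  0, 0, 0, 0, 0, 0, 0, 0, 0, 0, 0, 0], [0, 0, 0, 0, 0, 0, 0, 0, 0, 0, 0, 0, 0, 0, 0, 0, 0, 0],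
  [0, 0, 0, 0, 0, 0, 0, 0, 0, 0, 0, 0, 0, 0, 0, 0, 0, 0], [0, 0, 0, 0, 0, 0, 0, 0, 0, 0, 0, 0,
  0, 0, 0, 0, 0, 0], [0, 0, 0, 0, 0, 0, 0, 0, 0, 0, 0, 0, 0, 0, 0, 0, 0, 0], [0, 0, 0, 0, 0, 0,
  0, 0, 0, 0, 0, 0, 0, 0, 0, 0, 0, 0], [0, 0, 0, 0, 0, 0, 0, 0, 0, 0, 0, 0, 0, 0, 0, 0, 0, 0],
  [0, 0, 0, 0, 0, 0, 0, 0, 0, 0, 0, 0, 0, 0, 0, 0, 0, 0], [0, 0, 0, 0, 0, 0, 0, 0, 0, 0, 0, 0,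
  0, 0, 0, 0, 0, 0], [0, 0, 0, 0, 0, 0, 0, 0, 0, 0, 0, 0, 0, 0, 0, 0, 0, 0], [0, 0, 0, 0, 0, 0,
  0, 0, 0, 0, 0, 0, 0, 0, 0, 0, 0, 0]]) (D := lv [0, 1, 1, 1, 1, 1, 0, 1, 1, 1, 0, 0, 0, 0, 0,
  0, 0, 0]) (e := lv [1, 1, 1, 1, 1, 1, 1, 0, 1, 1, 0, 0, 0, 0, 0, 0, 0, 0]) (h := lv [3, 4, 3,
  4, 4, 3, 3, 2, 3, 3, 1, 1, 1, 1, 1, 1, 1, 1]) (a := lv [2, -2, -3, 1, -1, -1, 1, -1, 3, 2, -3,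
  2, -3, 2, -3, 2, -3, 2]) (y := ![0, 1, 2]) (u := 1) (v := 16) (u0 := 2) (LM := lm [[1, 0, 0,
  0, 0, 1, 1, 0, 0, 0, 0, 0, 0, 0, 0, 0, 0, 0], [0, 0, 0, 0, 0, 1, 1, 0, 1, 0, 0, 0, 0, 0, 0, 0,
  0, 0], [1, 0, 1, 1, 1, 0, 0, 1, 1, 0, 1, 0, 1, 0, 1, 0, 1, 0], [0, 0, 1, 0, 1, 0, 0, 0, 0, 1,
  1, 0, 1, 0, 1, 0, 1, 0], [0, 0, 0, 0, 1, 1, 1, 1, 1, 1, 0, 0, 0, 0, 0, 0, 0, 0], [0, 1, 1, 1,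
  1, 0, 0, 1, 0, 0, 1, 1, 1, 1, 1, 1, 1, 1], [0, 1, 1, 1, 1, 0, 1, 1, 1, 0, 1, 1, 1, 1, 1, 1, 1,
  1], [1, 0, 0, 1, 1, 1, 1, 1, 0, 0, 0, 0, 0, 0, 0, 0, 0, 0], [1, 1, 1, 1, 1, 1, 0, 1, 0, 0, 1,
  1, 1, 1, 1, 1, 1, 1], [0, 0, 1, 0, 0, 1, 1, 1, 1, 1, 1, 0, 1, 0, 1, 0, 1, 0], [1, 0, 1, 1, 1,
  0, 0, 1, 1, 0, 1, 1, 1, 0, 1, 0, 1, 0], [0, 0, 0, 0, 0, 1, 1, 0, 1, 0, 1, 0, 1, 0, 1, 0, 1,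
  0], [1, 0, 1, 1, 1, 0, 0, 1, 1, 0, 1, 1, 1, 1, 1, 0, 1, 0], [0, 0, 0, 0, 0, 1, 1, 0, 1, 0, 0,
  0, 1, 0, 1, 0, 1, 0], [1, 0, 1, 1, 1, 0, 0, 1, 1, 0, 1, 1, 1, 1, 1, 1, 1, 0], [0, 0, 0, 0, 0,
  1, 1, 0, 1, 0, 0, 0, 0, 0, 1, 0, 1, 0], [1, 0, 1, 1, 1, 0, 0, 1, 1, 0, 1, 1, 1, 1, 1, 1, 1,
  1], [0, 0, 0, 0, 0, 1, 1, 0, 1, 0, 0, 0, 0, 0, 0, 0, 1, 0]]) (LK := lmk [[0, 0, 0, 1, 1, 1, 0,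
  1, 1, 1, 0, 0, 0, 0, 0, 0, 0, 0, 0, 1], [0, 0, 0, 0, 0, 1, 1, 0, 1, 0, 0, 0, 0, 0, 0, 0, 0, 0,
  0, 0], [0, 0, 0, 0, 0, 0, 0, 0, 0, 0, 0, 0, 0, 0, 0, 0, 0, 0, 0, 0], [0, 0, 0, 1, 0, 0, 0, 1,
  0, 1, 0, 0, 0, 0, 0, 0, 0, 0, 0, 0], [0, 0, 0, 0, 1, 0, 0, 1, 0, 1, 0, 0, 0, 0, 0, 0, 0, 0, 0,
  0], [0, 0, 0, 1, 1, 1, 1, 1, 0, 0, 1, 1, 1, 1, 1, 1, 1, 1, 1, 0], [0, 0, 0, 1, 1, 1, 0, 1, 1,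
  0, 1, 1, 1, 1, 1, 1, 1, 1, 1, 0], [0, 0, 0, 1, 1, 0, 0, 1, 0, 0, 0, 0, 0, 0, 0, 0, 0, 0, 0,
  0], [0, 0, 0, 0, 0, 0, 0, 0, 1, 1, 1, 1, 1, 1, 1, 1, 1, 1, 1, 1], [0, 0, 0, 1, 1, 0, 0, 0, 0,
  1, 0, 0, 0, 0, 0, 0, 0, 0, 0, 0], [0, 0, 0, 0, 0, 0, 0, 0, 0, 0, 0, 1, 0, 0, 0, 0, 0, 0, 0,
  0], [0, 0, 0, 0, 0, 1, 1, 0, 1, 0, 1, 0, 1, 0, 1, 0, 1, 0, 0, 0], [0, 0, 0, 0, 0, 0, 0, 0, 0,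
  0, 0, 1, 0, 1, 0, 0, 0, 0, 0, 0], [0, 0, 0, 0, 0, 1, 1, 0, 1, 0, 0, 0, 1, 0, 1, 0, 1, 0, 0,
  0], [0, 0, 0, 0, 0, 0, 0, 0, 0, 0, 0, 1, 0, 1, 0, 1, 0, 0, 0, 0], [0, 0, 0, 0, 0, 1, 1, 0, 1,
  0, 0, 0, 0, 0, 1, 0, 1, 0, 0, 0], [0, 0, 0, 0, 0, 0, 0, 0, 0, 0, 0, 1, 0, 1, 0, 1, 0, 1, 0,
  0], [0, 0, 0, 0, 0, 1, 1, 0, 1, 0, 0, 0, 0, 0, 0, 0, 1, 0, 0, 0]]) (C := lm [[0, 0, 0, 0, 1,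
  0, 0, 0, 0, 0, 1, 1, 1, 1, 0, 0, 0, 0], [0, 0, 0, 0, 0, 0, 0, 0, 0, 0, 0, 0, 1, 1, 1, 1, 0,
  0], [0, 0, 0, 0, 0, 1, 1, 0, 0, 1, 0, 0, 0, 1, 0, 0, 0, 1], [0, 0, 0, 0, 0, 0, 0, 0, 0, 0, 1,
  0, 0, 0, 1, 1, 1, 0], [1, 0, 0, 0, 0, 0, 0, 0, 0, 0, 0, 0, 1, 0, 0, 0, 1, 1], [0, 0, 1, 0, 0,
  0, 0, 0, 0, 0, 0, 0, 1, 1, 0, 1, 0, 1], [0, 0, 1, 0, 0, 0, 0, 0, 0, 1, 0, 0, 0, 0, 1, 0, 1,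
  1], [0, 0, 0, 0, 0, 0, 0, 0, 0, 1, 1, 1, 0, 1, 1, 1, 0, 0], [0, 0, 0, 0, 0, 0, 0, 0, 0, 0, 1,
  1, 1, 0, 0, 1, 0, 1], [0, 0, 1, 0, 0, 0, 1, 1, 0, 0, 0, 0, 0, 0, 0, 1, 1, 0], [1, 0, 0, 1, 0,
  0, 0, 1, 1, 0, 0, 0, 1, 0, 0, 0, 1, 1], [1, 0, 0, 0, 0, 0, 0, 1, 1, 0, 0, 0, 0, 1, 1, 0, 1,
  1], [1, 1, 0, 0, 1, 1, 0, 0, 1, 0, 1, 0, 0, 0, 1, 0, 0, 0], [1, 1, 1, 0, 0, 1, 0, 1, 0, 0, 0,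
  1, 0, 0, 0, 1, 0, 0], [0, 1, 0, 1, 0, 0, 1, 1, 0, 0, 0, 1, 1, 0, 0, 0, 1, 0], [0, 1, 0, 1, 0,
  1, 0, 1, 1, 1, 0, 0, 0, 1, 0, 0, 0, 0], [0, 0, 0, 1, 1, 0, 1, 0, 0, 1, 1, 1, 0, 0, 1, 0, 0,
  0], [0, 0, 1, 0, 1, 1, 1, 0, 1, 0, 1, 1, 0, 0, 0, 0, 0, 0]]) (L := fun i => decide (lv [1, 1,
  1, 1, 1, 1, 1, 0, 1, 1, 0, 0, 0, 0, 0, 0, 0, 0] i = 1))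
    (by decide +kernel) (by decide +kernel)

theorem co8x11 : HasCfO 8 6 2 11 :=
HasCfO.of_ok (n := 11) (τ := 8) (ν := 1) (T := 2) (S := lm [[0, 0, 0, 0, 0, 0, 1, 0, 0, 0, -1],
  [0, 0, 0, 0, 0, 0, 0, 1, 0, 0, 0], [0, 0, 0, 1, 0, 1, 0, 0, 0, 0, 0], [0, 0, 1, 0, 1, 0, 1, 0,
  0, 0, 0], [0, 0, 0, 1, 0, 0, 0, 0, 1, 0, 0], [0, 0, 1, 0, 0, 0, 0, 1, 0, 0, 0], [1, 0, 0, 1,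
  0, 0, 0, 0, 0, 0, 0], [0, 1, 0, 0, 0, 1, 0, 0, 0, 0, 0], [0, 0, 0, 0, 1, 0, 0, 0, 0, 1, 0],
  [0, 0, 0, 0, 0, 0, 0, 0, 1, 0, 1], [-1, 0, 0, 0, 0, 0, 0, 0, 0, 1, 0]]) (G := lm [[0, 0, 0, 0,
  0, 0, 0, 0, 0, 0, 0], [0, 0, 0, 0, 0, 0, 0, 0, 0, 0, 0], [0, 0, 0, 0, 0, 0, 0, 0, 0, 0, 0],
  [1, -1, 0, 0, 0, 0, 0, 0, 0, 0, 0], [0, 1, -1, 0, 0, 0, 0, 0, 0, 0, 0], [0, 0, 0, 0, 0, 0, 0,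
  0, 0, 0, 0], [0, 0, 0, 0, 0, 0, 0, 0, 0, 0, 0], [0, 0, 0, 0, 0, 0, 0, 0, 0, 0, 0], [0, 0, 0,
  0, 0, 0, 0, 0, 0, 0, 0], [0, 0, 0, 0, 0, 0, 0, 0, 0, 0, 0], [0, 0, 0, 0, 0, 0, 0, 0, 0, 0,
  0]]) (D := lv [1, 1, 1, 0, 1, 1, 1, 0, 1, 1, 1]) (e := lv [1, 1, 1, 1, 1, 1, 1, 0, 1, 1, 1])
  (h := lv [3, 3, 3, 4, 4, 3, 3, 1, 3, 3, 3]) (a := lv [2, 1, -2, -1, 1, -1, 1, 1, 2, 1, -1]) (y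
  := ![0, 1, 2]) (u := 4) (v := 8) (u0 := 1) (LM := lm [[0, 0, 0, 1, 1, 0, 1, 0, 0, 1, 1], [1,
  1, 0, 1, 0, 1, 0, 1, 1, 1, 0], [0, 1, 0, 0, 0, 1, 0, 1, 0, 0, 0], [1, 0, 1, 1, 0, 0, 0, 1, 1,
  1, 0], [0, 0, 1, 1, 0, 0, 1, 1, 0, 0, 0], [1, 1, 0, 1, 0, 1, 0, 0, 1, 1, 0], [1, 0, 1, 0, 1,
  0, 0, 1, 1, 0, 1], [1, 0, 0, 1, 0, 1, 0, 1, 1, 1, 0], [0, 0, 0, 1, 1, 0, 1, 0, 0, 0, 0], [0,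
  0, 1, 0, 1, 0, 0, 1, 1, 0, 0], [0, 0, 1, 1, 0, 0, 1, 1, 1, 1, 0]]) (LK := lmk [[0, 0, 0, 1, 0,
  0, 0, 1, 0, 1, 0, 0, 1], [0, 0, 0, 0, 0, 0, 0, 0, 0, 0, 0, 0, 0], [0, 0, 0, 1, 1, 0, 1, 0, 0,
  1, 1, 0, 0], [0, 0, 0, 1, 1, 1, 1, 1, 1, 1, 1, 1, 1], [0, 0, 0, 0, 0, 1, 1, 0, 1, 1, 0, 1, 0],
  [0, 0, 0, 0, 0, 0, 0, 1, 0, 0, 0, 0, 0], [0, 0, 0, 0, 1, 1, 0, 0, 1, 0, 1, 1, 0], [0, 0, 0, 1,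
  1, 1, 1, 1, 0, 1, 1, 0, 0], [0, 0, 0, 1, 0, 0, 0, 1, 0, 0, 1, 0, 1], [0, 0, 0, 1, 0, 1, 1, 1,
  0, 1, 1, 1, 1], [0, 0, 0, 0, 0, 1, 1, 0, 0, 0, 0, 1, 0]]) (C := lm [[0, 1, 1, 0, 1, 1, 0, 1,
  1, 0, 0], [1, 0, 0, 0, 0, 1, 1, 0, 1, 1, 1], [1, 0, 0, 0, 0, 0, 1, 1, 1, 1, 1], [0, 0, 0, 0,
  0, 1, 0, 1, 1, 1, 1], [1, 0, 0, 0, 0, 0, 1, 1, 0, 1, 1], [1, 1, 0, 1, 0, 0, 1, 0, 1, 1, 0],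
  [0, 1, 1, 0, 1, 1, 0, 1, 0, 0, 1], [1, 0, 1, 1, 1, 0, 1, 0, 1, 1, 1], [1, 1, 1, 1, 0, 1, 0, 1,
  0, 0, 0], [0, 1, 1, 1, 1, 1, 0, 1, 0, 0, 0], [0, 1, 1, 1, 1, 0, 1, 1, 0, 0, 0]]) (L := fun i
  => decide (lv [0, 0, 0, 1, 1, 0, 0, 0, 0, 0, 0] i = 1))
    (by decide +kernel) (by decide +kernel)

theorem co8x12 : HasCfO 8 6 4 12 :=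
HasCfO.of_ok (n := 12) (τ := 14) (ν := 2) (T := 2) (S := lm [[0, 1, 0, 0, 0, 0, 0, -1, 0, 1, 0,
  0], [1, 0, 0, 0, 0, 1, 0, 0, 0, 0, 1, 0], [0, 0, 0, 0, 0, 0, 1, 0, 1, 0, 0, 0], [0, 0, 0, 0,
  1, 1, 0, 0, 0, 0, 0, 0], [0, 0, 0, 1, 0, 0, 0, 1, 0, 0, 0, 0], [0, 1, 0, 1, 0, 0, 0, 0, 1, 1,
  0, 0], [0, 0, 1, 0, 0, 0, 0, 0, 0, -1, 0, -1], [-1, 0, 0, 0, 1, 0, 0, 0, 0, 0, 0, 0], [0, 0,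
  1, 0, 0, 1, 0, 0, 0, 0, 0, 0], [1, 0, 0, 0, 0, 1, -1, 0, 0, 0, 0, 0], [0, 1, 0, 0, 0, 0, 0, 0,
  0, 0, 0, 1], [0, 0, 0, 0, 0, 0, -1, 0, 0, 0, 1, 0]]) (G := lm [[0, 0, 0, 0, 0, 0, 0, 0, 0, 0,
  0, 0], [0, 0, 0, 0, 0, 0, 0, 0, 0, 0, 0, 0], [0, 0, 0, 0, 0, 0, 0, 0, 0, 0, 0, 0], [1, -1, 0,
  0, 0, 0, 0, 0, 0, 0, 0, 0], [0, 1, -1, 0, 0, 0, 0, 0, 0, 0, 0, 0], [0, 0, 0, 0, 0, 0, 0, 0, 0,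
  0, 0, 0], [0, 0, 0, 0, 0, 0, 0, 0, 0, 0, 0, 0], [0, 0, 0, 0, 0, 0, 0, 0, 0, 0, 0, 0], [0, 0,
  0, 0, 0, 0, 0, 0, 0, 0, 0, 0], [0, 0, 0, 0, 0, 0, 0, 0, 0, 0, 0, 0], [0, 0, 0, 0, 0, 0, 0, 0,
  0, 0, 0, 0], [0, 0, 0, 0, 0, 0, 0, 0, 0, 0, 0, 0]]) (D := lv [0, 1, 1, 1, 1, 1, 0, 1, 1, 0, 0,
  0]) (e := lv [1, 1, 1, 1, 1, 1, 1, 1, 1, 1, 0, 0]) (h := lv [3, 4, 3, 4, 4, 4, 3, 3, 3, 3, 1,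
  1]) (a := lv [-2, -2, 3, -2, -3, 1, -1, -1, 4, 1, -1, 2]) (y := ![0, 1, 2]) (u := 1) (v := 10)
  (u0 := 2) (LM := lm [[0, 0, 1, 0, 0, 0, 0, 0, 1, 1, 0, 0], [0, 1, 0, 0, 0, 0, 0, 0, 0, 1, 0,
  1], [0, 1, 1, 0, 1, 1, 1, 1, 0, 0, 1, 1], [0, 0, 0, 0, 0, 1, 1, 0, 1, 0, 1, 0], [1, 1, 0, 0,
  1, 1, 0, 0, 1, 1, 0, 1], [1, 0, 1, 1, 1, 0, 1, 0, 1, 1, 1, 0], [1, 0, 0, 1, 1, 0, 1, 0, 0, 1,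
  1, 0], [1, 1, 1, 0, 1, 1, 0, 1, 0, 0, 0, 1], [1, 1, 0, 1, 0, 1, 0, 1, 0, 1, 0, 1], [0, 0, 1,
  0, 1, 1, 0, 1, 0, 1, 0, 0], [1, 0, 0, 1, 1, 0, 1, 0, 0, 1, 1, 1], [0, 1, 0, 0, 0, 0, 0, 0, 0,
  1, 1, 1]]) (LK := lmk [[0, 0, 0, 0, 1, 1, 1, 1, 1, 0, 1, 0, 0, 0], [0, 0, 0, 0, 1, 0, 0, 0, 1,
  0, 0, 0, 0, 1], [0, 0, 0, 0, 0, 0, 0, 0, 0, 0, 0, 0, 0, 0], [0, 0, 0, 0, 0, 1, 1, 0, 1, 0, 1,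
  0, 0, 0], [0, 0, 0, 0, 1, 0, 1, 1, 0, 0, 1, 1, 1, 1], [0, 0, 0, 1, 1, 1, 0, 1, 1, 0, 0, 1, 1,
  1], [0, 0, 0, 1, 0, 0, 1, 0, 0, 1, 1, 1, 1, 1], [0, 0, 0, 0, 0, 1, 0, 1, 1, 0, 0, 1, 1, 1],
  [0, 0, 0, 1, 1, 1, 0, 1, 0, 0, 0, 1, 1, 1], [0, 0, 0, 0, 1, 0, 1, 0, 1, 0, 1, 0, 0, 1], [0, 0,
  0, 1, 0, 0, 1, 0, 0, 1, 1, 0, 1, 1], [0, 0, 0, 0, 1, 0, 0, 0, 1, 0, 1, 0, 0, 1]]) (C := lm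
  [[0, 0, 1, 0, 1, 1, 0, 0, 1, 0, 1, 1], [0, 0, 1, 0, 0, 0, 1, 1, 1, 0, 0, 1], [1, 1, 0, 0, 0,
  1, 0, 0, 0, 1, 1, 1], [0, 0, 0, 0, 0, 0, 1, 1, 0, 1, 1, 1], [1, 0, 0, 0, 0, 0, 1, 0, 1, 1, 0,
  1], [1, 0, 1, 0, 0, 0, 1, 0, 0, 0, 1, 1], [0, 1, 0, 1, 1, 1, 0, 1, 0, 0, 1, 0], [0, 1, 0, 1,
  0, 0, 1, 0, 0, 1, 1, 1], [1, 1, 0, 0, 1, 0, 0, 0, 0, 1, 1, 1], [0, 0, 1, 1, 1, 0, 0, 1, 1, 0,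
  1, 0], [1, 0, 1, 1, 0, 1, 1, 1, 1, 1, 0, 0], [1, 1, 1, 1, 1, 1, 0, 1, 1, 0, 0, 0]]) (L := fun
  i => decide (lv [0, 1, 0, 1, 1, 1, 0, 0, 0, 0, 0, 0] i = 1))
    (by decide +kernel) (by decide +kernel)

theorem co8x14 : HasCfO 8 6 4 14 :=
HasCfO.of_ok (n := 14) (τ := 18) (ν := 4) (T := 2) (S := lm [[0, 1, 0, 0, 0, 0, 0, -1, 0, 1, 0,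
  0, 0, 0], [1, 0, 0, 0, 0, 1, 0, 0, 0, 0, 0, 0, 1, 0], [0, 0, 0, 0, 0, 0, 1, 0, 1, 0, 0, 0, 0,
  0], [0, 0, 0, 0, 1, 1, 0, 0, 0, 0, 0, 0, 0, 0], [0, 0, 0, 1, 0, 0, 0, 1, 0, 0, 0, 0, 0, 0],
  [0, 1, 0, 1, 0, 0, 0, 0, 1, 1, 0, 0, 0, 0], [0, 0, 1, 0, 0, 0, 0, 0, 0, -1, 0, -1, 0, 0], [-1,
  0, 0, 0, 1, 0, 0, 0, 0, 0, 0, 0, 0, 0], [0, 0, 1, 0, 0, 1, 0, 0, 0, 0, 0, 0, 0, 0], [1, 0, 0,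
  0, 0, 1, -1, 0, 0, 0, 0, 0, 0, 0], [0, 0, 0, 0, 0, 0, 0, 0, 0, 0, 0, 1, 0, -1], [0, 0, 0, 0,
  0, 0, -1, 0, 0, 0, 1, 0, 0, 0], [0, 1, 0, 0, 0, 0, 0, 0, 0, 0, 0, 0, 0, 1], [0, 0, 0, 0, 0, 0,
  0, 0, 0, 0, -1, 0, 1, 0]]) (G := lm [[0, 0, 0, 0, 0, 0, 0, 0, 0, 0, 0, 0, 0, 0], [0, 0, 0, 0,
  0, 0, 0, 0, 0, 0, 0, 0, 0, 0], [0, 0, 0, 0, 0, 0, 0, 0, 0, 0, 0, 0, 0, 0], [1, -1, 0, 0, 0, 0,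
  0, 0, 0, 0, 0, 0, 0, 0], [0, 1, -1, 0, 0, 0, 0, 0, 0, 0, 0, 0, 0, 0], [0, 0, 0, 0, 0, 0, 0, 0,
  0, 0, 0, 0, 0, 0], [0, 0, 0, 0, 0, 0, 0, 0, 0, 0, 0, 0, 0, 0], [0, 0, 0, 0, 0, 0, 0, 0, 0, 0,
  0, 0, 0, 0], [0, 0, 0, 0, 0, 0, 0, 0, 0, 0, 0, 0, 0, 0], [0, 0, 0, 0, 0, 0, 0, 0, 0, 0, 0, 0,
  0, 0], [0, 0, 0, 0, 0, 0, 0, 0, 0, 0, 0, 0, 0, 0], [0, 0, 0, 0, 0, 0, 0, 0, 0, 0, 0, 0, 0, 0],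
  [0, 0, 0, 0, 0, 0, 0, 0, 0, 0, 0, 0, 0, 0], [0, 0, 0, 0, 0, 0, 0, 0, 0, 0, 0, 0, 0, 0]]) (D :=
  lv [0, 1, 1, 1, 1, 1, 0, 1, 1, 0, 0, 0, 0, 0]) (e := lv [1, 1, 1, 1, 1, 1, 1, 1, 1, 1, 0, 0,
  0, 0]) (h := lv [3, 4, 3, 4, 4, 4, 3, 3, 3, 3, 1, 1, 1, 1]) (a := lv [-2, -2, 3, -2, -3, 1,
  -1, -1, 4, 1, -1, 2, -1, 2]) (y := ![0, 1, 2]) (u := 1) (v := 12) (u0 := 2) (LM := lm [[0, 0,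
  1, 0, 0, 0, 0, 0, 1, 1, 0, 0, 0, 0], [0, 1, 0, 0, 0, 0, 0, 0, 0, 1, 0, 1, 0, 1], [0, 1, 1, 0,
  1, 1, 1, 1, 0, 0, 1, 1, 1, 1], [0, 0, 0, 0, 0, 1, 1, 0, 1, 0, 1, 0, 1, 0], [1, 1, 0, 0, 1, 1,
  0, 0, 1, 1, 0, 1, 0, 1], [1, 0, 1, 1, 1, 0, 1, 0, 1, 1, 1, 0, 1, 0], [1, 0, 0, 1, 1, 0, 1, 0,
  0, 1, 1, 0, 1, 0], [1, 1, 1, 0, 1, 1, 0, 1, 0, 0, 0, 1, 0, 1], [1, 1, 0, 1, 0, 1, 0, 1, 0, 1,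
  0, 1, 0, 1], [0, 0, 1, 0, 1, 1, 0, 1, 0, 1, 0, 0, 0, 0], [1, 0, 0, 1, 1, 0, 1, 0, 0, 1, 1, 1,
  1, 0], [0, 1, 0, 0, 0, 0, 0, 0, 0, 1, 1, 1, 1, 1], [1, 0, 0, 1, 1, 0, 1, 0, 0, 1, 1, 1, 1, 1],
  [0, 1, 0, 0, 0, 0, 0, 0, 0, 1, 0, 1, 1, 1]]) (LK := lmk [[0, 0, 0, 0, 1, 1, 1, 1, 1, 0, 1, 0,
  1, 0, 0, 0], [0, 0, 0, 0, 1, 0, 0, 0, 1, 0, 0, 0, 0, 0, 0, 1], [0, 0, 0, 0, 0, 0, 0, 0, 0, 0,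
  0, 0, 0, 0, 0, 0], [0, 0, 0, 0, 0, 1, 1, 0, 1, 0, 1, 0, 1, 0, 0, 0], [0, 0, 0, 0, 1, 0, 1, 1,
  0, 0, 1, 1, 1, 1, 1, 1], [0, 0, 0, 1, 1, 1, 0, 1, 1, 0, 0, 1, 0, 1, 1, 1], [0, 0, 0, 1, 0, 0,
  1, 0, 0, 1, 1, 1, 1, 1, 1, 1], [0, 0, 0, 0, 0, 1, 0, 1, 1, 0, 0, 1, 0, 1, 1, 1], [0, 0, 0, 1,
  1, 1, 0, 1, 0, 0, 0, 1, 0, 1, 1, 1], [0, 0, 0, 0, 1, 0, 1, 0, 1, 0, 1, 0, 1, 0, 0, 1], [0, 0,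
  0, 1, 0, 0, 1, 0, 0, 1, 1, 0, 1, 1, 1, 1], [0, 0, 0, 0, 1, 0, 0, 0, 1, 0, 1, 0, 1, 0, 0, 1],
  [0, 0, 0, 1, 0, 0, 1, 0, 0, 1, 1, 0, 1, 0, 1, 1], [0, 0, 0, 0, 1, 0, 0, 0, 1, 0, 0, 0, 1, 0,
  0, 1]]) (C := lm [[0, 0, 0, 0, 0, 1, 0, 0, 1, 0, 1, 1, 1, 1], [0, 0, 1, 0, 0, 0, 1, 1, 0, 1,
  1, 0, 0, 0], [0, 1, 0, 1, 0, 1, 0, 0, 0, 0, 1, 0, 1, 1], [0, 0, 1, 0, 0, 0, 1, 0, 0, 0, 0, 1,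
  1, 1], [0, 0, 0, 0, 0, 1, 0, 0, 1, 1, 0, 1, 1, 0], [1, 0, 1, 0, 1, 0, 0, 0, 0, 0, 1, 1, 0, 0],
  [0, 1, 0, 1, 0, 0, 0, 1, 1, 0, 1, 0, 0, 1], [0, 1, 0, 0, 0, 0, 1, 0, 0, 1, 1, 0, 1, 1], [1, 0,
  0, 0, 1, 0, 1, 0, 0, 0, 0, 1, 1, 1], [0, 1, 0, 0, 1, 0, 0, 1, 0, 0, 1, 1, 0, 1], [1, 1, 1, 0,
  0, 1, 1, 1, 0, 1, 0, 0, 1, 0], [1, 0, 0, 1, 1, 1, 0, 0, 1, 1, 0, 0, 1, 1], [1, 0, 1, 1, 1, 0,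
  0, 1, 1, 0, 1, 1, 0, 0], [1, 0, 1, 1, 0, 0, 1, 1, 1, 1, 0, 1, 0, 0]]) (L := fun i => decide
  (lv [0, 1, 0, 1, 1, 1, 0, 0, 0, 0, 0, 0, 0, 0] i = 1))
    (by decide +kernel) (by decide +kernel)

theorem co9x12 : HasCfO 9 7 4 12 :=
HasCfO.of_ok (n := 12) (τ := 12) (ν := 1) (T := 2) (S := lm [[0, 0, 0, 0, 0, 0, 0, 1, 1, 0, 0,
  0], [0, 0, -1, 0, 0, 1, 0, 0, 1, 0, 0, 0], [0, -1, 0, 0, 0, 0, 1, 0, 0, 0, 0, 0], [0, 0, 0, 0,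
  1, 0, 0, -1, 0, 0, 0, 0], [0, 0, 0, 1, 0, 0, 0, 0, 0, 1, 0, 0], [0, 1, 0, 0, 0, 0, 1, 0, 0, 0,
  0, -1], [0, 0, 1, 0, 0, 1, 0, 0, 0, 0, 0, 0], [1, 0, 0, -1, 0, 0, 0, 0, 0, 0, 0, 0], [1, 1, 0,
  0, 0, 0, 0, 0, 0, 0, 0, 0], [0, 0, 0, 0, 1, 0, 0, 0, 0, 0, 1, 0], [0, 0, 0, 0, 0, 0, 0, 0, 0,
  1, 0, 1], [0, 0, 0, 0, 0, -1, 0, 0, 0, 0, 1, 0]]) (G := lm [[0, 0, 0, 0, 0, 0, 0, 0, 0, 0, 0,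
  0], [0, 0, 0, 0, 0, 0, 0, 0, 0, 0, 0, 0], [0, 0, 0, 0, 0, 0, 0, 0, 0, 0, 0, 0], [1, -1, 0, 0,
  0, 0, 0, 0, 0, 0, 0, 0], [0, 1, -1, 0, 0, 0, 0, 0, 0, 0, 0, 0], [-1, 0, 1, 0, 0, 0, 0, 0, 0,
  0, 0, 0], [0, 0, 0, 0, 0, 0, 0, 0, 0, 0, 0, 0], [0, 0, 0, 0, 0, 0, 0, 0, 0, 0, 0, 0], [0, 0,
  0, 0, 0, 0, 0, 0, 0, 0, 0, 0], [0, 0, 0, 0, 0, 0, 0, 0, 0, 0, 0, 0], [0, 0, 0, 0, 0, 0, 0, 0,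
  0, 0, 0, 0], [0, 0, 0, 0, 0, 0, 0, 0, 0, 0, 0, 0]]) (D := lv [0, 1, 0, 1, 1, 0, 0, 1, 1, 1, 1,
  1]) (e := lv [1, 1, 1, 1, 1, 1, 0, 1, 1, 1, 1, 1]) (h := lv [3, 4, 3, 4, 4, 4, 1, 3, 3, 3, 3,
  3]) (a := lv [2, -1, 1, 3, 2, -1, -1, -1, 1, -1, -3, -2]) (y := ![0, 1, 2]) (u := 4) (v := 9)
  (u0 := 1) (LM := lm [[0, 1, 0, 0, 0, 0, 1, 0, 1, 0, 0, 0], [1, 0, 0, 1, 1, 0, 1, 0, 1, 0, 1,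
  1], [1, 1, 1, 0, 1, 1, 0, 1, 0, 1, 0, 1], [0, 0, 0, 1, 1, 0, 1, 1, 0, 0, 1, 1], [1, 0, 0, 0,
  1, 0, 1, 1, 1, 0, 1, 1], [1, 1, 1, 0, 1, 1, 1, 1, 0, 1, 0, 1], [1, 0, 1, 1, 1, 0, 1, 0, 1, 0,
  1, 1], [0, 1, 0, 1, 1, 0, 0, 0, 1, 0, 1, 1], [1, 1, 0, 1, 1, 0, 0, 0, 1, 0, 1, 1], [1, 1, 1,
  0, 1, 1, 1, 1, 0, 1, 1, 0], [0, 1, 1, 0, 0, 1, 0, 0, 1, 0, 0, 1], [1, 0, 0, 0, 1, 0, 1, 1, 1,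
  1, 0, 1]]) (LK := lmk [[0, 0, 0, 1, 0, 0, 0, 0, 1, 0, 1, 0, 0, 1], [0, 0, 0, 0, 0, 0, 0, 0, 0,
  0, 0, 0, 0, 0], [0, 0, 0, 1, 1, 1, 0, 1, 1, 1, 1, 1, 1, 1], [0, 0, 0, 1, 0, 1, 1, 0, 0, 1, 1,
  0, 1, 0], [0, 0, 0, 0, 0, 0, 0, 1, 1, 0, 1, 0, 0, 1], [0, 0, 0, 1, 1, 1, 1, 1, 1, 1, 1, 1, 1,
  1], [0, 0, 0, 0, 0, 1, 0, 1, 1, 1, 0, 0, 0, 1], [0, 0, 0, 0, 0, 1, 1, 1, 1, 1, 0, 0, 1, 1],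
  [0, 0, 0, 1, 0, 0, 0, 0, 0, 0, 1, 0, 0, 1], [0, 0, 0, 1, 1, 1, 1, 1, 1, 1, 0, 0, 1, 1], [0, 0,
  0, 1, 1, 1, 1, 0, 0, 0, 1, 0, 1, 0], [0, 0, 0, 0, 0, 0, 0, 1, 1, 1, 0, 0, 0, 1]]) (C := lm
  [[0, 1, 1, 0, 1, 0, 1, 0, 0, 1, 1, 1], [1, 0, 0, 0, 0, 0, 1, 1, 0, 1, 1, 1], [1, 0, 0, 1, 0,
  0, 0, 1, 1, 1, 1, 1], [0, 0, 1, 0, 0, 1, 1, 0, 1, 1, 0, 1], [1, 0, 0, 0, 0, 1, 1, 1, 1, 0, 1,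
  0], [0, 0, 0, 1, 1, 0, 0, 1, 1, 1, 1, 0], [1, 1, 0, 1, 1, 0, 0, 1, 1, 1, 1, 1], [0, 1, 1, 0,
  1, 1, 1, 0, 1, 0, 0, 1], [0, 0, 1, 1, 1, 1, 1, 1, 0, 0, 1, 0], [1, 1, 1, 1, 0, 1, 1, 0, 0, 0,
  0, 1], [1, 1, 1, 0, 1, 1, 1, 0, 1, 0, 0, 0], [1, 1, 1, 1, 0, 0, 1, 1, 0, 1, 0, 0]]) (L := fun
  i => decide (lv [0, 1, 0, 1, 1, 1, 0, 0, 0, 0, 0, 0] i = 1))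
    (by decide +kernel) (by decide +kernel)

theorem co9x13 : HasCfO 9 7 5 13 :=
HasCfO.of_ok (n := 13) (τ := 15) (ν := 2) (T := 2) (S := lm [[0, 0, 0, 0, -1, 0, 0, 0, 0, 0, 0,
  1, 0], [0, 0, 1, 0, 0, 0, 0, 0, 0, 0, 0, 0, 0], [0, 1, 0, 0, 0, 0, 1, -1, 0, 0, 0, 0, 0], [0,
  0, 0, 0, 0, -1, 1, 1, 0, 0, 0, 0, 0], [-1, 0, 0, 0, 0, 1, 0, 1, 0, 0, 0, 0, 0], [0, 0, 0, -1,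
  1, 0, 0, 0, 0, 0, 0, 0, 0], [0, 0, 1, 1, 0, 0, 0, 0, 0, 0, 0, 0, 0], [0, 0, -1, 1, 1, 0, 0, 0,
  0, 0, -1, 0, 0], [0, 0, 0, 0, 0, 0, 0, 0, 0, 1, 0, 0, -1], [0, 0, 0, 0, 0, 0, 0, 0, 1, 0, 1,
  0, 0], [0, 0, 0, 0, 0, 0, 0, -1, 0, 1, 0, 0, 0], [1, 0, 0, 0, 0, 0, 0, 0, 0, 0, 0, 0, 1], [0,
  0, 0, 0, 0, 0, 0, 0, -1, 0, 0, 1, 0]]) (G := lm [[0, 0, 0, 0, 0, 0, 0, 0, 0, 0, 0, 0, 0], [0,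
  0, 0, 0, 0, 0, 0, 0, 0, 0, 0, 0, 0], [0, 0, 0, 0, 0, 0, 0, 0, 0, 0, 0, 0, 0], [1, -1, 0, 0, 0,
  0, 0, 0, 0, 0, 0, 0, 0], [0, 1, -1, 0, 0, 0, 0, 0, 0, 0, 0, 0, 0], [-1, 0, 1, 0, 0, 0, 0, 0,
  0, 0, 0, 0, 0], [0, 0, 0, 0, 0, 0, 0, 0, 0, 0, 0, 0, 0], [0, 0, 0, 0, 0, 0, 0, 0, 0, 0, 0, 0,
  0], [0, 0, 0, 0, 0, 0, 0, 0, 0, 0, 0, 0, 0], [0, 0, 0, 0, 0, 0, 0, 0, 0, 0, 0, 0, 0], [0, 0,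
  0, 0, 0, 0, 0, 0, 0, 0, 0, 0, 0], [0, 0, 0, 0, 0, 0, 0, 0, 0, 0, 0, 0, 0], [0, 0, 0, 0, 0, 0,
  0, 0, 0, 0, 0, 0, 0]]) (D := lv [0, 1, 1, 0, 0, 1, 1, 1, 1, 1, 1, 0, 0]) (e := lv [1, 1, 1, 1,
  1, 1, 1, 1, 1, 1, 1, 0, 0]) (h := lv [3, 3, 4, 4, 4, 4, 3, 4, 3, 3, 3, 1, 1]) (a := lv [3, 2,
  2, -1, 1, 2, 1, 1, 1, -2, -3, 1, -3]) (y := ![0, 1, 2]) (u := 0) (v := 11) (u0 := 0) (LM := lm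
  [[0, 1, 0, 0, 1, 1, 0, 1, 1, 1, 0, 1, 0], [1, 0, 0, 1, 0, 1, 1, 0, 0, 1, 1, 0, 1], [1, 1, 0,
  1, 0, 1, 1, 0, 0, 1, 1, 0, 1], [0, 0, 0, 1, 1, 0, 1, 0, 0, 0, 0, 0, 0], [0, 0, 1, 0, 1, 1, 1,
  0, 0, 0, 0, 0, 0], [1, 0, 1, 0, 1, 0, 1, 1, 1, 0, 1, 1, 1], [1, 1, 0, 0, 1, 1, 1, 0, 0, 1, 1,
  0, 1], [1, 0, 1, 0, 1, 1, 1, 0, 0, 1, 1, 0, 1], [1, 0, 1, 0, 1, 1, 1, 0, 0, 0, 0, 0, 1], [1,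
  1, 1, 0, 0, 0, 1, 1, 0, 1, 0, 0, 1], [0, 1, 0, 0, 1, 1, 0, 1, 0, 0, 0, 0, 0], [1, 0, 1, 0, 1,
  1, 1, 0, 0, 0, 0, 0, 0], [0, 1, 0, 0, 1, 1, 0, 1, 1, 1, 0, 0, 0]]) (LK := lmk [[0, 0, 0, 0, 0,
  0, 0, 0, 0, 0, 0, 0, 0, 0, 0], [0, 0, 0, 1, 1, 1, 0, 1, 1, 0, 0, 1, 0, 0, 1], [0, 0, 0, 0, 1,
  1, 0, 1, 1, 1, 0, 1, 0, 0, 0], [0, 0, 0, 1, 0, 1, 1, 1, 1, 1, 0, 1, 0, 0, 0], [0, 0, 0, 1, 1,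
  0, 0, 0, 0, 1, 1, 0, 1, 1, 0], [0, 0, 0, 0, 1, 0, 1, 1, 1, 0, 1, 1, 1, 1, 0], [0, 0, 0, 1, 1,
  0, 0, 0, 0, 0, 0, 0, 0, 0, 0], [0, 0, 0, 0, 0, 0, 1, 1, 1, 0, 1, 1, 1, 1, 0], [0, 0, 0, 0, 0,
  0, 1, 1, 1, 1, 0, 1, 1, 1, 0], [0, 0, 0, 0, 0, 0, 1, 1, 0, 1, 0, 0, 1, 1, 0], [0, 0, 0, 0, 0,
  0, 0, 0, 1, 1, 0, 1, 0, 0, 0], [0, 0, 0, 0, 0, 0, 1, 1, 1, 1, 0, 1, 0, 1, 0], [0, 0, 0, 0, 0,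
  0, 0, 0, 0, 0, 0, 1, 0, 0, 0]]) (C := lm [[0, 0, 1, 0, 0, 0, 1, 1, 1, 1, 1, 0, 1], [0, 0, 0,
  0, 0, 1, 1, 1, 0, 1, 1, 1, 1], [1, 0, 0, 1, 0, 0, 0, 0, 0, 1, 1, 1, 1], [0, 0, 1, 0, 0, 0, 0,
  0, 1, 1, 1, 1, 1], [0, 0, 0, 0, 0, 0, 1, 0, 1, 1, 1, 1, 1], [0, 1, 0, 0, 0, 0, 0, 1, 1, 1, 0,
  1, 1], [1, 1, 0, 0, 1, 0, 0, 1, 1, 0, 0, 1, 1], [1, 1, 0, 0, 0, 1, 1, 0, 1, 0, 0, 1, 0], [1,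
  0, 0, 1, 1, 1, 1, 1, 0, 0, 0, 1, 0], [1, 1, 1, 1, 1, 1, 0, 0, 0, 0, 0, 0, 1], [1, 1, 1, 1, 1,
  0, 0, 0, 0, 0, 0, 1, 1], [0, 1, 1, 1, 1, 1, 1, 1, 1, 0, 1, 0, 0], [1, 1, 1, 1, 1, 1, 1, 0, 0,
  1, 1, 0, 0]]) (L := fun i => decide (lv [0, 0, 1, 1, 1, 1, 0, 1, 0, 0, 0, 0, 0] i = 1))
    (by decide +kernel) (by decide +kernel)

theorem co9x14 : HasCfO 9 7 4 14 :=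
HasCfO.of_ok (n := 14) (τ := 16) (ν := 3) (T := 2) (S := lm [[0, 0, 0, 0, 0, 0, 0, 1, 1, 0, 0,
  0, 0, 0], [0, 0, -1, 0, 0, 1, 0, 0, 1, 0, 0, 0, 0, 0], [0, -1, 0, 0, 0, 0, 1, 0, 0, 0, 0, 0,
  0, 0], [0, 0, 0, 0, 1, 0, 0, -1, 0, 0, 0, 0, 0, 0], [0, 0, 0, 1, 0, 0, 0, 0, 0, 0, 0, 0, 1,
  0], [0, 1, 0, 0, 0, 0, 1, 0, 0, 0, 0, -1, 0, 0], [0, 0, 1, 0, 0, 1, 0, 0, 0, 0, 0, 0, 0, 0],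
  [1, 0, 0, -1, 0, 0, 0, 0, 0, 0, 0, 0, 0, 0], [1, 1, 0, 0, 0, 0, 0, 0, 0, 0, 0, 0, 0, 0], [0,
  0, 0, 0, 0, 0, 0, 0, 0, 0, 1, 0, 0, -1], [0, 0, 0, 0, 0, 0, 0, 0, 0, 1, 0, 1, 0, 0], [0, 0, 0,
  0, 0, -1, 0, 0, 0, 0, 1, 0, 0, 0], [0, 0, 0, 0, 1, 0, 0, 0, 0, 0, 0, 0, 0, 1], [0, 0, 0, 0, 0,
  0, 0, 0, 0, -1, 0, 0, 1, 0]]) (G := lm [[0, 0, 0, 0, 0, 0, 0, 0, 0, 0, 0, 0, 0, 0], [0, 0, 0,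
  0, 0, 0, 0, 0, 0, 0, 0, 0, 0, 0], [0, 0, 0, 0, 0, 0, 0, 0, 0, 0, 0, 0, 0, 0], [1, -1, 0, 0, 0,
  0, 0, 0, 0, 0, 0, 0, 0, 0], [0, 1, -1, 0, 0, 0, 0, 0, 0, 0, 0, 0, 0, 0], [-1, 0, 1, 0, 0, 0,
  0, 0, 0, 0, 0, 0, 0, 0], [0, 0, 0, 0, 0, 0, 0, 0, 0, 0, 0, 0, 0, 0], [0, 0, 0, 0, 0, 0, 0, 0,
  0, 0, 0, 0, 0, 0], [0, 0, 0, 0, 0, 0, 0, 0, 0, 0, 0, 0, 0, 0], [0, 0, 0, 0, 0, 0, 0, 0, 0, 0,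
  0, 0, 0, 0], [0, 0, 0, 0, 0, 0, 0, 0, 0, 0, 0, 0, 0, 0], [0, 0, 0, 0, 0, 0, 0, 0, 0, 0, 0, 0,
  0, 0], [0, 0, 0, 0, 0, 0, 0, 0, 0, 0, 0, 0, 0, 0], [0, 0, 0, 0, 0, 0, 0, 0, 0, 0, 0, 0, 0,
  0]]) (D := lv [0, 1, 0, 1, 1, 0, 0, 1, 1, 1, 1, 1, 0, 0]) (e := lv [1, 1, 1, 1, 1, 1, 0, 1, 1,
  1, 1, 1, 0, 0]) (h := lv [3, 4, 3, 4, 4, 4, 1, 3, 3, 3, 3, 3, 1, 1]) (a := lv [2, -1, 1, 3, 2,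
  -1, -1, -1, 1, -1, -3, -2, -1, -2]) (y := ![0, 1, 2]) (u := 4) (v := 12) (u0 := 1) (LM := lm
  [[0, 1, 0, 0, 0, 0, 1, 0, 1, 0, 0, 0, 0, 0], [1, 0, 0, 1, 1, 0, 1, 0, 1, 0, 1, 1, 0, 1], [1,
  1, 1, 0, 1, 1, 0, 1, 0, 1, 0, 1, 1, 1], [0, 0, 0, 1, 1, 0, 1, 1, 0, 0, 1, 1, 0, 1], [1, 0, 0,
  0, 1, 0, 1, 1, 1, 0, 1, 1, 0, 1], [1, 1, 1, 0, 1, 1, 1, 1, 0, 1, 0, 1, 1, 1], [1, 0, 1, 1, 1,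
  0, 1, 0, 1, 0, 1, 1, 0, 1], [0, 1, 0, 1, 1, 0, 0, 0, 1, 0, 1, 1, 0, 1], [1, 1, 0, 1, 1, 0, 0,
  0, 1, 0, 1, 1, 0, 1], [1, 1, 1, 0, 1, 1, 1, 1, 0, 1, 1, 0, 1, 1], [0, 1, 1, 0, 0, 1, 0, 0, 1,
  0, 0, 1, 0, 0], [1, 0, 0, 0, 1, 0, 1, 1, 1, 1, 0, 1, 1, 1], [1, 1, 1, 0, 1, 1, 1, 1, 0, 1, 1,
  0, 1, 0], [1, 0, 0, 0, 1, 0, 1, 1, 1, 0, 1, 1, 1, 1]]) (LK := lmk [[0, 0, 0, 1, 0, 0, 0, 0, 1,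
  0, 1, 0, 0, 0, 0, 1], [0, 0, 0, 0, 0, 0, 0, 0, 0, 0, 0, 0, 0, 0, 0, 0], [0, 0, 0, 1, 1, 1, 0,
  1, 1, 1, 1, 1, 1, 1, 1, 1], [0, 0, 0, 1, 0, 1, 1, 0, 0, 1, 1, 0, 1, 0, 1, 0], [0, 0, 0, 0, 0,
  0, 0, 1, 1, 0, 1, 0, 0, 0, 0, 1], [0, 0, 0, 1, 1, 1, 1, 1, 1, 1, 1, 1, 1, 1, 1, 1], [0, 0, 0,
  0, 0, 1, 0, 1, 1, 1, 0, 0, 1, 0, 0, 1], [0, 0, 0, 0, 0, 1, 1, 1, 1, 1, 0, 0, 1, 0, 1, 1], [0,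
  0, 0, 1, 0, 0, 0, 0, 0, 0, 1, 0, 0, 0, 0, 1], [0, 0, 0, 1, 1, 1, 1, 1, 1, 1, 0, 0, 1, 1, 1,
  1], [0, 0, 0, 1, 1, 1, 1, 0, 0, 0, 1, 0, 0, 1, 1, 0], [0, 0, 0, 0, 0, 0, 0, 1, 1, 1, 0, 0, 1,
  0, 0, 1], [0, 0, 0, 1, 1, 1, 1, 1, 1, 1, 0, 0, 1, 0, 1, 1], [0, 0, 0, 0, 0, 0, 0, 1, 1, 0, 1,
  0, 1, 0, 0, 1]]) (C := lm [[0, 1, 1, 0, 1, 0, 1, 0, 0, 0, 1, 0, 1, 1], [1, 0, 0, 0, 0, 0, 0,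
  0, 0, 1, 1, 1, 1, 1], [1, 0, 0, 0, 0, 0, 0, 1, 1, 1, 1, 1, 1, 0], [0, 0, 0, 0, 0, 1, 1, 0, 1,
  0, 1, 0, 1, 1], [1, 0, 0, 0, 0, 1, 1, 1, 0, 0, 0, 1, 0, 1], [0, 0, 0, 1, 1, 0, 0, 0, 1, 0, 1,
  0, 1, 1], [1, 0, 0, 1, 1, 0, 0, 1, 0, 1, 1, 1, 1, 1], [0, 0, 1, 0, 1, 0, 1, 0, 0, 1, 1, 0, 1,
  1], [0, 0, 1, 1, 0, 1, 0, 0, 0, 1, 0, 1, 1, 1], [0, 1, 1, 0, 0, 0, 1, 1, 1, 0, 0, 1, 1, 0],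
  [1, 1, 1, 1, 0, 1, 1, 1, 0, 0, 0, 0, 0, 0], [0, 1, 1, 0, 1, 0, 1, 0, 1, 1, 0, 0, 0, 1], [1, 1,
  1, 1, 0, 1, 1, 1, 1, 1, 0, 0, 0, 0], [1, 1, 0, 1, 1, 1, 1, 1, 1, 0, 0, 1, 0, 0]]) (L := fun i
  => decide (lv [0, 1, 0, 1, 1, 1, 0, 0, 0, 0, 0, 0, 0, 0] i = 1))
    (by decide +kernel) (by decide +kernel)

theorem co9x15 : HasCfO 9 7 5 15 :=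
HasCfO.of_ok (n := 15) (τ := 19) (ν := 4) (T := 2) (S := lm [[0, 0, 0, 0, -1, 0, 0, 0, 0, 0, 0,
  0, 0, 1, 0], [0, 0, 1, 0, 0, 0, 0, 0, 0, 0, 0, 0, 0, 0, 0], [0, 1, 0, 0, 0, 0, 1, -1, 0, 0, 0,
  0, 0, 0, 0], [0, 0, 0, 0, 0, -1, 1, 1, 0, 0, 0, 0, 0, 0, 0], [-1, 0, 0, 0, 0, 1, 0, 1, 0, 0,
  0, 0, 0, 0, 0], [0, 0, 0, -1, 1, 0, 0, 0, 0, 0, 0, 0, 0, 0, 0], [0, 0, 1, 1, 0, 0, 0, 0, 0, 0,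
  0, 0, 0, 0, 0], [0, 0, -1, 1, 1, 0, 0, 0, 0, 0, -1, 0, 0, 0, 0], [0, 0, 0, 0, 0, 0, 0, 0, 0,
  1, 0, 0, -1, 0, 0], [0, 0, 0, 0, 0, 0, 0, 0, 1, 0, 1, 0, 0, 0, 0], [0, 0, 0, 0, 0, 0, 0, -1,
  0, 1, 0, 0, 0, 0, 0], [0, 0, 0, 0, 0, 0, 0, 0, 0, 0, 0, 0, 1, 0, -1], [0, 0, 0, 0, 0, 0, 0, 0,
  -1, 0, 0, 1, 0, 0, 0], [1, 0, 0, 0, 0, 0, 0, 0, 0, 0, 0, 0, 0, 0, 1], [0, 0, 0, 0, 0, 0, 0, 0,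
  0, 0, 0, -1, 0, 1, 0]]) (G := lm [[0, 0, 0, 0, 0, 0, 0, 0, 0, 0, 0, 0, 0, 0, 0], [0, 0, 0, 0,
  0, 0, 0, 0, 0, 0, 0, 0, 0, 0, 0], [0, 0, 0, 0, 0, 0, 0, 0, 0, 0, 0, 0, 0, 0, 0], [1, -1, 0, 0,
  0, 0, 0, 0, 0, 0, 0, 0, 0, 0, 0], [0, 1, -1, 0, 0, 0, 0, 0, 0, 0, 0, 0, 0, 0, 0], [-1, 0, 1,
  0, 0, 0, 0, 0, 0, 0, 0, 0, 0, 0, 0], [0, 0, 0, 0, 0, 0, 0, 0, 0, 0, 0, 0, 0, 0, 0], [0, 0, 0,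
  0, 0, 0, 0, 0, 0, 0, 0, 0, 0, 0, 0], [0, 0, 0, 0, 0, 0, 0, 0, 0, 0, 0, 0, 0, 0, 0], [0, 0, 0,
  0, 0, 0, 0, 0, 0, 0, 0, 0, 0, 0, 0], [0, 0, 0, 0, 0, 0, 0, 0, 0, 0, 0, 0, 0, 0, 0], [0, 0, 0,
  0, 0, 0, 0, 0, 0, 0, 0, 0, 0, 0, 0], [0, 0, 0, 0, 0, 0, 0, 0, 0, 0, 0, 0, 0, 0, 0], [0, 0, 0,
  0, 0, 0, 0, 0, 0, 0, 0, 0, 0, 0, 0], [0, 0, 0, 0, 0, 0, 0, 0, 0, 0, 0, 0, 0, 0, 0]]) (D := lv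
  [0, 1, 1, 0, 0, 1, 1, 1, 1, 1, 1, 0, 0, 0, 0]) (e := lv [1, 1, 1, 1, 1, 1, 1, 1, 1, 1, 1, 0,
  0, 0, 0]) (h := lv [3, 3, 4, 4, 4, 4, 3, 4, 3, 3, 3, 1, 1, 1, 1]) (a := lv [3, 2, 2, -1, 1, 2,
  1, 1, 1, -2, -3, 1, -3, 1, -3]) (y := ![0, 1, 2]) (u := 0) (v := 13) (u0 := 0) (LM := lm [[0,
  1, 0, 0, 1, 1, 0, 1, 1, 1, 0, 1, 0, 1, 0], [1, 0, 0, 1, 0, 1, 1, 0, 0, 1, 1, 0, 1, 0, 1], [1,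
  1, 0, 1, 0, 1, 1, 0, 0, 1, 1, 0, 1, 0, 1], [0, 0, 0, 1, 1, 0, 1, 0, 0, 0, 0, 0, 0, 0, 0], [0,
  0, 1, 0, 1, 1, 1, 0, 0, 0, 0, 0, 0, 0, 0], [1, 0, 1, 0, 1, 0, 1, 1, 1, 0, 1, 1, 1, 1, 1], [1,
  1, 0, 0, 1, 1, 1, 0, 0, 1, 1, 0, 1, 0, 1], [1, 0, 1, 0, 1, 1, 1, 0, 0, 1, 1, 0, 1, 0, 1], [1,
  0, 1, 0, 1, 1, 1, 0, 0, 0, 0, 0, 1, 0, 1], [1, 1, 1, 0, 0, 0, 1, 1, 0, 1, 0, 0, 1, 0, 1], [0,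
  1, 0, 0, 1, 1, 0, 1, 0, 0, 0, 0, 0, 0, 0], [1, 0, 1, 0, 1, 1, 1, 0, 0, 0, 0, 0, 0, 0, 1], [0,
  1, 0, 0, 1, 1, 0, 1, 1, 1, 0, 0, 0, 0, 0], [1, 0, 1, 0, 1, 1, 1, 0, 0, 0, 0, 0, 0, 0, 0], [0,
  1, 0, 0, 1, 1, 0, 1, 1, 1, 0, 1, 0, 0, 0]]) (LK := lmk [[0, 0, 0, 0, 0, 0, 0, 0, 0, 0, 0, 0,
  0, 0, 0, 0, 0], [0, 0, 0, 1, 1, 1, 0, 1, 1, 0, 0, 1, 0, 1, 0, 0, 1], [0, 0, 0, 0, 1, 1, 0, 1,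
  1, 1, 0, 1, 0, 1, 0, 0, 0], [0, 0, 0, 1, 0, 1, 1, 1, 1, 1, 0, 1, 0, 1, 0, 0, 0], [0, 0, 0, 1,
  1, 0, 0, 0, 0, 1, 1, 0, 1, 0, 1, 1, 0], [0, 0, 0, 0, 1, 0, 1, 1, 1, 0, 1, 1, 1, 1, 1, 1, 0],
  [0, 0, 0, 1, 1, 0, 0, 0, 0, 0, 0, 0, 0, 0, 0, 0, 0], [0, 0, 0, 0, 0, 0, 1, 1, 1, 0, 1, 1, 1,
  1, 1, 1, 0], [0, 0, 0, 0, 0, 0, 1, 1, 1, 1, 0, 1, 1, 1, 1, 1, 0], [0, 0, 0, 0, 0, 0, 1, 1, 0,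
  1, 0, 0, 1, 0, 1, 1, 0], [0, 0, 0, 0, 0, 0, 0, 0, 1, 1, 0, 1, 0, 1, 0, 0, 0], [0, 0, 0, 0, 0,
  0, 1, 1, 1, 1, 0, 1, 0, 1, 1, 1, 0], [0, 0, 0, 0, 0, 0, 0, 0, 0, 0, 0, 1, 0, 1, 0, 0, 0], [0,
  0, 0, 0, 0, 0, 1, 1, 1, 1, 0, 1, 0, 1, 0, 1, 0], [0, 0, 0, 0, 0, 0, 0, 0, 0, 0, 0, 0, 0, 1, 0,
  0, 0]]) (C := lm [[0, 0, 1, 0, 0, 0, 1, 1, 0, 1, 1, 0, 1, 0, 1], [0, 0, 0, 0, 0, 1, 1, 0, 0,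
  0, 1, 1, 1, 1, 1], [1, 0, 0, 0, 0, 0, 0, 0, 0, 0, 1, 1, 1, 1, 1], [0, 0, 0, 0, 0, 0, 0, 0, 1,
  1, 1, 1, 1, 0, 1], [0, 0, 0, 0, 0, 0, 1, 0, 1, 1, 0, 1, 0, 1, 1], [0, 1, 0, 0, 0, 0, 1, 0, 1,
  0, 0, 1, 1, 1, 0], [1, 1, 0, 0, 1, 1, 0, 1, 1, 0, 0, 0, 0, 1, 0], [1, 0, 0, 0, 0, 0, 1, 0, 0,
  1, 0, 1, 1, 1, 0], [0, 0, 0, 1, 1, 1, 1, 0, 0, 0, 1, 1, 0, 0, 1], [1, 0, 0, 1, 1, 0, 0, 1, 0,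
  0, 0, 1, 1, 0, 1], [1, 1, 1, 1, 0, 0, 0, 0, 1, 0, 0, 0, 0, 1, 1], [0, 1, 1, 1, 1, 1, 0, 1, 1,
  1, 0, 0, 0, 1, 0], [1, 1, 1, 1, 0, 1, 0, 1, 0, 1, 0, 0, 0, 1, 1], [0, 1, 1, 0, 1, 1, 1, 1, 0,
  0, 1, 1, 1, 0, 0], [1, 1, 1, 1, 1, 0, 0, 0, 1, 1, 1, 0, 1, 0, 0]]) (L := fun i => decide (lv
  [0, 0, 1, 1, 1, 1, 0, 1, 0, 0, 0, 0, 0, 0, 0] i = 1))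
    (by decide +kernel) (by decide +kernel)

theorem co10x13 : HasCfO 10 7 0 13 :=
HasCfO.of_ok (n := 13) (τ := 10) (ν := 1) (T := 2) (S := lm [[0, 1, 0, 0, 0, 0, -1, 0, 1, 0, 0,
  0, 0], [1, 0, 0, 0, 0, 1, 0, 0, 0, 0, 1, 0, 0], [0, 0, 0, 0, 0, 0, 0, 1, 0, 0, 0, 0, -1], [0,
  0, 0, 0, 0, 0, 0, 1, 0, 1, 0, 0, 0], [0, 0, 0, 0, 0, 0, 0, -1, 0, -1, 0, 0, 0], [0, 1, 0, 0,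
  0, 0, 1, 0, 0, 0, 0, 0, 0], [-1, 0, 0, 0, 0, 1, 0, 0, 1, 0, 0, 0, 0], [0, 0, 1, 1, -1, 0, 0,
  0, 0, 0, 0, 0, 0], [1, 0, 0, 0, 0, 0, 1, 0, 0, 0, 0, 0, 0], [0, 0, 0, 1, -1, 0, 0, 0, 0, 0, 0,
  0, 0], [0, 1, 0, 0, 0, 0, 0, 0, 0, 0, 0, 1, 0], [0, 0, 0, 0, 0, 0, 0, 0, 0, 0, 1, 0, 1], [0,
  0, -1, 0, 0, 0, 0, 0, 0, 0, 0, 1, 0]]) (G := lm [[0, 0, 0, 0, 0, 0, 0, 0, 0, 0, 0, 0, 0], [0,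
  0, 0, 0, 0, 0, 0, 0, 0, 0, 0, 0, 0], [0, 0, 0, 0, 0, 0, 0, 0, 0, 0, 0, 0, 0], [1, -1, 0, 0, 0,
  0, 0, 0, 0, 0, 0, 0, 0], [0, 1, -1, 0, 0, 0, 0, 0, 0, 0, 0, 0, 0], [0, 0, 0, 0, 0, 0, 0, 0, 0,
  0, 0, 0, 0], [0, 0, 0, 0, 0, 0, 0, 0, 0, 0, 0, 0, 0], [0, 0, 0, 0, 0, 0, 0, 0, 0, 0, 0, 0, 0],
  [0, 0, 0, 0, 0, 0, 0, 0, 0, 0, 0, 0, 0], [0, 0, 0, 0, 0, 0, 0, 0, 0, 0, 0, 0, 0], [0, 0, 0, 0,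
  0, 0, 0, 0, 0, 0, 0, 0, 0], [0, 0, 0, 0, 0, 0, 0, 0, 0, 0, 0, 0, 0], [0, 0, 0, 0, 0, 0, 0, 0,
  0, 0, 0, 0, 0]]) (D := lv [0, 1, 1, 1, 1, 1, 0, 1, 1, 1, 1, 1, 1]) (e := lv [1, 1, 1, 1, 1, 1,
  1, 0, 1, 1, 1, 1, 1]) (h := lv [3, 4, 3, 4, 4, 3, 3, 2, 3, 3, 3, 3, 3]) (a := lv [2, -2, -3,
  1, -1, -1, 1, -1, 3, 2, -3, -1, 2]) (y := ![0, 1, 2]) (u := 1) (v := 10) (u0 := 2) (LM := lm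
  [[1, 0, 0, 0, 0, 1, 1, 0, 0, 0, 0, 0, 0], [0, 0, 0, 0, 0, 1, 1, 0, 1, 0, 0, 0, 0], [1, 0, 1,
  1, 1, 0, 0, 1, 1, 0, 1, 1, 0], [0, 0, 1, 0, 1, 0, 0, 0, 0, 1, 1, 1, 0], [0, 0, 0, 0, 1, 1, 1,
  1, 1, 1, 0, 0, 0], [0, 1, 1, 1, 1, 0, 0, 1, 0, 0, 1, 0, 1], [0, 1, 1, 1, 1, 0, 1, 1, 1, 0, 1,
  0, 1], [1, 0, 0, 1, 1, 1, 1, 1, 0, 0, 0, 0, 0], [1, 1, 1, 1, 1, 1, 0, 1, 0, 0, 1, 0, 1], [0,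
  0, 1, 0, 0, 1, 1, 1, 1, 1, 1, 1, 0], [1, 0, 1, 1, 1, 0, 0, 1, 1, 0, 1, 0, 1], [1, 0, 1, 1, 1,
  1, 1, 1, 0, 0, 0, 0, 1], [0, 0, 0, 0, 0, 1, 1, 0, 1, 0, 1, 1, 0]]) (LK := lmk [[0, 0, 0, 1, 1,
  1, 0, 1, 1, 1, 0, 1, 0, 0, 1], [0, 0, 0, 0, 0, 1, 1, 0, 1, 0, 0, 0, 0, 0, 0], [0, 0, 0, 0, 0,
  0, 0, 0, 0, 0, 0, 0, 0, 0, 0], [0, 0, 0, 1, 0, 0, 0, 1, 0, 1, 0, 0, 0, 0, 0], [0, 0, 0, 0, 1,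
  0, 0, 1, 0, 1, 0, 0, 0, 0, 0], [0, 0, 0, 1, 1, 1, 1, 1, 0, 0, 1, 0, 1, 1, 0], [0, 0, 0, 1, 1,
  1, 0, 1, 1, 0, 1, 0, 1, 1, 0], [0, 0, 0, 1, 1, 0, 0, 1, 0, 0, 0, 0, 0, 0, 0], [0, 0, 0, 0, 0,
  0, 0, 0, 1, 1, 1, 1, 1, 1, 1], [0, 0, 0, 1, 1, 0, 0, 0, 0, 1, 0, 0, 0, 0, 0], [0, 0, 0, 0, 0,
  0, 0, 0, 0, 0, 0, 1, 1, 0, 0], [0, 0, 0, 0, 0, 1, 1, 0, 1, 0, 1, 1, 1, 0, 0], [0, 0, 0, 0, 0,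
  1, 1, 0, 1, 0, 1, 1, 0, 0, 0]]) (C := lm [[0, 0, 1, 0, 1, 1, 0, 1, 0, 1, 1, 1, 1], [0, 0, 1,
  0, 0, 0, 1, 1, 1, 1, 0, 1, 1], [1, 1, 0, 1, 0, 1, 1, 0, 1, 1, 1, 0, 0], [0, 0, 1, 0, 1, 0, 1,
  0, 1, 0, 1, 1, 1], [1, 0, 0, 1, 0, 1, 1, 0, 1, 0, 0, 1, 1], [1, 0, 1, 0, 1, 0, 0, 1, 1, 1, 0,
  1, 1], [0, 1, 1, 1, 1, 0, 0, 1, 0, 1, 1, 0, 1], [1, 1, 0, 0, 0, 1, 1, 0, 1, 1, 1, 1, 1], [0,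
  1, 1, 1, 1, 1, 0, 1, 0, 0, 1, 1, 0], [1, 1, 1, 0, 0, 1, 1, 1, 0, 0, 1, 1, 0], [1, 0, 1, 1, 0,
  0, 1, 1, 1, 1, 0, 0, 1], [1, 1, 0, 1, 1, 1, 0, 1, 1, 1, 0, 0, 0], [1, 1, 0, 1, 1, 1, 1, 1, 0,
  0, 1, 0, 0]]) (L := fun i => decide (lv [0, 0, 0, 0, 0, 0, 0, 0, 0, 0, 0, 0, 0] i = 1))
    (by decide +kernel) (by decide +kernel)

theorem co10x14 : HasCfO 10 7 0 14 :=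
HasCfO.of_ok (n := 14) (τ := 14) (ν := 2) (T := 2) (S := lm [[0, 0, 1, 0, -1, 0, 0, 0, 0, 0, 0,
  0, 0, 0], [0, 0, 1, 0, 0, 0, 0, 0, 0, 0, 0, 0, 1, 0], [1, 1, 0, 0, 0, 0, 0, 0, 1, 0, 0, 0, 0,
  0], [0, 0, 0, 0, 0, -1, 0, 1, 0, 0, 0, 0, 0, 0], [-1, 0, 0, 0, 0, 1, 1, 0, 0, 0, 0, 0, 0, 0],
  [0, 0, 0, -1, 1, 0, 0, 0, 0, 0, 0, 0, 0, 0], [0, 0, 0, 0, 1, 0, 0, 0, 0, 0, 0, -1, 0, 0], [0,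
  0, 0, 1, 0, 0, 0, 0, 1, 0, 0, 0, 0, 0], [0, 0, 1, 0, 0, 0, 0, 1, 0, 0, 0, 0, 0, 0], [0, 0, 0,
  0, 0, 0, 0, 0, 0, 0, 1, 0, 0, -1], [0, 0, 0, 0, 0, 0, 0, 0, 0, 1, 0, 1, 0, 0], [0, 0, 0, 0, 0,
  0, -1, 0, 0, 0, 1, 0, 0, 0], [0, 1, 0, 0, 0, 0, 0, 0, 0, 0, 0, 0, 0, 1], [0, 0, 0, 0, 0, 0, 0,
  0, 0, -1, 0, 0, 1, 0]]) (G := lm [[0, 0, 0, 0, 0, 0, 0, 0, 0, 0, 0, 0, 0, 0], [0, 0, 0, 0, 0,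
  0, 0, 0, 0, 0, 0, 0, 0, 0], [0, 0, 0, 0, 0, 0, 0, 0, 0, 0, 0, 0, 0, 0], [1, -1, 0, 0, 0, 0, 0,
  0, 0, 0, 0, 0, 0, 0], [0, 1, -1, 0, 0, 0, 0, 0, 0, 0, 0, 0, 0, 0], [-1, 0, 1, 0, 0, 0, 0, 0,
  0, 0, 0, 0, 0, 0], [0, 0, 0, 0, 0, 0, 0, 0, 0, 0, 0, 0, 0, 0], [0, 0, 0, 0, 0, 0, 0, 0, 0, 0,
  0, 0, 0, 0], [0, 0, 0, 0, 0, 0, 0, 0, 0, 0, 0, 0, 0, 0], [0, 0, 0, 0, 0, 0, 0, 0, 0, 0, 0, 0,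
  0, 0], [0, 0, 0, 0, 0, 0, 0, 0, 0, 0, 0, 0, 0, 0], [0, 0, 0, 0, 0, 0, 0, 0, 0, 0, 0, 0, 0, 0],
  [0, 0, 0, 0, 0, 0, 0, 0, 0, 0, 0, 0, 0, 0], [0, 0, 0, 0, 0, 0, 0, 0, 0, 0, 0, 0, 0, 0]]) (D :=
  lv [0, 0, 1, 1, 0, 1, 1, 1, 1, 1, 1, 1, 0, 0]) (e := lv [1, 1, 1, 1, 1, 1, 1, 1, 1, 1, 1, 1,
  0, 0]) (h := lv [3, 3, 4, 4, 4, 4, 3, 3, 3, 3, 3, 3, 1, 1]) (a := lv [1, -2, 1, -1, 1, 2, -1,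
  1, 2, -1, 1, 2, -1, 2]) (y := ![0, 1, 2]) (u := 1) (v := 12) (u0 := 0) (LM := lm [[1, 0, 1, 1,
  0, 1, 0, 0, 1, 0, 0, 0, 0, 0], [1, 1, 0, 0, 0, 0, 1, 0, 0, 1, 0, 1, 1, 1], [0, 0, 0, 0, 1, 1,
  1, 1, 1, 1, 1, 0, 1, 0], [0, 0, 0, 0, 1, 1, 1, 0, 0, 1, 1, 0, 1, 0], [1, 0, 0, 0, 1, 1, 1, 1,
  1, 1, 1, 0, 1, 0], [0, 0, 1, 1, 1, 1, 1, 0, 1, 1, 1, 0, 1, 0], [0, 1, 0, 0, 1, 1, 1, 1, 1, 1,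
  0, 1, 1, 1], [0, 1, 0, 1, 0, 1, 1, 0, 0, 1, 0, 1, 1, 1], [0, 1, 0, 1, 1, 0, 0, 1, 0, 0, 1, 1,
  0, 1], [0, 1, 0, 0, 1, 1, 1, 1, 1, 1, 1, 0, 1, 1], [1, 0, 0, 0, 1, 1, 0, 1, 1, 1, 1, 1, 1, 0],
  [1, 1, 0, 0, 0, 0, 1, 0, 0, 0, 1, 1, 0, 1], [0, 1, 0, 0, 1, 1, 1, 1, 1, 1, 1, 0, 1, 0], [1, 1,
  0, 0, 0, 0, 1, 0, 0, 1, 0, 1, 0, 1]]) (LK := lmk [[0, 0, 0, 0, 0, 0, 0, 0, 0, 0, 0, 0, 0, 0,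
  0, 0], [0, 0, 0, 0, 0, 1, 1, 0, 1, 1, 0, 0, 1, 0, 0, 1], [0, 0, 0, 0, 1, 0, 0, 1, 0, 0, 1, 0,
  0, 0, 0, 1], [0, 0, 0, 0, 1, 0, 0, 0, 1, 0, 1, 0, 0, 0, 0, 1], [0, 0, 0, 1, 0, 1, 1, 0, 1, 1,
  0, 1, 1, 1, 1, 0], [0, 0, 0, 1, 1, 0, 1, 0, 0, 1, 1, 1, 1, 1, 1, 1], [0, 0, 0, 1, 0, 0, 1, 0,
  0, 1, 1, 1, 1, 1, 1, 1], [0, 0, 0, 0, 0, 0, 1, 0, 1, 1, 0, 1, 1, 1, 1, 0], [0, 0, 0, 0, 1, 0,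
  1, 1, 0, 1, 1, 1, 1, 1, 1, 1], [0, 0, 0, 1, 0, 0, 1, 0, 0, 1, 0, 0, 1, 1, 1, 1], [0, 0, 0, 1,
  0, 1, 0, 0, 1, 1, 0, 0, 1, 1, 1, 0], [0, 0, 0, 0, 0, 1, 1, 0, 1, 0, 1, 0, 0, 0, 0, 1], [0, 0,
  0, 1, 0, 0, 1, 0, 0, 1, 0, 0, 1, 0, 1, 1], [0, 0, 0, 0, 0, 1, 1, 0, 1, 1, 0, 0, 0, 0, 0, 1]])
  (C := lm [[0, 1, 0, 0, 0, 0, 1, 1, 0, 1, 1, 1, 1, 1], [1, 0, 0, 0, 0, 1, 1, 1, 1, 0, 1, 1, 0,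
  1], [0, 0, 0, 1, 0, 0, 1, 1, 0, 0, 1, 1, 1, 1], [0, 0, 1, 0, 1, 0, 0, 0, 0, 1, 1, 1, 1, 1],
  [0, 0, 0, 1, 0, 0, 0, 1, 1, 1, 1, 0, 1, 1], [0, 1, 0, 0, 0, 0, 0, 1, 1, 1, 0, 1, 1, 1], [1, 1,
  1, 0, 0, 0, 0, 1, 0, 1, 1, 0, 1, 1], [1, 1, 1, 0, 1, 1, 1, 0, 0, 0, 0, 0, 1, 1], [0, 1, 0, 0,
  1, 1, 0, 0, 0, 1, 1, 1, 1, 1], [1, 0, 0, 1, 1, 1, 1, 0, 1, 0, 0, 1, 1, 0], [1, 1, 1, 1, 1, 0,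
  1, 0, 1, 0, 0, 0, 0, 1], [1, 1, 1, 1, 0, 1, 0, 0, 1, 1, 0, 0, 1, 0], [1, 0, 1, 1, 1, 1, 1, 1,
  1, 1, 0, 1, 0, 0], [1, 1, 1, 1, 1, 1, 1, 1, 1, 0, 1, 0, 0, 0]]) (L := fun i => decide (lv [0,
  0, 0, 0, 0, 0, 0, 0, 0, 0, 0, 0, 0, 0] i = 1))
    (by decide +kernel) (by decide +kernel)

end Pool.Agent.H93.Nut
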