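import Pool.Agent.H93.Nut.CoreConf

/-!
Nine skeletons.
-/

set_option autoImplicit false
set_option maxRecDepth 100000

namespace Pool.Agent.H93.Nut

/-- a matrix with two more columns given by its rows -/
def lmk {n : ℕ} (L : List (List ℤ)) (i : Fin n) (j : Fin (n + 2)) : ℤ :=
  (L.getD i.val []).getD j.val 0

theorem so8 : SO (P := Fin 8) 8 1 2 (lm [[0, 0, 0, 0, 1, 0, 1, 0], [0, 0, 0, 0, 0, 0, 0, 1], [0,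
  0, 0, 1, 0, 1, 0, 0], [0, 0, 1, 0, 1, 0, 1, 0], [1, 0, 0, 1, 0, 0, 0, 0], [0, 0, 1, 0, 0, 0,
  0, 1], [1, 0, 0, 1, 0, 0, 0, 0], [0, 1, 0, 0, 0, 1, 0, 0]]) (lm [[0, 0, 0, 0, 0, 0, 0, 0], [0,
  0, 0, 0, 0, 0, 0, 0], [0, 0, 0, 0, 0, 0, 0, 0], [1, -1, 0, 0, 0, 0, 0, 0], [0, 1, -1, 0, 0, 0,
  0, 0], [0, 0, 0, 0, 0, 0, 0, 0], [0, 0, 0, 0, 0, 0, 0, 0], [0, 0, 0, 0, 0, 0, 0, 0]]) (lv [1,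
  1, 1, 0, 1, 1, 1, 0]) (lv [1, 1, 1, 1, 1, 1, 1, 0]) (lv [3, 3, 3, 4, 4, 3, 3, 1]) (lv [2, 1,
  -2, -1, 1, -1, 1, 1]) ![0, 1, 2] 4 0 :=
SO.of_ok (u0 := 1) (LM := lm [[0, 0, 0, 1, 1, 0, 1, 0], [1, 1, 0, 1, 0, 1, 0, 1], [0, 1, 0, 0,
  0, 1, 0, 1], [1, 0, 1, 1, 0, 0, 0, 1], [0, 0, 1, 1, 0, 0, 1, 1], [1, 1, 0, 1, 0, 1, 0, 0], [1,
  0, 1, 0, 1, 0, 0, 1], [1, 0, 0, 1, 0, 1, 0, 1]]) (LK := lmk [[0, 0, 0, 1, 0, 0, 0, 1, 0, 1],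
  [0, 0, 0, 0, 0, 0, 0, 0, 0, 0], [0, 0, 0, 1, 1, 0, 1, 0, 0, 0], [0, 0, 0, 1, 1, 1, 1, 1, 1,
  1], [0, 0, 0, 0, 0, 1, 1, 0, 1, 0], [0, 0, 0, 0, 0, 0, 0, 1, 0, 0], [0, 0, 0, 0, 1, 1, 0, 0,
  1, 0], [0, 0, 0, 1, 1, 1, 1, 1, 0, 0]])
    (by decide +kernel)

theorem so9 : SO (P := Fin 9) 12 1 2 (lm [[0, 0, 0, 0, 0, 0, 0, 1, 1], [0, 0, -1, 0, 0, 1, 0, 0,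
  1], [0, -1, 0, 0, 0, 0, 1, 0, 0], [0, 0, 0, 0, 1, 0, 0, -1, 0], [0, 0, 0, 1, 0, 1, 0, 0, 0],
  [0, 1, 0, 0, 1, 0, 1, 0, 0], [0, 0, 1, 0, 0, 1, 0, 0, 0], [1, 0, 0, -1, 0, 0, 0, 0, 0], [1, 1,
  0, 0, 0, 0, 0, 0, 0]]) (lm [[0, 0, 0, 0, 0, 0, 0, 0, 0], [0, 0, 0, 0, 0, 0, 0, 0, 0], [0, 0,
  0, 0, 0, 0, 0, 0, 0], [1, -1, 0, 0, 0, 0, 0, 0, 0], [0, 1, -1, 0, 0, 0, 0, 0, 0], [-1, 0, 1,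
  0, 0, 0, 0, 0, 0], [0, 0, 0, 0, 0, 0, 0, 0, 0], [0, 0, 0, 0, 0, 0, 0, 0, 0], [0, 0, 0, 0, 0,
  0, 0, 0, 0]]) (lv [0, 1, 0, 1, 1, 0, 0, 1, 1]) (lv [1, 1, 1, 1, 1, 1, 0, 1, 1]) (lv [3, 4, 3,
  4, 4, 4, 1, 3, 3]) (lv [2, -1, 1, 3, 2, -1, -1, -1, 1]) ![0, 1, 2] 4 5 :=
SO.of_ok (u0 := 1) (LM := lm [[0, 1, 0, 0, 0, 0, 1, 0, 1], [1, 0, 0, 1, 1, 0, 1, 0, 1], [1, 1,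
  1, 0, 1, 1, 0, 1, 0], [0, 0, 0, 1, 1, 0, 1, 1, 0], [1, 0, 0, 0, 1, 0, 1, 1, 1], [1, 1, 1, 0,
  1, 1, 1, 1, 0], [1, 0, 1, 1, 1, 0, 1, 0, 1], [0, 1, 0, 1, 1, 0, 0, 0, 1], [1, 1, 0, 1, 1, 0,
  0, 0, 1]]) (LK := lmk [[0, 0, 0, 1, 0, 0, 0, 0, 1, 0, 1], [0, 0, 0, 0, 0, 0, 0, 0, 0, 0, 0],
  [0, 0, 0, 1, 1, 1, 0, 1, 1, 1, 1], [0, 0, 0, 1, 0, 1, 1, 0, 0, 1, 0], [0, 0, 0, 0, 0, 0, 0, 1,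
  1, 0, 1], [0, 0, 0, 1, 1, 1, 1, 1, 1, 1, 1], [0, 0, 0, 0, 0, 1, 0, 1, 1, 0, 1], [0, 0, 0, 0,
  0, 1, 1, 1, 1, 1, 1], [0, 0, 0, 1, 0, 0, 0, 0, 0, 0, 1]])
    (by decide +kernel)

theorem so10 : SO (P := Fin 10) 10 1 2 (lm [[0, 1, 0, 0, 0, 0, -1, 0, 1, 0], [1, 0, 1, 0, 0, 1,
  0, 0, 0, 0], [0, 1, 0, 0, 0, 0, 0, 1, 0, 0], [0, 0, 0, 0, 0, 0, 0, 1, 0, 1], [0, 0, 0, 0, 0,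
  0, 0, -1, 0, -1], [0, 1, 0, 0, 0, 0, 1, 0, 0, 0], [-1, 0, 0, 0, 0, 1, 0, 0, 1, 0], [0, 0, 1,
  1, -1, 0, 0, 0, 0, 0], [1, 0, 0, 0, 0, 0, 1, 0, 0, 0], [0, 0, 0, 1, -1, 0, 0, 0, 0, 0]]) (lm
  [[0, 0, 0, 0, 0, 0, 0, 0, 0, 0], [0, 0, 0, 0, 0, 0, 0, 0, 0, 0], [0, 0, 0, 0, 0, 0, 0, 0, 0,
  0], [1, -1, 0, 0, 0, 0, 0, 0, 0, 0], [0, 1, -1, 0, 0, 0, 0, 0, 0, 0], [0, 0, 0, 0, 0, 0, 0, 0,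
  0, 0], [0, 0, 0, 0, 0, 0, 0, 0, 0, 0], [0, 0, 0, 0, 0, 0, 0, 0, 0, 0], [0, 0, 0, 0, 0, 0, 0,
  0, 0, 0], [0, 0, 0, 0, 0, 0, 0, 0, 0, 0]]) (lv [0, 1, 1, 1, 1, 1, 0, 1, 1, 1]) (lv [1, 1, 1,
  1, 1, 1, 1, 0, 1, 1]) (lv [3, 4, 3, 4, 4, 3, 3, 2, 3, 3]) (lv [2, -2, -3, 1, -1, -1, 1, -1, 3,
  2]) ![0, 1, 2] 1 2 :=
SO.of_ok (u0 := 2) (LM := lm [[1, 0, 0, 0, 0, 1, 1, 0, 0, 0], [0, 0, 0, 0, 0, 1, 1, 0, 1, 0],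
  [1, 0, 1, 1, 1, 0, 0, 1, 1, 0], [0, 0, 1, 0, 1, 0, 0, 0, 0, 1], [0, 0, 0, 0, 1, 1, 1, 1, 1,
  1], [0, 1, 1, 1, 1, 0, 0, 1, 0, 0], [0, 1, 1, 1, 1, 0, 1, 1, 1, 0], [1, 0, 0, 1, 1, 1, 1, 1,
  0, 0], [1, 1, 1, 1, 1, 1, 0, 1, 0, 0], [0, 0, 1, 0, 0, 1, 1, 1, 1, 1]]) (LK := lmk [[0, 0, 0,
  1, 1, 1, 0, 1, 1, 1, 0, 1], [0, 0, 0, 0, 0, 1, 1, 0, 1, 0, 0, 0], [0, 0, 0, 0, 0, 0, 0, 0, 0,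
  0, 0, 0], [0, 0, 0, 1, 0, 0, 0, 1, 0, 1, 0, 0], [0, 0, 0, 0, 1, 0, 0, 1, 0, 1, 0, 0], [0, 0,
  0, 1, 1, 1, 1, 1, 0, 0, 1, 0], [0, 0, 0, 1, 1, 1, 0, 1, 1, 0, 1, 0], [0, 0, 0, 1, 1, 0, 0, 1,
  0, 0, 0, 0], [0, 0, 0, 0, 0, 0, 0, 0, 1, 1, 1, 1], [0, 0, 0, 1, 1, 0, 0, 0, 0, 1, 0, 0]])
    (by decide +kernel)

theorem so7z : SO (P := Fin 7) 7 0 2 (lm [[0, 0, 1, 0, 1, 0, 0], [0, 0, 0, 0, 0, 0, 1], [1, 0,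
  0, 0, 0, 1, 0], [0, 0, 0, 0, 1, 0, 1], [1, 0, 0, 1, 0, 0, -1], [0, 0, 1, 0, 0, 0, 1], [0, 1,
  0, 1, -1, 1, 0]]) (lm [[0, 0, 0, 0, 0, 0, 0], [0, 0, 0, 0, 0, 0, 0], [0, 0, 0, 0, 0, 0, 0],
  [1, -1, 0, 0, 0, 0, 0], [0, 1, -1, 0, 0, 0, 0], [0, 0, 0, 0, 0, 0, 0], [0, 0, 0, 0, 0, 0, 0]])
  (lv [1, 1, 1, 1, 0, 1, 1]) (lv [1, 1, 1, 1, 1, 1, 1]) (lv [3, 3, 3, 4, 4, 3, 4]) (lv [-1, 1,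
  -2, 2, 1, -1, 1]) ![0, 1, 2] 2 0 :=
SO.of_ok (u0 := 0) (LM := lm [[1, 0, 0, 1, 1, 0, 0], [1, 1, 1, 1, 1, 1, 0], [0, 0, 1, 1, 0, 0,
  1], [1, 1, 1, 0, 0, 0, 1], [0, 0, 1, 0, 1, 0, 1], [1, 0, 0, 0, 1, 0, 1], [1, 0, 1, 1, 1, 1,
  0]]) (LK := lmk [[0, 0, 0, 0, 0, 0, 0, 0, 0], [0, 0, 0, 0, 0, 1, 1, 1, 1], [0, 0, 0, 1, 1, 0,
  1, 0, 1], [0, 0, 0, 0, 0, 0, 1, 1, 0], [0, 0, 0, 1, 1, 0, 0, 0, 0], [0, 0, 0, 1, 0, 1, 0, 1,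
  1], [0, 0, 0, 0, 1, 0, 1, 1, 0]])
    (by decide +kernel)

theorem so8z : SO (P := Fin 8) 8 0 2 (lm [[0, 0, 1, 0, 0, 0, 1, 0], [0, 0, 1, 0, 0, 1, 1, 0],
  [1, 1, 0, 0, 0, 0, 0, 0], [0, 0, 0, 0, -1, 0, 1, 0], [0, 0, 0, -1, 0, 1, 0, 0], [0, 1, 0, 0,
  1, 0, 0, 1], [1, 1, 0, 1, 0, 0, 0, 1], [0, 0, 0, 0, 0, 1, 1, 0]]) (lm [[0, 0, 0, 0, 0, 0, 0,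
  0], [0, 0, 0, 0, 0, 0, 0, 0], [0, 0, 0, 0, 0, 0, 0, 0], [1, -1, 0, 0, 0, 0, 0, 0], [0, 1, -1,
  0, 0, 0, 0, 0], [0, 0, 0, 0, 0, 0, 0, 0], [0, 0, 0, 0, 0, 0, 0, 0], [0, 0, 0, 0, 0, 0, 0, 0]])
  (lv [1, 1, 1, 1, 1, 0, 1, 1]) (lv [1, 1, 1, 1, 1, 1, 1, 1]) (lv [3, 4, 3, 4, 4, 3, 4, 3]) (lv
  [-2, -1, -3, 2, -1, 1, 1, 2]) ![0, 1, 2] 6 3 :=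
SO.of_ok (u0 := 1) (LM := lm [[0, 1, 0, 0, 1, 1, 1, 0], [0, 0, 0, 1, 0, 1, 1, 0], [0, 1, 1, 1,
  1, 0, 0, 0], [1, 1, 0, 0, 0, 0, 1, 1], [0, 0, 1, 1, 1, 1, 0, 1], [1, 0, 0, 1, 1, 0, 0, 0], [1,
  0, 1, 1, 0, 1, 1, 0], [0, 0, 1, 0, 1, 1, 1, 1]]) (LK := lmk [[0, 0, 0, 1, 0, 1, 1, 0, 0, 0],
  [0, 0, 0, 0, 0, 0, 0, 0, 0, 0], [0, 0, 0, 1, 1, 1, 1, 1, 0, 1], [0, 0, 0, 0, 1, 0, 1, 0, 1,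
  1], [0, 0, 0, 1, 1, 1, 0, 1, 0, 0], [0, 0, 0, 1, 1, 1, 1, 1, 1, 1], [0, 0, 0, 0, 0, 1, 1, 1,
  1, 1], [0, 0, 0, 1, 1, 0, 0, 1, 0, 0]])
    (by decide +kernel)

theorem so8y : SO (P := Fin 8) 11 0 2 (lm [[0, 0, 0, 0, -1, 0, 0, 1], [0, 0, 1, 0, 0, 0, 0, 0],
  [0, 1, 0, 0, 0, 0, 1, -1], [0, 0, 0, 0, 0, -1, 1, 1], [-1, 0, 0, 0, 0, 1, 0, 1], [0, 0, 0, -1,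
  1, 0, 0, 0], [0, 0, 1, 1, 0, 0, 0, 0], [1, 0, -1, 1, 1, 0, 0, 0]]) (lm [[0, 0, 0, 0, 0, 0, 0,
  0], [0, 0, 0, 0, 0, 0, 0, 0], [0, 0, 0, 0, 0, 0, 0, 0], [1, -1, 0, 0, 0, 0, 0, 0], [0, 1, -1,
  0, 0, 0, 0, 0], [-1, 0, 1, 0, 0, 0, 0, 0], [0, 0, 0, 0, 0, 0, 0, 0], [0, 0, 0, 0, 0, 0, 0,
  0]]) (lv [0, 1, 1, 0, 0, 1, 1, 1]) (lv [1, 1, 1, 1, 1, 1, 1, 1]) (lv [3, 3, 4, 4, 4, 4, 3, 4])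
  (lv [3, 2, 2, -1, 1, 2, 1, 1]) ![0, 1, 2] 0 7 :=
SO.of_ok (u0 := 0) (LM := lm [[0, 1, 0, 0, 1, 1, 0, 1], [1, 0, 0, 1, 0, 1, 1, 0], [1, 1, 0, 1,
  0, 1, 1, 0], [0, 0, 0, 1, 1, 0, 1, 0], [0, 0, 1, 0, 1, 1, 1, 0], [1, 0, 1, 0, 1, 0, 1, 1], [1,
  1, 0, 0, 1, 1, 1, 0], [1, 0, 1, 0, 1, 1, 1, 0]]) (LK := lmk [[0, 0, 0, 0, 0, 0, 0, 0, 0, 0],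
  [0, 0, 0, 1, 1, 1, 0, 1, 0, 1], [0, 0, 0, 0, 1, 1, 0, 1, 0, 0], [0, 0, 0, 1, 0, 1, 1, 1, 0,
  0], [0, 0, 0, 1, 1, 0, 0, 0, 1, 0], [0, 0, 0, 0, 1, 0, 1, 1, 1, 0], [0, 0, 0, 1, 1, 0, 0, 0,
  0, 0], [0, 0, 0, 0, 0, 0, 1, 1, 1, 0]])
    (by decide +kernel)

theorem so9z : SO (P := Fin 9) 11 0 2 (lm [[0, 0, 1, 0, 0, 0, 1, 0, 0], [0, 0, 0, 0, 0, 1, 0, 0,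
  0], [1, 0, 0, -1, 0, 0, 0, 0, 0], [0, 0, -1, 0, 0, 1, 1, 0, 0], [0, 0, 0, 0, 0, -1, 0, 0, 1],
  [0, 1, 0, 1, -1, 0, 0, 0, 0], [1, 0, 0, 1, 0, 0, 0, 1, 0], [0, 0, 0, 0, 0, 0, 1, 0, 1], [0, 0,
  0, 0, 1, 0, 0, 1, 0]]) (lm [[0, 0, 0, 0, 0, 0, 0, 0, 0], [0, 0, 0, 0, 0, 0, 0, 0, 0], [0, 0,
  0, 0, 0, 0, 0, 0, 0], [1, -1, 0, 0, 0, 0, 0, 0, 0], [0, 1, -1, 0, 0, 0, 0, 0, 0], [-1, 0, 1,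
  0, 0, 0, 0, 0, 0], [0, 0, 0, 0, 0, 0, 0, 0, 0], [0, 0, 0, 0, 0, 0, 0, 0, 0], [0, 0, 0, 0, 0,
  0, 0, 0, 0]]) (lv [0, 1, 0, 0, 1, 0, 0, 1, 1]) (lv [1, 1, 1, 1, 1, 1, 1, 1, 1]) (lv [3, 3, 3,
  4, 4, 4, 3, 3, 3]) (lv [-1, 2, 1, -1, 1, 2, -1, 2, 3]) ![0, 1, 2] 8 7 :=
SO.of_ok (u0 := 0) (LM := lm [[1, 1, 0, 1, 0, 0, 0, 0, 0], [1, 0, 1, 0, 0, 1, 0, 1, 1], [0, 1,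
  1, 0, 1, 0, 1, 0, 1], [1, 1, 1, 1, 0, 0, 0, 0, 0], [1, 1, 1, 0, 1, 0, 1, 1, 0], [1, 1, 1, 0,
  0, 1, 0, 1, 1], [1, 1, 1, 0, 1, 0, 1, 0, 1], [0, 0, 1, 0, 0, 0, 1, 0, 0], [1, 1, 0, 0, 1, 0,
  0, 1, 1]]) (LK := lmk [[0, 0, 0, 0, 0, 0, 0, 0, 0, 0, 0], [0, 0, 0, 0, 0, 0, 0, 0, 1, 0, 1],
  [0, 0, 0, 1, 1, 1, 1, 1, 1, 0, 1], [0, 0, 0, 1, 0, 0, 0, 0, 1, 1, 1], [0, 0, 0, 1, 0, 1, 0, 0,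
  0, 1, 0], [0, 0, 0, 1, 1, 0, 1, 0, 0, 1, 1], [0, 0, 0, 1, 0, 1, 0, 1, 1, 1, 0], [0, 0, 0, 1,
  0, 0, 1, 0, 1, 1, 1], [0, 0, 0, 0, 0, 1, 1, 0, 0, 0, 1]])
    (by decide +kernel)

theorem so9y : SO (P := Fin 9) 10 0 2 (lm [[0, 0, 1, 0, -1, 0, 0, 0, 0], [0, 0, 1, 0, 0, 0, 1,
  0, 0], [1, 1, 0, 0, 0, 0, 0, 0, 1], [0, 0, 0, 0, 0, -1, 0, 1, 0], [-1, 0, 0, 0, 0, 1, 1, 0,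
  0], [0, 0, 0, -1, 1, 0, 0, 0, 0], [0, 1, 0, 0, 1, 0, 0, 0, 0], [0, 0, 0, 1, 0, 0, 0, 0, 1],
  [0, 0, 1, 0, 0, 0, 0, 1, 0]]) (lm [[0, 0, 0, 0, 0, 0, 0, 0, 0], [0, 0, 0, 0, 0, 0, 0, 0, 0],
  [0, 0, 0, 0, 0, 0, 0, 0, 0], [1, -1, 0, 0, 0, 0, 0, 0, 0], [0, 1, -1, 0, 0, 0, 0, 0, 0], [-1,
  0, 1, 0, 0, 0, 0, 0, 0], [0, 0, 0, 0, 0, 0, 0, 0, 0], [0, 0, 0, 0, 0, 0, 0, 0, 0], [0, 0, 0,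
  0, 0, 0, 0, 0, 0]]) (lv [0, 0, 1, 1, 0, 1, 1, 1, 1]) (lv [1, 1, 1, 1, 1, 1, 1, 1, 1]) (lv [3,
  3, 4, 4, 4, 4, 3, 3, 3]) (lv [1, -2, 1, -1, 1, 2, -1, 1, 2]) ![0, 1, 2] 1 6 :=
SO.of_ok (u0 := 0) (LM := lm [[1, 0, 1, 1, 0, 1, 0, 0, 1], [1, 1, 0, 0, 0, 0, 1, 0, 0], [0, 0,
  0, 0, 1, 1, 1, 1, 1], [0, 0, 0, 0, 1, 1, 1, 0, 0], [1, 0, 0, 0, 1, 1, 1, 1, 1], [0, 0, 1, 1,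
  1, 1, 1, 0, 1], [0, 1, 0, 0, 1, 1, 1, 1, 1], [0, 1, 0, 1, 0, 1, 1, 0, 0], [0, 1, 0, 1, 1, 0,
  0, 1, 0]]) (LK := lmk [[0, 0, 0, 0, 0, 0, 0, 0, 0, 0, 0], [0, 0, 0, 0, 0, 1, 1, 0, 1, 0, 1],
  [0, 0, 0, 0, 1, 0, 0, 1, 0, 0, 1], [0, 0, 0, 0, 1, 0, 0, 0, 1, 0, 1], [0, 0, 0, 1, 0, 1, 1, 0,
  1, 1, 0], [0, 0, 0, 1, 1, 0, 1, 0, 0, 1, 1], [0, 0, 0, 1, 0, 0, 1, 0, 0, 1, 1], [0, 0, 0, 0,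
  0, 0, 1, 0, 1, 1, 0], [0, 0, 0, 0, 1, 0, 1, 1, 0, 1, 1]])
    (by decide +kernel)

theorem so10z : SO (P := Fin 10) 10 0 2 (lm [[0, 1, 0, 0, 0, 0, 0, -1, 0, 1], [1, 0, 0, 0, 0, 1,
  1, 0, 0, 0], [0, 0, 0, 0, 0, 0, 1, 0, 1, 0], [0, 0, 0, 0, 1, 1, 0, 0, 0, 0], [0, 0, 0, 1, 0,
  0, 0, 1, 0, 0], [0, 1, 0, 1, 0, 0, 0, 0, 1, 1], [0, 1, 1, 0, 0, 0, 0, 0, 0, -1], [-1, 0, 0, 0,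
  1, 0, 0, 0, 0, 0], [0, 0, 1, 0, 0, 1, 0, 0, 0, 0], [1, 0, 0, 0, 0, 1, -1, 0, 0, 0]]) (lm [[0,
  0, 0, 0, 0, 0, 0, 0, 0, 0], [0, 0, 0, 0, 0, 0, 0, 0, 0, 0], [0, 0, 0, 0, 0, 0, 0, 0, 0, 0],
  [1, -1, 0, 0, 0, 0, 0, 0, 0, 0], [0, 1, -1, 0, 0, 0, 0, 0, 0, 0], [0, 0, 0, 0, 0, 0, 0, 0, 0,
  0], [0, 0, 0, 0, 0, 0, 0, 0, 0, 0], [0, 0, 0, 0, 0, 0, 0, 0, 0, 0], [0, 0, 0, 0, 0, 0, 0, 0,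
  0, 0], [0, 0, 0, 0, 0, 0, 0, 0, 0, 0]]) (lv [0, 1, 1, 1, 1, 1, 0, 1, 1, 0]) (lv [1, 1, 1, 1,
  1, 1, 1, 1, 1, 1]) (lv [3, 4, 3, 4, 4, 4, 3, 3, 3, 3]) (lv [-2, -2, 3, -2, -3, 1, -1, -1, 4,
  1]) ![0, 1, 2] 1 6 :=
SO.of_ok (u0 := 2) (LM := lm [[0, 0, 1, 0, 0, 0, 0, 0, 1, 1], [0, 1, 0, 0, 0, 0, 0, 0, 0, 1],
  [0, 1, 1, 0, 1, 1, 1, 1, 0, 0], [0, 0, 0, 0, 0, 1, 1, 0, 1, 0], [1, 1, 0, 0, 1, 1, 0, 0, 1,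
  1], [1, 0, 1, 1, 1, 0, 1, 0, 1, 1], [1, 0, 0, 1, 1, 0, 1, 0, 0, 1], [1, 1, 1, 0, 1, 1, 0, 1,
  0, 0], [1, 1, 0, 1, 0, 1, 0, 1, 0, 1], [0, 0, 1, 0, 1, 1, 0, 1, 0, 1]]) (LK := lmk [[0, 0, 0,
  0, 1, 1, 1, 1, 1, 0, 0, 0], [0, 0, 0, 0, 1, 0, 0, 0, 1, 0, 0, 1], [0, 0, 0, 0, 0, 0, 0, 0, 0,
  0, 0, 0], [0, 0, 0, 0, 0, 1, 1, 0, 1, 0, 0, 0], [0, 0, 0, 0, 1, 0, 1, 1, 0, 0, 1, 1], [0, 0,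
  0, 1, 1, 1, 0, 1, 1, 0, 1, 1], [0, 0, 0, 1, 0, 0, 1, 0, 0, 1, 1, 1], [0, 0, 0, 0, 0, 1, 0, 1,
  1, 0, 1, 1], [0, 0, 0, 1, 1, 1, 0, 1, 0, 0, 1, 1], [0, 0, 0, 0, 1, 0, 1, 0, 1, 0, 0, 1]])
    (by decide +kernel)

end Pool.Agent.H93.Nut
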