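import Pool.Agent.H93.Nut.CoreThree
import Pool.Agent.H93.Nut.ClassB

/-!
Skeletons for graphs of odd order.
-/

set_option autoImplicit false
set_option linter.unusedSectionVars false
set_option linter.unusedVariables false

namespace Pool.Agent.H93.Nut

open Finset Pool.Agent.TH296.Nut

section

variable {P : Type} [Fintype P] [DecidableEq P]

/-- extension by zero to three more points -/
def z3 (G : P → P → ℤ) : O3 P → O3 P → ℤ
  | some (some (some i)), some (some (some j)) => G i j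
  | _, _ => 0

/-- extension by zero to two more points -/
def z2 (G : P → P → ℤ) : O2 P → O2 P → ℤ
  | some (some i), some (some j) => G i j
  | _, _ => 0

theorem z3_oo (G : P → P → ℤ) (i j : P) : z3 G (oo i) (oo j) = G i j := rfl

theorem z3_r (G : P → P → ℤ) (i : O3 P) : z3 G i op = 0 ∧ z3 G i oq = 0 ∧ z3 G i or = 0 := by
  revert i
  refine ex3_all ?_ ?_ ?_ ?_ <;> intros <;> exact ⟨rfl, rfl, rfl⟩

theorem z3_l (G : P → P → ℤ) (i : O3 P) : z3 G op i = 0 ∧ z3 G oq i = 0 ∧ z3 G or i = 0 := by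
  refine ⟨?_, ?_, ?_⟩ <;> simp [z3]

theorem z3_row (G : P → P → ℤ) {A : Type} [CommRing A] (f : O3 P → A) (i : P) :
    ∑ j, (z3 G (oo i) j : A) * f j = ∑ j, (G i j : A) * f (oo j) := by
  rw [sum_o3]
  simp [z3]

theorem z3_col (G : P → P → ℤ) {A : Type} [CommRing A] (f : O3 P → A) (i : P) :
    ∑ j, (z3 G j (oo i) : A) * f j = ∑ j, (G j i : A) * f (oo j) := by
  rw [sum_o3]
  simp [z3]

theorem z3_ne {G : P → P → ℤ} {i j : O3 P} (h : z3 G i j ≠ 0) :
    ∃ i' j', i = oo i' ∧ j = oo j' ∧ G i' j' ≠ 0 := by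
  suffices key : ∀ i j : O3 P, z3 G i j ≠ 0 → ∃ i' j', i = oo i' ∧ j = oo j' ∧ G i' j' ≠ 0 from
    key i j h
  clear h
  refine ex3_all ?_ ?_ ?_ ?_
  · intro i
    refine ex3_all ?_ ?_ ?_ ?_
    · intro j h
      exact ⟨i, j, rfl, rfl, h⟩
    · intro h; exact absurd (z3_r G _).1 h
    · intro h; exact absurd (z3_r G _).2.1 h
    · intro h; exact absurd (z3_r G _).2.2 h
  · intro j h; exact absurd (z3_l G _).1 h
  · intro j h; exact absurd (z3_l G _).2.1 h
  · intro j h; exact absurd (z3_l G _).2.2 h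

theorem z2_r (G : P → P → ℤ) (i : O2 P) : z2 G i w1 = 0 ∧ z2 G i w2 = 0 := by
  revert i
  refine ex2_all ?_ ?_ ?_ <;> intros <;> exact ⟨rfl, rfl⟩

theorem z2_l (G : P → P → ℤ) (i : O2 P) : z2 G w1 i = 0 ∧ z2 G w2 i = 0 := by
  refine ⟨?_, ?_⟩ <;> simp [z2]

theorem z2_row (G : P → P → ℤ) {A : Type} [CommRing A] (f : O2 P → A) (i : P) :
    ∑ j, (z2 G (wo i) j : A) * f j = ∑ j, (G i j : A) * f (wo j) := by
  rw [sum_o2]
  simp [z2]

theorem z2_col (G : P → P → ℤ) {A : Type} [CommRing A] (f : O2 P → A) (i : P) :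
    ∑ j, (z2 G j (wo i) : A) * f j = ∑ j, (G j i : A) * f (wo j) := by
  rw [sum_o2]
  simp [z2]

theorem z2_ne {G : P → P → ℤ} {i j : O2 P} (h : z2 G i j ≠ 0) :
    ∃ i' j', i = wo i' ∧ j = wo j' ∧ G i' j' ≠ 0 := by
  suffices key : ∀ i j : O2 P, z2 G i j ≠ 0 → ∃ i' j', i = wo i' ∧ j = wo j' ∧ G i' j' ≠ 0 from
    key i j h
  clear h
  refine ex2_all ?_ ?_ ?_
  · intro i
    refine ex2_all ?_ ?_ ?_
    · intro j h
      exact ⟨i, j, rfl, rfl, h⟩
    · intro h; exact absurd (z2_r G _).1 h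
    · intro h; exact absurd (z2_r G _).2 h
  · intro j h; exact absurd (z2_l G _).1 h
  · intro j h; exact absurd (z2_l G _).2 h

theorem sysBe {A : Type} [CommRing A] (S : P → P → ℤ) (D : P → ℤ) (u v : P) (y : O2 P → A)
    (e : P → A) :
    (∀ i, ∑ j, (tB S u v i j : A) * y j - ((ex2 D 0 0 i : ℤ) : A) * y i = ex2 e 0 0 i) ↔
      (∀ i, ∑ j, (S i j : A) * y (wo j) - (D i : A) * y (wo i) = e i) ∧ y w1 = y (wo v) ∧
        y w2 = - y (wo u) := by
  have r0 : ∀ i, ∑ j, (tB S u v (wo i) j : A) * y j = ∑ j, (S i j : A) * y (wo j) +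
      (if i = u then y w1 - y (wo v) else 0) - (if i = v then y w2 + y (wo u) else 0) := by
    intro i
    rw [sum_o2]
    simp only [tB, Int.cast_sub, sub_mul, Finset.sum_sub_distrib, ew_row]
    split_ifs <;> push_cast <;> ring
  have r1 : ∑ j, (tB S u v w1 j : A) * y j = y (wo u) + y w2 := by
    rw [sum_o2]
    simp only [tB, Int.cast_ite, Int.cast_one, Int.cast_zero, ite_mul, one_mul, zero_mul,
      Finset.sum_ite_eq', Finset.mem_univ, if_true]
    ring
  have r2 : ∑ j, (tB S u v w2 j : A) * y j = y w1 - y (wo v) := by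
    rw [sum_o2]
    simp only [tB, Int.cast_ite, Int.cast_one, Int.cast_zero, Int.cast_neg, ite_mul, one_mul,
      zero_mul, neg_mul, Finset.sum_ite_eq', Finset.mem_univ, if_true]
    ring
  constructor
  · intro h
    have h1 := h w1
    have h2 := h w2
    rw [r1] at h1
    rw [r2] at h2
    simp only [ex2, Int.cast_zero, zero_mul, sub_zero] at h1 h2
    have k1 : y w1 = y (wo v) := sub_eq_zero.1 h2
    have k2 : y w2 = - y (wo u) := by linear_combination h1
    refine ⟨?_, k1, k2⟩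
    intro i
    have h3 := h (wo i)
    rw [r0, k1, k2] at h3
    simp only [ex2] at h3
    rw [← h3]
    split_ifs <;> ring
  · rintro ⟨h, k1, k2⟩
    refine ex2_all ?_ ?_ ?_
    · intro i
      rw [r0, k1, k2]
      simp only [ex2]
      have h3 := h i
      split_ifs <;> linear_combination h3
    · rw [r1, k2]
      simp only [ex2, Int.cast_zero]
      ring
    · rw [r2, k1]
      simp only [ex2, Int.cast_zero]
      ring

/-- A skeleton for graphs of odd order. -/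
structure SO (τ ν T : ℤ) (S G : P → P → ℤ) (D e h a : P → ℤ) (y : Fin 3 → P) (u v : P) :
    Prop where
  val : ∀ i j, S i j = 0 ∨ S i j = 1 ∨ S i j = -1
  symm : ∀ i j, S i j = S j i
  diag : ∀ i, S i i = 0
  dval : ∀ i, D i = 0 ∨ D i = 1
  gval : ∀ i j, G i j = 0 ∨ G i j = 1 ∨ G i j = -1
  gS : ∀ i j, G i j ≠ 0 → S i j = 0
  gG : ∀ i j, G i j ≠ 0 → G j i = 0
  grow : ∀ i, ∑ j, G i j = 0
  gcol : ∀ i j, G i j ≠ 0 → ∃ k, j = y k
  inj : Function.Injective y
  ev : ∀ i, e i = 0 ∨ e i = 1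
  ey : ∀ k, e (y k) = 1
  hdef : ∀ i, 2 * h i = ∑ j, (S i j) ^ 2 + D i + ∑ j, (G i j) ^ 2 + ∑ j, (G j i) ^ 2 +
    ∑ k, bb e y i k
  hmin : ∀ i, 1 ≤ h i
  hmax : ∀ i, h i ≤ 4
  t0 : ∀ i, 0 ≤ ∑ j, (S i j) ^ 2 + ∑ j, (G i j) ^ 2 + ∑ j, (G j i) ^ 2 - h i + 1
  tT : ∀ i, ∑ j, (S i j) ^ 2 + ∑ j, (G i j) ^ 2 + ∑ j, (G j i) ^ 2 - h i + 1 ≤ T
  T2 : 2 ≤ T
  tsum : ∑ i, (∑ j, (S i j) ^ 2 + ∑ j, (G i j) ^ 2 + ∑ j, (G j i) ^ 2 - h i + 1) = τ
  nu : ∀ k, ∑ i, bb e y i k = Fintype.card P - 1 - ν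
  nz : ∀ i, a i ≠ 0
  ker : ∀ i, ∑ j, S i j * a j - D i * a i = 0
  hw : ∀ k, ∑ l, G l (y k) * a l ≠ 0
  odd : ∃ u0, (a u0 : ZMod 2) = 1
  M : ∀ z : P → ZMod 2, (∀ i, ∑ j, (S i j : ZMod 2) * z j - D i * z i =
    - ∑ j, (G i j : ZMod 2) * z j) → ∀ i, z i = 0
  K : ∀ x : P → ZMod 2, (∀ i, (∀ k, i ≠ y k) → ∑ j, (S i j : ZMod 2) * x j - D i * x i = 0) →
      (∑ k, (∑ j, (S (y k) j : ZMod 2) * x j - D (y k) * x (y k) +
        ∑ j, (G j (y k) : ZMod 2) * x j) = 0) →
      (∑ i, (D i : ZMod 2) * x i = 0) → (∀ i, x i = 0) ∨ (∀ i, x i = a i)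
  uv : S u v = 1
  auv : a u ≠ a v

theorem tS_sq {S : P → P → ℤ} {u v : P} (hs : ∀ i j, S i j = S j i) (huv : S u v = 1)
    (hne : u ≠ v) (i : O3 P) :
    ∑ j, (tS S u v i j) ^ 2 = ex3 (fun i => ∑ j, (S i j) ^ 2) 2 2 2 i := by
  revert i
  refine ex3_all ?_ ?_ ?_ ?_
  · intro i
    rw [sum_o3]
    simp only [tS, ex3]
    have e1 : ∀ j, (S i j - ew u v i j) ^ 2 = (S i j) ^ 2 - ew u v i j := by
      intro j
      rcases ew_S hs huv hne i j with e | ⟨e, e'⟩
      · rw [e]; ring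
      · rw [e, e']; norm_num
    simp only [e1, Finset.sum_sub_distrib, ew_sum]
    split_ifs <;> ring
  · rw [sum_o3]
    simp only [tS, ex3, ite_pow, one_pow, zero_pow two_ne_zero]
    simp
  · rw [sum_o3]
    simp [tS, ex3]
  · rw [sum_o3]
    simp only [tS, ex3, ite_pow, one_pow, zero_pow two_ne_zero]
    simp

theorem tB_sq {S : P → P → ℤ} {u v : P} (hs : ∀ i j, S i j = S j i) (huv : S u v = 1)
    (hne : u ≠ v) (i : O2 P) :
    ∑ j, (tB S u v i j) ^ 2 = ex2 (fun i => ∑ j, (S i j) ^ 2) 2 2 i := by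
  revert i
  refine ex2_all ?_ ?_ ?_
  · intro i
    rw [sum_o2]
    simp only [tB, ex2]
    have e1 : ∀ j, (S i j - ew u v i j) ^ 2 = (S i j) ^ 2 - ew u v i j := by
      intro j
      rcases ew_S hs huv hne i j with e | ⟨e, e'⟩
      · rw [e]; ring
      · rw [e, e']; norm_num
    simp only [e1, Finset.sum_sub_distrib, ew_sum]
    split_ifs <;> ring
  · rw [sum_o2]
    simp only [tB, ex2, ite_pow, one_pow, zero_pow two_ne_zero]
    simp
  · rw [sum_o2]
    simp only [tB, ex2, ite_pow, one_pow, zero_pow two_ne_zero]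
    simp

theorem tS_val {S : P → P → ℤ} {u v : P} (hval : ∀ i j, S i j = 0 ∨ S i j = 1 ∨ S i j = -1)
    (hs : ∀ i j, S i j = S j i) (huv : S u v = 1)
    (hne : u ≠ v) : ∀ i j : O3 P, tS S u v i j = 0 ∨ tS S u v i j = 1 ∨ tS S u v i j = -1 := by
  refine ex3_all ?_ ?_ ?_ ?_
  · intro i
    refine ex3_all ?_ ?_ ?_ ?_
    · intro j
      simp only [tS]
      rcases ew_S hs huv hne i j with e | ⟨e, e'⟩
      · rw [e, sub_zero]; exact hval i j
      · rw [e, e']; left; norm_num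
    · simp only [tS]; split_ifs <;> simp
    · simp [tS]
    · simp only [tS]; split_ifs <;> simp
  · refine ex3_all ?_ ?_ ?_ ?_
    · intro j
      simp only [tS]; split_ifs <;> simp
    · simp [tS]
    · simp [tS]
    · simp [tS]
  · refine ex3_all ?_ ?_ ?_ ?_
    · intro j; simp [tS]
    · simp [tS]
    · simp [tS]
    · simp [tS]
  · refine ex3_all ?_ ?_ ?_ ?_
    · intro j
      simp only [tS]; split_ifs <;> simp
    · simp [tS]
    · simp [tS]
    · simp [tS]

theorem tS_symm {S : P → P → ℤ} {u v : P} (hs : ∀ i j, S i j = S j i) :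
    ∀ i j : O3 P, tS S u v i j = tS S u v j i := by
  refine ex3_all ?_ ?_ ?_ ?_
  · intro i
    refine ex3_all ?_ ?_ ?_ ?_
    · intro j
      simp only [tS]
      rw [hs i j, ew_symm]
    · rfl
    · rfl
    · rfl
  · refine ex3_all ?_ ?_ ?_ ?_
    · intro j; rfl
    · rfl
    · rfl
    · rfl
  · refine ex3_all ?_ ?_ ?_ ?_
    · intro j; rfl
    · rfl
    · rfl
    · rfl
  · refine ex3_all ?_ ?_ ?_ ?_
    · intro j; rfl
    · rfl
    · rfl
    · rfl

theorem tB_val {S : P → P → ℤ} {u v : P} (hval : ∀ i j, S i j = 0 ∨ S i j = 1 ∨ S i j = -1)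
    (hs : ∀ i j, S i j = S j i) (huv : S u v = 1)
    (hne : u ≠ v) : ∀ i j : O2 P, tB S u v i j = 0 ∨ tB S u v i j = 1 ∨ tB S u v i j = -1 := by
  refine ex2_all ?_ ?_ ?_
  · intro i
    refine ex2_all ?_ ?_ ?_
    · intro j
      simp only [tB]
      rcases ew_S hs huv hne i j with e | ⟨e, e'⟩
      · rw [e, sub_zero]; exact hval i j
      · rw [e, e']; left; norm_num
    · simp only [tB]; split_ifs <;> simp
    · simp only [tB]; split_ifs <;> simp
  · refine ex2_all ?_ ?_ ?_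
    · intro j
      simp only [tB]; split_ifs <;> simp
    · simp [tB]
    · simp [tB]
  · refine ex2_all ?_ ?_ ?_
    · intro j
      simp only [tB]; split_ifs <;> simp
    · simp [tB]
    · simp [tB]

theorem tB_symm {S : P → P → ℤ} {u v : P} (hs : ∀ i j, S i j = S j i) :
    ∀ i j : O2 P, tB S u v i j = tB S u v j i := by
  refine ex2_all ?_ ?_ ?_
  · intro i
    refine ex2_all ?_ ?_ ?_
    · intro j
      simp only [tB]
      rw [hs i j, ew_symm]
    · rfl
    · rfl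
  · refine ex2_all ?_ ?_ ?_
    · intro j; rfl
    · rfl
    · rfl
  · refine ex2_all ?_ ?_ ?_
    · intro j; rfl
    · rfl
    · rfl

theorem SO.growA {τ ν T : ℤ} {S G : P → P → ℤ} {D e h a : P → ℤ} {y : Fin 3 → P} {u v : P}
    (s : SO τ ν T S G D e h a y u v) :
    SO τ ν T (tS S u v) (z3 G) (ex3 D 1 1 1) (ex3 e 1 1 1) (ex3 h 3 3 3)
      (ex3 a (a v) (a v - a u) (- a u)) (fun k => oo (y k)) (oo u) op := by
  have hne : u ≠ v := by
    rintro rfl
    exact s.auv rfl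
  have hsq := tS_sq s.symm s.uv hne
  have hG1 : ∀ i, ∑ j, (z3 G i j) ^ 2 = ex3 (fun i => ∑ j, (G i j) ^ 2) 0 0 0 i := by
    refine ex3_all ?_ ?_ ?_ ?_
    · intro i; rw [sum_o3]; simp [z3, ex3]
    · rw [sum_o3]; simp [z3, ex3]
    · rw [sum_o3]; simp [z3, ex3]
    · rw [sum_o3]; simp [z3, ex3]
  have hG2 : ∀ i, ∑ j, (z3 G j i) ^ 2 = ex3 (fun i => ∑ j, (G j i) ^ 2) 0 0 0 i := by
    refine ex3_all ?_ ?_ ?_ ?_
    · intro i; rw [sum_o3]; simp [z3, ex3]
    · rw [sum_o3]; simp [z3, ex3]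
    · rw [sum_o3]; simp [z3, ex3]
    · rw [sum_o3]; simp [z3, ex3]
  have hb : ∀ i k, bb (ex3 e 1 1 1) (fun k => oo (y k)) i k =
      ex3 (fun i => bb e y i k) 1 1 1 i := by
    intro i k
    revert i
    refine ex3_all ?_ ?_ ?_ ?_
    · intro i
      simp [bb, ex3]
    · simp [bb, ex3]
    · simp [bb, ex3]
    · simp [bb, ex3]
  have hbs : ∀ i, ∑ k, bb (ex3 e 1 1 1) (fun k => oo (y k)) i k =
      ex3 (fun i => ∑ k, bb e y i k) 3 3 3 i := by
    intro i
    simp only [hb]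
    revert i
    refine ex3_all ?_ ?_ ?_ ?_
    · intro i; rfl
    · simp [ex3]
    · simp [ex3]
    · simp [ex3]
  have htt : ∀ i, ∑ j, (tS S u v i j) ^ 2 + ∑ j, (z3 G i j) ^ 2 + ∑ j, (z3 G j i) ^ 2 -
      ex3 h 3 3 3 i + 1 = ex3 (fun i => ∑ j, (S i j) ^ 2 + ∑ j, (G i j) ^ 2 + ∑ j, (G j i) ^ 2 -
      h i + 1) 0 0 0 i := by
    intro i
    rw [hsq, hG1, hG2]
    revert i
    refine ex3_all ?_ ?_ ?_ ?_
    · intro i; rfl
    · simp [ex3]
    · simp [ex3]
    · simp [ex3]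
  have hY : ∀ i : P, (∀ k, i ≠ y k) → ∀ k, (oo i) ≠ (fun k => oo (y k)) k := by
    intro i hi k hh
    exact hi k (by simpa using hh)
  refine
    { val := tS_val s.val s.symm s.uv hne, symm := tS_symm s.symm, diag := ?_, dval := ?_
      gval := ?_, gS := ?_, gG := ?_, grow := ?_, gcol := ?_, inj := ?_, ev := ?_, ey := ?_
      hdef := ?_, hmin := ?_, hmax := ?_, t0 := ?_, tT := ?_, T2 := s.T2, tsum := ?_, nu := ?_
      nz := ?_, ker := ?_, hw := ?_, odd := ?_, M := ?_, K := ?_, uv := ?_, auv := ?_ }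
  · refine ex3_all ?_ rfl rfl rfl
    intro i
    simp only [tS]
    rw [s.diag, ew_diag hne, sub_zero]
  · exact ex3_all s.dval (Or.inr rfl) (Or.inr rfl) (Or.inr rfl)
  · intro i j
    by_cases h0 : z3 G i j = 0
    · exact Or.inl h0
    · obtain ⟨i', j', rfl, rfl, -⟩ := z3_ne h0
      exact s.gval i' j'
  · intro i j h0
    obtain ⟨i', j', rfl, rfl, h1⟩ := z3_ne h0
    have h2 := s.gS i' j' h1
    simp only [tS]
    rw [h2, ew_zero_of s.symm s.uv h2, sub_zero]
  · intro i j h0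
    obtain ⟨i', j', rfl, rfl, h1⟩ := z3_ne h0
    exact s.gG i' j' h1
  · refine ex3_all ?_ ?_ ?_ ?_
    · intro i
      have := z3_row (A := ℤ) G (fun _ => 1) i
      simp only [Int.cast_id, mul_one] at this
      rw [this]; exact s.grow i
    · apply Finset.sum_eq_zero; intro j _; exact (z3_l G j).1
    · apply Finset.sum_eq_zero; intro j _; exact (z3_l G j).2.1
    · apply Finset.sum_eq_zero; intro j _; exact (z3_l G j).2.2
  · intro i j h0
    obtain ⟨i', j', rfl, rfl, h1⟩ := z3_ne h0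
    obtain ⟨k, hk⟩ := s.gcol i' j' h1
    exact ⟨k, by rw [hk]⟩
  · intro k l hkl
    exact s.inj (by simpa using hkl)
  · exact ex3_all s.ev (Or.inr rfl) (Or.inr rfl) (Or.inr rfl)
  · intro k; exact s.ey k
  · intro i
    rw [hsq, hG1, hG2, hbs]
    revert i
    refine ex3_all ?_ ?_ ?_ ?_
    · intro i; exact s.hdef i
    · simp [ex3]
    · simp [ex3]
    · simp [ex3]
  · refine ex3_all s.hmin ?_ ?_ ?_ <;> simp [ex3]
  · refine ex3_all s.hmax ?_ ?_ ?_ <;> simp [ex3]
  · intro i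
    rw [htt]
    revert i
    exact ex3_all s.t0 le_rfl le_rfl le_rfl
  · have hT := s.T2
    intro i
    rw [htt]
    revert i
    refine ex3_all s.tT ?_ ?_ ?_
    · show (0 : ℤ) ≤ T
      linarith
    · show (0 : ℤ) ≤ T
      linarith
    · show (0 : ℤ) ≤ T
      linarith
  · simp only [htt]
    rw [sum_o3]
    simp only [ex3, zero_add]
    exact s.tsum
  · intro k
    simp only [hb]
    rw [sum_o3]
    simp only [ex3]
    have := s.nu k
    rw [Fintype.card_option, Fintype.card_option, Fintype.card_option]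
    push_cast
    linarith
  · refine ex3_all s.nz (s.nz v) (sub_ne_zero.2 (Ne.symm s.auv)) (neg_ne_zero.2 (s.nz u))
  · have := (sys_iff (A := ℤ) S D u v (ex3 a (a v) (a v - a u) (- a u)) (fun _ => 0)).2
      ⟨fun i => by simpa [ex3] using s.ker i, rfl, rfl, rfl⟩
    have h2 : ∀ i : O3 P, ex3 (fun _ : P => (0 : ℤ)) 0 0 0 i = 0 := by
      refine ex3_all ?_ ?_ ?_ ?_ <;> intros <;> rfl
    intro i
    have h1 := this i
    simp only [Int.cast_id] at h1
    rw [h1, h2]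
  · intro k
    have := z3_col (A := ℤ) G (ex3 a (a v) (a v - a u) (- a u)) (y k)
    simp only [Int.cast_id] at this
    rw [this]
    exact s.hw k
  · obtain ⟨u0, h0⟩ := s.odd
    exact ⟨oo u0, h0⟩
  · intro z hz
    have h1 := (sys_iff (A := ZMod 2) S D u v z
      (fun i => - ∑ j, (G i j : ZMod 2) * z (oo j))).1 (by
      refine ex3_all ?_ ?_ ?_ ?_
      · intro i
        rw [hz (oo i), z3_row]
        rfl
      · rw [hz op]
        simp only [(z3_l G _).1, Int.cast_zero, zero_mul, Finset.sum_const_zero, neg_zero]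
        rfl
      · rw [hz oq]
        simp only [(z3_l G _).2.1, Int.cast_zero, zero_mul, Finset.sum_const_zero, neg_zero]
        rfl
      · rw [hz or]
        simp only [(z3_l G _).2.2, Int.cast_zero, zero_mul, Finset.sum_const_zero, neg_zero]
        rfl)
    obtain ⟨h2, k1, k2, k3⟩ := h1
    have h3 := s.M (fun i => z (oo i)) h2
    have a1 : z (oo v) = 0 := h3 v
    have a2 : z (oo u) = 0 := h3 u
    refine ex3_all h3 ?_ ?_ ?_
    · rw [k1, a1]
    · rw [k2, a1, a2, sub_zero]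
    · rw [k3, a2, neg_zero]
  · intro x hK1 hK2 hK3
    have h1 := (sys_iff (A := ZMod 2) S D u v x
      (fun i => ∑ j, (tS S u v (oo i) j : ZMod 2) * x j -
        ((ex3 D 1 1 1 (oo i) : ℤ) : ZMod 2) * x (oo i))).1 (by
      refine ex3_all ?_ ?_ ?_ ?_
      · intro i; rfl
      · exact hK1 op (fun k hh => by simp at hh)
      · exact hK1 oq (fun k hh => by simp at hh)
      · exact hK1 or (fun k hh => by simp at hh))
    obtain ⟨h2, k1, k2, k3⟩ := h1
    have r1 : ∀ i, (∀ k, i ≠ y k) → ∑ j, (S i j : ZMod 2) * x (oo j) - D i * x (oo i) = 0 := by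
      intro i hi
      rw [h2 i]
      exact hK1 (oo i) (hY i hi)
    have r2 : ∑ k, (∑ j, (S (y k) j : ZMod 2) * x (oo j) - D (y k) * x (oo (y k)) +
        ∑ j, (G j (y k) : ZMod 2) * x (oo j)) = 0 := by
      rw [← hK2]
      refine Finset.sum_congr rfl fun k _ => ?_
      rw [h2 (y k), z3_col]
    have r3 : ∑ i, (D i : ZMod 2) * x (oo i) = 0 := by
      rw [← hK3, sum_o3]
      simp only [ex3, k1, k2, k3]
      have : ∀ p q : ZMod 2, ((1 : ℤ) : ZMod 2) * -p + (((1 : ℤ) : ZMod 2) * (q - p) +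
          (((1 : ℤ) : ZMod 2) * q + 0)) = 0 := by decide
      have h5 := this (x (oo u)) (x (oo v))
      linear_combination -h5
    rcases s.K (fun i => x (oo i)) r1 r2 r3 with h3 | h3
    · left
      have a1 : x (oo v) = 0 := h3 v
      have a2 : x (oo u) = 0 := h3 u
      refine ex3_all h3 ?_ ?_ ?_
      · rw [k1, a1]
      · rw [k2, a1, a2, sub_zero]
      · rw [k3, a2, neg_zero]
    · right
      have a1 : x (oo v) = a v := h3 v
      have a2 : x (oo u) = a u := h3 u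
      refine ex3_all h3 ?_ ?_ ?_
      · rw [k1, a1]; rfl
      · rw [k2, a1, a2]
        show _ = ((a v - a u : ℤ) : ZMod 2)
        push_cast; rfl
      · rw [k3, a2]
        show _ = ((- a u : ℤ) : ZMod 2)
        push_cast; rfl
  · simp [tS]
  · exact s.auv

theorem SO.growB {τ ν T : ℤ} {S G : P → P → ℤ} {D e h a : P → ℤ} {y : Fin 3 → P} {u v : P}
    (s : SO τ ν T S G D e h a y u v) :
    SO (τ + 4) (ν + 2) T (tB S u v) (z2 G) (ex2 D 0 0) (ex2 e 0 0) (ex2 h 1 1)
      (ex2 a (a v) (- a u)) (fun k => wo (y k)) (wo u) w1 := by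
  have hne : u ≠ v := by
    rintro rfl
    exact s.auv rfl
  have hsq := tB_sq s.symm s.uv hne
  have hG1 : ∀ i, ∑ j, (z2 G i j) ^ 2 = ex2 (fun i => ∑ j, (G i j) ^ 2) 0 0 i := by
    refine ex2_all ?_ ?_ ?_
    · intro i; rw [sum_o2]; simp [z2, ex2]
    · rw [sum_o2]; simp [z2, ex2]
    · rw [sum_o2]; simp [z2, ex2]
  have hG2 : ∀ i, ∑ j, (z2 G j i) ^ 2 = ex2 (fun i => ∑ j, (G j i) ^ 2) 0 0 i := by
    refine ex2_all ?_ ?_ ?_
    · intro i; rw [sum_o2]; simp [z2, ex2]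
    · rw [sum_o2]; simp [z2, ex2]
    · rw [sum_o2]; simp [z2, ex2]
  have hb : ∀ i k, bb (ex2 e 0 0) (fun k => wo (y k)) i k =
      ex2 (fun i => bb e y i k) 0 0 i := by
    intro i k
    revert i
    refine ex2_all ?_ ?_ ?_
    · intro i
      simp [bb, ex2]
    · simp [bb, ex2]
    · simp [bb, ex2]
  have hbs : ∀ i, ∑ k, bb (ex2 e 0 0) (fun k => wo (y k)) i k =
      ex2 (fun i => ∑ k, bb e y i k) 0 0 i := by
    intro i
    simp only [hb]
    revert i
    refine ex2_all ?_ ?_ ?_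
    · intro i; rfl
    · simp [ex2]
    · simp [ex2]
  have htt : ∀ i, ∑ j, (tB S u v i j) ^ 2 + ∑ j, (z2 G i j) ^ 2 + ∑ j, (z2 G j i) ^ 2 -
      ex2 h 1 1 i + 1 = ex2 (fun i => ∑ j, (S i j) ^ 2 + ∑ j, (G i j) ^ 2 + ∑ j, (G j i) ^ 2 -
      h i + 1) 2 2 i := by
    intro i
    rw [hsq, hG1, hG2]
    revert i
    refine ex2_all ?_ ?_ ?_
    · intro i; rfl
    · simp [ex2]
    · simp [ex2]
  have hY : ∀ i : P, (∀ k, i ≠ y k) → ∀ k, (wo i) ≠ (fun k => wo (y k)) k := by
    intro i hi k hh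
    exact hi k (by simpa using hh)
  refine
    { val := tB_val s.val s.symm s.uv hne, symm := tB_symm s.symm, diag := ?_, dval := ?_
      gval := ?_, gS := ?_, gG := ?_, grow := ?_, gcol := ?_, inj := ?_, ev := ?_, ey := ?_
      hdef := ?_, hmin := ?_, hmax := ?_, t0 := ?_, tT := ?_, T2 := s.T2, tsum := ?_, nu := ?_
      nz := ?_, ker := ?_, hw := ?_, odd := ?_, M := ?_, K := ?_, uv := ?_, auv := ?_ }
  · refine ex2_all ?_ rfl rfl
    intro i
    simp only [tB]
    rw [s.diag, ew_diag hne, sub_zero]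
  · exact ex2_all s.dval (Or.inl rfl) (Or.inl rfl)
  · intro i j
    by_cases h0 : z2 G i j = 0
    · exact Or.inl h0
    · obtain ⟨i', j', rfl, rfl, -⟩ := z2_ne h0
      exact s.gval i' j'
  · intro i j h0
    obtain ⟨i', j', rfl, rfl, h1⟩ := z2_ne h0
    have h2 := s.gS i' j' h1
    simp only [tB]
    rw [h2, ew_zero_of s.symm s.uv h2, sub_zero]
  · intro i j h0
    obtain ⟨i', j', rfl, rfl, h1⟩ := z2_ne h0
    exact s.gG i' j' h1
  · refine ex2_all ?_ ?_ ?_
    · intro i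
      have := z2_row (A := ℤ) G (fun _ => 1) i
      simp only [Int.cast_id, mul_one] at this
      rw [this]; exact s.grow i
    · apply Finset.sum_eq_zero; intro j _; exact (z2_l G j).1
    · apply Finset.sum_eq_zero; intro j _; exact (z2_l G j).2
  · intro i j h0
    obtain ⟨i', j', rfl, rfl, h1⟩ := z2_ne h0
    obtain ⟨k, hk⟩ := s.gcol i' j' h1
    exact ⟨k, by rw [hk]⟩
  · intro k l hkl
    exact s.inj (by simpa using hkl)
  · exact ex2_all s.ev (Or.inl rfl) (Or.inl rfl)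
  · intro k; exact s.ey k
  · intro i
    rw [hsq, hG1, hG2, hbs]
    revert i
    refine ex2_all ?_ ?_ ?_
    · intro i; exact s.hdef i
    · simp [ex2]
    · simp [ex2]
  · refine ex2_all s.hmin ?_ ?_ <;> simp [ex2]
  · refine ex2_all s.hmax ?_ ?_ <;> simp [ex2]
  · intro i
    rw [htt]
    revert i
    refine ex2_all s.t0 ?_ ?_ <;> simp [ex2]
  · have hT := s.T2
    intro i
    rw [htt]
    revert i
    exact ex2_all s.tT hT hT
  · simp only [htt]
    rw [sum_o2]
    simp only [ex2]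
    rw [s.tsum]; ring
  · intro k
    simp only [hb]
    rw [sum_o2]
    simp only [ex2]
    have := s.nu k
    rw [Fintype.card_option, Fintype.card_option]
    push_cast
    linarith
  · exact ex2_all s.nz (s.nz v) (neg_ne_zero.2 (s.nz u))
  · have := (sysBe (A := ℤ) S D u v (ex2 a (a v) (- a u)) (fun _ => 0)).2
      ⟨fun i => by simpa [ex2] using s.ker i, rfl, rfl⟩
    have h2 : ∀ i : O2 P, ex2 (fun _ : P => (0 : ℤ)) 0 0 i = 0 := by
      refine ex2_all ?_ ?_ ?_ <;> intros <;> rfl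
    intro i
    have h1 := this i
    simp only [Int.cast_id] at h1
    rw [h1, h2]
  · intro k
    have := z2_col (A := ℤ) G (ex2 a (a v) (- a u)) (y k)
    simp only [Int.cast_id] at this
    rw [this]
    exact s.hw k
  · obtain ⟨u0, h0⟩ := s.odd
    exact ⟨wo u0, h0⟩
  · intro z hz
    have h1 := (sysBe (A := ZMod 2) S D u v z
      (fun i => - ∑ j, (G i j : ZMod 2) * z (wo j))).1 (by
      refine ex2_all ?_ ?_ ?_
      · intro i
        rw [hz (wo i), z2_row]
        rfl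
      · rw [hz w1]
        simp only [(z2_l G _).1, Int.cast_zero, zero_mul, Finset.sum_const_zero, neg_zero]
        rfl
      · rw [hz w2]
        simp only [(z2_l G _).2, Int.cast_zero, zero_mul, Finset.sum_const_zero, neg_zero]
        rfl)
    obtain ⟨h2, k1, k2⟩ := h1
    have h3 := s.M (fun i => z (wo i)) h2
    have a1 : z (wo v) = 0 := h3 v
    have a2 : z (wo u) = 0 := h3 u
    refine ex2_all h3 ?_ ?_
    · rw [k1, a1]
    · rw [k2, a2, neg_zero]
  · intro x hK1 hK2 hK3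
    have h1 := (sysBe (A := ZMod 2) S D u v x
      (fun i => ∑ j, (tB S u v (wo i) j : ZMod 2) * x j -
        ((ex2 D 0 0 (wo i) : ℤ) : ZMod 2) * x (wo i))).1 (by
      refine ex2_all ?_ ?_ ?_
      · intro i; rfl
      · exact hK1 w1 (fun k hh => by simp at hh)
      · exact hK1 w2 (fun k hh => by simp at hh))
    obtain ⟨h2, k1, k2⟩ := h1
    have r1 : ∀ i, (∀ k, i ≠ y k) → ∑ j, (S i j : ZMod 2) * x (wo j) - D i * x (wo i) = 0 := by
      intro i hi
      rw [h2 i]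
      exact hK1 (wo i) (hY i hi)
    have r2 : ∑ k, (∑ j, (S (y k) j : ZMod 2) * x (wo j) - D (y k) * x (wo (y k)) +
        ∑ j, (G j (y k) : ZMod 2) * x (wo j)) = 0 := by
      rw [← hK2]
      refine Finset.sum_congr rfl fun k _ => ?_
      rw [h2 (y k), z2_col]
    have r3 : ∑ i, (D i : ZMod 2) * x (wo i) = 0 := by
      rw [← hK3, sum_o2]
      simp only [ex2]
      push_cast
      ring
    rcases s.K (fun i => x (wo i)) r1 r2 r3 with h3 | h3
    · left
      have a1 : x (wo v) = 0 := h3 v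
      have a2 : x (wo u) = 0 := h3 u
      refine ex2_all h3 ?_ ?_
      · rw [k1, a1]
      · rw [k2, a2, neg_zero]
    · right
      have a1 : x (wo v) = a v := h3 v
      have a2 : x (wo u) = a u := h3 u
      refine ex2_all h3 ?_ ?_
      · rw [k1, a1]; rfl
      · rw [k2, a2]
        show _ = ((- a u : ℤ) : ZMod 2)
        push_cast; rfl
  · simp [tB]
  · exact s.auv

end

end Pool.Agent.H93.Nut
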