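import Pool.Agent.H93.Nut.CoreTwo

/-!
Graphs of odd order: nut graphs.
-/

set_option autoImplicit false
set_option linter.unusedSectionVars false
set_option linter.unusedVariables false

namespace Pool.Agent.H93.Nut

open Finset Pool.Agent.TH296.Nut

section

variable {P : Type} [Fintype P] [DecidableEq P]

theorem OG.ow_vals {ρ : ℕ} {S C G : P → P → ℤ} {D e : P → ℤ} {y : Fin 3 → P}
    (h : OG ρ S C G D e y) (v w : (P × Bool) ⊕ Fin 3) :
    ow S C G D e y v w = 0 ∨ ow S C G D e y v w = 2 := by
  have gdiag : ∀ i, G i i = 0 := by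
    intro i
    by_contra hne
    exact hne (h.gG i i hne)
  have hbb : ∀ i k, bb e y i k = 0 ∨ bb e y i k = 1 := by
    intro i k
    unfold bb
    rcases h.ev i with e1 | e1 <;> rw [e1] <;> split_ifs <;> norm_num
  rcases v with ⟨i, s⟩ | k <;> rcases w with ⟨j, t⟩ | l
  · show 2 * C i j + (S i j) ^ 2 + isg s * isg t * S i j +
      (if i = j then D i * (1 - isg s * isg t) else 0) +
      ((G i j) ^ 2 + isg s * G i j) + ((G j i) ^ 2 + isg t * G j i) = 0 ∨
      2 * C i j + (S i j) ^ 2 + isg s * isg t * S i j +
      (if i = j then D i * (1 - isg s * isg t) else 0) +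
      ((G i j) ^ 2 + isg s * G i j) + ((G j i) ^ 2 + isg t * G j i) = 2
    rcases h.gw.zo i j with c0 | c1
    · rw [c0]
      by_cases g1 : G i j = 0
      · by_cases g2 : G j i = 0
        · rw [g1, g2]
          by_cases hij : i = j
          · rw [if_pos hij, ← hij, h.diag]
            rcases h.dval i with d | d <;> rcases isg_cases s with e1 | e1 <;>
              rcases isg_cases t with e2 | e2 <;> rw [d, e1, e2] <;> norm_num
          · rw [if_neg hij]
            rcases h.val i j with d | d | d <;> rcases isg_cases s with e1 | e1 <;>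
              rcases isg_cases t with e2 | e2 <;> rw [d, e1, e2] <;> norm_num
        · have s0 : S i j = 0 := by rw [h.symm]; exact h.gS j i g2
          have hij : i ≠ j := by
            rintro rfl
            exact g2 (gdiag i)
          rw [g1, s0, if_neg hij]
          rcases h.gval j i with d | d | d
          · exact absurd d g2
          · rw [d]
            rcases isg_cases t with e2 | e2 <;> rw [e2] <;> norm_num
          · rw [d]
            rcases isg_cases t with e2 | e2 <;> rw [e2] <;> norm_num
      · have s0 : S i j = 0 := h.gS i j g1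
        have g2 : G j i = 0 := h.gG i j g1
        have hij : i ≠ j := by
          rintro rfl
          exact g1 (gdiag i)
        rw [g2, s0, if_neg hij]
        rcases h.gval i j with d | d | d
        · exact absurd d g1
        · rw [d]
          rcases isg_cases s with e2 | e2 <;> rw [e2] <;> norm_num
        · rw [d]
          rcases isg_cases s with e2 | e2 <;> rw [e2] <;> norm_num
    · obtain ⟨s0, g1⟩ := h.av i j c1
      obtain ⟨-, g2⟩ := h.av j i (by rw [h.gw.symm]; exact c1)
      rw [c1, s0, g1, g2, if_neg (h.gw.ne c1)]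
      right; ring
  · show 2 * bb e y i l = 0 ∨ 2 * bb e y i l = 2
    rcases hbb i l with e1 | e1 <;> rw [e1] <;> norm_num
  · show 2 * bb e y j k = 0 ∨ 2 * bb e y j k = 2
    rcases hbb j k with e1 | e1 <;> rw [e1] <;> norm_num
  · left; rfl

theorem OG.ow_symm {ρ : ℕ} {S C G : P → P → ℤ} {D e : P → ℤ} {y : Fin 3 → P}
    (h : OG ρ S C G D e y) (v w : (P × Bool) ⊕ Fin 3) :
    ow S C G D e y v w = ow S C G D e y w v := by
  rcases v with ⟨i, s⟩ | k <;> rcases w with ⟨j, t⟩ | l
  · show 2 * C i j + (S i j) ^ 2 + isg s * isg t * S i j +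
      (if i = j then D i * (1 - isg s * isg t) else 0) +
      ((G i j) ^ 2 + isg s * G i j) + ((G j i) ^ 2 + isg t * G j i) =
      2 * C j i + (S j i) ^ 2 + isg t * isg s * S j i +
      (if j = i then D j * (1 - isg t * isg s) else 0) +
      ((G j i) ^ 2 + isg t * G j i) + ((G i j) ^ 2 + isg s * G i j)
    rw [h.gw.symm i j, h.symm i j]
    by_cases hij : i = j
    · rw [if_pos hij, if_pos hij.symm, hij]; ring
    · rw [if_neg hij, if_neg (Ne.symm hij)]; ring
  · rfl
  · rfl
  · rfl

/-- Graphs of odd order. -/
theorem nut_odd {ρ : ℕ} {S C G : P → P → ℤ} {D e : P → ℤ} {y : Fin 3 → P}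
    (h : OG ρ S C G D e y) (hρ : 0 < ρ) (a : P → ℤ) (hnz : ∀ i, a i ≠ 0)
    (hker : ∀ i, ∑ j, S i j * a j - D i * a i = 0)
    (hw : ∀ k, ∑ l, G l (y k) * a l ≠ 0) {u0 : P} (hu0 : (a u0 : ZMod 2) = 1)
    (hM : ∀ z : P → ZMod 2, (∀ i, ∑ j, ((S i j : ZMod 2) + G i j) * z j - D i * z i = 0) →
      ∀ i, z i = 0)
    (hK : ∀ x : P → ZMod 2, (∀ i, (∀ k, i ≠ y k) → ∑ j, (S i j : ZMod 2) * x j - D i * x i = 0) →
      (∑ k, (∑ j, ((S (y k) j : ZMod 2) + G j (y k)) * x j - D (y k) * x (y k)) = 0) →
      (∑ i, (D i : ZMod 2) * x i = 0) → (∀ i, x i = 0) ∨ (∀ i, x i = a i)) :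
    Good ρ (2 * Fintype.card P + 3) := by
  let om : Fin 3 → ℤ := fun k => ∑ l, G l (y k) * a l
  let F : ((P × Bool) ⊕ Fin 3) → ℤ := Sum.elim (fun p => isg p.2 * a p.1) om
  have hom : ∑ k, om k = 0 := by
    show ∑ k, ∑ l, G l (y k) * a l = 0
    rw [Finset.sum_comm]
    apply Finset.sum_eq_zero
    intro l _
    rw [← Finset.sum_mul]
    have h1 : ∑ k, G l (y k) = ∑ j, G l j := by
      rw [← Finset.sum_image (s := univ) (g := y) (f := fun j => G l j) (fun a _ b _ hab => h.inj hab)]
      apply Finset.sum_subset (Finset.subset_univ _)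
      intro j _ hj
      by_contra hne
      obtain ⟨k, rfl⟩ := h.gcol l j hne
      exact hj (Finset.mem_image_of_mem y (Finset.mem_univ k))
    rw [h1, h.grow, zero_mul]
  have hF : ∀ v, ∑ w, ow S C G D e y v w * F w = 0 := by
    rintro (⟨i, s⟩ | k)
    · have h1 := row_pair (A := ℤ) S C G D e y F i s
      simp only [Int.cast_id] at h1
      rw [h1]
      have f1 : ∀ j, F (Sum.inl (j, false)) = a j := by
        intro j
        show isg false * a j = a j
        rw [isg_false, one_mul]
      have f2 : ∀ j, F (Sum.inl (j, true)) = - a j := by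
        intro j
        show isg true * a j = - a j
        rw [isg_true]; ring
      have f3 : ∀ k, F (Sum.inr k) = om k := fun k => rfl
      simp only [f1, f2, f3, add_neg_cancel, mul_zero, Finset.sum_const_zero, zero_add, add_zero,
        sub_neg_eq_add]
      have h2 : ∑ j, S i j * (a j + a j) = 2 * ∑ j, S i j * a j := by
        rw [Finset.mul_sum]
        exact Finset.sum_congr rfl fun j _ => by ring
      have h3 : ∑ j, G j i * (a j + a j) = 2 * ∑ j, G j i * a j := by
        rw [Finset.mul_sum]
        exact Finset.sum_congr rfl fun j _ => by ring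
      have h4 := hker i
      rw [h2, h3]
      have h5 : ∑ j, G j i * a j + ∑ k, bb e y i k * om k = 0 := by
        by_cases hi : ∃ m, i = y m
        · obtain ⟨m, rfl⟩ := hi
          have h6 : ∀ k, bb e y (y m) k * om k = om k - (if m = k then om m else 0) := by
            intro k
            unfold bb
            rw [h.ey]
            by_cases hk : m = k
            · subst hk
              simp
            · have : y m ≠ y k := fun hh => hk (h.inj hh)
              rw [if_neg this, if_neg hk]
              ring
          simp only [h6, Finset.sum_sub_distrib, hom]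
          rw [Finset.sum_ite_eq, if_pos (Finset.mem_univ m)]
          show ∑ j, G j (y m) * a j + (0 - ∑ l, G l (y m) * a l) = 0
          ring
        · push Not at hi
          have h6 : ∀ j, G j i = 0 := by
            intro j
            by_contra hne
            obtain ⟨k, hk⟩ := h.gcol j i hne
            exact hi k hk
          have h7 : ∀ k, bb e y i k * om k = e i * om k := by
            intro k
            unfold bb
            rw [if_neg (hi k)]
            ring
          simp only [h6, h7, zero_mul, Finset.sum_const_zero, ← Finset.mul_sum, hom, mul_zero,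
            add_zero]
      have h8 : isg s * (2 * ∑ j, S i j * a j - D i * (a i + a i)) = 0 := by
        have : 2 * ∑ j, S i j * a j - D i * (a i + a i) = 0 := by linarith
        rw [this, mul_zero]
      rw [h8]
      linarith
    · have h1 := row_core (A := ℤ) S C G D e y F k
      simp only [Int.cast_id] at h1
      rw [h1]
      have f1 : ∀ j, F (Sum.inl (j, false)) + F (Sum.inl (j, true)) = 0 := by
        intro j
        show isg false * a j + isg true * a j = 0
        rw [isg_false, isg_true]; ring
      simp only [f1, mul_zero, Finset.sum_const_zero]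
  have hFR : ∀ v, ∑ w, (ow S C G D e y v w : ℝ) * F w = 0 := by
    intro v
    exact_mod_cast hF v
  let W : ((P × Bool) ⊕ Fin 3) → ((P × Bool) ⊕ Fin 3) → ℝ :=
    fun v w => (ow S C G D e y v w : ℝ) / 2
  have hWs : ∀ (f : ((P × Bool) ⊕ Fin 3) → ℝ) v, ∑ w, W v w * f w =
      (∑ w, (ow S C G D e y v w : ℝ) * f w) / 2 := by
    intro f v
    rw [Finset.sum_div]
    refine Finset.sum_congr rfl fun w _ => ?_
    show (ow S C G D e y v w : ℝ) / 2 * f w = _
    ring
  have hcard : Fintype.card ((P × Bool) ⊕ Fin 3) = 2 * Fintype.card P + 3 := by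
    rw [Fintype.card_sum, Fintype.card_prod, Fintype.card_bool, Fintype.card_fin]
    ring
  refine ⟨(P × Bool) ⊕ Fin 3, inferInstance, W, fun v => (F v : ℝ), ⟨?_, ?_, ?_, ?_, ?_, ?_, ?_⟩,
    hcard⟩
  · intro v w
    rcases h.ow_vals v w with k | k
    · left
      show (ow S C G D e y v w : ℝ) / 2 = 0
      rw [k]; norm_num
    · right
      show (ow S C G D e y v w : ℝ) / 2 = 1
      rw [k]; norm_num
  · intro v w
    show (ow S C G D e y v w : ℝ) / 2 = (ow S C G D e y w v : ℝ) / 2
    rw [h.ow_symm]
  · intro v
    show (ow S C G D e y v v : ℝ) / 2 = 0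
    have : ow S C G D e y v v = 0 := by
      have gdiag : ∀ i, G i i = 0 := by
        intro i
        by_contra hne
        exact hne (h.gG i i hne)
      rcases v with ⟨i, s⟩ | k
      · show 2 * C i i + (S i i) ^ 2 + isg s * isg s * S i i +
          (if i = i then D i * (1 - isg s * isg s) else 0) +
          ((G i i) ^ 2 + isg s * G i i) + ((G i i) ^ 2 + isg s * G i i) = 0
        rw [if_pos rfl, h.gw.diag, h.diag, gdiag]
        rcases isg_cases s with e1 | e1 <;> rw [e1] <;> ring
      · rfl
    rw [this]; norm_num
  · intro v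
    have h0 := hWs (fun _ => 1) v
    simp only [mul_one] at h0
    rw [h0]
    have h1 : ∑ w, ow S C G D e y v w = 2 * ρ := by
      rcases v with ⟨i, s⟩ | k
      · have h1 := row_pair (A := ℤ) S C G D e y (fun _ => 1) i s
        simp only [Int.cast_id, mul_one, sub_self, mul_zero, Finset.sum_const_zero, add_zero,
          sub_zero] at h1
        rw [h1]
        have h2 := h.deg i
        simp only [← Finset.sum_mul, Finset.sum_add_distrib, ← Finset.mul_sum, h.grow]
        linarith
      · have h1 := row_core (A := ℤ) S C G D e y (fun _ => 1) k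
        simp only [Int.cast_id, mul_one] at h1
        rw [h1]
        have h2 := h.degc k
        rw [← Finset.sum_mul]
        linarith
    have h2 : ∑ w, (ow S C G D e y v w : ℝ) = 2 * ρ := by exact_mod_cast h1
    rw [h2]; ring
  · rintro (⟨i, s⟩ | k)
    · show ((isg s * a i : ℤ) : ℝ) ≠ 0
      have : isg s * a i ≠ 0 := by
        apply mul_ne_zero _ (hnz i)
        rcases isg_cases s with e1 | e1 <;> rw [e1] <;> norm_num
      exact_mod_cast this
    · show ((om k : ℤ) : ℝ) ≠ 0
      exact_mod_cast hw k
  · intro v
    rw [hWs, hFR, zero_div]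
  · intro f hf
    have hf' : ∀ v, ∑ w, (ow S C G D e y v w : ℝ) * f w = 0 := by
      intro v
      have h1 := hf v
      rw [hWs] at h1
      linarith
    have ha0 : (a u0 : ℝ) ≠ 0 := by exact_mod_cast hnz u0
    let c : ℝ := f (Sum.inl (u0, false)) / a u0
    let N : Option ((P × Bool) ⊕ Fin 3) → ((P × Bool) ⊕ Fin 3) → ℤ := fun r w =>
      match r with
      | none => if w = Sum.inl (u0, false) then 1 else 0
      | some v => ow S C G D e y v w
    have hN := Pool.Agent.TH417.Nut.real_zero N (by
      intro g hg
      apply h.even_ker hρ (a := fun i => (a i : ZMod 2)) hu0 hM hK g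
      · intro v
        exact hg (some v)
      · have := hg none
        simp only [N, ite_mul, one_mul, zero_mul, Finset.sum_ite_eq', Finset.mem_univ,
          if_true] at this
        exact this) (fun v => f v - c * F v) (by
      rintro (_ | v)
      · simp only [N, Int.cast_ite, Int.cast_one, Int.cast_zero, ite_mul, one_mul, zero_mul,
          Finset.sum_ite_eq', Finset.mem_univ, if_true]
        have h1 : (F (Sum.inl (u0, false)) : ℝ) = a u0 := by
          show ((isg false * a u0 : ℤ) : ℝ) = a u0
          rw [isg_false, one_mul]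
        rw [h1]
        show f (Sum.inl (u0, false)) - f (Sum.inl (u0, false)) / a u0 * a u0 = 0
        field_simp
        ring
      · show ∑ w, (ow S C G D e y v w : ℝ) * (f w - c * F w) = 0
        have h1 : ∀ w, (ow S C G D e y v w : ℝ) * (f w - c * F w) =
            (ow S C G D e y v w : ℝ) * f w - c * ((ow S C G D e y v w : ℝ) * F w) := by
          intro w; ring
        simp only [h1, Finset.sum_sub_distrib, ← Finset.mul_sum, hf', hFR]
        ring)
    refine ⟨c, fun v => ?_⟩
    have := hN v
    linarith

end

end Pool.Agent.H93.Nut
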