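import Pool.Agent.H93.Nut.Core

/-!
Graphs of odd order: the kernel.
-/

set_option autoImplicit false
set_option linter.unusedSectionVars false
set_option linter.unusedVariables false

namespace Pool.Agent.H93.Nut

open Finset Pool.Agent.TH296.Nut

section

variable {P : Type} [Fintype P] [DecidableEq P]

theorem quad_zero (M : P → P → ZMod 2) (p : P → ZMod 2) (hs : ∀ i j, M i j = M j i)
    (hd : ∀ i, M i i = 0) : ∑ i, p i * ∑ j, M i j * p j = 0 := by
  simp only [Finset.mul_sum]
  apply alt_zero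
  · intro i j; rw [hs i j]; ring
  · intro i; rw [hd i]; ring

/-- an integer kernel vector that vanishes at a suitable vertex is even -/
theorem OG.even_ker {ρ : ℕ} {S C G : P → P → ℤ} {D e : P → ℤ} {y : Fin 3 → P}
    (h : OG ρ S C G D e y) (hρ : 0 < ρ) {a : P → ZMod 2} {u0 : P} (hu0 : a u0 = 1)
    (hM : ∀ z : P → ZMod 2, (∀ i, ∑ j, ((S i j : ZMod 2) + G i j) * z j - D i * z i = 0) →
      ∀ i, z i = 0)
    (hK : ∀ x : P → ZMod 2, (∀ i, (∀ k, i ≠ y k) → ∑ j, (S i j : ZMod 2) * x j - D i * x i = 0) →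
      (∑ k, (∑ j, ((S (y k) j : ZMod 2) + G j (y k)) * x j - D (y k) * x (y k)) = 0) →
      (∑ i, (D i : ZMod 2) * x i = 0) → (∀ i, x i = 0) ∨ (∀ i, x i = a i))
    (f : ((P × Bool) ⊕ Fin 3) → ℤ) (hf : ∀ v, ∑ w, ow S C G D e y v w * f w = 0)
    (hf0 : f (Sum.inl (u0, false)) = 0) : ∀ v, (2 : ℤ) ∣ f v := by
  have gdiag : ∀ i, G i i = 0 := by
    intro i
    by_contra hne
    exact hne (h.gG i i hne)
  -- the rows
  have R : ∀ (i : P) (s : Bool), ∑ j, (2 * C i j + (S i j) ^ 2 + (G i j) ^ 2 + (G j i) ^ 2) *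
        (f (Sum.inl (j, false)) + f (Sum.inl (j, true))) +
      D i * (f (Sum.inl (i, false)) + f (Sum.inl (i, true))) +
      ∑ j, G j i * (f (Sum.inl (j, false)) - f (Sum.inl (j, true))) +
      2 * ∑ k, bb e y i k * f (Sum.inr k) +
      isg s * (∑ j, S i j * (f (Sum.inl (j, false)) - f (Sum.inl (j, true))) -
        D i * (f (Sum.inl (i, false)) - f (Sum.inl (i, true))) +
        ∑ j, G i j * (f (Sum.inl (j, false)) + f (Sum.inl (j, true)))) = 0 := by
    intro i s
    have h1 := row_pair (A := ℤ) S C G D e y f i s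
    simp only [Int.cast_id] at h1
    rw [← h1]
    exact hf _
  have Rk : ∀ k : Fin 3, ∑ i, bb e y i k * (f (Sum.inl (i, false)) + f (Sum.inl (i, true))) = 0 := by
    intro k
    have h1 := row_core (A := ℤ) S C G D e y f k
    simp only [Int.cast_id] at h1
    rw [hf] at h1
    omega
  have E2 : ∀ i, ∑ j, S i j * (f (Sum.inl (j, false)) - f (Sum.inl (j, true))) -
        D i * (f (Sum.inl (i, false)) - f (Sum.inl (i, true))) +
        ∑ j, G i j * (f (Sum.inl (j, false)) + f (Sum.inl (j, true))) = 0 := by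
    intro i
    have h1 := R i false
    have h2 := R i true
    rw [isg_false] at h1
    rw [isg_true] at h2
    linarith
  have E1 : ∀ i, ∑ j, (2 * C i j + (S i j) ^ 2 + (G i j) ^ 2 + (G j i) ^ 2) *
        (f (Sum.inl (j, false)) + f (Sum.inl (j, true))) +
      D i * (f (Sum.inl (i, false)) + f (Sum.inl (i, true))) +
      ∑ j, G j i * (f (Sum.inl (j, false)) - f (Sum.inl (j, true))) +
      2 * ∑ k, bb e y i k * f (Sum.inr k) = 0 := by
    intro i
    have h1 := R i false
    have h2 := R i true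
    rw [isg_false] at h1
    rw [isg_true] at h2
    linarith
  -- the sums are even
  have hσ : ∀ i, (2 : ℤ) ∣ f (Sum.inl (i, false)) + f (Sum.inl (i, true)) := by
    intro i
    rw [← zmod2_cast]
    apply hM (fun i => ((f (Sum.inl (i, false)) + f (Sum.inl (i, true)) : ℤ) : ZMod 2))
    intro i
    have h1 := congrArg (fun n : ℤ => (n : ZMod 2)) (E2 i)
    push_cast at h1
    rw [← h1]
    push_cast
    simp only [zmod2_sub, add_mul, Finset.sum_add_distrib]
    ring
  choose p hp using hσ
  have hf1 : ∀ i, f (Sum.inl (i, false)) = p i + (p i - f (Sum.inl (i, true))) := by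
    intro i
    have := hp i
    linarith
  set b : P → ℤ := fun i => p i - f (Sum.inl (i, true)) with hb
  have hft : ∀ i, f (Sum.inl (i, true)) = p i - b i := by
    intro i
    rw [hb]; ring
  have hff : ∀ i, f (Sum.inl (i, false)) = p i + b i := by
    intro i
    rw [hf1 i]
  have hdl : ∀ i, f (Sum.inl (i, false)) - f (Sum.inl (i, true)) = 2 * b i := by
    intro i
    rw [hff, hft]; ring
  simp only [hp, hdl] at E1 E2 Rk
  set om : Fin 3 → ℤ := fun k => f (Sum.inr k) with hom
  have F1 : ∀ i, ∑ j, (2 * C i j + (S i j) ^ 2 + (G i j) ^ 2 + (G j i) ^ 2) * p j + D i * p i +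
      ∑ j, G j i * b j + ∑ k, bb e y i k * om k = 0 := by
    intro i
    have h1 := E1 i
    have h2 : ∑ j, (2 * C i j + (S i j) ^ 2 + (G i j) ^ 2 + (G j i) ^ 2) * (2 * p j) =
        2 * ∑ j, (2 * C i j + (S i j) ^ 2 + (G i j) ^ 2 + (G j i) ^ 2) * p j := by
      rw [Finset.mul_sum]
      exact Finset.sum_congr rfl fun j _ => by ring
    have h3 : ∑ j, G j i * (2 * b j) = 2 * ∑ j, G j i * b j := by
      rw [Finset.mul_sum]
      exact Finset.sum_congr rfl fun j _ => by ring
    rw [h2, h3] at h1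
    have h4 : ∑ k, bb e y i k * f (Sum.inr k) = ∑ k, bb e y i k * om k := rfl
    rw [h4] at h1
    linarith
  have F2 : ∀ i, ∑ j, S i j * b j - D i * b i + ∑ j, G i j * p j = 0 := by
    intro i
    have h1 := E2 i
    have h2 : ∑ j, S i j * (2 * b j) = 2 * ∑ j, S i j * b j := by
      rw [Finset.mul_sum]
      exact Finset.sum_congr rfl fun j _ => by ring
    have h3 : ∑ j, G i j * (2 * p j) = 2 * ∑ j, G i j * p j := by
      rw [Finset.mul_sum]
      exact Finset.sum_congr rfl fun j _ => by ring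
    rw [h2, h3] at h1
    linarith
  have F3 : ∀ k, ∑ i, bb e y i k * p i = 0 := by
    intro k
    have h1 := Rk k
    have h2 : ∑ i, bb e y i k * (2 * p i) = 2 * ∑ i, bb e y i k * p i := by
      rw [Finset.mul_sum]
      exact Finset.sum_congr rfl fun j _ => by ring
    rw [h2] at h1
    linarith
  -- the total
  have htot : 2 * ∑ i, p i + ∑ k, om k = 0 := by
    have h1 : ∑ i, (∑ j, (2 * C i j + (S i j) ^ 2 + (G i j) ^ 2 + (G j i) ^ 2) * p j + D i * p i +
      ∑ j, G j i * b j + ∑ k, bb e y i k * om k) = 0 := by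
      apply Finset.sum_eq_zero
      intro i _
      exact F1 i
    rw [Finset.sum_add_distrib, Finset.sum_add_distrib, Finset.sum_add_distrib] at h1
    have k1 : ∑ i, ∑ j, (2 * C i j + (S i j) ^ 2 + (G i j) ^ 2 + (G j i) ^ 2) * p j + ∑ i, D i * p i
        = ∑ j, (ρ - ∑ k, bb e y j k) * p j := by
      rw [Finset.sum_comm, ← Finset.sum_add_distrib]
      refine Finset.sum_congr rfl fun j _ => ?_
      rw [← Finset.sum_mul, ← add_mul]
      congr 1
      have h2 := h.deg j
      simp only [Finset.sum_add_distrib, ← Finset.mul_sum]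
      have h3 : ∑ i, C i j = ∑ i, C j i := Finset.sum_congr rfl fun i _ => h.gw.symm i j
      have h4 : ∑ i, (S i j) ^ 2 = ∑ i, (S j i) ^ 2 :=
        Finset.sum_congr rfl fun i _ => by rw [h.symm i j]
      rw [h3, h4]
      linarith
    have k2 : ∑ i, ∑ j, G j i * b j = 0 := by
      rw [Finset.sum_comm]
      apply Finset.sum_eq_zero
      intro j _
      rw [← Finset.sum_mul, h.grow, zero_mul]
    have k3 : 2 * ∑ i, ∑ k, bb e y i k * om k = ρ * ∑ k, om k := by
      rw [Finset.sum_comm, Finset.mul_sum, Finset.mul_sum]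
      refine Finset.sum_congr rfl fun k _ => ?_
      rw [← Finset.sum_mul, ← mul_assoc, h.degc k]
    have k4 : ∑ j, (∑ k, bb e y j k) * p j = 0 := by
      simp only [Finset.sum_mul]
      rw [Finset.sum_comm]
      apply Finset.sum_eq_zero
      intro k _
      exact F3 k
    have k5 : ∑ j, ((ρ : ℤ) - ∑ k, bb e y j k) * p j = ρ * ∑ j, p j := by
      simp only [sub_mul, Finset.sum_sub_distrib, k4, sub_zero, ← Finset.mul_sum]
    rw [k1, k2, k5] at h1
    have k6 : (ρ : ℤ) * (2 * ∑ i, p i + ∑ k, om k) = 0 := by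
      rw [mul_add, ← k3]
      linarith
    have k7 : (ρ : ℤ) ≠ 0 := by exact_mod_cast hρ.ne'
    exact (mul_eq_zero.1 k6).resolve_left k7
  have hom2 : ∑ k, (om k : ZMod 2) = 0 := by
    have h1 := congrArg (fun n : ℤ => (n : ZMod 2)) htot
    push_cast at h1
    rw [zmod2_two, zero_mul, zero_add] at h1
    exact h1
  -- modulo two
  let x : P → ZMod 2 := fun i => (p i : ZMod 2) + b i
  have E4 : ∀ i, ∑ j, ((S i j : ZMod 2) + G j i) * x j - D i * x i +
      ∑ k, (bb e y i k : ZMod 2) * om k = 0 := by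
    intro i
    have h1 : (∑ j, (2 * C i j + (S i j) ^ 2 + (G i j) ^ 2 + (G j i) ^ 2) * p j + D i * p i +
      ∑ j, G j i * b j + ∑ k, bb e y i k * om k) + (∑ j, S i j * b j - D i * b i +
      ∑ j, G i j * p j) = 0 := by
      rw [F1 i, F2 i, add_zero]
    have h2 := congrArg (fun n : ℤ => (n : ZMod 2)) h1
    push_cast at h2
    simp only [zmod2_sq, zmod2_two, zero_mul, zero_add] at h2
    have h3 : ∑ j, ((S i j : ZMod 2) + G i j + G j i) * (p j : ZMod 2) + ∑ j, (G i j : ZMod 2) * p j
        = ∑ j, ((S i j : ZMod 2) + G j i) * (p j : ZMod 2) := by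
      rw [← Finset.sum_add_distrib]
      refine Finset.sum_congr rfl fun j _ => ?_
      calc ((S i j : ZMod 2) + G i j + G j i) * (p j : ZMod 2) + (G i j : ZMod 2) * p j =
          ((S i j : ZMod 2) + G j i) * (p j : ZMod 2) +
            ((G i j : ZMod 2) * p j + (G i j : ZMod 2) * p j) := by ring
        _ = _ := by rw [zmod2_add_self, add_zero]
    have h4 : ∑ j, ((S i j : ZMod 2) + G j i) * x j =
        ∑ j, ((S i j : ZMod 2) + G j i) * (p j : ZMod 2) +
          (∑ j, (S i j : ZMod 2) * b j + ∑ j, (G j i : ZMod 2) * b j) := by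
      rw [← Finset.sum_add_distrib, ← Finset.sum_add_distrib]
      refine Finset.sum_congr rfl fun j _ => ?_
      show _ * ((p j : ZMod 2) + b j) = _
      ring
    have h5 : (D i : ZMod 2) * x i = D i * p i + D i * b i := by
      show (D i : ZMod 2) * ((p i : ZMod 2) + b i) = _
      ring
    rw [h4, ← h3, zmod2_sub, h5]
    rw [zmod2_sub] at h2
    rw [← h2]
    ring
  have hyk : ∀ m, ∑ k, (bb e y (y m) k : ZMod 2) * om k = om m := by
    intro m
    have h1 : ∀ k, (bb e y (y m) k : ZMod 2) * om k = (om k : ZMod 2) -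
        (if m = k then (om m : ZMod 2) else 0) := by
      intro k
      unfold bb
      rw [h.ey]
      by_cases hk : m = k
      · subst hk
        simp
      · have : y m ≠ y k := fun hh => hk (h.inj hh)
        rw [if_neg this, if_neg hk]
        push_cast
        ring
    simp only [h1, Finset.sum_sub_distrib, hom2]
    rw [Finset.sum_ite_eq, if_pos (Finset.mem_univ m), zero_sub, zmod2_neg]
  have hK1 : ∀ i, (∀ k, i ≠ y k) → ∑ j, (S i j : ZMod 2) * x j - D i * x i = 0 := by
    intro i hi
    have h1 := E4 i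
    have h2 : ∀ j, G j i = 0 := by
      intro j
      by_contra hne
      obtain ⟨k, hk⟩ := h.gcol j i hne
      exact hi k hk
    have h3 : ∑ k, (bb e y i k : ZMod 2) * om k = 0 := by
      have : ∀ k, (bb e y i k : ZMod 2) * om k = (e i : ZMod 2) * om k := by
        intro k
        unfold bb
        rw [if_neg (hi k)]
        push_cast
        ring
      simp only [this, ← Finset.mul_sum, hom2, mul_zero]
    rw [h3, add_zero] at h1
    simp only [h2, Int.cast_zero, add_zero] at h1
    exact h1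
  have hrow : ∀ m, ∑ j, ((S (y m) j : ZMod 2) + G j (y m)) * x j - D (y m) * x (y m) = om m := by
    intro m
    have h1 := E4 (y m)
    rw [hyk] at h1
    rw [← zmod2_neg (om m : ZMod 2)]
    exact eq_neg_of_add_eq_zero_left h1
  have hK2 : ∑ k, (∑ j, ((S (y k) j : ZMod 2) + G j (y k)) * x j - D (y k) * x (y k)) = 0 := by
    simp only [hrow, hom2]
  have hK3 : ∑ i, (D i : ZMod 2) * x i = 0 := by
    have h1 : ∑ i, (p i : ZMod 2) * (∑ j, ((S i j : ZMod 2) + G i j + G j i) * p j + D i * p i +
      ∑ j, (G j i : ZMod 2) * b j + ∑ k, (bb e y i k : ZMod 2) * om k) = 0 := by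
      apply Finset.sum_eq_zero
      intro i _
      have h2 := congrArg (fun n : ℤ => (n : ZMod 2)) (F1 i)
      push_cast at h2
      simp only [zmod2_sq, zmod2_two, zero_mul, zero_add] at h2
      rw [h2, mul_zero]
    have h2 : ∑ i, (b i : ZMod 2) * (∑ j, (S i j : ZMod 2) * b j + D i * b i +
        ∑ j, (G i j : ZMod 2) * p j) = 0 := by
      apply Finset.sum_eq_zero
      intro i _
      have h2 := congrArg (fun n : ℤ => (n : ZMod 2)) (F2 i)
      push_cast at h2
      rw [zmod2_sub] at h2
      rw [h2, mul_zero]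
    simp only [mul_add, Finset.sum_add_distrib] at h1 h2
    have q1 := quad_zero (fun i j => (S i j : ZMod 2) + G i j + G j i) (fun i => (p i : ZMod 2))
      (fun i j => by rw [h.symm i j]; ring) (fun i => by rw [h.diag, gdiag]; simp)
    have q2 := quad_zero (fun i j => (S i j : ZMod 2)) (fun i => (b i : ZMod 2))
      (fun i j => by rw [h.symm i j]) (fun i => by rw [h.diag]; simp)
    rw [q1] at h1
    rw [q2] at h2
    have q3 : ∑ i, (p i : ZMod 2) * ∑ k, (bb e y i k : ZMod 2) * om k = 0 := by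
      simp only [Finset.mul_sum]
      rw [Finset.sum_comm]
      apply Finset.sum_eq_zero
      intro k _
      have h3 := congrArg (fun n : ℤ => (n : ZMod 2)) (F3 k)
      push_cast at h3
      have h4 : ∑ i, (p i : ZMod 2) * ((bb e y i k : ZMod 2) * om k) =
          (∑ i, (bb e y i k : ZMod 2) * p i) * om k := by
        rw [Finset.sum_mul]
        refine Finset.sum_congr rfl fun i _ => ?_
        ring
      rw [h4, h3, zero_mul]
    have q4 : ∑ i, (p i : ZMod 2) * ∑ j, (G j i : ZMod 2) * b j =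
        ∑ i, (b i : ZMod 2) * ∑ j, (G i j : ZMod 2) * p j := by
      simp only [Finset.mul_sum]
      rw [Finset.sum_comm]
      refine Finset.sum_congr rfl fun j _ => Finset.sum_congr rfl fun i _ => ?_
      ring
    have q5 : ∑ i, (p i : ZMod 2) * ((D i : ZMod 2) * p i) = ∑ i, (D i : ZMod 2) * p i := by
      refine Finset.sum_congr rfl fun i _ => ?_
      rw [mul_left_comm, zmod2_mul_self]
    have q6 : ∑ i, (b i : ZMod 2) * ((D i : ZMod 2) * b i) = ∑ i, (D i : ZMod 2) * b i := by
      refine Finset.sum_congr rfl fun i _ => ?_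
      rw [mul_left_comm, zmod2_mul_self]
    rw [q3, q4, q5, zero_add, add_zero] at h1
    rw [q6, zero_add] at h2
    have h7 : ∑ i, (D i : ZMod 2) * x i = ∑ i, (D i : ZMod 2) * p i + ∑ i, (D i : ZMod 2) * b i := by
      rw [← Finset.sum_add_distrib]
      refine Finset.sum_congr rfl fun i _ => ?_
      show (D i : ZMod 2) * ((p i : ZMod 2) + b i) = _
      ring
    rw [h7]
    set X := ∑ i, (b i : ZMod 2) * ∑ j, (G i j : ZMod 2) * p j with hX
    have e1 := eq_neg_of_add_eq_zero_left h1
    have e2 := eq_neg_of_add_eq_zero_left h2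
    rw [e1, e2, zmod2_neg, zmod2_add_self]
  have hx0 : ∀ i, x i = 0 := by
    rcases hK x hK1 hK2 hK3 with h1 | h1
    · exact h1
    · exfalso
      have h2 := h1 u0
      rw [hu0] at h2
      have h3 : x u0 = ((f (Sum.inl (u0, false)) : ℤ) : ZMod 2) := by
        show (p u0 : ZMod 2) + b u0 = _
        rw [hff]
        push_cast
        rfl
      rw [h3, hf0] at h2
      have h4 : ((0 : ℤ) : ZMod 2) = 0 := by simp
      rw [h4] at h2
      exact zero_ne_one h2
  rintro (⟨i, s⟩ | k)
  · have h1 : (p i : ZMod 2) + b i = 0 := hx0 i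
    cases s
    · rw [hff, ← zmod2_cast]
      push_cast
      exact h1
    · rw [hft, ← zmod2_cast]
      push_cast
      rw [zmod2_sub]
      exact h1
  · have h1 := hrow k
    simp only [hx0, mul_zero, Finset.sum_const_zero, sub_zero] at h1
    exact zmod2_cast.1 h1.symm

end

end Pool.Agent.H93.Nut
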