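import Pool.Agent.H93.Nut.Base

/-!
Cubic graphs with the simple eigenvalue minus one, and the insertion of a twisted pair of rungs.
-/

set_option autoImplicit false
set_option linter.unusedSectionVars false
set_option linter.unusedVariables false

namespace Pool.Agent.H93.Nut

open Finset Pool.Agent.TH296.Nut

section

variable {V : Type}

/-- four more points -/
abbrev O4 (V : Type) := Option (Option (Option (Option V)))

/-- an old point -/
abbrev fo (i : V) : O4 V := some (some (some (some i)))

/-- first new point -/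
abbrev f1 : O4 V := some (some (some none))

/-- second new point -/
abbrev f2 : O4 V := some (some none)

/-- third new point -/
abbrev f3 : O4 V := some none

/-- fourth new point -/
abbrev f4 : O4 V := none

/-- extension of a function to four more points -/
def ex4 {A : Type} (f : V → A) (g1 g2 g3 g4 : A) : O4 V → A
  | some (some (some (some i))) => f i
  | some (some (some none)) => g1
  | some (some none) => g2
  | some none => g3
  | none => g4

theorem ex4_all {R : O4 V → Prop} (h0 : ∀ i, R (fo i)) (h1 : R f1) (h2 : R f2)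
    (h3 : R f3) (h4 : R f4) : ∀ i, R i
  | some (some (some (some i))) => h0 i
  | some (some (some none)) => h1
  | some (some none) => h2
  | some none => h3
  | none => h4

theorem sum_o4 [Fintype V] {A : Type} [AddCommMonoid A] (f : O4 V → A) :
    ∑ j, f j = f f4 + (f f3 + (f f2 + (f f1 + ∑ i, f (fo i)))) := by
  rw [Fintype.sum_option, Fintype.sum_option, Fintype.sum_option, Fintype.sum_option]

/-- indicator -/
def dl [DecidableEq V] (i j : V) : ℤ := if i = j then 1 else 0

/-- the graph with two more rungs: `a f1 f3 b'` and `b f2 f4 a'` are paths -/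
def tw [DecidableEq V] (H : V → V → ℤ) (a a' b b' : V) : O4 V → O4 V → ℤ
  | some (some (some (some i))), some (some (some (some j))) =>
      H i j - ew a a' i j - ew b b' i j
  | some (some (some (some i))), some (some (some none)) => dl i a
  | some (some (some (some i))), some (some none) => dl i b
  | some (some (some (some i))), some none => dl i b'
  | some (some (some (some i))), none => dl i a'
  | some (some (some none)), some (some (some (some i))) => dl i a
  | some (some none), some (some (some (some i))) => dl i b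
  | some none, some (some (some (some i))) => dl i b'
  | none, some (some (some (some i))) => dl i a'
  | some (some (some none)), some (some (some none)) => 0
  | some (some (some none)), some (some none) => 1
  | some (some (some none)), some none => 1
  | some (some (some none)), none => 0
  | some (some none), some (some (some none)) => 1
  | some (some none), some (some none) => 0
  | some (some none), some none => 0
  | some (some none), none => 1
  | some none, some (some (some none)) => 1
  | some none, some (some none) => 0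
  | some none, some none => 0
  | some none, none => 1
  | none, some (some (some none)) => 0
  | none, some (some none) => 1
  | none, some none => 1
  | none, none => 0

/-- a cubic graph with the simple eigenvalue minus one, and two edges -/
structure CB [Fintype V] [DecidableEq V] (H : V → V → ℤ) (x y : V → ℝ) (a a' b b' : V) :
    Prop where
  gw : GW H
  deg : ∀ v, ∑ u, H v u = 3
  nz : ∀ v, x v ≠ 0
  ker : ∀ v, ∑ u, (H v u : ℝ) * x u + x v = 0
  uniq : ∀ z : V → ℝ, (∀ v, ∑ u, (H v u : ℝ) * z u + z v = 0) → ∃ c : ℝ, ∀ v, z v = c * x v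
  w0 : x a + x a' + x b + x b' = 0
  cy : ∀ v, ∑ u, (H v u : ℝ) * y u + y v = dl v a + dl v a' + dl v b + dl v b'
  tau : y a + y a' + y b + y b' ≤ 2
  aa : H a a' = 1
  bb : H b b' = 1
  ab : a ≠ b
  ab' : a ≠ b'
  a'b : a' ≠ b
  a'b' : a' ≠ b'

variable [Fintype V] [DecidableEq V]

theorem dl_zo (i j : V) : dl i j = 0 ∨ dl i j = 1 := by
  unfold dl
  split_ifs <;> simp

theorem dl_sum {A : Type} [CommRing A] (a : V) (f : V → A) :
    ∑ j, ((dl j a : ℤ) : A) * f j = f a := by
  simp [dl, ite_mul]

theorem ew_mul_sum {A : Type} [CommRing A] (a b i : V) (f : V → A) :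
    ∑ j, ((ew a b i j : ℤ) : A) * f j = (dl i a : A) * f b + (dl i b : A) * f a := by
  have e : ∀ j, ((ew a b i j : ℤ) : A) * f j = (dl i a : A) * ((dl j b : A) * f j) +
      (dl i b : A) * ((dl j a : A) * f j) := by
    intro j
    unfold ew dl
    by_cases h1 : i = a <;> by_cases h2 : j = b <;> by_cases h3 : i = b <;> by_cases h4 : j = a <;>
      simp only [h1, h2, h3, h4, if_true, if_false] <;> (try split_ifs) <;> push_cast <;> ring
  simp only [e, Finset.sum_add_distrib, ← Finset.mul_sum, dl_sum]

theorem two_rows {A : Type} [CommRing A] (H : V → V → ℤ) (a a' b b' : V) (z : O4 V → A) :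
    (∀ i, ∑ j, (tw H a a' b b' (fo i) j : A) * z j = ∑ j, (H i j : A) * z (fo j) +
      (dl i a : A) * (z f1 - z (fo a')) + (dl i a' : A) * (z f4 - z (fo a)) +
      (dl i b : A) * (z f2 - z (fo b')) + (dl i b' : A) * (z f3 - z (fo b))) ∧
    (∑ j, (tw H a a' b b' f1 j : A) * z j = z (fo a) + z f2 + z f3) ∧
    (∑ j, (tw H a a' b b' f2 j : A) * z j = z (fo b) + z f1 + z f4) ∧
    (∑ j, (tw H a a' b b' f3 j : A) * z j = z (fo b') + z f1 + z f4) ∧
    (∑ j, (tw H a a' b b' f4 j : A) * z j = z (fo a') + z f2 + z f3) := by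
  refine ⟨?_, ?_, ?_, ?_, ?_⟩
  · intro i
    rw [sum_o4]
    simp only [tw, Int.cast_sub, sub_mul, Finset.sum_sub_distrib, ew_mul_sum]
    ring
  · rw [sum_o4]
    simp only [tw, dl_sum, Int.cast_one, Int.cast_zero]
    ring
  · rw [sum_o4]
    simp only [tw, dl_sum, Int.cast_one, Int.cast_zero]
    ring
  · rw [sum_o4]
    simp only [tw, dl_sum, Int.cast_one, Int.cast_zero]
    ring
  · rw [sum_o4]
    simp only [tw, dl_sum, Int.cast_one, Int.cast_zero]
    ring

theorem dl_self (a : V) : dl a a = 1 := if_pos rfl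

theorem dl_ne {a b : V} (h : a ≠ b) : dl a b = 0 := if_neg h

theorem CB.grow {H : V → V → ℤ} {x y : V → ℝ} {a a' b b' : V} (h : CB H x y a a' b b') :
    ∃ x' y' : O4 V → ℝ, CB (tw H a a' b b') x' y' (fo a) f1 (fo b) f2 := by
  have haa : a ≠ a' := h.gw.ne h.aa
  have hbb : b ≠ b' := h.gw.ne h.bb
  have hab := h.ab
  have hab' := h.ab'
  have ha'b := h.a'b
  have ha'b' := h.a'b'
  have g1 := h.gw.sub h.aa
  have e1 : H b b' - ew a a' b b' = 1 := by
    rw [h.bb]
    unfold ew
    split_ifs <;> simp_all
  have g2 := g1.sub e1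
  -- the symmetric pairing
  have hp : ∀ z : V → ℝ, ∑ v, y v * (∑ u, (H v u : ℝ) * z u + z v) =
      z a + z a' + z b + z b' := by
    intro z
    have k1 : ∑ v, y v * (∑ u, (H v u : ℝ) * z u + z v) =
        ∑ v, (∑ u, (H v u : ℝ) * y u + y v) * z v := by
      simp only [mul_add, add_mul, Finset.sum_add_distrib, Finset.mul_sum, Finset.sum_mul]
      congr 1
      rw [Finset.sum_comm]
      refine Finset.sum_congr rfl fun v _ => Finset.sum_congr rfl fun u _ => ?_
      rw [h.gw.symm u v]; ring
    rw [k1]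
    simp only [h.cy, add_mul, Finset.sum_add_distrib, dl_sum]
  set τ : ℝ := y a + y a' + y b + y b' with hτ
  have hτ2 : τ ≤ 2 := h.tau
  have h3τ : 0 < 3 - τ := by linarith
  -- the system
  have sys : ∀ z : O4 V → ℝ, (∀ v, ∑ u, (tw H a a' b b' v u : ℝ) * z u + z v = 0) →
      ∃ c : ℝ, (∀ v, z (fo v) = c * x v) ∧ z f1 = c * x a' ∧ z f2 = c * x b' ∧ z f3 = c * x b ∧
        z f4 = c * x a := by
    intro z hz
    obtain ⟨r0, r1, r2, r3, r4⟩ := two_rows (A := ℝ) H a a' b b' z
    have z1 := hz f1
    have z2 := hz f2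
    have z3 := hz f3
    have z4 := hz f4
    rw [r1] at z1
    rw [r2] at z2
    rw [r3] at z3
    rw [r4] at z4
    set A := z (fo a) with hA
    set A' := z (fo a') with hA'
    set B := z (fo b) with hB
    set B' := z (fo b') with hB'
    have q1 : z f1 = A' - (A + A' + B + B') / 3 := by linarith
    have q2 : z f2 = B' - (A + A' + B + B') / 3 := by linarith
    have q3 : z f3 = B - (A + A' + B + B') / 3 := by linarith
    have q4 : z f4 = A - (A + A' + B + B') / 3 := by linarith
    have k1 : ∀ v, ∑ u, (H v u : ℝ) * z (fo u) + z (fo v) = (A + A' + B + B') / 3 *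
        (dl v a + dl v a' + dl v b + dl v b') := by
      intro v
      have z0 := hz (fo v)
      rw [r0, q1, q2, q3, q4] at z0
      linear_combination z0
    have k2 := hp (fun v => z (fo v))
    simp only [k1] at k2
    have k3 : ∑ v, y v * ((A + A' + B + B') / 3 * ((dl v a : ℝ) + dl v a' + dl v b + dl v b')) =
        (A + A' + B + B') / 3 * τ := by
      have : ∀ v, y v * ((A + A' + B + B') / 3 * ((dl v a : ℝ) + dl v a' + dl v b + dl v b')) =
          (A + A' + B + B') / 3 * ((dl v a : ℝ) * y v + dl v a' * y v + dl v b * y v +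
            dl v b' * y v) := by
        intro v; ring
      simp only [this, ← Finset.mul_sum, Finset.sum_add_distrib, dl_sum]
      rw [hτ]
    rw [k3] at k2
    have k4 : (A + A' + B + B') * (3 - τ) = 0 := by linarith
    have k5 : A + A' + B + B' = 0 := (mul_eq_zero.1 k4).resolve_right (ne_of_gt h3τ)
    obtain ⟨c, hc⟩ := h.uniq (fun v => z (fo v)) (by
      intro v
      rw [k1, k5]; ring)
    refine ⟨c, hc, ?_, ?_, ?_, ?_⟩
    · rw [q1, k5]
      have := hc a'
      rw [hA', this]; ring
    · rw [q2, k5]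
      have := hc b'
      rw [hB', this]; ring
    · rw [q3, k5]
      have := hc b
      rw [hB, this]; ring
    · rw [q4, k5]
      have := hc a
      rw [hA, this]; ring
  let l : ℝ := 1 / (3 - τ)
  have hl : l * (3 - τ) = 1 := by
    show 1 / (3 - τ) * (3 - τ) = 1
    field_simp
  refine ⟨ex4 x (x a') (x b') (x b) (x a),
    ex4 (fun v => l * y v) (l * y a' + (2 - l * τ) / 3) (l * y b' + (2 - l * τ) / 3)
      (l * y b - (1 + l * τ) / 3) (l * y a - (1 + l * τ) / 3), ?_⟩
  refine
    { gw := ?_, deg := ?_, nz := ?_, ker := ?_, uniq := ?_, w0 := ?_, cy := ?_, tau := ?_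
      aa := ?_, bb := ?_, ab := ?_, ab' := ?_, a'b := ?_, a'b' := ?_ }
  · refine ⟨?_, ?_, ?_⟩
    · refine ex4_all ?_ ?_ ?_ ?_ ?_
      · intro i
        refine ex4_all ?_ ?_ ?_ ?_ ?_
        · intro j
          exact g2.zo i j
        · exact dl_zo i a
        · exact dl_zo i b
        · exact dl_zo i b'
        · exact dl_zo i a'
      all_goals
        refine ex4_all ?_ ?_ ?_ ?_ ?_
        · intro j; exact dl_zo j _
        all_goals simp [tw]
    · refine ex4_all ?_ ?_ ?_ ?_ ?_
      · intro i
        refine ex4_all ?_ ?_ ?_ ?_ ?_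
        · intro j
          exact g2.symm i j
        all_goals rfl
      all_goals
        refine ex4_all ?_ ?_ ?_ ?_ ?_
        · intro j; rfl
        all_goals rfl
    · refine ex4_all ?_ rfl rfl rfl rfl
      intro i
      exact g2.diag i
  · have t := two_rows (A := ℤ) H a a' b b' (fun _ => 1)
    simp only [Int.cast_id, mul_one, sub_self, mul_zero, add_zero] at t
    obtain ⟨r0, r1, r2, r3, r4⟩ := t
    refine ex4_all ?_ ?_ ?_ ?_ ?_
    · intro i; rw [r0, h.deg]
    · rw [r1]; norm_num
    · rw [r2]; norm_num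
    · rw [r3]; norm_num
    · rw [r4]; norm_num
  · refine ex4_all ?_ ?_ ?_ ?_ ?_
    · intro i; exact h.nz i
    · exact h.nz a'
    · exact h.nz b'
    · exact h.nz b
    · exact h.nz a
  · obtain ⟨r0, r1, r2, r3, r4⟩ := two_rows (A := ℝ) H a a' b b' (ex4 x (x a') (x b') (x b) (x a))
    have w0 := h.w0
    refine ex4_all ?_ ?_ ?_ ?_ ?_
    · intro i
      rw [r0]
      simp only [ex4]
      have := h.ker i
      linear_combination this
    · rw [r1]; simp only [ex4]; linarith
    · rw [r2]; simp only [ex4]; linarith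
    · rw [r3]; simp only [ex4]; linarith
    · rw [r4]; simp only [ex4]; linarith
  · intro z hz
    obtain ⟨c, h0, h1, h2, h3, h4⟩ := sys z hz
    exact ⟨c, ex4_all h0 h1 h2 h3 h4⟩
  · simp only [ex4]
    have w0 := h.w0
    linarith
  · obtain ⟨r0, r1, r2, r3, r4⟩ := two_rows (A := ℝ) H a a' b b'
      (ex4 (fun v => l * y v) (l * y a' + (2 - l * τ) / 3) (l * y b' + (2 - l * τ) / 3)
      (l * y b - (1 + l * τ) / 3) (l * y a - (1 + l * τ) / 3))
    have m1 : ∀ i, dl (fo i) (fo a) = dl i a := by intro i; simp [dl]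
    have m2 : ∀ i, dl (fo i) (fo b) = dl i b := by intro i; simp [dl]
    have m3 : ∀ i : V, dl (fo i) f1 = 0 := by intro i; simp [dl]
    have m4 : ∀ i : V, dl (fo i) f2 = 0 := by intro i; simp [dl]
    have lt : l * τ = 3 * l - 1 := by linarith
    refine ex4_all ?_ ?_ ?_ ?_ ?_
    · intro i
      rw [r0, m1, m2, m3, m4]
      simp only [ex4]
      have e2 : ∑ j, (H i j : ℝ) * (l * y j) = l * ∑ j, (H i j : ℝ) * y j := by
        rw [Finset.mul_sum]
        exact Finset.sum_congr rfl fun j _ => by ring
      rw [e2]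
      have := h.cy i
      rw [lt]
      push_cast
      linear_combination l * this
    · rw [r1]
      simp only [ex4, dl]
      simp
      rw [hτ]
      ring
    · rw [r2]
      simp only [ex4, dl]
      simp
      rw [hτ]
      ring
    · rw [r3]
      simp only [ex4, dl]
      simp
      rw [hτ]
      ring
    · rw [r4]
      simp only [ex4, dl]
      simp
      rw [hτ]
      ring
  · simp only [ex4]
    have k0 : l ≤ 1 := by
      have hl0 : 0 < l := by
        show 0 < 1 / (3 - τ)
        positivity
      nlinarith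
    have k1 : l * y a + (l * y a' + (2 - l * τ) / 3) + l * y b + (l * y b' + (2 - l * τ) / 3) =
        l * τ + 2 * ((2 - l * τ) / 3) := by
      rw [hτ]; ring
    rw [k1]
    nlinarith
  · simp [tw, dl]
  · simp [tw, dl]
  · simpa using hab
  · simp
  · simp
  · simp

/-- The complement of a cubic graph with the simple eigenvalue minus one. -/
theorem CB.good {H : V → V → ℤ} {x y : V → ℝ} {a a' b b' : V} (h : CB H x y a a' b b')
    (h5 : 5 ≤ Fintype.card V) : Good (Fintype.card V - 4) (Fintype.card V) := by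
  let W : V → V → ℝ := fun i j => 1 - (if i = j then 1 else 0) - H i j
  have hW : ∀ (z : V → ℝ) (i : V), ∑ j, W i j * z j = ∑ j, z j - (∑ j, (H i j : ℝ) * z j + z i) := by
    intro z i
    have : ∀ j, W i j * z j = z j - (if i = j then z i else 0) - (H i j : ℝ) * z j := by
      intro j
      show (1 - (if i = j then 1 else 0) - (H i j : ℝ)) * z j = _
      by_cases e : i = j
      · rw [if_pos e, if_pos e, e]; ring
      · rw [if_neg e, if_neg e]; ring
    simp only [this, Finset.sum_sub_distrib]
    rw [Finset.sum_ite_eq, if_pos (Finset.mem_univ i)]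
    ring
  have hdeg : ∀ v, ∑ u, (H v u : ℝ) = 3 := by
    intro v
    exact_mod_cast h.deg v
  have hsum : ∀ z : V → ℝ, ∑ i, (∑ j, (H i j : ℝ) * z j + z i) = 4 * ∑ i, z i := by
    intro z
    rw [Finset.sum_add_distrib, Finset.sum_comm]
    have : ∀ j, ∑ i, (H i j : ℝ) * z j = 3 * z j := by
      intro j
      rw [← Finset.sum_mul]
      simp only [h.gw.symm _ j, hdeg]
    simp only [this, ← Finset.mul_sum]
    ring
  have hc : ((Fintype.card V - 4 : ℕ) : ℝ) = (Fintype.card V : ℝ) - 4 := by
    rw [Nat.cast_sub (by omega)]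
    norm_num
  have hx0 : ∑ i, x i = 0 := by
    have := hsum x
    simp only [h.ker, Finset.sum_const_zero] at this
    linarith
  refine ⟨V, inferInstance, W, x, ⟨?_, ?_, ?_, ?_, h.nz, ?_, ?_⟩, rfl⟩
  · intro i j
    show 1 - (if i = j then 1 else 0) - (H i j : ℝ) = 0 ∨ 1 - (if i = j then 1 else 0) - (H i j : ℝ) = 1
    by_cases e : i = j
    · left
      rw [if_pos e, e, h.gw.diag]; norm_num
    · rw [if_neg e]
      rcases h.gw.zo i j with e2 | e2 <;> rw [e2] <;> norm_num
  · intro i j
    show 1 - (if i = j then 1 else 0) - (H i j : ℝ) = 1 - (if j = i then 1 else 0) - (H j i : ℝ)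
    rw [h.gw.symm i j]
    by_cases e : i = j
    · rw [if_pos e, if_pos e.symm]
    · rw [if_neg e, if_neg (Ne.symm e)]
  · intro i
    show 1 - (if i = i then 1 else 0) - (H i i : ℝ) = 0
    rw [if_pos rfl, h.gw.diag]; norm_num
  · intro i
    have := hW (fun _ => 1) i
    simp only [mul_one] at this
    rw [this, hdeg, hc]
    simp only [Finset.sum_const, Finset.card_univ, nsmul_eq_mul, mul_one]
    ring
  · intro i
    rw [hW, h.ker, hx0]; ring
  · intro z hz
    have k1 : ∀ i, ∑ j, (H i j : ℝ) * z j + z i = ∑ j, z j := by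
      intro i
      have := hz i
      rw [hW] at this
      linarith
    have k2 := hsum z
    simp only [k1, Finset.sum_const, Finset.card_univ, nsmul_eq_mul] at k2
    have k3 : ((Fintype.card V : ℝ) - 4) * ∑ j, z j = 0 := by linarith
    have k4 : ((Fintype.card V : ℝ) - 4) ≠ 0 := by
      have : (5 : ℝ) ≤ Fintype.card V := by exact_mod_cast h5
      intro h0
      linarith
    have k5 := (mul_eq_zero.1 k3).resolve_left k4
    exact h.uniq z (fun i => by rw [k1, k5])

end

/-- there is a cubic graph of this kind of order `n` -/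
def HasCB (n : ℕ) : Prop :=
  ∃ (V : Type) (_ : Fintype V) (_ : DecidableEq V) (H : V → V → ℤ) (x y : V → ℝ) (a a' b b' : V),
    CB H x y a a' b b' ∧ Fintype.card V = n

theorem HasCB.grow {n : ℕ} (h : HasCB n) : HasCB (n + 4) := by
  obtain ⟨V, _, _, H, x, y, a, a', b, b', h, rfl⟩ := h
  obtain ⟨x', y', h'⟩ := h.grow
  exact ⟨O4 V, inferInstance, inferInstance, _, x', y', _, _, _, _, h', by
    rw [Fintype.card_option, Fintype.card_option, Fintype.card_option, Fintype.card_option]⟩

theorem HasCB.grows {n : ℕ} (h : HasCB n) (k : ℕ) : HasCB (n + 4 * k) := by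
  induction k with
  | zero => exact h
  | succ k ih => exact ih.grow

theorem HasCB.good {n : ℕ} (h : HasCB n) (h5 : 5 ≤ n) : Good (n - 4) n := by
  obtain ⟨V, _, _, H, x, y, a, a', b, b', h, rfl⟩ := h
  exact h.good h5

section

variable {n : ℕ}

/-- the conditions on integer data of a cubic graph -/
def okb (H : Fin n → Fin n → ℤ) (x y : Fin n → ℤ) (μ δ : ℤ) (L : Fin n → Fin n → ℤ)
    (p a a' b b' : Fin n) : Prop :=
  (∀ i j, H i j = 0 ∨ H i j = 1) ∧ (∀ i j, H i j = H j i) ∧ (∀ i, H i i = 0) ∧
  (∀ i, ∑ j, H i j = 3) ∧ (∀ i, x i ≠ 0) ∧ (∀ i, ∑ j, H i j * x j + x i = 0) ∧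
  (δ ≠ 0) ∧ (∀ i j, ∑ k, L i k * (H k j + if k = j then 1 else 0) =
      δ * ((if i = j then x p else 0) - (if j = p then x i else 0))) ∧
  (x a + x a' + x b + x b' = 0) ∧ (0 < μ) ∧
  (∀ i, ∑ j, H i j * y j + y i = μ * (dl i a + dl i a' + dl i b + dl i b')) ∧
  (y a + y a' + y b + y b' ≤ 2 * μ) ∧ H a a' = 1 ∧ H b b' = 1 ∧ a ≠ b ∧ a ≠ b' ∧ a' ≠ b ∧ a' ≠ b'

instance (H : Fin n → Fin n → ℤ) (x y : Fin n → ℤ) (μ δ : ℤ) (L : Fin n → Fin n → ℤ)
    (p a a' b b' : Fin n) : Decidable (okb H x y μ δ L p a a' b b') := by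
  unfold okb
  infer_instance

theorem HasCB.of_okb {H : Fin n → Fin n → ℤ} {x y : Fin n → ℤ} {μ δ : ℤ}
    {L : Fin n → Fin n → ℤ} {p a a' b b' : Fin n} (h : okb H x y μ δ L p a a' b b') :
    HasCB n := by
  obtain ⟨c1, c2, c3, c4, c5, c6, c7, c8, c9, c10, c11, c12, c13, c14, c15, c16, c17, c18⟩ := h
  have hμ : (μ : ℝ) ≠ 0 := by exact_mod_cast (ne_of_gt c10)
  have hμ' : (0 : ℝ) < μ := by exact_mod_cast c10
  refine ⟨Fin n, inferInstance, inferInstance, H, fun i => (x i : ℝ), fun i => (y i : ℝ) / μ,
    a, a', b, b', ⟨⟨c1, c2, c3⟩, c4, ?_, ?_, ?_, ?_, ?_, ?_, c13, c14, c15, c16, c17, c18⟩,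
    Fintype.card_fin n⟩
  · intro i; exact_mod_cast c5 i
  · intro i; exact_mod_cast c6 i
  · intro z hz
    apply cert_real (S := H) (D := fun _ => -1) (L := L) (x := x) (δ := δ) (p := p) c7 (c5 p)
    · intro i j
      rw [← c8 i j]
      refine Finset.sum_congr rfl fun k _ => ?_
      unfold sm
      by_cases e : k = j
      · rw [if_pos e, if_pos e]; ring
      · rw [if_neg e, if_neg e]; ring
    · intro i
      have := hz i
      push_cast
      linarith
  · exact_mod_cast c9
  · intro i
    have h1 := c11 i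
    have h2 : ∑ j, (H i j : ℝ) * (y j : ℝ) + y i = μ * (dl i a + dl i a' + dl i b + dl i b') := by
      exact_mod_cast h1
    have h3 : ∑ j, (H i j : ℝ) * ((y j : ℝ) / μ) = (∑ j, (H i j : ℝ) * (y j : ℝ)) / μ := by
      rw [Finset.sum_div]
      exact Finset.sum_congr rfl fun j _ => by ring
    rw [h3]
    field_simp
    linarith
  · have h1 : (y a : ℝ) + y a' + y b + y b' ≤ 2 * μ := by exact_mod_cast c12
    have h2 : (y a : ℝ) / μ + y a' / μ + y b / μ + y b' / μ = (y a + y a' + y b + y b') / μ := by
      ring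
    simp only [h2]
    rw [div_le_iff₀ hμ']
    exact h1

end

end Pool.Agent.H93.Nut
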