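import Pool.Agent.H93.Nut.Base

/-!
Skeletons given by integer data.
-/

set_option autoImplicit false
set_option linter.unusedSectionVars false
set_option linter.unusedVariables false

namespace Pool.Agent.H93.Nut

open Finset Pool.Agent.TH296.Nut

section

variable {n : ℕ}

/-- a matrix given by its rows -/
def lm (L : List (List ℤ)) (i j : Fin n) : ℤ := (L.getD i.val []).getD j.val 0

/-- a vector given by its entries -/
def lv (L : List ℤ) (i : Fin n) : ℤ := L.getD i.val 0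

/-- all the conditions on integer data -/
def ok (m : ℤ) (S : Fin n → Fin n → ℤ) (D t x z γ : Fin n → ℤ) (a b e d u v : Fin n)
    (L L2 : Fin n → Fin n → ℤ) (δ : ℤ) (p q : Fin n) : Prop :=
  (∀ i j, S i j = 0 ∨ S i j = 1 ∨ S i j = -1) ∧ (∀ i j, S i j = S j i) ∧ (∀ i, S i i = 0) ∧
  (∀ i, D i = 0 ∨ D i = 1) ∧ (∀ i, 0 ≤ t i) ∧ (∀ i, 2 * t i = ∑ j, (S i j) ^ 2 - D i - 1) ∧
  (∀ i, t i + mrk a b e d i ≤ 1) ∧ (∀ i, ∑ j, (S i j) ^ 2 - t i + mrk a b e d i ≤ 3) ∧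
  (∑ i, t i = m) ∧ (∀ i, x i ≠ 0) ∧ (∀ i, ∑ j, S i j * x j - D i * x i = 0) ∧
  (δ ≠ 0) ∧ (∀ i j, ∑ k, L i k * sm S D k j =
      δ * ((if i = j then x p else 0) - (if j = p then x i else 0))) ∧
  (z q = 1) ∧ (∀ i j, (∑ k, L2 i k * sm S D k j -
      ((if i = j then z q else 0) - (if j = q then z i else 0))) % 2 = 0) ∧
  ((z a + z d - 1) % 2 = 0) ∧ ((z b + z e - 1) % 2 = 0) ∧
  (∀ i, (∑ j, S i j * γ j - D i * γ i - (1 + D i)) % 2 = 0) ∧
  ((γ a + γ b + γ e + γ d) % 2 = 0) ∧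
  a ≠ b ∧ e ≠ d ∧ a ≠ e ∧ b ≠ d ∧ S a b = 0 ∧ S e d = 0 ∧ S a e = 0 ∧ S b d = 0 ∧ S u v = 1 ∧
  x u ≠ x v

instance (m : ℤ) (S : Fin n → Fin n → ℤ) (D t x z γ : Fin n → ℤ) (a b e d u v : Fin n)
    (L L2 : Fin n → Fin n → ℤ) (δ : ℤ) (p q : Fin n) :
    Decidable (ok m S D t x z γ a b e d u v L L2 δ p q) := by
  unfold ok
  infer_instance

theorem to_two {a b : ℤ} (h : (a - b) % 2 = 0) : (a : ZMod 2) = (b : ZMod 2) := by
  have h1 : ((a - b : ℤ) : ZMod 2) = 0 := zmod2_cast.2 (Int.dvd_of_emod_eq_zero h)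
  push_cast at h1
  exact sub_eq_zero.1 h1

theorem Sk.of_ok {m : ℤ} {S : Fin n → Fin n → ℤ} {D t x z γ : Fin n → ℤ} {a b e d u v : Fin n}
    {L L2 : Fin n → Fin n → ℤ} {δ : ℤ} {p q : Fin n}
    (h : ok m S D t x z γ a b e d u v L L2 δ p q) :
    Sk m S D t x (fun i => (z i : ZMod 2)) (fun i => (γ i : ZMod 2)) a b e d u v := by
  obtain ⟨val, symm, diag, dval, t0, tdef, tmk, smk, tsum, nz, ker, hδ, hL, hq, hL2, za, zb, g, g',
    ab, cd, ac, bd, nab, ncd, nac, nbd, uv, xuv⟩ := h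
  refine ⟨val, symm, diag, dval, t0, tdef, tmk, smk, tsum, nz, ker, ?_, ?_, ?_, ?_, ?_, ?_,
    ab, cd, ac, bd, nab, ncd, nac, nbd, uv, xuv⟩
  · exact cert_real hδ (nz p) hL
  · apply cert_two (L := fun i j => (L2 i j : ZMod 2)) (p := q)
    · rw [hq]; rfl
    · intro i j
      have := to_two (hL2 i j)
      push_cast at this
      exact this
  · have := to_two za
    push_cast at this
    exact this
  · have := to_two zb
    push_cast at this
    exact this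
  · intro i
    have := to_two (g i)
    push_cast at this
    exact this
  · have h1 : (γ a + γ b + γ e + γ d - 0) % 2 = 0 := by rw [sub_zero]; exact g'
    have := to_two h1
    push_cast at this
    exact this

/-- the conditions on the joins -/
def okc (c : ℕ) (S : Fin n → Fin n → ℤ) (D t : Fin n → ℤ) (a b e d : Fin n)
    (C : Fin n → Fin n → ℤ) : Prop :=
  (∀ i j, C i j = 0 ∨ C i j = 1) ∧ (∀ i j, C i j = C j i) ∧ (∀ i, C i i = 0) ∧
  (∀ i j, C i j = 1 → S i j = 0 ∧ ew a b i j = 0 ∧ ew e d i j = 0 ∧ ew a e i j = 0 ∧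
    ew b d i j = 0) ∧
  (∀ i, ∑ j, C i j = c + 1 - t i - D i - mrk a b e d i)

instance (c : ℕ) (S : Fin n → Fin n → ℤ) (D t : Fin n → ℤ) (a b e d : Fin n)
    (C : Fin n → Fin n → ℤ) : Decidable (okc c S D t a b e d C) := by
  unfold okc
  infer_instance

theorem HasCf.of_ok {c : ℕ} {m : ℤ} {S : Fin n → Fin n → ℤ} {D t x z γ : Fin n → ℤ}
    {a b e d u v : Fin n} {L L2 : Fin n → Fin n → ℤ} {δ : ℤ} {p q : Fin n}
    {C : Fin n → Fin n → ℤ} (h : ok m S D t x z γ a b e d u v L L2 δ p q)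
    (h' : okc c S D t a b e d C) : HasCf c n := by
  obtain ⟨c1, c2, c3, c4, c5⟩ := h'
  exact ⟨Fin n, inferInstance, inferInstance, m, S, D, t, x, _, _, a, b, e, d, u, v, C,
    ⟨Sk.of_ok h, ⟨c1, c2, c3⟩, c4, c5⟩, Fintype.card_fin n⟩

end

end Pool.Agent.H93.Nut
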