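import Pool.Agent.H93.Nut.Cubic
import Pool.Agent.H93.Nut.Seed

/-!
Two cubic graphs.
-/

set_option autoImplicit false
set_option maxRecDepth 100000

namespace Pool.Agent.H93.Nut

theorem cb8 : HasCB 8 :=
HasCB.of_okb (n := 8) (H := lm [[0, 0, 1, 0, 1, 1, 0, 0], [0, 0, 1, 1, 0, 1, 0, 0], [1, 1, 0, 0,
  0, 0, 0, 1], [0, 1, 0, 0, 1, 0, 1, 0], [1, 0, 0, 1, 0, 0, 0, 1], [1, 1, 0, 0, 0, 0, 1, 0], [0,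
  0, 0, 1, 0, 1, 0, 1], [0, 0, 1, 0, 1, 0, 1, 0]]) (x := lv [-1, 1, -1, -1, 1, 1, -1, 1]) (y :=
  lv [1, 2, 1, -1, 0, 2, -1, 0]) (μ := 4) (δ := 8) (L := lm [[0, 0, 0, 0, 0, 0, 0, 0], [3, -2,
  -1, 1, -4, -6, 5, 0], [-4, 0, -4, -4, 8, 8, -4, 0], [2, -4, 2, -2, 0, 4, -2, 0], [-3, 2, 1,
  -1, -4, -2, 3, 0], [-1, -2, 3, 5, -4, -6, 1, 0], [-2, 4, -2, -6, 8, 4, -6, 0], [1, 2, -3, 3,
  -4, -2, -1, 0]]) (p := 0) (a := 0) (a' := 2) (b := 1) (b' := 5)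
    (by decide +kernel)

theorem cb22 : HasCB 22 :=
HasCB.of_okb (n := 22) (H := lm [[0, 0, 0, 0, 0, 0, 0, 0, 0, 1, 0, 1, 0, 0, 0, 0, 0, 0, 0, 0, 0,
  1], [0, 0, 0, 0, 0, 0, 0, 0, 0, 0, 0, 0, 0, 0, 0, 0, 0, 1, 0, 1, 0, 1], [0, 0, 0, 0, 0, 0, 0,
  0, 0, 0, 0, 0, 0, 0, 1, 0, 0, 0, 1, 1, 0, 0], [0, 0, 0, 0, 0, 0, 0, 0, 0, 0, 1, 0, 1, 0, 0, 0,
  0, 1, 0, 0, 0, 0], [0, 0, 0, 0, 0, 0, 0, 0, 0, 0, 0, 0, 0, 1, 0, 0, 1, 0, 0, 1, 0, 0], [0, 0,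
  0, 0, 0, 0, 1, 1, 0, 0, 0, 1, 0, 0, 0, 0, 0, 0, 0, 0, 0, 0], [0, 0, 0, 0, 0, 1, 0, 0, 0, 0, 0,
  0, 0, 0, 0, 1, 0, 0, 1, 0, 0, 0], [0, 0, 0, 0, 0, 1, 0, 0, 0, 0, 0, 0, 0, 0, 0, 0, 1, 0, 0, 0,
  1, 0], [0, 0, 0, 0, 0, 0, 0, 0, 0, 1, 1, 0, 0, 0, 0, 1, 0, 0, 0, 0, 0, 0], [1, 0, 0, 0, 0, 0,
  0, 0, 1, 0, 0, 0, 0, 0, 1, 0, 0, 0, 0, 0, 0, 0], [0, 0, 0, 1, 0, 0, 0, 0, 1, 0, 0, 0, 0, 0, 0,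
  0, 0, 0, 0, 0, 0, 1], [1, 0, 0, 0, 0, 1, 0, 0, 0, 0, 0, 0, 1, 0, 0, 0, 0, 0, 0, 0, 0, 0], [0,
  0, 0, 1, 0, 0, 0, 0, 0, 0, 0, 1, 0, 0, 0, 1, 0, 0, 0, 0, 0, 0], [0, 0, 0, 0, 1, 0, 0, 0, 0, 0,
  0, 0, 0, 0, 0, 0, 0, 1, 0, 0, 1, 0], [0, 0, 1, 0, 0, 0, 0, 0, 0, 1, 0, 0, 0, 0, 0, 0, 0, 0, 0,
  0, 1, 0], [0, 0, 0, 0, 0, 0, 1, 0, 1, 0, 0, 0, 1, 0, 0, 0, 0, 0, 0, 0, 0, 0], [0, 0, 0, 0, 1,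
  0, 0, 1, 0, 0, 0, 0, 0, 0, 0, 0, 0, 0, 1, 0, 0, 0], [0, 1, 0, 1, 0, 0, 0, 0, 0, 0, 0, 0, 0, 1,
  0, 0, 0, 0, 0, 0, 0, 0], [0, 0, 1, 0, 0, 0, 1, 0, 0, 0, 0, 0, 0, 0, 0, 0, 1, 0, 0, 0, 0, 0],
  [0, 1, 1, 0, 1, 0, 0, 0, 0, 0, 0, 0, 0, 0, 0, 0, 0, 0, 0, 0, 0, 0], [0, 0, 0, 0, 0, 0, 0, 1,
  0, 0, 0, 0, 0, 1, 1, 0, 0, 0, 0, 0, 0, 0], [1, 1, 0, 0, 0, 0, 0, 0, 0, 0, 1, 0, 0, 0, 0, 0, 0,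
  0, 0, 0, 0, 0]]) (x := lv [1, -3, 5, -1, 1, 2, -2, 2, -1, -2, -1, -2, -1, 1, 2, 4, 1, 3, -4,
  -3, -5, 3]) (y := lv [-2, 2, -2, 0, 0, 1, 1, -1, 0, 1, 0, 1, 0, 0, 1, -1, 0, 0, 1, 0, 0, 0])
  (μ := 2) (δ := 24) (L := lm [[0, 0, 0, 0, 0, 0, 0, 0, 0, 0, 0, 0, 0, 0, 0, 0, 0, 0, 0, 0, 0,
  0], [32, -12, -20, 28, -28, -32, 20, 28, -8, 56, -20, -16, 16, 8, -80, -28, -40, -24, 40, 60,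
  44, 0], [-72, 36, 12, -60, 36, 48, -36, -60, 24, -96, 36, 48, -24, -24, 144, 36, 72, 48, -48,
  -84, -60, 0], [28, -24, 8, 20, -8, -10, 10, 26, -16, 22, -4, -26, 8, 4, -34, -2, -20, 0, 2,
  24, 4, 0], [-24, 12, -12, -12, 12, 12, 0, -24, 0, -12, 12, 12, 0, 0, 36, 0, 24, 0, -12, -12,
  -12, 0], [-38, 18, 2, -28, 22, 23, -5, -25, 8, -41, 20, 31, -16, -14, 71, 13, 34, 24, -31,
  -42, -32, 0], [34, -18, -10, 32, -14, -13, 19, 23, -16, 43, -16, -29, 8, 10, -61, -11, -38,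
  -24, 29, 42, 28, 0], [-14, 6, 14, -16, 10, 23, -17, -13, 8, -41, 8, 7, -16, -14, 47, 25, 34,
  24, -31, -30, -20, 0], [12, -12, 12, 0, -12, -6, -6, 18, 0, 18, 0, -6, 0, 12, -30, 6, -12, 0,
  6, 12, 0, 0], [50, -30, 10, 28, -10, -17, 11, 31, -8, 23, -20, -25, -8, 2, -41, 5, -22, 0, 1,
  30, 8, 0], [4, 0, -16, 20, -8, -10, 10, 2, 8, 22, -4, -2, 8, 4, -34, -26, -20, -24, 26, 24,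
  28, 0], [18, -6, -6, 12, -18, -9, 3, 15, 0, 39, -12, -9, 24, 18, -57, -27, -30, -24, 33, 30,
  24, 0], [20, -12, 4, 16, -4, -14, 2, 10, -8, 2, -8, 2, -8, -4, -14, 14, -4, 0, -2, 12, 8, 0],
  [-8, 0, 8, -16, 16, 8, -8, -16, 8, -32, 8, 16, -16, -8, 32, 16, 16, 24, -16, -24, -8, 0],
  [-62, 42, -22, -28, 22, 23, -5, -49, 8, -17, 20, 31, 8, -14, 71, -11, 34, 0, -7, -42, -8, 0],
  [-66, 42, -6, -48, 30, 33, -15, -51, 24, -63, 24, 33, 0, -18, 105, 15, 54, 24, -33, -66, -36,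
  0], [-32, 24, -16, -16, 16, 8, -8, -16, 8, -8, 8, 16, 8, -8, 32, -8, 16, 0, 8, -24, -8, 0],
  [-52, 36, 4, -32, 20, 34, -22, -38, 16, -46, 16, 26, -8, -4, 82, 14, 44, 24, -26, -60, -40,
  0], [70, -42, 14, 44, -38, -43, 25, 53, -16, 61, -28, -35, 8, 22, -115, -17, -50, -24, 35, 66,
  40, 0], [64, -36, 20, 44, -20, -28, 16, 56, -16, 52, -28, -44, 8, 16, -100, -8, -56, -24, 20,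
  60, 28, 0], [84, -48, 0, 60, -48, -54, 30, 78, -24, 90, -36, -54, 24, 36, -150, -30, -84, -48,
  54, 96, 60, 0], [-44, 36, -4, -40, 28, 26, -14, -46, 8, -62, 32, 34, -16, -20, 98, 22, 52, 24,
  -34, -60, -32, 0]]) (p := 0) (a := 1) (a' := 17) (b := 5) (b' := 6)
    (by decide +kernel)

/-- Order degree plus four, multiples of four. -/
theorem good_four_zero {n : ℕ} (h : n % 4 = 0) (h8 : 8 ≤ n) :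
    Pool.Agent.TH296.Nut.Good (n - 4) n := by
  obtain ⟨k, rfl⟩ : ∃ k, n = 8 + 4 * k := ⟨(n - 8) / 4, by omega⟩
  exact (cb8.grows k).good (by omega)

/-- Order degree plus four, two modulo four. -/
theorem good_four_two {n : ℕ} (h : n % 4 = 2) (h22 : 22 ≤ n) :
    Pool.Agent.TH296.Nut.Good (n - 4) n := by
  obtain ⟨k, rfl⟩ : ∃ k, n = 22 + 4 * k := ⟨(n - 22) / 4, by omega⟩
  exact (cb22.grows k).good (by omega)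

end Pool.Agent.H93.Nut
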