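import Mathlib

/-!
Graphs with prescribed degrees that avoid a sparse graph.
-/

set_option autoImplicit false

namespace Pool.Agent.H93.Nut

open Finset

/-- A simple graph, given by its weights. -/
structure GW {V : Type} (w : V → V → ℤ) : Prop where
  zo : ∀ u v, w u v = 0 ∨ w u v = 1
  symm : ∀ u v, w u v = w v u
  diag : ∀ v, w v v = 0

/-- the weight of the single edge `a b` -/
def ew {V : Type} [DecidableEq V] (a b u v : V) : ℤ :=
  (if u = a then (if v = b then 1 else 0) else 0) + (if u = b then (if v = a then 1 else 0) else 0)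

section

variable {V : Type} [DecidableEq V]

theorem ew_symm (a b u v : V) : ew a b u v = ew a b v u := by
  unfold ew
  split_ifs <;> simp_all

theorem ew_comm (a b u v : V) : ew a b u v = ew b a u v := by
  unfold ew
  ring

theorem ew_diag {a b : V} (h : a ≠ b) (u : V) : ew a b u u = 0 := by
  unfold ew
  split_ifs <;> simp_all

theorem ew_cases {a b : V} (h : a ≠ b) (u v : V) :
    ew a b u v = 0 ∨ (ew a b u v = 1 ∧ ((u = a ∧ v = b) ∨ (u = b ∧ v = a))) := by
  unfold ew
  split_ifs <;> simp_all

theorem ew_sum [Fintype V] (a b u : V) :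
    ∑ v, ew a b u v = (if u = a then 1 else 0) + (if u = b then 1 else 0) := by
  unfold ew
  rw [Finset.sum_add_distrib]
  congr 1
  · split_ifs
    · simp
    · simp
  · split_ifs
    · simp
    · simp

theorem GW.nonneg {w : V → V → ℤ} (h : GW w) (u v : V) : 0 ≤ w u v := by
  rcases h.zo u v with e | e <;> rw [e]
  norm_num

theorem GW.le_one {w : V → V → ℤ} (h : GW w) (u v : V) : w u v ≤ 1 := by
  rcases h.zo u v with e | e <;> rw [e]
  norm_num

theorem GW.ne {w : V → V → ℤ} (h : GW w) {u v : V} (e : w u v = 1) : u ≠ v := by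
  rintro rfl
  rw [h.diag] at e
  exact zero_ne_one e

theorem GW.add {w : V → V → ℤ} (h : GW w) {a b : V} (hab : a ≠ b) (h0 : w a b = 0) :
    GW (fun u v => w u v + ew a b u v) where
  zo := by
    intro u v
    rcases ew_cases hab u v with e | ⟨e, ⟨rfl, rfl⟩ | ⟨rfl, rfl⟩⟩
    · rw [e, add_zero]
      exact h.zo u v
    · rw [e, h0]
      right; rfl
    · rw [e, h.symm, h0]
      right; rfl
  symm := by
    intro u v
    rw [h.symm u v, ew_symm]
  diag := by
    intro v
    rw [h.diag, ew_diag hab, add_zero]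

theorem GW.sub {w : V → V → ℤ} (h : GW w) {a b : V} (h0 : w a b = 1) :
    GW (fun u v => w u v - ew a b u v) where
  zo := by
    intro u v
    rcases ew_cases (h.ne h0) u v with e | ⟨e, ⟨rfl, rfl⟩ | ⟨rfl, rfl⟩⟩
    · rw [e, sub_zero]
      exact h.zo u v
    · rw [e, h0]
      left; norm_num
    · rw [e, h.symm, h0]
      left; norm_num
  symm := by
    intro u v
    rw [h.symm u v, ew_symm]
  diag := by
    intro v
    rw [h.diag, ew_diag (h.ne h0), sub_zero]

variable [Fintype V]

/-- partial solutions -/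
structure PS (F : V → V → ℤ) (f : V → ℤ) (w : V → V → ℤ) : Prop where
  gw : GW w
  av : ∀ u v, w u v = 1 → F u v = 0
  le : ∀ v, ∑ u, w v u ≤ f v
  ev : Even (∑ v, ∑ u, w v u)

theorem PS.addE {F : V → V → ℤ} {f : V → ℤ} {w : V → V → ℤ} (hF : GW F) (h : PS F f w) {a b : V}
    (hab : a ≠ b) (ha : ∑ u, w a u < f a) (hb : ∑ u, w b u < f b) (h0 : w a b = 0)
    (h1 : F a b = 0) :
    ∃ w', PS F f w' ∧ ∑ v, ∑ u, w' v u = ∑ v, ∑ u, w v u + 2 := by
  have key : ∀ v, ∑ u, (w v u + ew a b v u) = ∑ u, w v u + ((if v = a then 1 else 0) +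
      (if v = b then 1 else 0)) := by
    intro v
    rw [Finset.sum_add_distrib, ew_sum]
  have tot : ∑ v, ∑ u, (w v u + ew a b v u) = ∑ v, ∑ u, w v u + 2 := by
    simp only [key]
    rw [Finset.sum_add_distrib, Finset.sum_add_distrib]
    simp
  refine ⟨fun u v => w u v + ew a b u v, ⟨h.gw.add hab h0, ?_, ?_, ?_⟩, tot⟩
  · intro u v huv
    rcases ew_cases hab u v with e | ⟨e, ⟨rfl, rfl⟩ | ⟨rfl, rfl⟩⟩
    · rw [e, add_zero] at huv
      exact h.av u v huv
    · exact h1
    · rw [hF.symm]; exact h1
  · intro v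
    rw [key]
    have := h.le v
    split_ifs with e1 e2 e2
    · exact absurd (e1.symm.trans e2) hab
    · subst e1; linarith
    · subst e2; linarith
    · linarith
  · rw [tot]
    exact h.ev.add (by norm_num)

theorem PS.swap {F : V → V → ℤ} {f : V → ℤ} {w : V → V → ℤ} (hF : GW F) (h : PS F f w)
    {a b c d : V} (hab : (a ≠ b ∧ ∑ u, w a u < f a ∧ ∑ u, w b u < f b) ∨
      (a = b ∧ ∑ u, w a u + 1 < f a)) (hcd : w c d = 1)
    (hac : a ≠ c) (had : a ≠ d) (hbc : b ≠ c) (hbd : b ≠ d)
    (h1 : w a c = 0) (h2 : w b d = 0) (h3 : F a c = 0) (h4 : F b d = 0) :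
    ∃ w', PS F f w' ∧ ∑ v, ∑ u, w' v u = ∑ v, ∑ u, w v u + 2 := by
  have hne : c ≠ d := h.gw.ne hcd
  have g1 := h.gw.sub hcd
  have e1 : ew c d a c = 0 := by
    unfold ew
    simp [hac, had]
  have g2 := g1.add hac (by rw [h1, e1]; norm_num)
  have e2 : ew c d b d = 0 := by
    unfold ew
    simp [hbc, hbd]
  have e3 : ew a c b d = 0 := by
    unfold ew
    simp [hbc, hne.symm]
  have g3 := g2.add hbd (by rw [h2, e2, e3]; norm_num)
  have key : ∀ v, ∑ u, (w v u - ew c d v u + ew a c v u + ew b d v u) = ∑ u, w v u +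
      ((if v = a then 1 else 0) + (if v = b then 1 else 0)) := by
    intro v
    rw [Finset.sum_add_distrib, Finset.sum_add_distrib, Finset.sum_sub_distrib, ew_sum, ew_sum,
      ew_sum]
    ring
  have tot : ∑ v, ∑ u, (w v u - ew c d v u + ew a c v u + ew b d v u)
      = ∑ v, ∑ u, w v u + 2 := by
    simp only [key]
    rw [Finset.sum_add_distrib, Finset.sum_add_distrib]
    simp
  refine ⟨_, ⟨g3, ?_, ?_, ?_⟩, tot⟩
  · intro u v huv
    rcases ew_cases hbd u v with e | ⟨e, ⟨rfl, rfl⟩ | ⟨rfl, rfl⟩⟩
    · rw [e, add_zero] at huv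
      rcases ew_cases hac u v with e' | ⟨e', ⟨rfl, rfl⟩ | ⟨rfl, rfl⟩⟩
      · rw [e', add_zero] at huv
        rcases ew_cases hne u v with e'' | ⟨e'', _⟩
        · rw [e'', sub_zero] at huv
          exact h.av u v huv
        · rw [e''] at huv
          have := h.gw.le_one u v
          omega
      · exact h3
      · rw [hF.symm]; exact h3
    · exact h4
    · rw [hF.symm]; exact h4
  · intro v
    rw [key]
    have := h.le v
    rcases hab with ⟨hab, ha, hb⟩ | ⟨rfl, ha⟩
    · split_ifs with e1 e2 e2
      · exact absurd (e1.symm.trans e2) hab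
      · subst e1; linarith
      · subst e2; linarith
      · linarith
    · split_ifs with e1
      · subst e1; linarith
      · linarith
  · rw [tot]
    exact h.ev.add (by norm_num)

theorem PS.step {F : V → V → ℤ} {f : V → ℤ} {w : V → V → ℤ} {A : ℕ} {B : ℤ} (hF : GW F)
    (h : PS F f w) (hev : Even (∑ v, f v))
    (hA : ∀ v, 0 < f v → f v + ∑ u, F v u ≤ A)
    (hB : ∀ X : Finset V, X.card + 1 ≤ A → ∑ v ∈ X, f v ≤ B)
    (hS : 2 * B < ∑ v, f v) (hlt : ∑ v, ∑ u, w v u < ∑ v, f v) :
    ∃ w', PS F f w' ∧ ∑ v, ∑ u, w' v u = ∑ v, ∑ u, w v u + 2 := by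
  by_cases hc : ∃ a b, a ≠ b ∧ ∑ u, w a u < f a ∧ ∑ u, w b u < f b ∧ w a b = 0 ∧ F a b = 0
  · obtain ⟨a, b, hab, ha, hb, h0, h1⟩ := hc
    exact h.addE hF hab ha hb h0 h1
  · have hc' : ∀ a b, a ≠ b → ∑ u, w a u < f a → ∑ u, w b u < f b → w a b = 1 ∨ F a b = 1 := by
      intro a b hab ha hb
      by_contra hcon
      push Not at hcon
      exact hc ⟨a, b, hab, ha, hb, (h.gw.zo a b).resolve_right hcon.1,
        (hF.zo a b).resolve_right hcon.2⟩
    obtain ⟨a, b, hab⟩ : ∃ a b, (a ≠ b ∧ ∑ u, w a u < f a ∧ ∑ u, w b u < f b) ∨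
        (a = b ∧ ∑ u, w a u + 1 < f a) := by
      by_contra hcon
      push Not at hcon
      obtain ⟨a, -, ha⟩ : ∃ a ∈ univ, ∑ u, w a u < f a := Finset.exists_lt_of_sum_lt hlt
      have h1 : ∀ b, b ≠ a → ∑ u, w b u = f b := by
        intro b hb
        have := (hcon a b).1 hb.symm ha
        exact le_antisymm (h.le b) this
      have h2 : ∑ u, w a u + 1 = f a := le_antisymm (by omega) ((hcon a a).2 rfl)
      have h3 : ∑ v, ∑ u, w v u + 1 = ∑ v, f v := by
        rw [← Finset.add_sum_erase _ _ (Finset.mem_univ a),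
          ← Finset.add_sum_erase univ f (Finset.mem_univ a), ← h2]
        have : ∑ x ∈ univ.erase a, ∑ u, w x u = ∑ x ∈ univ.erase a, f x :=
          Finset.sum_congr rfl fun x hx => h1 x (Finset.ne_of_mem_erase hx)
        rw [this]
        ring
      have h4 := h.ev
      rw [Int.even_iff] at hev h4
      omega
    have ha : ∑ u, w a u < f a := by
      rcases hab with h1 | h1
      · exact h1.2.1
      · linarith [h1.2]
    have hb : ∑ u, w b u < f b := by
      rcases hab with h1 | h1
      · exact h1.2.2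
      · rw [← h1.1]; linarith [h1.2]
    let cA : V → Finset V := fun a => univ.filter (fun v => v = a ∨ w a v = 1 ∨ F a v = 1)
    have mA : ∀ a v, v ∈ cA a ↔ (v = a ∨ w a v = 1 ∨ F a v = 1) := by
      intro a v
      simp [cA]
    have nA : ∀ a v, v ∉ cA a → a ≠ v ∧ w a v = 0 ∧ F a v = 0 := by
      intro a v hv
      rw [mA] at hv
      push Not at hv
      exact ⟨hv.1.symm, (h.gw.zo a v).resolve_right hv.2.1, (hF.zo a v).resolve_right hv.2.2⟩
    have card0 : ∀ a, ((cA a).card : ℤ) ≤ 1 + ∑ u, w a u + ∑ u, F a u := by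
      intro a
      have e1 : ((cA a).card : ℤ) = ∑ v, (if v ∈ cA a then (1 : ℤ) else 0) := by
        rw [Finset.sum_boole]
        simp
      have e2 : ∑ v, (if v ∈ cA a then (1 : ℤ) else 0) ≤
          ∑ v, ((if v = a then (1 : ℤ) else 0) + w a v + F a v) := by
        apply Finset.sum_le_sum
        intro v _
        have n1 := h.gw.nonneg a v
        have n2 := hF.nonneg a v
        by_cases hv : v ∈ cA a
        · rw [if_pos hv]
          rcases (mA a v).1 hv with e | e | e
          · rw [if_pos e]; linarith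
          · rw [e]; split_ifs <;> linarith
          · rw [e]; split_ifs <;> linarith
        · rw [if_neg hv]
          split_ifs <;> linarith
      rw [e1]
      refine e2.trans (le_of_eq ?_)
      rw [Finset.sum_add_distrib, Finset.sum_add_distrib]
      simp
    have nn : ∀ a, 0 ≤ ∑ u, w a u := fun a => Finset.sum_nonneg fun u _ => h.gw.nonneg a u
    have card : ∀ a, ∑ u, w a u < f a → (cA a).card ≤ A := by
      intro a ha
      have h1 := card0 a
      have h2 := nn a
      have h3 := hA a (by linarith)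
      have : ((cA a).card : ℤ) ≤ A := by linarith
      exact_mod_cast this
    have selfmem : ∀ a, a ∈ cA a := fun a => (mA a a).2 (Or.inl rfl)
    by_cases hsw : ∃ c d, w c d = 1 ∧ c ∉ cA a ∧ d ∉ cA b
    · obtain ⟨c, d, hcd, hc1, hd1⟩ := hsw
      obtain ⟨p1, p2, p3⟩ := nA a c hc1
      obtain ⟨q1, q2, q3⟩ := nA b d hd1
      have hbc : b ≠ c := by
        rintro rfl
        rcases hc' a b p1 ha hb with e | e
        · rw [e] at p2; exact one_ne_zero p2
        · rw [e] at p3; exact one_ne_zero p3
      have had : a ≠ d := by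
        rintro rfl
        rcases hc' b a q1 hb ha with e | e
        · rw [e] at q2; exact one_ne_zero q2
        · rw [e] at q3; exact one_ne_zero q3
      exact h.swap hF hab hcd p1 had hbc q1 p2 q2 p3 q3
    · exfalso
      push Not at hsw
      have hout : ∀ v, v ∉ cA a ∪ cA b → ∀ u, u ∉ ((cA a ∩ cA b).erase a).erase b →
          w v u = 0 := by
        intro v hv u hu
        rw [Finset.mem_union] at hv
        push Not at hv
        by_cases hub : u = b
        · rw [hub, h.gw.symm]
          exact (nA b v hv.2).2.1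
        by_cases hua : u = a
        · rw [hua, h.gw.symm]
          exact (nA a v hv.1).2.1
        refine (h.gw.zo v u).resolve_right fun e => hu ?_
        rw [Finset.mem_erase, Finset.mem_erase, Finset.mem_inter]
        refine ⟨hub, hua, ?_, ?_⟩
        · by_contra hua
          exact hv.2 (hsw u v (by rw [h.gw.symm]; exact e) hua)
        · exact hsw v u e hv.1
      have hsat : ∀ v, v ∉ cA a ∪ cA b → ∑ u, w v u = f v := by
        intro v hv
        rw [Finset.mem_union] at hv
        push Not at hv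
        refine le_antisymm (h.le v) ?_
        by_contra hcon
        push Not at hcon
        obtain ⟨p1, p2, p3⟩ := nA a v hv.1
        rcases hc' a v p1 ha hcon with e | e
        · rw [e] at p2; exact one_ne_zero p2
        · rw [e] at p3; exact one_ne_zero p3
      have e1 : ∑ v ∈ (cA a ∪ cA b)ᶜ, f v ≤ ∑ v ∈ ((cA a ∩ cA b).erase a).erase b, f v := by
        have s1 : ∑ v ∈ (cA a ∪ cA b)ᶜ, f v =
            ∑ v ∈ (cA a ∪ cA b)ᶜ, ∑ u ∈ ((cA a ∩ cA b).erase a).erase b, w v u := by
          refine Finset.sum_congr rfl fun v hv => ?_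
          rw [Finset.mem_compl] at hv
          rw [← hsat v hv]
          symm
          apply Finset.sum_subset (Finset.subset_univ _)
          intro u _ hu
          exact hout v hv u hu
        rw [s1, Finset.sum_comm]
        apply Finset.sum_le_sum
        intro u _
        have s2 : ∑ v ∈ (cA a ∪ cA b)ᶜ, w v u ≤ ∑ v, w u v := by
          have : ∑ v ∈ (cA a ∪ cA b)ᶜ, w v u = ∑ v ∈ (cA a ∪ cA b)ᶜ, w u v :=
            Finset.sum_congr rfl fun v _ => h.gw.symm v u
          rw [this]
          exact Finset.sum_le_sum_of_subset_of_nonneg (Finset.subset_univ _)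
            (fun v _ _ => h.gw.nonneg u v)
        exact s2.trans (h.le u)
      have e2 : ∑ v ∈ (cA a ∪ cA b)ᶜ, f v + ∑ v ∈ cA a ∪ cA b, f v = ∑ v, f v :=
        Finset.sum_compl_add_sum _ _
      have e3 : ∑ v ∈ cA a ∪ cA b, f v + ∑ v ∈ cA a ∩ cA b, f v
          = ∑ v ∈ cA a, f v + ∑ v ∈ cA b, f v := Finset.sum_union_inter
      by_cases heq : a = b
      · subst heq
        have ha2 : ∑ u, w a u + 1 < f a := by
          rcases hab with h1 | h1
          · exact absurd rfl h1.1
          · exact h1.2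
        rw [Finset.inter_self] at e1
        rw [Finset.erase_idem] at e1
        rw [Finset.union_self] at e1 e2
        have c1 := card0 a
        have c2 := nn a
        have c3 := hA a (by linarith)
        have c4 : (cA a).card + 1 ≤ A := by
          have : (((cA a).card + 1 : ℕ) : ℤ) ≤ A := by push_cast; linarith
          exact_mod_cast this
        have e4 := hB (cA a) c4
        have e5 := hB ((cA a).erase a) (by
          have := Finset.card_erase_le (s := cA a) (a := a)
          omega)
        have e6 := Finset.add_sum_erase (cA a) f (selfmem a)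
        linarith
      · have mab : b ∈ cA a := by
          rw [mA]
          exact Or.inr (hc' a b heq ha hb)
        have mba : a ∈ cA b := by
          rw [mA]
          exact Or.inr (hc' b a (Ne.symm heq) hb ha)
        have ma : a ∈ cA a ∩ cA b := Finset.mem_inter.2 ⟨selfmem a, mba⟩
        have mb : b ∈ (cA a ∩ cA b).erase a :=
          Finset.mem_erase.2 ⟨Ne.symm heq, Finset.mem_inter.2 ⟨mab, selfmem b⟩⟩
        have q1 := Finset.add_sum_erase _ f ma
        have q2 := Finset.add_sum_erase _ f mb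
        have q3 := Finset.add_sum_erase (cA a) f (selfmem a)
        have q4 := Finset.add_sum_erase (cA b) f (selfmem b)
        have c1 := card a ha
        have c2 := card b hb
        have e4 := hB ((cA a).erase a) (by
          rw [Finset.card_erase_of_mem (selfmem a)]
          have : 0 < (cA a).card := Finset.card_pos.2 ⟨a, selfmem a⟩
          omega)
        have e5 := hB ((cA b).erase b) (by
          rw [Finset.card_erase_of_mem (selfmem b)]
          have : 0 < (cA b).card := Finset.card_pos.2 ⟨b, selfmem b⟩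
          omega)
        linarith

/-- A graph with prescribed degrees that avoids `F`. -/
theorem exists_factor {F : V → V → ℤ} {f : V → ℤ} {A : ℕ} {B : ℤ} (hF : GW F)
    (hf : ∀ v, 0 ≤ f v) (hev : Even (∑ v, f v))
    (hA : ∀ v, 0 < f v → f v + ∑ u, F v u ≤ A)
    (hB : ∀ X : Finset V, X.card + 1 ≤ A → ∑ v ∈ X, f v ≤ B)
    (hS : 2 * B < ∑ v, f v) :
    ∃ w, GW w ∧ (∀ u v, w u v = 1 → F u v = 0) ∧ ∀ v, ∑ u, w v u = f v := by
  have main : ∀ n : ℕ, ∀ w, PS F f w → ∑ v, f v = ∑ v, ∑ u, w v u + n →
      ∃ w, PS F f w ∧ ∑ v, ∑ u, w v u = ∑ v, f v := by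
    intro n
    induction n using Nat.strong_induction_on with
    | _ n ih =>
      intro w hw hn
      rcases Nat.eq_zero_or_pos n with h0 | h0
      · exact ⟨w, hw, by rw [hn, h0]; simp⟩
      · obtain ⟨w', hw', ht⟩ := hw.step hF hev hA hB hS (by rw [hn]; omega)
        have h2 : 2 ≤ n := by
          have h3 := hw.ev
          rw [hn] at hev
          rw [Int.even_iff] at hev h3
          omega
        exact ih (n - 2) (by omega) w' hw' (by rw [hn, ht]; push_cast [h2]; omega)
  have h0 : PS F f (fun _ _ => 0) := by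
    refine ⟨⟨fun _ _ => Or.inl rfl, fun _ _ => rfl, fun _ => rfl⟩, ?_, ?_, ?_⟩
    · intro u v huv
      exact absurd huv zero_ne_one
    · intro v
      simpa using hf v
    · simp
  have hnn : 0 ≤ ∑ v, f v := Finset.sum_nonneg fun v _ => hf v
  obtain ⟨w, hw, ht⟩ := main (∑ v, f v).toNat _ h0 (by simp [Int.toNat_of_nonneg hnn])
  refine ⟨w, hw.gw, hw.av, ?_⟩
  have := (Finset.sum_eq_sum_iff_of_le (fun v (_ : v ∈ univ) => hw.le v)).1 ht
  intro v
  exact this v (Finset.mem_univ v)

end

end Pool.Agent.H93.Nut
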