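import Pool.Graph.R_seed8.TH296.Nut.All
import Pool.Agent.H93.Nut.Factor

/-!
The graph of a signed graph `S` with marked vertices `D` and a graph `C` of complete joins.
-/

set_option autoImplicit false
set_option linter.unusedSectionVars false

namespace Pool.Agent.H93.Nut

open Finset Pool.Agent.TH296.Nut

/-- signs -/
def isg (s : Bool) : ℤ := if s then -1 else 1

section

variable {P : Type}

/-- weights of the pair graph (twice the adjacency) -/
def pw [DecidableEq P] (S C : P → P → ℤ) (D : P → ℤ) (p q : P × Bool) : ℤ :=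
  2 * C p.1 q.1 + (S p.1 q.1) ^ 2 + isg p.2 * isg q.2 * S p.1 q.1 +
    (if p.1 = q.1 then D p.1 * (1 - isg p.2 * isg q.2) else 0)

/-- hypotheses on the signed graph, the marked vertices and the graph of complete joins -/
structure PG (ρ : ℕ) (S C : P → P → ℤ) (D : P → ℤ) [Fintype P] : Prop where
  val : ∀ i j, S i j = 0 ∨ S i j = 1 ∨ S i j = -1
  symm : ∀ i j, S i j = S j i
  diag : ∀ i, S i i = 0
  dval : ∀ i, D i = 0 ∨ D i = 1
  gw : GW C
  av : ∀ i j, C i j = 1 → S i j = 0
  deg : ∀ i, 2 * ∑ j, C i j + ∑ j, (S i j) ^ 2 + D i = ρ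

theorem nut_pairs [Fintype P] [DecidableEq P] {ρ : ℕ} {S C : P → P → ℤ} {D : P → ℤ}
    (h : PG ρ S C D) (x : P → ℝ) (hx : ∀ i, x i ≠ 0)
    (hker : ∀ i, ∑ j, (S i j : ℝ) * x j = D i * x i)
    (huniq : ∀ m : P → ℝ, (∀ i, ∑ j, (S i j : ℝ) * m j = D i * m i) → ∃ c : ℝ, ∀ i, m i = c * x i)
    (hT : ∀ p : P → ℝ, (∀ i, 2 * ∑ j, (C i j : ℝ) * p j + ∑ j, (S i j : ℝ) ^ 2 * p j + D i * p i = 0)
      → ∀ i, p i = 0) : Good ρ (2 * Fintype.card P) := by
  have hs : ∀ s, isg s = 1 ∨ isg s = -1 := by
    intro s; cases s <;> simp [isg]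
  have hf : isg false = 1 := by simp [isg]
  have ht : isg true = -1 := by simp [isg]
  let W : P × Bool → P × Bool → ℝ := fun p q => (pw S C D p q : ℝ) / 2
  have hE : ∀ (y : P × Bool → ℝ) (i : P) (s : Bool), ∑ q, W (i, s) q * y q =
      ∑ j, (C i j : ℝ) * (y (j, false) + y (j, true)) +
      (∑ j, (S i j : ℝ) ^ 2 * (y (j, false) + y (j, true))) / 2 +
      (isg s : ℝ) * (∑ j, (S i j : ℝ) * (y (j, false) - y (j, true))) / 2 +
      D i * (y (i, false) + y (i, true)) / 2 - (isg s : ℝ) * (D i * (y (i, false) - y (i, true))) / 2 := by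
    intro y i s
    rw [sum_db]
    have e1 : ∀ j, W (i, s) (j, false) * y (j, false) + W (i, s) (j, true) * y (j, true) =
        (C i j : ℝ) * (y (j, false) + y (j, true)) +
        (S i j : ℝ) ^ 2 * (y (j, false) + y (j, true)) / 2 +
        (isg s : ℝ) * ((S i j : ℝ) * (y (j, false) - y (j, true))) / 2 +
        (if i = j then (D i * (y (i, false) + y (i, true)) / 2 -
          (isg s : ℝ) * (D i * (y (i, false) - y (i, true))) / 2) else 0) := by
      intro j
      simp only [W, pw, hf, ht]
      by_cases hij : i = j
      · subst hij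
        simp only [if_true]
        push_cast
        ring
      · simp only [if_neg hij]
        push_cast
        ring
    simp only [e1]
    rw [Finset.sum_add_distrib, Finset.sum_add_distrib, Finset.sum_add_distrib,
      Finset.sum_ite_eq, if_pos (Finset.mem_univ i), ← Finset.sum_div, ← Finset.sum_div,
      ← Finset.mul_sum]
    ring
  have hNW : NW (P × Bool) ρ W (fun p => (isg p.2 : ℝ) * x p.1) := by
    refine ⟨?_, ?_, ?_, ?_, ?_, ?_, ?_⟩
    · intro v w
      have key : pw S C D v w = 0 ∨ pw S C D v w = 2 := by
        unfold pw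
        rcases h.gw.zo v.1 w.1 with c0 | c1
        · rw [c0]
          by_cases hvw : v.1 = w.1
          · rw [if_pos hvw, ← hvw, h.diag]
            rcases h.dval v.1 with d | d <;> rcases hs v.2 with e | e <;>
              rcases hs w.2 with e' | e' <;> rw [d, e, e'] <;> norm_num
          · rw [if_neg hvw]
            rcases h.val v.1 w.1 with d | d | d <;> rcases hs v.2 with e | e <;>
              rcases hs w.2 with e' | e' <;> rw [d, e, e'] <;> norm_num
        · rw [c1, h.av _ _ c1, if_neg (h.gw.ne c1)]
          right; ring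
      rcases key with k | k
      · left
        show (pw S C D v w : ℝ) / 2 = 0
        rw [k]; norm_num
      · right
        show (pw S C D v w : ℝ) / 2 = 1
        rw [k]; norm_num
    · intro v w
      show (pw S C D v w : ℝ) / 2 = (pw S C D w v : ℝ) / 2
      have : pw S C D v w = pw S C D w v := by
        unfold pw
        rw [h.gw.symm v.1 w.1, h.symm v.1 w.1]
        by_cases hvw : v.1 = w.1
        · rw [if_pos hvw, if_pos hvw.symm, hvw]; ring
        · rw [if_neg hvw, if_neg (Ne.symm hvw)]; ring
      rw [this]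
    · intro v
      show (pw S C D v v : ℝ) / 2 = 0
      have : pw S C D v v = 0 := by
        unfold pw
        rw [h.gw.diag, h.diag, if_pos rfl]
        rcases hs v.2 with e | e <;> rw [e] <;> ring
      rw [this]; norm_num
    · rintro ⟨i, s⟩
      have h1 := hE (fun _ => 1) i s
      simp only [mul_one] at h1
      rw [h1]
      have h2 := h.deg i
      have h3 : (2 : ℝ) * ∑ j, (C i j : ℝ) + ∑ j, (S i j : ℝ) ^ 2 + D i = ρ := by
        exact_mod_cast h2
      simp only [sub_self, mul_zero, Finset.sum_const_zero, ← Finset.sum_mul]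
      linarith
    · intro v
      rcases hs v.2 with e | e
      · simp only [e]
        push_cast
        rw [one_mul]
        exact hx _
      · simp only [e]
        push_cast
        simpa using hx v.1
    · rintro ⟨i, s⟩
      rw [hE]
      have h1 : ∀ j, ((isg false : ℤ) : ℝ) * x j + ((isg true : ℤ) : ℝ) * x j = 0 := by
        intro j; rw [hf, ht]; push_cast; ring
      have h2 : ∀ j, ((isg false : ℤ) : ℝ) * x j - ((isg true : ℤ) : ℝ) * x j = 2 * x j := by
        intro j; rw [hf, ht]; push_cast; ring
      simp only [h1, h2, mul_zero, Finset.sum_const_zero]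
      have h3 : ∑ j, (S i j : ℝ) * (2 * x j) = 2 * ∑ j, (S i j : ℝ) * x j := by
        rw [Finset.mul_sum]
        exact Finset.sum_congr rfl fun j _ => by ring
      rw [h3, hker i]
      ring
    · intro y hy
      have hp := hT (fun j => y (j, false) + y (j, true)) (by
        intro i
        have h1 := hy (i, false)
        have h2 := hy (i, true)
        rw [hE, hf] at h1
        rw [hE, ht] at h2
        push_cast at h1 h2
        linarith)
      obtain ⟨c, hc⟩ := huniq (fun j => y (j, false) - y (j, true)) (by
        intro i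
        have h1 := hy (i, false)
        have h2 := hy (i, true)
        rw [hE, hf] at h1
        rw [hE, ht] at h2
        push_cast at h1 h2
        linarith)
      refine ⟨c / 2, ?_⟩
      rintro ⟨i, s⟩
      have h3 : y (i, false) + y (i, true) = 0 := hp i
      have h4 : y (i, false) - y (i, true) = c * x i := hc i
      cases s
      · simp only [hf]; push_cast; linarith
      · simp only [ht]; push_cast; linarith
  exact ⟨P × Bool, inferInstance, W, _, hNW, by
    rw [Fintype.card_prod, Fintype.card_bool, mul_comm]⟩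

end

end Pool.Agent.H93.Nut
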