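import Pool.Graph.R_seed8.TH417.Nut.Ring
import Pool.Agent.H93.Nut.Pairs

/-!
The symmetric part: of two matrices that differ by a switch, one is nonsingular.
-/

set_option autoImplicit false
set_option linter.unusedSectionVars false

namespace Pool.Agent.H93.Nut

open Finset

section

variable {P : Type} [Fintype P] [DecidableEq P]

/-- the symmetric part -/
def tm (S C : P → P → ℤ) (D : P → ℤ) (i j : P) : ℤ :=
  2 * C i j + (S i j) ^ 2 + (if i = j then D i else 0)

theorem tm_sum {A : Type} [CommRing A] (S C : P → P → ℤ) (D : P → ℤ) (i : P) (y : P → A) :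
    ∑ j, (tm S C D i j : A) * y j =
      2 * ∑ j, (C i j : A) * y j + ∑ j, (S i j : A) ^ 2 * y j + D i * y i := by
  have : ∀ j, (tm S C D i j : A) * y j =
      2 * ((C i j : A) * y j) + (S i j : A) ^ 2 * y j + (if i = j then (D i : A) * y i else 0) := by
    intro j
    unfold tm
    by_cases h : i = j
    · subst h
      simp only [if_true]
      push_cast
      ring
    · simp only [if_neg h]
      push_cast
      ring
  simp only [this]
  rw [Finset.sum_add_distrib, Finset.sum_add_distrib, ← Finset.mul_sum, Finset.sum_ite_eq,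
    if_pos (Finset.mem_univ i)]

/-- the kernel of the symmetric part is trivial -/
def Nonsing (S C : P → P → ℤ) (D : P → ℤ) : Prop :=
  ∀ p : P → ℝ, (∀ i, 2 * ∑ j, (C i j : ℝ) * p j + ∑ j, (S i j : ℝ) ^ 2 * p j + D i * p i = 0)
      → ∀ i, p i = 0

theorem exists_odd {S C : P → P → ℤ} {D : P → ℤ} (h : ¬ Nonsing S C D) :
    ∃ u : P → ℤ, (∀ i, ∑ j, tm S C D i j * u j = 0) ∧ ∃ i, ¬ (2 : ℤ) ∣ u i := by
  by_contra hcon
  push Not at hcon
  apply h
  intro p hp
  apply Pool.Agent.TH417.Nut.real_zero (tm S C D) hcon p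
  intro i
  rw [tm_sum]
  exact hp i

theorem zmod2_sq (a : ZMod 2) : a ^ 2 = a := by
  revert a; decide

theorem zmod2_mul_self (a : ZMod 2) : a * a = a := by
  revert a; decide

theorem zmod2_sub (a b : ZMod 2) : a - b = a + b := by
  revert a b; decide

theorem zmod2_add_self (a : ZMod 2) : a + a = 0 := by
  revert a; decide

theorem zmod2_neg (a : ZMod 2) : -a = a := by
  revert a; decide

theorem zmod2_two : (2 : ZMod 2) = 0 := rfl

theorem zmod2_cast {a : ℤ} : (a : ZMod 2) = 0 ↔ (2 : ℤ) ∣ a := by
  have := ZMod.intCast_zmod_eq_zero_iff_dvd a 2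
  exact this

/-- A symmetric form with zero diagonal is alternating modulo two. -/
theorem alt_zero (f : P → P → ZMod 2) (hs : ∀ i j, f i j = f j i) (hd : ∀ i, f i i = 0) :
    ∑ i, ∑ j, f i j = 0 := by
  rw [← Finset.sum_product']
  refine Finset.sum_involution (fun p _ => (p.2, p.1)) ?_ ?_ ?_ ?_
  · rintro ⟨i, j⟩ _
    show f i j + f j i = 0
    rw [hs i j]
    exact zmod2_add_self _
  · rintro ⟨i, j⟩ _ h he
    have h1 : j = i := congrArg Prod.fst he
    apply h
    show f i j = 0
    rw [h1]
    exact hd i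
  · rintro ⟨i, j⟩ _
    simp
  · rintro ⟨i, j⟩ _
    rfl

theorem tm_mod {S C : P → P → ℤ} {D : P → ℤ} {u : P → ℤ} {i : P} :
    ((∑ j, tm S C D i j * u j : ℤ) : ZMod 2) = ∑ j, (S i j : ZMod 2) * (u j : ZMod 2)
      + D i * u i := by
  push_cast
  have h := tm_sum (A := ZMod 2) S C D i (fun j => (u j : ZMod 2))
  rw [h, zmod2_two, zero_mul, zero_add]
  congr 1
  exact Finset.sum_congr rfl fun j _ => by rw [zmod2_sq]

theorem dichotomy {S C : P → P → ℤ} {D : P → ℤ} (hS : ∀ i j, S i j = S j i)
    (hd : ∀ i, S i i = 0) (hC : GW C)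
    (z γ : P → ZMod 2) {a b c d : P}
    (hz : ∀ y : P → ZMod 2, (∀ i, ∑ j, (S i j : ZMod 2) * y j + D i * y i = 0) →
      (∀ i, y i = 0) ∨ (∀ i, y i = z i))
    (hzp : z a + z d = 1) (hzq : z b + z c = 1)
    (hγ : ∀ i, ∑ j, (S i j : ZMod 2) * γ j + D i * γ i = 1 + D i)
    (hγ' : γ a + γ b + γ c + γ d = 0)
    (h1 : ∀ i, ∑ j, (S i j : ZMod 2) + D i = 1)
    (hab : a ≠ b) (hcd : c ≠ d) (hac : a ≠ c) (hbd : b ≠ d) :
    Nonsing S (fun u v => C u v + ew a b u v + ew c d u v) D ∨
      Nonsing S (fun u v => C u v + ew a c u v + ew b d u v) D := by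
  by_contra hcon
  push Not at hcon
  obtain ⟨hn1, hn2⟩ := hcon
  obtain ⟨u, hu, i1, hi1⟩ := exists_odd hn1
  obtain ⟨u', hu', i2, hi2⟩ := exists_odd hn2
  set C1 : P → P → ℤ := fun u v => C u v + ew a b u v + ew c d u v with hC1
  set C2 : P → P → ℤ := fun u v => C u v + ew a c u v + ew b d u v with hC2
  have hmod : ∀ i, ((u i : ℤ) : ZMod 2) = z i := by
    rcases hz (fun i => (u i : ZMod 2)) (fun i => by
      have := tm_mod (S := S) (C := C1) (D := D) (u := u) (i := i)
      rw [hu i] at this
      rw [← this]; simp) with h | h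
    · exact absurd (zmod2_cast.1 (h i1)) hi1
    · exact h
  have hmod' : ∀ i, ((u' i : ℤ) : ZMod 2) = z i := by
    rcases hz (fun i => (u' i : ZMod 2)) (fun i => by
      have := tm_mod (S := S) (C := C2) (D := D) (u := u') (i := i)
      rw [hu' i] at this
      rw [← this]; simp) with h | h
    · exact absurd (zmod2_cast.1 (h i2)) hi2
    · exact h
  have hw : ∀ i, ∃ w : ℤ, u' i = u i + 2 * w := by
    intro i
    have h2 : (2 : ℤ) ∣ u' i - u i := by
      rw [← zmod2_cast]
      push_cast
      rw [hmod, hmod', sub_self]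
    obtain ⟨w, hw⟩ := h2
    exact ⟨w, by linarith⟩
  choose w hw using hw
  -- the switch
  have sew : ∀ (p q i : P) (y : P → ℤ), ∑ j, ew p q i j * y j =
      (if i = p then y q else 0) + (if i = q then y p else 0) := by
    intro p q i y
    unfold ew
    simp only [add_mul, Finset.sum_add_distrib]
    congr 1
    · split_ifs
      · simp
      · simp
    · split_ifs
      · simp
      · simp
  let E : P → ℤ := fun i => ((if i = a then u c else 0) + (if i = c then u a else 0)) +
    ((if i = b then u d else 0) + (if i = d then u b else 0)) -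
    ((if i = a then u b else 0) + (if i = b then u a else 0)) -
    ((if i = c then u d else 0) + (if i = d then u c else 0))
  have hE : ∀ i, ∑ j, tm S C2 D i j * u j = 2 * E i := by
    intro i
    have e1 : ∀ j, tm S C2 D i j * u j = tm S C1 D i j * u j +
        2 * (ew a c i j * u j + ew b d i j * u j - ew a b i j * u j - ew c d i j * u j) := by
      intro j
      unfold tm
      rw [hC1, hC2]
      ring
    simp only [e1]
    rw [Finset.sum_add_distrib, hu i, zero_add, ← Finset.mul_sum, Finset.sum_sub_distrib,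
      Finset.sum_sub_distrib, Finset.sum_add_distrib, sew, sew, sew, sew]
  have htsymm : ∀ i j, tm S C2 D i j = tm S C2 D j i := by
    intro i j
    unfold tm
    have e1 : C2 i j = C2 j i := by
      rw [hC2]
      simp only
      rw [hC.symm i j, ew_symm a c i j, ew_symm b d i j]
    rw [e1, hS i j]
    by_cases h : i = j
    · rw [if_pos h, if_pos h.symm, h]
    · rw [if_neg h, if_neg (Ne.symm h)]
  -- (A)
  have hA : ∑ i, u' i * E i = 0 := by
    have h2 : ∑ i, u' i * (∑ j, tm S C2 D i j * u j) = 0 := by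
      simp only [Finset.mul_sum]
      rw [Finset.sum_comm]
      apply Finset.sum_eq_zero
      intro j _
      have h3 : ∑ i, u' i * (tm S C2 D i j * u j) = (∑ i, tm S C2 D j i * u' i) * u j := by
        rw [Finset.sum_mul]
        refine Finset.sum_congr rfl fun i _ => ?_
        rw [htsymm i j]; ring
      rw [h3, hu' j, zero_mul]
    have h4 : ∑ i, u' i * (∑ j, tm S C2 D i j * u j) = 2 * ∑ i, u' i * E i := by
      rw [Finset.mul_sum]
      refine Finset.sum_congr rfl fun i _ => ?_
      rw [hE i]; ring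
    rw [h4] at h2
    linarith
  have hA2 : (u' a - u' d) * (u c - u b) + (u' c - u' b) * (u a - u d) = 0 := by
    have h2 : ∑ i, u' i * E i = (u' a * u c + u' c * u a) + (u' b * u d + u' d * u b)
        - (u' a * u b + u' b * u a) - (u' c * u d + u' d * u c) := by
      simp only [E, mul_sub, mul_add, Finset.sum_sub_distrib, Finset.sum_add_distrib, mul_ite,
        mul_zero, Finset.sum_ite_eq', Finset.mem_univ, if_true]
    rw [h2] at hA
    linarith
  have hA3 : (u a - u d) * (u c - u b) + (w a - w d) * (u c - u b) + (w c - w b) * (u a - u d)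
      = 0 := by
    rw [hw a, hw b, hw c, hw d] at hA2
    linarith
  have hA4 : (1 : ZMod 2) + (w a : ZMod 2) + w b + w c + w d = 0 := by
    have h2 : (((u a - u d) * (u c - u b) + (w a - w d) * (u c - u b) +
        (w c - w b) * (u a - u d) : ℤ) : ZMod 2) = ((0 : ℤ) : ZMod 2) := by rw [hA3]
    push_cast at h2
    rw [hmod, hmod, hmod, hmod, zmod2_sub (z a), zmod2_sub (z c), hzp, add_comm (z c), hzq] at h2
    simp only [zmod2_sub, mul_one] at h2
    rw [← h2]; ring
  -- (B)
  have hB : ∀ i, ∑ j, (S i j : ZMod 2) * (w j : ZMod 2) + D i * w i =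
      (if i = a then 1 else 0) + (if i = b then 1 else 0) + (if i = c then 1 else 0) +
      (if i = d then 1 else 0) := by
    intro i
    have h2 := hu' i
    have h3 : ∑ j, tm S C2 D i j * u' j = ∑ j, tm S C2 D i j * u j +
        2 * ∑ j, tm S C2 D i j * w j := by
      rw [Finset.mul_sum, ← Finset.sum_add_distrib]
      refine Finset.sum_congr rfl fun j _ => ?_
      rw [hw j]; ring
    rw [h3, hE i] at h2
    have h4 : ∑ j, tm S C2 D i j * w j = - E i := by linarith
    have h5 := tm_mod (S := S) (C := C2) (D := D) (u := w) (i := i)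
    rw [← h5, h4]
    simp only [E]
    push_cast
    simp only [hmod, zmod2_neg, zmod2_sub]
    have k1 : z c + z b = 1 := by rw [add_comm]; exact hzq
    have k2 : z a + z d = 1 := hzp
    have k3 : z d + z a = 1 := by rw [add_comm]; exact hzp
    have k4 : z b + z c = 1 := hzq
    calc _ = (if i = a then z c + z b else 0) + (if i = b then z d + z a else 0) +
          (if i = c then z a + z d else 0) + (if i = d then z b + z c else 0) := by
          split_ifs <;> ring
      _ = _ := by rw [k1, k2, k3, k4]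
  have pair : ∀ g : P → ZMod 2, ∑ i, g i * (∑ j, (S i j : ZMod 2) * (w j : ZMod 2) + D i * w i) =
      g a + g b + g c + g d := by
    intro g
    simp only [hB]
    simp only [mul_add, Finset.sum_add_distrib, mul_ite, mul_one, mul_zero, Finset.sum_ite_eq',
      Finset.mem_univ, if_true]
  have pair2 : ∀ g : P → ZMod 2, ∑ i, g i * (∑ j, (S i j : ZMod 2) * (w j : ZMod 2) + D i * w i) =
      ∑ j, (w j : ZMod 2) * (∑ i, (S j i : ZMod 2) * g i + D j * g j) := by
    intro g
    simp only [mul_add, Finset.sum_add_distrib, Finset.mul_sum]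
    congr 1
    · rw [Finset.sum_comm]
      refine Finset.sum_congr rfl fun j _ => Finset.sum_congr rfl fun i _ => ?_
      rw [hS i j]; ring
    · exact Finset.sum_congr rfl fun j _ => by ring
  -- (C)
  have hCc : ∑ j, (w j : ZMod 2) + ∑ j, (D j : ZMod 2) * w j = 0 := by
    have h2 := pair γ
    rw [pair2, hγ'] at h2
    simp only [hγ] at h2
    rw [← h2, ← Finset.sum_add_distrib]
    exact Finset.sum_congr rfl fun j _ => by ring
  -- (E)
  have hEe : ∑ j, (w j : ZMod 2) = 0 := by
    have h2 := pair (fun _ => 1)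
    rw [pair2] at h2
    simp only [mul_one] at h2
    have h3 : ∀ j, (w j : ZMod 2) * (∑ i, (S j i : ZMod 2) + D j) = w j := by
      intro j; rw [h1 j, mul_one]
    simp only [h3] at h2
    rw [h2]
    decide
  -- (D)
  have hDd : ∑ j, (D j : ZMod 2) * w j = w a + w b + w c + w d := by
    have h2 := pair (fun i => (w i : ZMod 2))
    rw [← h2]
    simp only [mul_add, Finset.sum_add_distrib, Finset.mul_sum]
    have h3 : ∑ i, ∑ j, (w i : ZMod 2) * ((S i j : ZMod 2) * (w j : ZMod 2)) = 0 := by
      apply alt_zero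
      · intro i j; rw [hS i j]; ring
      · intro i; rw [hd i]; simp
    rw [h3, zero_add]
    refine Finset.sum_congr rfl fun j _ => ?_
    rw [mul_left_comm, zmod2_mul_self]
  have : (1 : ZMod 2) = 0 := by
    have h2 : ∑ j, (D j : ZMod 2) * w j = 0 := by
      rw [hEe, zero_add] at hCc; exact hCc
    rw [hDd] at h2
    calc (1 : ZMod 2) = 1 + w a + w b + w c + w d - (w a + w b + w c + w d) := by ring
      _ = 0 := by rw [hA4, h2]; ring
  exact one_ne_zero this

end

end Pool.Agent.H93.Nut
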