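import Pool.Agent.H93.Nut.Factor

/-!
Adding vertices to a graph without changing the degrees of the old vertices.
-/

set_option autoImplicit false
set_option linter.unusedSectionVars false

namespace Pool.Agent.H93.Nut

open Finset

section

variable {V : Type} [DecidableEq V] [Fintype V]

/-- a matching inside `W`, as an involution -/
structure Mt (C : V → V → ℤ) (W : Finset V) (μ : V → V) : Prop where
  inv : ∀ v, μ (μ v) = v
  mem : ∀ v, μ v ≠ v → v ∈ W
  adj : ∀ v, μ v ≠ v → C v (μ v) = 1

theorem matching {C : V → V → ℤ} (hC : GW C) {W : Finset V} {m : ℕ} (hW : 2 * m ≤ W.card)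
    (hd : ∀ v ∈ W, (m : ℤ) ≤ ∑ u ∈ W, C v u) :
    ∀ j : ℕ, j ≤ m → ∃ μ, Mt C W μ ∧ (univ.filter (fun v => μ v ≠ v)).card = 2 * j := by
  intro j
  induction j with
  | zero =>
    intro _
    refine ⟨id, ⟨fun _ => rfl, fun v h => absurd rfl h, fun v h => absurd rfl h⟩, ?_⟩
    simp
  | succ j ih =>
    intro hj
    obtain ⟨μ, hμ, hc⟩ := ih (by omega)
    set U := univ.filter (fun v => μ v ≠ v) with hU
    have mU : ∀ v, v ∈ U ↔ μ v ≠ v := by
      intro v
      simp [hU]
    have hUW : U ⊆ W := fun v hv => hμ.mem v ((mU v).1 hv)
    have hcard : 2 ≤ (W \ U).card := by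
      rw [Finset.card_sdiff_of_subset hUW]
      omega
    by_cases hadj : ∃ u ∈ W \ U, ∃ v ∈ W \ U, C u v = 1
    · obtain ⟨u, hu, v, hv, huv⟩ := hadj
      rw [Finset.mem_sdiff, mU, not_not] at hu hv
      have huv' := hC.ne huv
      refine ⟨fun z => if z = u then v else if z = v then u else μ z, ⟨?_, ?_, ?_⟩, ?_⟩
      · intro z
        by_cases h1 : z = u
        · subst h1
          simp [huv'.symm]
        · by_cases h2 : z = v
          · subst h2
            simp [huv'.symm]
          · have h3 : μ z ≠ u := fun e => h1 (by rw [← hμ.inv z, e, hu.2])
            have h4 : μ z ≠ v := fun e => h2 (by rw [← hμ.inv z, e, hv.2])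
            simp [h1, h2, h3, h4, hμ.inv z]
      · intro z hz
        by_cases h1 : z = u
        · rw [h1]; exact hu.1
        · by_cases h2 : z = v
          · rw [h2]; exact hv.1
          · simp only [h1, h2, if_false] at hz
            exact hμ.mem z hz
      · intro z hz
        by_cases h1 : z = u
        · subst h1
          simp [huv]
        · by_cases h2 : z = v
          · subst h2
            simp only [h1, if_false, if_true]
            rw [hC.symm]
            exact huv
          · simp only [h1, h2, if_false] at hz ⊢
            exact hμ.adj z hz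
      · have : univ.filter (fun z => (if z = u then v else if z = v then u else μ z) ≠ z)
            = insert u (insert v U) := by
          ext z
          simp only [Finset.mem_filter, Finset.mem_univ, true_and, Finset.mem_insert, mU]
          by_cases h1 : z = u
          · subst h1
            simp [huv'.symm]
          · by_cases h2 : z = v
            · subst h2
              simp [huv', h1]
            · simp [h1, h2]
        rw [this, Finset.card_insert_of_notMem, Finset.card_insert_of_notMem, hc]
        · ring
        · rw [mU, not_not]; exact hv.2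
        · rw [Finset.mem_insert, mU]
          push Not
          exact ⟨huv', hu.2⟩
    · push Not at hadj
      obtain ⟨u, hu, v, hv, huv⟩ := Finset.one_lt_card.1 (by omega : 1 < (W \ U).card)
      have hnb : ∀ u ∈ W \ U, (m : ℤ) ≤ ∑ x ∈ U, C u x := by
        intro u hu
        have h1 := hd u (Finset.mem_sdiff.1 hu).1
        have h2 : ∑ x ∈ W, C u x = ∑ x ∈ U, C u x := by
          symm
          apply Finset.sum_subset hUW
          intro x hx hxU
          exact (hC.zo u x).resolve_right (hadj u hu x (Finset.mem_sdiff.2 ⟨hx, hxU⟩))
        rw [h2] at h1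
        exact h1
      have k1 := hnb u hu
      have k2 := hnb v hv
      have k3 : ∑ x ∈ U, C v (μ x) = ∑ x ∈ U, C v x := by
        apply Finset.sum_bij' (fun x _ => μ x) (fun x _ => μ x)
        · intro x hx
          rw [mU] at hx ⊢
          rw [hμ.inv]
          exact hx.symm
        · intro x hx
          rw [mU] at hx ⊢
          rw [hμ.inv]
          exact hx.symm
        · intro x _
          exact hμ.inv x
        · intro x _
          exact hμ.inv x
        · intro x _
          rfl
      have k4 : ∑ x ∈ U, (1 : ℤ) < ∑ x ∈ U, (C u x + C v (μ x)) := by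
        rw [Finset.sum_add_distrib, k3, Finset.sum_const, hc]
        simp only [nsmul_eq_mul, mul_one]
        push_cast
        have : (j : ℤ) + 1 ≤ m := by exact_mod_cast hj
        linarith
      obtain ⟨x, hx, hlt⟩ := Finset.exists_lt_of_sum_lt k4
      have a1 := hC.le_one u x
      have a2 := hC.le_one v (μ x)
      have a3 : C u x = 1 := by linarith
      have a4 : C v (μ x) = 1 := by linarith
      rw [Finset.mem_sdiff, mU, not_not] at hu hv
      rw [mU] at hx
      have hxW := hμ.mem x hx
      have hy : μ (μ x) ≠ μ x := by rw [hμ.inv]; exact hx.symm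
      have hyW := hμ.mem _ hy
      have n1 : u ≠ x := fun e => hx (by rw [← e]; exact hu.2)
      have n2 : v ≠ x := fun e => hx (by rw [← e]; exact hv.2)
      have n3 : u ≠ μ x := fun e => hy (by rw [← e]; exact hu.2)
      have n4 : v ≠ μ x := fun e => hy (by rw [← e]; exact hv.2)
      have n5 : x ≠ μ x := hx.symm
      set y := μ x with hydef
      have hyx : μ y = x := hμ.inv x
      refine ⟨fun z => if z = u then x else if z = x then u else if z = v then y else
        if z = y then v else μ z, ⟨?_, ?_, ?_⟩, ?_⟩
      · intro z
        by_cases h1 : z = u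
        · subst h1
          simp [n1.symm]
        · by_cases h2 : z = x
          · subst h2
            simp [n1.symm]
          · by_cases h3 : z = v
            · subst h3
              simp [h1, h2, n3.symm, n4.symm, n5.symm]
            · by_cases h4 : z = y
              · simp [h4, n3.symm, n4.symm, n5.symm, huv.symm, n2]
              · have q1 : μ z ≠ u := fun e => h1 (by rw [← hμ.inv z, e, hu.2])
                have q2 : μ z ≠ x := fun e => h4 (by rw [← hμ.inv z, e])
                have q3 : μ z ≠ v := fun e => h3 (by rw [← hμ.inv z, e, hv.2])
                have q4 : μ z ≠ y := fun e => h2 (by rw [← hμ.inv z, e, hyx])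
                simp [h1, h2, h3, h4, q1, q2, q3, q4, hμ.inv z]
      · intro z hz
        by_cases h1 : z = u
        · rw [h1]; exact hu.1
        · by_cases h2 : z = x
          · rw [h2]; exact hxW
          · by_cases h3 : z = v
            · rw [h3]; exact hv.1
            · by_cases h4 : z = y
              · rw [h4]; exact hyW
              · simp only [h1, h2, h3, h4, if_false] at hz
                exact hμ.mem z hz
      · intro z hz
        by_cases h1 : z = u
        · subst h1
          simp [a3]
        · by_cases h2 : z = x
          · subst h2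
            simp only [h1, if_false, if_true]
            rw [hC.symm]
            exact a3
          · by_cases h3 : z = v
            · subst h3
              simp only [h1, h2, if_false, if_true]
              exact a4
            · by_cases h4 : z = y
              · rw [h4] at h1 h2 h3 ⊢
                simp only [h1, h2, h3, if_false, if_true]
                rw [hC.symm]
                exact a4
              · simp only [h1, h2, h3, h4, if_false] at hz ⊢
                exact hμ.adj z hz
      · have : univ.filter (fun z => (if z = u then x else if z = x then u else if z = v then y else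
            if z = y then v else μ z) ≠ z) = insert u (insert v U) := by
          ext z
          simp only [Finset.mem_filter, Finset.mem_univ, true_and, Finset.mem_insert, mU]
          by_cases h1 : z = u
          · subst h1
            simp [n1.symm]
          · by_cases h2 : z = x
            · subst h2
              have hx' : μ z ≠ z := hx
              simp [n1, h1, hx']
            · by_cases h3 : z = v
              · subst h3
                simp [h1, h2, n4.symm]
              · by_cases h4 : z = y
                · rw [h4]
                  simp [n3.symm, n5.symm, n4.symm, n4, hyx, n5]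
                · simp [h1, h2, h3, h4]
        rw [this, Finset.card_insert_of_notMem, Finset.card_insert_of_notMem, hc]
        · ring
        · rw [mU, not_not]; exact hv.2
        · rw [Finset.mem_insert, mU]
          push Not
          exact ⟨huv, hu.2⟩

/-- weights after the insertion of one vertex into the edges of a matching -/
def ins (C : V → V → ℤ) (μ : V → V) : Option V → Option V → ℤ
  | some v, some w => C v w - (if μ v = w ∧ v ≠ w then 1 else 0)
  | some v, none => if μ v ≠ v then 1 else 0
  | none, some v => if μ v ≠ v then 1 else 0
  | none, none => 0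

/-- Insertion of one vertex of even degree. -/
theorem insert_one {C : V → V → ℤ} (hC : GW C) {W : Finset V} {m : ℕ} (hW : 2 * m ≤ W.card)
    (hd : ∀ v ∈ W, (m : ℤ) ≤ ∑ u ∈ W, C v u) :
    ∃ C' : Option V → Option V → ℤ, GW C' ∧ (∀ v w, C' (some v) (some w) ≤ C v w) ∧
      (∀ v, C' none (some v) = 1 → v ∈ W) ∧
      (∀ v, ∑ u, C' (some v) u = ∑ u, C v u) ∧ ∑ u, C' none u = 2 * m := by
  obtain ⟨μ, hμ, hc⟩ := matching hC hW hd m le_rfl
  have hs : ∀ v w, μ v = w ↔ μ w = v := by
    intro v w
    constructor
    · rintro rfl; exact hμ.inv v
    · rintro rfl; exact hμ.inv w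
  refine ⟨ins C μ, ⟨?_, ?_, ?_⟩, ?_, ?_, ?_, ?_⟩
  · rintro (_ | u) (_ | v)
    · exact Or.inl rfl
    · show (if μ v ≠ v then (1 : ℤ) else 0) = 0 ∨ (if μ v ≠ v then (1 : ℤ) else 0) = 1
      split_ifs <;> simp
    · show (if μ u ≠ u then (1 : ℤ) else 0) = 0 ∨ (if μ u ≠ u then (1 : ℤ) else 0) = 1
      split_ifs <;> simp
    · show C u v - (if μ u = v ∧ u ≠ v then 1 else 0) = 0 ∨
        C u v - (if μ u = v ∧ u ≠ v then 1 else 0) = 1
      split_ifs with h
      · left
        have := hμ.adj u (by rw [h.1]; exact h.2.symm)
        rw [h.1] at this
        rw [this]; norm_num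
      · rw [sub_zero]; exact hC.zo u v
  · rintro (_ | u) (_ | v)
    · rfl
    · rfl
    · rfl
    · show C u v - (if μ u = v ∧ u ≠ v then 1 else 0) = C v u - (if μ v = u ∧ v ≠ u then 1 else 0)
      rw [hC.symm u v]
      congr 1
      have : (μ u = v ∧ u ≠ v) ↔ (μ v = u ∧ v ≠ u) := by
        rw [hs u v, ne_comm]
      simp only [this]
  · rintro (_ | u)
    · rfl
    · show C u u - (if μ u = u ∧ u ≠ u then 1 else 0) = 0
      simp [hC.diag]
  · intro v w
    show C v w - (if μ v = w ∧ v ≠ w then 1 else 0) ≤ C v w
    split_ifs <;> linarith
  · intro v hv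
    have : (if μ v ≠ v then (1 : ℤ) else 0) = 1 := hv
    split_ifs at this with h
    · exact hμ.mem v h
    · exact absurd this zero_ne_one
  · intro v
    rw [Fintype.sum_option]
    show (if μ v ≠ v then (1 : ℤ) else 0) + ∑ u, (C v u - (if μ v = u ∧ v ≠ u then 1 else 0)) = _
    rw [Finset.sum_sub_distrib]
    have : ∑ u, (if μ v = u ∧ v ≠ u then (1 : ℤ) else 0) = if μ v ≠ v then 1 else 0 := by
      have e : ∀ u, (if μ v = u ∧ v ≠ u then (1 : ℤ) else 0)
          = if u = μ v then (if μ v ≠ v then 1 else 0) else 0 := by
        intro u
        by_cases h : u = μ v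
        · subst h
          by_cases h2 : μ v = v
          · simp [h2]
          · have h3 : v ≠ μ v := fun e => h2 e.symm
            simp [h2, h3]
        · have h3 : μ v ≠ u := fun e => h e.symm
          simp [h, h3]
      simp only [e]
      rw [Finset.sum_ite_eq' univ (μ v)]
      simp
    rw [this]
    ring
  · rw [Fintype.sum_option]
    show (0 : ℤ) + ∑ v, (if μ v ≠ v then (1 : ℤ) else 0) = _
    rw [Finset.sum_boole, hc]
    push_cast
    ring

end

end Pool.Agent.H93.Nut
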