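import Pool.Agent.H93.Nut.Base

/-!
Nut graphs given by explicit data: rows of the adjacency matrix in base 1024, a kernel vector, and an
inverse modulo a small number of the matrix without its last row and column.
-/

set_option autoImplicit false

namespace Pool.Agent.H93.Nut

open Finset Pool.Agent.TH296.Nut

/-- a digit in base 1024 -/
def dg (R k : ℕ) : ℕ := R / 1024 ^ k % 1024

/-- `f` is true below `n` -/
def allLt : ℕ → (ℕ → Bool) → Bool
  | 0, _ => true
  | n + 1, f => f n && allLt n f

theorem allLt_spec {n : ℕ} {f : ℕ → Bool} (h : allLt n f = true) {i : ℕ} (hi : i < n) :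
    f i = true := by
  induction n with
  | zero => omega
  | succ n ih =>
    unfold allLt at h
    rw [Bool.and_eq_true] at h
    rcases Nat.lt_succ_iff_lt_or_eq.1 hi with h1 | h1
    · exact ih h.2 h1
    · rw [h1]; exact h.1

/-- the scalar product of the digits of a number with a list -/
def dotd : ℕ → List ℤ → ℤ
  | _, [] => 0
  | R, x :: xs => ((R % 1024 : ℕ) : ℤ) * x + dotd (R / 1024) xs

theorem dotd_eq (R : ℕ) (xs : List ℤ) :
    dotd R xs = ∑ j ∈ range xs.length, (dg R j : ℤ) * xs.getD j 0 := by
  induction xs generalizing R with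
  | nil => rfl
  | cons x xs ih =>
    rw [List.length_cons, Finset.sum_range_succ']
    unfold dotd
    rw [ih, add_comm]
    congr 1
    · apply Finset.sum_congr rfl
      intro j _
      rw [List.getD_cons_succ]
      congr 2
      unfold dg
      rw [Nat.div_div_eq_div_mul, pow_succ, mul_comm]
    · simp [dg]

/-- the sum of the digits of a number -/
def sumd : ℕ → ℕ → ℕ
  | 0, _ => 0
  | n + 1, R => R % 1024 + sumd n (R / 1024)

theorem sumd_eq (n R : ℕ) : sumd n R = ∑ j ∈ range n, dg R j := by
  induction n generalizing R with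
  | zero => rfl
  | succ n ih =>
    rw [Finset.sum_range_succ']
    unfold sumd
    rw [ih, add_comm]
    congr 1
    · apply Finset.sum_congr rfl
      intro j _
      unfold dg
      rw [Nat.div_div_eq_div_mul, pow_succ, mul_comm]
    · simp [dg]

/-- the combination of a list of numbers with the digits in base 16 of a number -/
def comb : ℕ → List ℕ → ℕ
  | _, [] => 0
  | K, R :: Rs => K % 16 * R + comb (K / 16) Rs

theorem comb_eq (K : ℕ) (Rs : List ℕ) :
    comb K Rs = ∑ j ∈ range Rs.length, K / 16 ^ j % 16 * Rs.getD j 0 := by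
  induction Rs generalizing K with
  | nil => rfl
  | cons R Rs ih =>
    rw [List.length_cons, Finset.sum_range_succ']
    unfold comb
    rw [ih, add_comm]
    congr 1
    · apply Finset.sum_congr rfl
      intro j _
      rw [List.getD_cons_succ]
      congr 2
      rw [Nat.div_div_eq_div_mul, pow_succ, mul_comm]
    · simp

/-- the digits of `p * Q + 1` do not overflow -/
def chk : ℕ → ℕ → ℕ → Bool
  | 0, _, Q => Q == 0
  | m + 1, p, Q => decide (p * (Q % 1024) + 1 < 1024) && chk m p (Q / 1024)

theorem mod_pow_eq (R m : ℕ) : R % 1024 ^ m = ∑ k ∈ range m, dg R k * 1024 ^ k := by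
  induction m with
  | zero => simp [Nat.mod_one]
  | succ m ih =>
    rw [Finset.sum_range_succ, ← ih, Nat.mod_pow_succ]
    unfold dg
    ring

theorem chk_spec {m p Q : ℕ} (h : chk m p Q = true) :
    Q = ∑ k ∈ range m, dg Q k * 1024 ^ k ∧ ∀ k < m, p * dg Q k + 1 < 1024 := by
  induction m generalizing Q with
  | zero =>
    unfold chk at h
    rw [beq_iff_eq] at h
    subst h
    simp
  | succ m ih =>
    unfold chk at h
    rw [Bool.and_eq_true, decide_eq_true_eq] at h
    obtain ⟨h1, h2⟩ := ih h.2
    have hd : ∀ k, dg (Q / 1024) k = dg Q (k + 1) := by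
      intro k
      unfold dg
      rw [Nat.div_div_eq_div_mul, pow_succ, mul_comm]
    constructor
    · rw [Finset.sum_range_succ']
      have h3 := Nat.div_add_mod Q 1024
      have h4 : ∑ k ∈ range m, dg Q (k + 1) * 1024 ^ (k + 1) = 1024 * (Q / 1024) := by
        conv_rhs => rw [h1]
        rw [Finset.mul_sum]
        apply Finset.sum_congr rfl
        intro k _
        rw [hd]
        ring
      rw [h4]
      have h5 : dg Q 0 = Q % 1024 := by simp [dg]
      rw [h5]
      omega
    · intro k hk
      cases k with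
      | zero =>
        have h5 : dg Q 0 = Q % 1024 := by simp [dg]
        rw [h5]; exact h.1
      | succ k =>
        rw [← hd]
        exact h2 k (by omega)

theorem digits_unique {m : ℕ} {s t : ℕ → ℕ} (hs : ∀ k < m, s k < 1024) (ht : ∀ k < m, t k < 1024)
    (h : ∑ k ∈ range m, s k * 1024 ^ k = ∑ k ∈ range m, t k * 1024 ^ k) :
    ∀ k < m, s k = t k := by
  induction m generalizing s t with
  | zero => intro k hk; omega
  | succ m ih =>
    rw [Finset.sum_range_succ', Finset.sum_range_succ'] at h
    have e : ∀ f : ℕ → ℕ, ∑ k ∈ range m, f (k + 1) * 1024 ^ (k + 1) =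
        1024 * ∑ k ∈ range m, f (k + 1) * 1024 ^ k := by
      intro f
      rw [Finset.mul_sum]
      apply Finset.sum_congr rfl
      intro k _
      ring
    rw [e, e, pow_zero, mul_one, mul_one] at h
    have h1 := hs 0 (by omega)
    have h2 := ht 0 (by omega)
    have h3 := ih (s := fun k => s (k + 1)) (t := fun k => t (k + 1))
      (fun k hk => hs _ (by omega)) (fun k hk => ht _ (by omega)) (by
        show ∑ k ∈ range m, s (k + 1) * 1024 ^ k = ∑ k ∈ range m, t (k + 1) * 1024 ^ k
        omega)
    intro k hk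
    cases k with
    | zero => omega
    | succ k => exact h3 k (by omega)

/-- the conditions on the data -/
def okG (m ρ p : ℕ) (rows : List ℕ) (x : List ℤ) (K : List ℕ) : Bool :=
  (rows.length == m + 1) && (x.length == m + 1) && decide (m ≤ 68) && decide (2 ≤ p) &&
  (allLt (m + 1) fun i => dg (rows.getD i 0) i == 0 &&
    allLt i fun j => decide (dg (rows.getD i 0) j ≤ 1) &&
      dg (rows.getD i 0) j == dg (rows.getD j 0) i) &&
  (allLt (m + 1) fun i => sumd (m + 1) (rows.getD i 0) == ρ) &&
  (allLt (m + 1) fun i => dotd (rows.getD i 0) x == 0) &&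
  (allLt (m + 1) fun i => !(x.getD i 0 == 0)) &&
  (allLt m fun i =>
    comb (K.getD i 0) ((rows.take m).map fun R => R % 1024 ^ m) ==
      1024 ^ i + p * ((comb (K.getD i 0) ((rows.take m).map fun R => R % 1024 ^ m) -
        1024 ^ i) / p) &&
    chk m p ((comb (K.getD i 0) ((rows.take m).map fun R => R % 1024 ^ m) - 1024 ^ i) / p))

theorem inj_of_mod {m p : ℕ} (hp : 2 ≤ p) {K B q : Fin m → Fin m → ℕ}
    (h : ∀ i k, ∑ j, K i j * B j k = (if k = i then 1 else 0) + p * q i k)
    (y : Fin m → ℝ) (hy : ∀ j, ∑ k, (B j k : ℝ) * y k = 0) : y = 0 := by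
  let Km : Matrix (Fin m) (Fin m) ℤ := fun i j => (K i j : ℤ)
  let Bm : Matrix (Fin m) (Fin m) ℤ := fun i j => (B i j : ℤ)
  have h1 : ((Int.castRingHom (ZMod p)).mapMatrix Km) * ((Int.castRingHom (ZMod p)).mapMatrix Bm)
      = 1 := by
    rw [← map_mul]
    ext i k
    simp only [RingHom.mapMatrix_apply, Matrix.map_apply, Matrix.mul_apply]
    have h2 : ∑ j, Km i j * Bm j k = (((if k = i then 1 else 0) + p * q i k : ℕ) : ℤ) := by
      rw [← h i k]
      push_cast
      rfl
    rw [h2, Matrix.one_apply]
    push_cast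
    by_cases hk : k = i
    · subst hk
      simp
    · simp [hk, Ne.symm hk]
  have h2 : Bm.det ≠ 0 := by
    intro h0
    have h3 := congrArg Matrix.det h1
    rw [Matrix.det_mul, Matrix.det_one, ← RingHom.map_det, ← RingHom.map_det, h0, map_zero,
      mul_zero] at h3
    haveI : Fact (1 < p) := ⟨by omega⟩
    exact zero_ne_one h3
  have h3 : ((Int.castRingHom ℝ).mapMatrix Bm).det ≠ 0 := by
    rw [← RingHom.map_det]
    simpa using h2
  refine Matrix.eq_zero_of_mulVec_eq_zero h3 ?_
  ext j
  exact hy j

theorem good_of_okG {m ρ p : ℕ} {rows : List ℕ} {x : List ℤ} {K : List ℕ}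
    (h : okG m ρ p rows x K = true) : Good ρ (m + 1) := by
  unfold okG at h
  simp only [Bool.and_eq_true, beq_iff_eq, decide_eq_true_eq] at h
  obtain ⟨⟨⟨⟨⟨⟨⟨⟨hl, hx⟩, hm⟩, hp⟩, hs⟩, hd⟩, hk⟩, hz⟩, hi⟩ := h
  have s1 : ∀ i < m + 1, dg (rows.getD i 0) i = 0 := by
    intro i h
    have := allLt_spec hs h
    simp only [Bool.and_eq_true, beq_iff_eq] at this
    exact this.1
  have s2 : ∀ i < m + 1, ∀ j < i, dg (rows.getD i 0) j ≤ 1 ∧
      dg (rows.getD i 0) j = dg (rows.getD j 0) i := by
    intro i h j hj
    have := allLt_spec hs h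
    simp only [Bool.and_eq_true, beq_iff_eq] at this
    have := allLt_spec this.2 hj
    simpa only [Bool.and_eq_true, beq_iff_eq, decide_eq_true_eq] using this
  have sy : ∀ i < m + 1, ∀ j < m + 1, dg (rows.getD i 0) j = dg (rows.getD j 0) i := by
    intro i h j hj
    rcases lt_trichotomy i j with h1 | h1 | h1
    · exact (s2 j hj i h1).2.symm
    · rw [h1]
    · exact (s2 i h j h1).2
  have le1 : ∀ i < m + 1, ∀ j < m + 1, dg (rows.getD i 0) j ≤ 1 := by
    intro i h j hj
    rcases lt_trichotomy i j with h1 | h1 | h1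
    · rw [sy i h j hj]; exact (s2 j hj i h1).1
    · rw [h1, s1 j hj]; exact zero_le_one
    · exact (s2 i h j h1).1
  have deg : ∀ i < m + 1, ∑ j ∈ range (m + 1), dg (rows.getD i 0) j = ρ := by
    intro i h
    have := allLt_spec hd h
    rw [beq_iff_eq, sumd_eq] at this
    exact this
  have ker : ∀ i < m + 1, ∑ j ∈ range (m + 1), (dg (rows.getD i 0) j : ℤ) * x.getD j 0 = 0 := by
    intro i h
    have := allLt_spec hk h
    rw [beq_iff_eq, dotd_eq, hx] at this
    exact this
  have nz : ∀ i < m + 1, x.getD i 0 ≠ 0 := by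
    intro i h
    have := allLt_spec hz h
    simpa using this
  -- the inverse
  let Kf : Fin m → Fin m → ℕ := fun i j => K.getD i.val 0 / 16 ^ j.val % 16
  let Bf : Fin m → Fin m → ℕ := fun j k => dg (rows.getD j.val 0) k.val
  let Qf : Fin m → Fin m → ℕ := fun i k =>
    dg ((comb (K.getD i 0) ((rows.take m).map fun R => R % 1024 ^ m) - 1024 ^ i.val) / p) k.val
  have inv : ∀ i k, ∑ j, Kf i j * Bf j k = (if k = i then 1 else 0) + p * Qf i k := by
    intro i k
    have h0 := allLt_spec hi i.isLt
    rw [Bool.and_eq_true, beq_iff_eq] at h0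
    obtain ⟨h1, h2⟩ := h0
    obtain ⟨h3, h4⟩ := chk_spec h2
    set S := comb (K.getD i 0) ((rows.take m).map fun R => R % 1024 ^ m) with hS
    have hlen : ((rows.take m).map fun R => R % 1024 ^ m).length = m := by
      rw [List.length_map, List.length_take, hl]
      omega
    have hget : ∀ j < m, ((rows.take m).map fun R => R % 1024 ^ m).getD j 0 =
        rows.getD j 0 % 1024 ^ m := by
      intro j hj
      rw [List.getD_eq_getElem _ _ (by rw [hlen]; exact hj), List.getElem_map, List.getElem_take,
        List.getD_eq_getElem _ _ (by rw [hl]; omega)]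
    have e1 : S = ∑ k ∈ range m, (∑ j ∈ range m, K.getD i 0 / 16 ^ j % 16 *
        dg (rows.getD j 0) k) * 1024 ^ k := by
      rw [hS, comb_eq, hlen]
      have : ∀ j ∈ range m, K.getD (↑i) 0 / 16 ^ j % 16 *
          ((rows.take m).map fun R => R % 1024 ^ m).getD j 0 =
          ∑ k ∈ range m, K.getD (↑i) 0 / 16 ^ j % 16 * dg (rows.getD j 0) k * 1024 ^ k := by
        intro j hj
        rw [hget j (Finset.mem_range.1 hj), mod_pow_eq, Finset.mul_sum]
        apply Finset.sum_congr rfl
        intro k _
        ring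
      rw [Finset.sum_congr rfl this, Finset.sum_comm]
      apply Finset.sum_congr rfl
      intro k _
      rw [Finset.sum_mul]
    have e2 : S = ∑ k ∈ range m, ((if k = i.val then 1 else 0) + p * dg ((S - 1024 ^ i.val) / p) k) * 1024 ^ k := by
      conv_lhs => rw [h1, h3]
      rw [Finset.mul_sum]
      simp only [add_mul, Finset.sum_add_distrib, ite_mul, one_mul, zero_mul]
      rw [Finset.sum_ite_eq' (range m) i.val, if_pos (Finset.mem_range.2 i.isLt)]
      congr 1
      apply Finset.sum_congr rfl
      intro k _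
      ring
    have e3 := digits_unique (m := m)
      (s := fun k => ∑ j ∈ range m, K.getD i 0 / 16 ^ j % 16 * dg (rows.getD j 0) k)
      (t := fun k => (if k = i.val then 1 else 0) + p * dg ((S - 1024 ^ i.val) / p) k)
      (by
        intro k hk
        have : ∑ j ∈ range m, K.getD (↑i) 0 / 16 ^ j % 16 * dg (rows.getD j 0) k ≤
            ∑ _j ∈ range m, 15 := by
          apply Finset.sum_le_sum
          intro j hj
          have h5 := le1 j (by have := Finset.mem_range.1 hj; omega) k (by omega)
          have h6 : K.getD (↑i) 0 / 16 ^ j % 16 ≤ 15 := by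
            have := Nat.mod_lt (K.getD (↑i) 0 / 16 ^ j) (by norm_num : 0 < 16)
            omega
          calc _ ≤ 15 * 1 := Nat.mul_le_mul h6 h5
            _ = 15 := by norm_num
        rw [Finset.sum_const, Finset.card_range, smul_eq_mul] at this
        show ∑ j ∈ range m, K.getD (↑i) 0 / 16 ^ j % 16 * dg (rows.getD j 0) k < 1024
        omega)
      (by
        intro k hk
        have := h4 k hk
        show (if k = i.val then 1 else 0) + p * dg ((S - 1024 ^ i.val) / p) k < 1024
        split_ifs <;> omega)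
      (by
        show ∑ k ∈ range m, (∑ j ∈ range m, K.getD i 0 / 16 ^ j % 16 *
          dg (rows.getD j 0) k) * 1024 ^ k =
          ∑ k ∈ range m, ((if k = i.val then 1 else 0) + p * dg ((S - 1024 ^ i.val) / p) k) * 1024 ^ k
        rw [← e1, ← e2])
      k.val k.isLt
    have e4 : ∑ j, Kf i j * Bf j k =
        ∑ j ∈ range m, K.getD i 0 / 16 ^ j % 16 * dg (rows.getD j 0) k :=
      Fin.sum_univ_eq_sum_range (fun j => K.getD i 0 / 16 ^ j % 16 * dg (rows.getD j 0) k) m
    rw [e4]
    have e5 : (if k = i then 1 else 0) = (if k.val = i.val then 1 else 0) := by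
      simp only [Fin.ext_iff]
    rw [e5]
    exact e3
  let X : Fin (m + 1) → ℝ := fun i => ((x.getD i.val 0 : ℤ) : ℝ)
  let A : Fin (m + 1) → Fin (m + 1) → ℝ := fun i j => ((dg (rows.getD i.val 0) j.val : ℕ) : ℝ)
  have hker : ∀ i, ∑ j, A i j * X j = 0 := by
    intro i
    have h1 := ker i.val i.isLt
    have h2 : ∑ j, A i j * X j = ∑ j ∈ range (m + 1), ((dg (rows.getD i.val 0) j : ℕ) : ℝ) *
        ((x.getD j 0 : ℤ) : ℝ) :=
      Fin.sum_univ_eq_sum_range (fun j => ((dg (rows.getD i.val 0) j : ℕ) : ℝ) *
        ((x.getD j 0 : ℤ) : ℝ)) (m + 1)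
    rw [h2]
    exact_mod_cast h1
  refine ⟨Fin (m + 1), inferInstance, A, X, ⟨?_, ?_, ?_, ?_, ?_, hker, ?_⟩, Fintype.card_fin _⟩
  · intro i j
    have := le1 i.val i.isLt j.val j.isLt
    show ((dg (rows.getD i.val 0) j.val : ℕ) : ℝ) = 0 ∨ ((dg (rows.getD i.val 0) j.val : ℕ) : ℝ) = 1
    rcases Nat.le_one_iff_eq_zero_or_eq_one.1 this with h | h <;> rw [h] <;> simp
  · intro i j
    show ((dg (rows.getD i.val 0) j.val : ℕ) : ℝ) = ((dg (rows.getD j.val 0) i.val : ℕ) : ℝ)
    rw [sy i.val i.isLt j.val j.isLt]
  · intro i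
    show ((dg (rows.getD i.val 0) i.val : ℕ) : ℝ) = 0
    rw [s1 i.val i.isLt]
    norm_num
  · intro i
    have h2 : ∑ j, A i j = ∑ j ∈ range (m + 1), ((dg (rows.getD i.val 0) j : ℕ) : ℝ) :=
      Fin.sum_univ_eq_sum_range (fun j => ((dg (rows.getD i.val 0) j : ℕ) : ℝ)) (m + 1)
    rw [h2, ← deg i.val i.isLt]
    push_cast
    rfl
  · intro i
    have := nz i.val i.isLt
    show ((x.getD i.val 0 : ℤ) : ℝ) ≠ 0
    exact_mod_cast this
  · intro y hy
    have hXl : X (Fin.last m) ≠ 0 := by
      have := nz m (by omega)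
      show ((x.getD (Fin.last m).val 0 : ℤ) : ℝ) ≠ 0
      rw [Fin.val_last]
      exact_mod_cast this
    refine ⟨y (Fin.last m) / X (Fin.last m), ?_⟩
    set c := y (Fin.last m) / X (Fin.last m) with hc
    have hcl : y (Fin.last m) - c * X (Fin.last m) = 0 := by
      rw [hc, div_mul_cancel₀ _ hXl, sub_self]
    have h1 : (fun k : Fin m => y k.castSucc - c * X k.castSucc) = 0 := by
      apply inj_of_mod hp inv
      intro j
      have h2 := hy j.castSucc
      have h3 := hker j.castSucc
      have h4 : ∑ k, A j.castSucc k * (y k - c * X k) = 0 := by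
        simp only [mul_sub, Finset.sum_sub_distrib]
        rw [h2]
        have : ∑ k, A j.castSucc k * (c * X k) = c * ∑ k, A j.castSucc k * X k := by
          rw [Finset.mul_sum]
          apply Finset.sum_congr rfl
          intro k _
          ring
        rw [this, h3]
        ring
      rw [Fin.sum_univ_castSucc, hcl, mul_zero, add_zero] at h4
      exact h4
    intro i
    refine Fin.lastCases ?_ (fun k => ?_) i
    · linarith
    · have := congrFun h1 k
      simp only [Pi.zero_apply] at this
      linarith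

end Pool.Agent.H93.Nut
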