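import Pool.Graph.R_seed8.TH296.Nut.All
import Pool.Graph.R_seed8.TH417.Nut.Exact

/-!
The lower bound for the order.
-/

set_option autoImplicit false

namespace Pool.Agent.H93.Nut

open Pool.Agent.TH296.Nut

open Classical in
theorem lower_of_mem {ρ n : ℕ} (h0 : 1 ≤ ρ) (h : n ∈ nutOrders ρ) : ρ + 4 ≤ n := by
  obtain ⟨V, i, G, hc, hr, h2, x, hx, hk⟩ := h
  refine Pool.Agent.TH417.Nut.lower ρ n h0 ⟨V, i, inferInstance, G, inferInstance, hc, ?_, h2, x,
    hx, ?_⟩
  · intro v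
    have := hr v
    convert this
  · rw [← hk]
    rfl

end Pool.Agent.H93.Nut
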