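import Pool.Agent.H93.Nut.Odd
import Pool.Agent.H93.Nut.Lower
import Pool.Agent.H93.Nut.ClassA
import Pool.Agent.H93.Nut.ClassBSeed
import Pool.Agent.H93.Nut.ClassO
import Pool.Agent.H93.Nut.CubicSeeds

/-!
The orders of regular nut graphs of degree at least fifteen.
-/

set_option autoImplicit false

namespace Pool.Agent.H93.Nut

open Finset Pool.Agent.TH296.Nut

theorem good_four_mod {ρ n : ℕ} (hρ : Even ρ) (h6 : 6 ≤ ρ) (hn : 4 ∣ n) (hn2 : ρ + 6 ≤ n) :
    Good ρ n :=
  (goodE_four (r := 0) hρ (by omega) h6 hn hn2).good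

/-- Even degrees at least sixteen. -/
theorem good_even_all {ρ n : ℕ} (hρ : Even ρ) (h16 : 16 ≤ ρ) (hn : ρ + 4 ≤ n) : Good ρ n := by
  rcases Nat.even_or_odd n with he | ho
  · have h1 : ρ % 4 = 0 ∨ ρ % 4 = 2 := by
      obtain ⟨k, rfl⟩ := hρ
      omega
    have h2 : n % 4 = 0 ∨ n % 4 = 2 := by
      obtain ⟨k, rfl⟩ := he
      omega
    rcases h1 with h1 | h1 <;> rcases h2 with h2 | h2
    · by_cases h : n = ρ + 4
      · subst h
        have := good_four_zero (n := ρ + 4) (by omega) (by omega)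
        rwa [show ρ + 4 - 4 = ρ by omega] at this
      · exact good_four_mod hρ (by omega) (Nat.dvd_of_mod_eq_zero h2) (by omega)
    · exact good_classA (Nat.dvd_of_mod_eq_zero h1) (by omega) h2 (by omega)
    · exact good_four_mod hρ (by omega) (Nat.dvd_of_mod_eq_zero h2) (by omega)
    · by_cases h : n = ρ + 4
      · subst h
        have := good_four_two (n := ρ + 4) (by omega) (by omega)
        rwa [show ρ + 4 - 4 = ρ by omega] at this
      · exact good_classB h1 (by omega) h2 (by omega)
  · have h3 : ρ + 5 ≤ n := by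
      obtain ⟨k, rfl⟩ := hρ
      obtain ⟨l, rfl⟩ := ho
      omega
    exact good_classO hρ h16 ho h3

/-- All degrees at least fifteen. -/
theorem mem_orders_iff {ρ n : ℕ} (h15 : 15 ≤ ρ) :
    n ∈ nutOrders ρ ↔ ρ + 4 ≤ n ∧ Even (n * ρ) := by
  constructor
  · intro h
    exact ⟨lower_of_mem (by omega) h, even_mul_of_mem h⟩
  · rintro ⟨h1, h2⟩
    rcases Nat.even_or_odd ρ with he | ho
    · have h16 : 16 ≤ ρ := by
        obtain ⟨k, rfl⟩ := he
        omega
      exact (good_even_all he h16 h1).mem (by omega)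
    · have hn : Even n := by
        rcases Nat.even_mul.1 h2 with h | h
        · exact h
        · exact absurd h (Nat.not_even_iff_odd.2 ho)
      have h3 : ρ + 5 ≤ n := by
        obtain ⟨k, rfl⟩ := ho
        obtain ⟨l, rfl⟩ := hn
        omega
      exact (good_odd ho h15 hn h3).mem (by omega)

end Pool.Agent.H93.Nut
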