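import Pool.Agent.H93.Nut.Seed

/-!
Ten configurations.
-/

set_option autoImplicit false
set_option maxRecDepth 100000

namespace Pool.Agent.H93.Nut

theorem cf6x11 : HasCf 6 11 :=
HasCf.of_ok (n := 11) (m := 4) (S := lm [[0, 0, 1, 1, 0, 0, 0, 0, 1, 0, 0], [0, 0, 0, 0, 0, 1,
  0, 1, 0, 0, 1], [1, 0, 0, 0, 0, 1, 1, 0, 1, 0, 0], [1, 0, 0, 0, -1, 0, 0, 1, 0, -1, 0], [0, 0,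
  0, -1, 0, 0, 0, 0, 0, 0, 1], [0, 1, 1, 0, 0, 0, 0, 0, 0, 0, 0], [0, 0, 1, 0, 0, 0, 0, 0, 0, 1,
  0], [0, 1, 0, 1, 0, 0, 0, 0, 0, 0, 0], [1, 0, 1, 0, 0, 0, 0, 0, 0, 0, 0], [0, 0, 0, -1, 0, 0,
  1, 0, 0, 0, 0], [0, 1, 0, 0, 1, 0, 0, 0, 0, 0, 0]]) (D := lv [0, 0, 1, 1, 1, 1, 1, 1, 1, 1,
  1]) (t := lv [1, 1, 1, 1, 0, 0, 0, 0, 0, 0, 0]) (x := lv [3, -1, -1, -1, 5, -2, -4, -2, 2, -3,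
  4]) (z := lv [1, 1, 1, 1, 1, 0, 0, 0, 0, 1, 0]) (γ := lv [1, 0, 0, 0, 1, 0, 0, 0, 1, 0, 1]) (a
  := 4) (b := 5) (e := 9) (d := 8) (u := 2) (v := 0) (L := lm [[0, 0, 0, 0, 0, 0, 0, 0, 0, 0,
  0], [-5, 3, 3, 3, -3, 6, 4, 6, -2, 1, 0], [4, 0, 0, 0, 0, 0, 4, 0, 4, 4, 0], [4, 0, 0, 0, 0,
  0, -8, 0, 4, -8, 0], [-2, 6, -6, -6, -6, 0, 4, 0, -8, 10, 0], [-1, 3, 3, 3, -3, -6, 8, 6, 2,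
  5, 0], [1, -3, 9, -3, 3, 6, -8, -6, 10, -5, 0], [-1, 3, 3, 3, -3, 6, -4, -6, 2, -7, 0], [4, 0,
  0, 0, 0, 0, 4, 0, -8, 4, 0], [-3, -3, 9, -3, 3, 6, 0, -6, 6, -9, 0], [2, 6, -6, -6, 6, 0, -4,
  0, -4, 2, 0]]) (L2 := lm [[0, 0, 0, 0, 0, 0, 0, 0, 0, 0, 0], [1, 0, 0, 0, 1, 0, 0, 0, 1, 0,
  1], [0, 1, 1, 1, 1, 0, 1, 0, 1, 0, 0], [1, 0, 0, 0, 0, 0, 0, 0, 1, 0, 0], [0, 0, 1, 1, 0, 1,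
  1, 1, 1, 0, 0], [1, 1, 1, 1, 0, 1, 1, 0, 0, 0, 1], [1, 1, 0, 1, 0, 1, 1, 0, 1, 0, 1], [0, 0,
  0, 0, 1, 0, 0, 1, 0, 0, 1], [0, 1, 1, 1, 1, 0, 1, 0, 0, 0, 0], [1, 0, 1, 0, 1, 1, 1, 0, 0, 0,
  1], [1, 0, 1, 1, 1, 1, 1, 1, 0, 0, 0]]) (δ := 4) (p := 0) (q := 0) (C := lm [[0, 1, 0, 0, 1,
  1, 0, 1, 0, 1, 1], [1, 0, 1, 1, 1, 0, 1, 0, 1, 0, 0], [0, 1, 0, 1, 0, 0, 0, 1, 0, 1, 1], [0,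
  1, 1, 0, 0, 1, 1, 0, 0, 0, 1], [1, 1, 0, 0, 0, 0, 1, 1, 1, 0, 0], [1, 0, 0, 1, 0, 0, 1, 1, 0,
  1, 0], [0, 1, 0, 1, 1, 1, 0, 0, 1, 0, 1], [1, 0, 1, 0, 1, 1, 0, 0, 1, 1, 0], [0, 1, 0, 0, 1,
  0, 1, 1, 0, 0, 1], [1, 0, 1, 0, 0, 1, 0, 1, 0, 0, 1], [1, 0, 1, 1, 0, 0, 1, 0, 1, 1, 0]])
    (by decide +kernel) (by decide +kernel)

theorem cf6x12 : HasCf 6 12 :=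
HasCf.of_ok (n := 12) (m := 2) (S := lm [[0, 1, 0, 0, 0, 1, 1, 0, 0, 0, 0, 0], [1, 0, 1, 1, 0,
  0, 0, 0, 0, 0, 0, 0], [0, 1, 0, 0, 0, 0, 0, 0, -1, 0, 0, 0], [0, 1, 0, 0, 1, 0, 0, 0, 0, 0, 0,
  0], [0, 0, 0, 1, 0, 0, 0, 1, 0, 0, 0, 0], [1, 0, 0, 0, 0, 0, 0, 0, 1, 0, 0, 0], [1, 0, 0, 0,
  0, 0, 0, 0, 0, 0, 0, -1], [0, 0, 0, 0, 1, 0, 0, 0, 0, 1, 0, 0], [0, 0, -1, 0, 0, 1, 0, 0, 0,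
  0, 0, 0], [0, 0, 0, 0, 0, 0, 0, 1, 0, 0, 1, 0], [0, 0, 0, 0, 0, 0, 0, 0, 0, 1, 0, 1], [0, 0,
  0, 0, 0, 0, -1, 0, 0, 0, 1, 0]]) (D := lv [0, 0, 1, 1, 1, 1, 1, 1, 1, 1, 1, 1]) (t := lv [1,
  1, 0, 0, 0, 0, 0, 0, 0, 0, 0, 0]) (x := lv [-1, 1, -1, 2, 1, 1, -2, -1, 2, -2, -1, 1]) (z :=
  lv [1, 1, 1, 0, 1, 1, 0, 1, 0, 0, 1, 1]) (γ := lv [1, 0, 1, 1, 1, 0, 1, 0, 1, 1, 1, 0]) (a :=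
  2) (b := 3) (e := 4) (d := 6) (u := 7) (v := 9) (L := lm [[0, 0, 0, 0, 0, 0, 0, 0, 0, 0, 0,
  0], [-1, 0, -1, 1, 1, 0, -1, 0, 1, -1, -1, 0], [0, 0, 0, 0, 0, 1, 0, 0, 1, 0, 0, 0], [0, -1,
  0, 0, 0, -1, 0, 0, -1, 0, 0, 0], [1, -1, 1, -2, -1, -1, 1, 0, -2, 1, 1, 0], [-1, 0, 0, 1, 1,
  0, -1, 0, 0, -1, -1, 0], [1, 0, 1, -2, -2, 0, 2, 0, -1, 2, 2, 0], [1, 0, 1, -2, -2, 0, 1, 0,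
  -1, 1, 1, 0], [-1, 0, 0, 1, 1, -1, -1, 0, 0, -1, -1, 0], [0, 1, 0, 0, -1, 1, 0, -1, 1, 0, 0,
  0], [-1, 1, -1, 2, 1, 1, -1, -1, 2, -2, -1, 0], [-1, 0, -1, 2, 2, 0, -1, 0, 1, -2, -2, 0]])
  (L2 := lm [[0, 0, 0, 0, 0, 0, 0, 0, 0, 0, 0, 0], [1, 0, 1, 1, 1, 0, 1, 0, 1, 1, 1, 0], [0, 0,
  0, 0, 0, 1, 0, 0, 1, 0, 0, 0], [0, 1, 0, 0, 0, 1, 0, 0, 1, 0, 0, 0], [1, 1, 1, 0, 1, 1, 1, 0,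
  0, 1, 1, 0], [1, 0, 0, 1, 1, 0, 1, 0, 0, 1, 1, 0], [1, 0, 1, 0, 0, 0, 0, 0, 1, 0, 0, 0], [1,
  0, 1, 0, 0, 0, 1, 0, 1, 1, 1, 0], [1, 0, 0, 1, 1, 1, 1, 0, 0, 1, 1, 0], [0, 1, 0, 0, 1, 1, 0,
  1, 1, 0, 0, 0], [1, 1, 1, 0, 1, 1, 1, 1, 0, 0, 1, 0], [1, 0, 1, 0, 0, 0, 1, 0, 1, 0, 0, 0]])
  (δ := 1) (p := 0) (q := 0) (C := lm [[0, 0, 1, 1, 1, 0, 0, 0, 1, 0, 1, 1], [0, 0, 0, 0, 1, 0,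
  0, 1, 1, 1, 1, 1], [1, 0, 0, 0, 0, 0, 1, 1, 0, 1, 1, 0], [1, 0, 0, 0, 0, 1, 0, 0, 1, 0, 1, 1],
  [1, 1, 0, 0, 0, 1, 0, 0, 0, 1, 1, 0], [0, 0, 0, 1, 1, 0, 1, 1, 0, 1, 0, 1], [0, 0, 1, 0, 0, 1,
  0, 1, 0, 1, 1, 0], [0, 1, 1, 0, 0, 1, 1, 0, 1, 0, 0, 1], [1, 1, 0, 1, 0, 0, 0, 1, 0, 1, 0, 1],
  [0, 1, 1, 0, 1, 1, 1, 0, 1, 0, 0, 0], [1, 1, 1, 1, 1, 0, 1, 0, 0, 0, 0, 0], [1, 1, 0, 1, 0, 1,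
  0, 1, 1, 0, 0, 0]])
    (by decide +kernel) (by decide +kernel)

theorem cf6x13 : HasCf 6 13 :=
HasCf.of_ok (n := 13) (m := 6) (S := lm [[0, 0, 0, 0, 0, 0, 0, 1, 1, 0, 0, 0, -1], [0, 0, 0, 1,
  0, 0, 0, 0, 1, 1, 0, 0, 0], [0, 0, 0, 0, -1, -1, 0, 0, 0, 0, 1, 0, 0], [0, 1, 0, 0, 1, -1, 0,
  0, 0, 0, 0, 0, 0], [0, 0, -1, 1, 0, 0, 1, 0, 0, 1, 0, 0, 0], [0, 0, -1, -1, 0, 0, 1, 1, 0, 0,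
  0, 0, 0], [0, 0, 0, 0, 1, 1, 0, 0, 0, 0, 0, 0, 0], [1, 0, 0, 0, 0, 1, 0, 0, 0, 0, 0, 0, 0],
  [1, 1, 0, 0, 0, 0, 0, 0, 0, 0, 0, 0, 0], [0, 1, 0, 0, 1, 0, 0, 0, 0, 0, 0, 0, 0], [0, 0, 1, 0,
  0, 0, 0, 0, 0, 0, 0, 1, 0], [0, 0, 0, 0, 0, 0, 0, 0, 0, 0, 1, 0, 1], [-1, 0, 0, 0, 0, 0, 0, 0,
  0, 0, 0, 1, 0]]) (D := lv [0, 0, 0, 0, 1, 1, 1, 1, 1, 1, 1, 1, 1]) (t := lv [1, 1, 1, 1, 1, 1,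
  0, 0, 0, 0, 0, 0, 0]) (x := lv [-2, 4, -1, -3, -3, 1, -2, -1, 2, 1, -2, -1, 1]) (z := lv [0,
  0, 1, 1, 1, 1, 0, 1, 0, 1, 0, 1, 1]) (γ := lv [0, 0, 0, 1, 0, 1, 1, 1, 0, 0, 0, 0, 0]) (a :=
  6) (b := 7) (e := 8) (d := 9) (u := 2) (v := 10) (L := lm [[0, 0, 0, 0, 0, 0, 0, 0, 0, 0, 0,
  0, 0], [2, -6, 0, 4, 4, -2, 2, 0, -4, -2, 2, 2, 0], [-3, 5, 0, -4, -3, 2, -1, -1, 2, 2, -3,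
  -3, 0], [-1, 3, 0, -2, -3, 2, -1, 1, 2, 0, -1, -1, 0], [-3, 7, 0, -6, -5, 2, -3, -1, 4, 2, -3,
  -3, 0], [-1, 1, 0, 0, -1, 0, -1, -1, 0, 0, -1, -1, 0], [-4, 8, 0, -6, -6, 2, -2, -2, 4, 2, -4,
  -4, 0], [-1, 1, 0, 0, -1, 0, -1, 1, 0, 0, -1, -1, 0], [2, -6, 0, 4, 4, -2, 2, 0, -2, -2, 2, 2,
  0], [-1, 1, 0, -2, -1, 0, -1, -1, 0, 2, -1, -1, 0], [-4, 8, -2, -6, -6, 2, -4, -2, 4, 2, -4,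
  -4, 0], [-1, 3, -2, -2, -3, 0, -3, -1, 2, 0, -3, -1, 0], [3, -5, 0, 4, 3, -2, 1, 1, -2, -2, 1,
  1, 0]]) (L2 := lm [[1, 1, 0, 0, 1, 0, 1, 1, 0, 0, 1, 1, 0], [1, 1, 0, 0, 0, 1, 1, 0, 0, 1, 1,
  1, 0], [0, 0, 0, 0, 0, 0, 0, 0, 0, 0, 0, 0, 0], [0, 0, 0, 1, 1, 0, 1, 0, 0, 1, 0, 0, 0], [1,
  0, 0, 1, 0, 0, 0, 1, 1, 0, 1, 1, 0], [0, 1, 0, 0, 0, 1, 1, 1, 1, 1, 0, 0, 0], [1, 1, 0, 1, 0,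
  1, 0, 0, 0, 1, 1, 1, 0], [1, 0, 0, 0, 1, 1, 0, 1, 1, 1, 1, 1, 0], [0, 0, 0, 0, 1, 1, 0, 1, 1,
  1, 0, 0, 0], [0, 1, 0, 1, 0, 1, 1, 1, 1, 0, 0, 0, 0], [1, 1, 1, 1, 0, 1, 1, 0, 0, 1, 1, 1, 0],
  [1, 1, 1, 1, 0, 1, 1, 0, 0, 1, 0, 1, 0], [0, 0, 0, 0, 0, 0, 0, 0, 0, 0, 1, 1, 0]]) (δ := 1) (p
  := 0) (q := 2) (C := lm [[0, 1, 0, 0, 1, 1, 1, 0, 0, 1, 1, 0, 0], [1, 0, 1, 0, 0, 1, 1, 0, 0,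
  0, 0, 1, 1], [0, 1, 0, 1, 0, 0, 1, 1, 1, 0, 0, 1, 0], [0, 0, 1, 0, 0, 0, 1, 1, 1, 0, 1, 1, 0],
  [1, 0, 0, 0, 0, 0, 0, 1, 1, 0, 0, 1, 1], [1, 1, 0, 0, 0, 0, 0, 0, 0, 1, 1, 0, 1], [1, 1, 1, 1,
  0, 0, 0, 0, 0, 0, 1, 0, 0], [0, 0, 1, 1, 1, 0, 0, 0, 0, 0, 0, 1, 1], [0, 0, 1, 1, 1, 0, 0, 0,
  0, 0, 1, 0, 1], [1, 0, 0, 0, 0, 1, 0, 0, 0, 0, 1, 1, 1], [1, 0, 0, 1, 0, 1, 1, 0, 1, 1, 0, 0,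
  0], [0, 1, 1, 1, 1, 0, 0, 1, 0, 1, 0, 0, 0], [0, 1, 0, 0, 1, 1, 0, 1, 1, 1, 0, 0, 0]])
    (by decide +kernel) (by decide +kernel)

theorem cf7x13 : HasCf 7 13 :=
HasCf.of_ok (n := 13) (m := 5) (S := lm [[0, 0, 1, 0, 1, 0, 0, 0, 0, 0, 0, 0, -1], [0, 0, 1, 0,
  0, 0, 1, 0, 1, 0, 0, 0, 0], [1, 1, 0, 1, 0, 0, 0, 0, 0, 1, 0, 0, 0], [0, 0, 1, 0, 1, 1, 1, 0,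
  0, 0, 0, 0, 0], [1, 0, 0, 1, 0, 0, 0, 1, 1, 0, 0, 0, 0], [0, 0, 0, 1, 0, 0, 0, 1, 0, 0, 0, 0,
  0], [0, 1, 0, 1, 0, 0, 0, 0, 0, 0, 0, 0, 0], [0, 0, 0, 0, 1, 1, 0, 0, 0, 0, 0, 0, 0], [0, 1,
  0, 0, 1, 0, 0, 0, 0, 0, 0, 0, 0], [0, 0, 1, 0, 0, 0, 0, 0, 0, 0, 1, 0, 0], [0, 0, 0, 0, 0, 0,
  0, 0, 0, 1, 0, 1, 0], [0, 0, 0, 0, 0, 0, 0, 0, 0, 0, 1, 0, 1], [-1, 0, 0, 0, 0, 0, 0, 0, 0, 0,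
  0, 1, 0]]) (D := lv [0, 0, 1, 1, 1, 1, 1, 1, 1, 1, 1, 1, 1]) (t := lv [1, 1, 1, 1, 1, 0, 0, 0,
  0, 0, 0, 0, 0]) (x := lv [-1, -1, 2, 3, -3, 2, 2, -1, -4, 1, -1, -2, -1]) (z := lv [1, 1, 0,
  1, 1, 0, 0, 1, 0, 1, 1, 0, 1]) (γ := lv [1, 0, 1, 0, 0, 1, 0, 1, 0, 0, 1, 1, 0]) (a := 5) (b
  := 6) (e := 9) (d := 7) (u := 9) (v := 10) (L := lm [[0, 0, 0, 0, 0, 0, 0, 0, 0, 0, 0, 0, 0],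
  [1, 0, -1, -2, 2, -1, -2, 1, 2, 0, 1, 1, 0], [-2, -1, 2, 4, -4, 3, 3, -1, -5, 0, -2, -2, 0],
  [-2, -1, 2, 5, -5, 3, 4, -2, -6, 0, -2, -2, 0], [2, 1, -2, -5, 5, -4, -4, 1, 6, 0, 2, 2, 0],
  [-1, 0, 1, 2, -3, 2, 2, -1, -3, 0, -1, -1, 0], [-1, -1, 1, 3, -3, 2, 3, -1, -4, 0, -1, -1, 0],
  [1, 1, -1, -3, 2, -2, -2, 1, 3, 0, 1, 1, 0], [3, 1, -3, -7, 7, -5, -6, 2, 9, 0, 3, 3, 0], [-1,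
  0, 0, 1, -1, 1, 1, 0, -1, 0, -1, -1, 0], [1, 1, -2, -3, 3, -2, -2, 1, 4, -1, 1, 1, 0], [2, 1,
  -2, -4, 4, -3, -3, 1, 5, -1, 1, 2, 0], [1, 0, 0, -1, 1, -1, -1, 0, 1, 0, 0, 0, 0]]) (L2 := lm
  [[0, 0, 0, 0, 0, 0, 0, 0, 0, 0, 0, 0, 0], [1, 0, 1, 0, 0, 1, 0, 1, 0, 0, 1, 1, 0], [0, 1, 0,
  0, 0, 1, 1, 1, 1, 0, 0, 0, 0], [0, 1, 0, 1, 1, 1, 0, 0, 0, 0, 0, 0, 0], [0, 1, 0, 1, 1, 0, 0,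
  1, 0, 0, 0, 0, 0], [1, 0, 1, 0, 1, 0, 0, 1, 1, 0, 1, 1, 0], [1, 1, 1, 1, 1, 0, 1, 1, 0, 0, 1,
  1, 0], [1, 1, 1, 1, 0, 0, 0, 1, 1, 0, 1, 1, 0], [1, 1, 1, 1, 1, 1, 0, 0, 1, 0, 1, 1, 0], [1,
  0, 0, 1, 1, 1, 1, 0, 1, 0, 1, 1, 0], [1, 1, 0, 1, 1, 0, 0, 1, 0, 1, 1, 1, 0], [0, 1, 0, 0, 0,
  1, 1, 1, 1, 1, 1, 0, 0], [1, 0, 0, 1, 1, 1, 1, 0, 1, 0, 0, 0, 0]]) (δ := 1) (p := 0) (q := 0)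
  (C := lm [[0, 1, 0, 1, 0, 1, 1, 1, 0, 0, 1, 1, 0], [1, 0, 0, 1, 0, 1, 0, 1, 0, 1, 1, 0, 1],
  [0, 0, 0, 0, 1, 0, 1, 0, 1, 0, 1, 1, 1], [1, 1, 0, 0, 0, 0, 0, 1, 1, 1, 1, 0, 0], [0, 0, 1, 0,
  0, 1, 1, 0, 0, 1, 1, 0, 1], [1, 1, 0, 0, 1, 0, 0, 0, 1, 0, 1, 1, 0], [1, 0, 1, 0, 1, 0, 0, 0,
  0, 0, 1, 1, 1], [1, 1, 0, 1, 0, 0, 0, 0, 1, 0, 0, 1, 1], [0, 0, 1, 1, 0, 1, 0, 1, 0, 1, 0, 1,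
  1], [0, 1, 0, 1, 1, 0, 0, 0, 1, 0, 0, 1, 1], [1, 1, 1, 1, 1, 1, 1, 0, 0, 0, 0, 0, 0], [1, 0,
  1, 0, 0, 1, 1, 1, 1, 1, 0, 0, 0], [0, 1, 1, 0, 1, 0, 1, 1, 1, 1, 0, 0, 0]])
    (by decide +kernel) (by decide +kernel)

theorem cf7x14 : HasCf 7 14 :=
HasCf.of_ok (n := 14) (m := 4) (S := lm [[0, 0, 0, 1, 0, 0, 0, 0, 1, 0, 0, 0, 0, -1], [0, 0, 0,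
  0, 0, 1, 0, 1, 0, 0, 1, 0, 0, 0], [0, 0, 0, 0, 0, 1, 1, 0, 1, 0, 0, 1, 0, 0], [1, 0, 0, 0, -1,
  0, 0, 1, 0, -1, 0, 0, 0, 0], [0, 0, 0, -1, 0, 0, 0, 0, 0, 0, 1, 0, 0, 0], [0, 1, 1, 0, 0, 0,
  0, 0, 0, 0, 0, 0, 0, 0], [0, 0, 1, 0, 0, 0, 0, 0, 0, 1, 0, 0, 0, 0], [0, 1, 0, 1, 0, 0, 0, 0,
  0, 0, 0, 0, 0, 0], [1, 0, 1, 0, 0, 0, 0, 0, 0, 0, 0, 0, 0, 0], [0, 0, 0, -1, 0, 0, 1, 0, 0, 0,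
  0, 0, 0, 0], [0, 1, 0, 0, 1, 0, 0, 0, 0, 0, 0, 0, 0, 0], [0, 0, 1, 0, 0, 0, 0, 0, 0, 0, 0, 0,
  1, 0], [0, 0, 0, 0, 0, 0, 0, 0, 0, 0, 0, 1, 0, 1], [-1, 0, 0, 0, 0, 0, 0, 0, 0, 0, 0, 0, 1,
  0]]) (D := lv [0, 0, 1, 1, 1, 1, 1, 1, 1, 1, 1, 1, 1, 1]) (t := lv [1, 1, 1, 1, 0, 0, 0, 0, 0,
  0, 0, 0, 0, 0]) (x := lv [3, -1, -1, -1, 5, -2, -4, -2, 2, -3, 4, 3, 4, 1]) (z := lv [1, 1, 1,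
  1, 1, 0, 0, 0, 0, 1, 0, 1, 0, 1]) (γ := lv [1, 0, 0, 0, 1, 0, 0, 0, 1, 0, 1, 1, 1, 0]) (a :=
  4) (b := 5) (e := 9) (d := 8) (u := 2) (v := 11) (L := lm [[0, 0, 0, 0, 0, 0, 0, 0, 0, 0, 0,
  0, 0, 0], [1, 0, 0, 0, 3, 0, -2, 0, 1, -2, 3, 1, 1, 0], [1, 0, 0, 0, 0, 0, 1, 0, 1, 1, 0, 1,
  1, 0], [1, 0, 0, 0, 0, 0, -2, 0, 1, -2, 0, 1, 1, 0], [-5, 3, 0, 0, -9, 3, 7, 3, -5, 7, -6, -5,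
  -5, 0], [2, 0, 0, 0, 3, -3, -1, 0, 2, -1, 3, 2, 2, 0], [7, -3, 0, -3, 12, -3, -11, -6, 7, -8,
  9, 7, 7, 0], [2, 0, 0, 0, 3, 0, -4, -3, 2, -4, 3, 2, 2, 0], [1, 0, 0, 0, 0, 0, 1, 0, -2, 1, 0,
  1, 1, 0], [6, -3, 0, -3, 12, -3, -9, -6, 6, -9, 9, 6, 6, 0], [-4, 3, 0, 0, -6, 3, 5, 3, -4, 5,
  -6, -4, -4, 0], [-9, 3, 3, 3, -15, 6, 12, 6, -6, 9, -12, -9, -9, 0], [-10, 3, 3, 3, -15, 6,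
  11, 6, -7, 8, -12, -7, -10, 0], [-1, 0, 0, 0, 0, 0, -1, 0, -1, -1, 0, 2, 2, 0]]) (L2 := lm
  [[0, 0, 0, 0, 0, 0, 0, 0, 0, 0, 0, 0, 0, 0], [1, 0, 0, 0, 1, 0, 0, 0, 1, 0, 1, 1, 1, 0], [1,
  0, 0, 0, 0, 0, 1, 0, 1, 1, 0, 1, 1, 0], [1, 0, 0, 0, 0, 0, 0, 0, 1, 0, 0, 1, 1, 0], [1, 1, 0,
  0, 1, 1, 1, 1, 1, 1, 0, 1, 1, 0], [0, 0, 0, 0, 1, 1, 1, 0, 0, 1, 1, 0, 0, 0], [1, 1, 0, 1, 0,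
  1, 1, 0, 1, 0, 1, 1, 1, 0], [0, 0, 0, 0, 1, 0, 0, 1, 0, 0, 1, 0, 0, 0], [1, 0, 0, 0, 0, 0, 1,
  0, 0, 1, 0, 1, 1, 0], [0, 1, 0, 1, 0, 1, 1, 0, 0, 1, 1, 0, 0, 0], [0, 1, 0, 0, 0, 1, 1, 1, 0,
  1, 0, 0, 0, 0], [1, 1, 1, 1, 1, 0, 0, 0, 0, 1, 0, 1, 1, 0], [0, 1, 1, 1, 1, 0, 1, 0, 1, 0, 0,
  1, 0, 0], [1, 0, 0, 0, 0, 0, 1, 0, 1, 1, 0, 0, 0, 0]]) (δ := 1) (p := 0) (q := 0) (C := lm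
  [[0, 0, 1, 0, 1, 0, 1, 1, 0, 0, 1, 1, 1, 0], [0, 0, 1, 1, 1, 0, 1, 0, 1, 0, 0, 1, 1, 0], [1,
  1, 0, 0, 0, 0, 0, 0, 0, 1, 1, 0, 1, 1], [0, 1, 0, 0, 0, 1, 1, 0, 1, 0, 0, 0, 1, 1], [1, 1, 0,
  0, 0, 0, 0, 1, 1, 0, 0, 0, 1, 1], [0, 0, 0, 1, 0, 0, 1, 1, 0, 0, 1, 1, 0, 1], [1, 1, 0, 1, 0,
  1, 0, 1, 0, 0, 0, 1, 0, 1], [1, 0, 0, 0, 1, 1, 1, 0, 0, 1, 1, 1, 0, 0], [0, 1, 0, 1, 1, 0, 0,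
  0, 0, 0, 1, 1, 0, 1], [0, 0, 1, 0, 0, 0, 0, 1, 0, 0, 1, 1, 1, 1], [1, 0, 1, 0, 0, 1, 0, 1, 1,
  1, 0, 0, 1, 0], [1, 1, 0, 0, 0, 1, 1, 1, 1, 1, 0, 0, 0, 0], [1, 1, 1, 1, 1, 0, 0, 0, 0, 1, 1,
  0, 0, 0], [0, 0, 1, 1, 1, 1, 1, 0, 1, 1, 0, 0, 0, 0]])
    (by decide +kernel) (by decide +kernel)

theorem cf7x15 : HasCf 7 15 :=
HasCf.of_ok (n := 15) (m := 5) (S := lm [[0, 1, 0, 1, 1, 0, 0, 0, 0, 0, 0, 0, 0, 0, 0], [1, 0,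
  -1, 0, 0, 0, 0, 1, 0, 0, 0, 0, 0, 0, 0], [0, -1, 0, 0, 1, 1, 0, 0, 1, 0, 0, 0, 0, 0, 0], [1,
  0, 0, 0, 0, 0, 0, 0, 0, 1, 1, 1, 0, 0, 0], [1, 0, 1, 0, 0, 0, 0, 0, -1, 0, 0, -1, 0, 0, 0],
  [0, 0, 1, 0, 0, 0, 0, 1, 0, 0, 0, 0, 0, 0, 0], [0, 0, 0, 0, 0, 0, 0, 0, 0, 1, 0, 0, 1, 0, 0],
  [0, 1, 0, 0, 0, 1, 0, 0, 0, 0, 0, 0, 0, 0, 0], [0, 0, 1, 0, -1, 0, 0, 0, 0, 0, 0, 0, 0, 0, 0],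
  [0, 0, 0, 1, 0, 0, 1, 0, 0, 0, 0, 0, 0, 0, 0], [0, 0, 0, 1, 0, 0, 0, 0, 0, 0, 0, 0, 0, 0, -1],
  [0, 0, 0, 1, -1, 0, 0, 0, 0, 0, 0, 0, 0, 0, 0], [0, 0, 0, 0, 0, 0, 1, 0, 0, 0, 0, 0, 0, 1, 0],
  [0, 0, 0, 0, 0, 0, 0, 0, 0, 0, 0, 0, 1, 0, 1], [0, 0, 0, 0, 0, 0, 0, 0, 0, 0, -1, 0, 0, 1,
  0]]) (D := lv [0, 0, 1, 1, 1, 1, 1, 1, 1, 1, 1, 1, 1, 1, 1]) (t := lv [1, 1, 1, 1, 1, 0, 0, 0,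
  0, 0, 0, 0, 0, 0, 0]) (x := lv [3, -1, 1, 2, -1, -1, -4, -2, 2, -2, -2, 3, -2, 2, 4]) (z := lv
  [1, 1, 1, 0, 1, 1, 0, 0, 0, 0, 0, 1, 0, 0, 0]) (γ := lv [0, 1, 1, 0, 0, 1, 0, 0, 1, 0, 0, 0,
  0, 0, 0]) (a := 5) (b := 6) (e := 11) (d := 8) (u := 6) (v := 12) (L := lm [[0, 0, 0, 0, 0, 0,
  0, 0, 0, 0, 0, 0, 0, 0, 0], [0, 4, -4, 0, 0, 4, 0, 8, -4, 0, 0, 0, 0, 0, 0], [0, -4, 4, 0, 0,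
  8, 0, 4, 4, 0, 0, 0, 0, 0, 0], [6, -2, 2, 0, -6, -2, 0, -4, 8, 0, 0, 6, 0, 0, 0], [6, -2, 2,
  0, 6, -2, 0, -4, -4, 0, 0, -6, 0, 0, 0], [0, 4, 8, 0, 0, 4, 0, 8, 8, 0, 0, 0, 0, 0, 0], [-3,
  1, -1, 6, 9, 1, 0, 2, -10, 6, 6, -3, 6, 6, 0], [0, 8, 4, 0, 0, 8, 0, 4, 4, 0, 0, 0, 0, 0, 0],
  [-6, -2, 2, 0, -6, 10, 0, 8, -4, 0, 0, 6, 0, 0, 0], [3, -1, 1, 6, 3, -1, 0, -2, -2, -6, 6, 3,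
  6, 6, 0], [3, -1, 1, 6, 3, -1, 0, -2, -2, 6, -6, 3, -6, -6, 0], [0, 0, 0, 0, -12, 0, 0, 0, 12,
  0, 0, 0, 0, 0, 0], [-6, 2, -2, 0, 6, 2, 12, 4, -8, 12, 0, -6, 0, 0, 0], [-3, 1, -1, -6, -3, 1,
  12, 2, 2, 6, -6, -3, 6, -6, 0], [3, -1, 1, -6, -9, -1, 0, -2, 10, -6, -6, 3, 6, 6, 0]]) (L2 :=
  lm [[0, 0, 0, 0, 0, 0, 0, 0, 0, 0, 0, 0, 0, 0, 0], [0, 1, 1, 0, 0, 1, 0, 0, 1, 0, 0, 0, 0, 0,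
  0], [0, 1, 1, 0, 0, 0, 0, 1, 1, 0, 0, 0, 0, 0, 0], [0, 0, 0, 1, 1, 0, 0, 0, 1, 1, 1, 0, 1, 1,
  0], [1, 1, 1, 1, 1, 1, 0, 0, 0, 1, 1, 0, 1, 1, 0], [0, 1, 0, 0, 0, 1, 0, 0, 0, 0, 0, 0, 0, 0,
  0], [0, 0, 0, 0, 0, 0, 1, 0, 0, 1, 1, 0, 1, 0, 1], [0, 0, 1, 0, 0, 0, 0, 1, 1, 0, 0, 0, 0, 0,
  0], [1, 0, 0, 1, 1, 1, 0, 1, 0, 1, 1, 0, 1, 1, 0], [0, 0, 0, 1, 1, 0, 1, 0, 1, 1, 0, 0, 0, 1,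
  1], [0, 0, 0, 1, 1, 0, 1, 0, 1, 0, 1, 0, 1, 0, 1], [0, 0, 0, 0, 1, 0, 0, 0, 1, 0, 0, 0, 0, 0,
  0], [0, 0, 0, 1, 1, 0, 1, 0, 1, 0, 1, 0, 1, 1, 0], [0, 0, 0, 1, 1, 0, 0, 0, 1, 1, 0, 0, 1, 1,
  1], [0, 0, 0, 0, 0, 0, 1, 0, 0, 1, 1, 0, 0, 1, 1]]) (δ := 4) (p := 0) (q := 0) (C := lm [[0,
  0, 1, 0, 0, 0, 1, 1, 0, 0, 1, 0, 1, 1, 1], [0, 0, 0, 1, 0, 1, 1, 0, 0, 0, 1, 1, 1, 0, 1], [1,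
  0, 0, 1, 0, 0, 0, 1, 0, 1, 1, 0, 0, 1, 0], [0, 1, 1, 0, 1, 0, 1, 1, 1, 0, 0, 0, 0, 0, 0], [0,
  0, 0, 1, 0, 1, 1, 0, 0, 0, 1, 0, 1, 1, 0], [0, 1, 0, 0, 1, 0, 0, 0, 1, 1, 1, 0, 0, 0, 1], [1,
  1, 0, 1, 1, 0, 0, 1, 0, 0, 0, 0, 0, 0, 1], [1, 0, 1, 1, 0, 0, 1, 0, 1, 0, 0, 0, 1, 0, 1], [0,
  0, 0, 1, 0, 1, 0, 1, 0, 1, 0, 0, 1, 1, 0], [0, 0, 1, 0, 0, 1, 0, 0, 1, 0, 0, 1, 1, 1, 1], [1,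
  1, 1, 0, 1, 1, 0, 0, 0, 0, 0, 1, 0, 1, 0], [0, 1, 0, 0, 0, 0, 0, 0, 0, 1, 1, 0, 1, 1, 1], [1,
  1, 0, 0, 1, 0, 0, 1, 1, 1, 0, 1, 0, 0, 0], [1, 0, 1, 0, 1, 0, 0, 0, 1, 1, 1, 1, 0, 0, 0], [1,
  1, 0, 0, 0, 1, 1, 1, 0, 1, 0, 1, 0, 0, 0]])
    (by decide +kernel) (by decide +kernel)

theorem cf7x16 : HasCf 7 16 :=
HasCf.of_ok (n := 16) (m := 6) (S := lm [[0, 0, 0, 0, 0, 0, 0, 1, 1, 0, 0, 0, -1, 0, 0, 0], [0,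
  0, 0, 1, 0, 0, 0, 0, 1, 1, 0, 0, 0, 0, 0, 0], [0, 0, 0, 0, -1, -1, 0, 0, 0, 0, 0, 0, 0, 1, 0,
  0], [0, 1, 0, 0, 1, -1, 0, 0, 0, 0, 0, 0, 0, 0, 0, 0], [0, 0, -1, 1, 0, 0, 1, 0, 0, 1, 0, 0,
  0, 0, 0, 0], [0, 0, -1, -1, 0, 0, 1, 1, 0, 0, 0, 0, 0, 0, 0, 0], [0, 0, 0, 0, 1, 1, 0, 0, 0,
  0, 0, 0, 0, 0, 0, 0], [1, 0, 0, 0, 0, 1, 0, 0, 0, 0, 0, 0, 0, 0, 0, 0], [1, 1, 0, 0, 0, 0, 0,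
  0, 0, 0, 0, 0, 0, 0, 0, 0], [0, 1, 0, 0, 1, 0, 0, 0, 0, 0, 0, 0, 0, 0, 0, 0], [0, 0, 0, 0, 0,
  0, 0, 0, 0, 0, 0, 1, 0, 0, 0, -1], [0, 0, 0, 0, 0, 0, 0, 0, 0, 0, 1, 0, 1, 0, 0, 0], [-1, 0,
  0, 0, 0, 0, 0, 0, 0, 0, 0, 1, 0, 0, 0, 0], [0, 0, 1, 0, 0, 0, 0, 0, 0, 0, 0, 0, 0, 0, 1, 0],
  [0, 0, 0, 0, 0, 0, 0, 0, 0, 0, 0, 0, 0, 1, 0, 1], [0, 0, 0, 0, 0, 0, 0, 0, 0, 0, -1, 0, 0, 0,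
  1, 0]]) (D := lv [0, 0, 0, 0, 1, 1, 1, 1, 1, 1, 1, 1, 1, 1, 1, 1]) (t := lv [1, 1, 1, 1, 1, 1,
  0, 0, 0, 0, 0, 0, 0, 0, 0, 0]) (x := lv [-2, 4, -1, -3, -3, 1, -2, -1, 2, 1, -2, -1, 1, -2,
  -1, 1]) (z := lv [0, 0, 1, 1, 1, 1, 0, 1, 0, 1, 0, 1, 1, 0, 1, 1]) (γ := lv [0, 0, 0, 1, 0, 1,
  1, 1, 0, 0, 0, 0, 0, 0, 0, 0]) (a := 6) (b := 7) (e := 8) (d := 9) (u := 2) (v := 13) (L := lm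
  [[0, 0, 0, 0, 0, 0, 0, 0, 0, 0, 0, 0, 0, 0, 0, 0], [2, -6, 0, 4, 4, -2, 2, 0, -4, -2, 2, 2, 0,
  2, 2, 0], [-3, 5, 0, -4, -3, 2, -1, -1, 2, 2, -3, -3, 0, -3, -3, 0], [-1, 3, 0, -2, -3, 2, -1,
  1, 2, 0, -1, -1, 0, -1, -1, 0], [-3, 7, 0, -6, -5, 2, -3, -1, 4, 2, -3, -3, 0, -3, -3, 0],
  [-1, 1, 0, 0, -1, 0, -1, -1, 0, 0, -1, -1, 0, -1, -1, 0], [-4, 8, 0, -6, -6, 2, -2, -2, 4, 2,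
  -4, -4, 0, -4, -4, 0], [-1, 1, 0, 0, -1, 0, -1, 1, 0, 0, -1, -1, 0, -1, -1, 0], [2, -6, 0, 4,
  4, -2, 2, 0, -2, -2, 2, 2, 0, 2, 2, 0], [-1, 1, 0, -2, -1, 0, -1, -1, 0, 2, -1, -1, 0, -1, -1,
  0], [0, 0, 0, 0, 0, 0, 0, 0, 0, 0, 0, -2, -2, 0, 0, 0], [3, -5, 0, 4, 3, -2, 1, 1, -2, -2, 1,
  1, -2, 1, 1, 0], [3, -5, 0, 4, 3, -2, 1, 1, -2, -2, 1, 1, 0, 1, 1, 0], [-4, 8, -2, -6, -6, 2,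
  -4, -2, 4, 2, -4, -4, 0, -4, -4, 0], [-1, 3, -2, -2, -3, 0, -3, -1, 2, 0, -1, -1, 0, -3, -1,
  0], [3, -5, 0, 4, 3, -2, 1, 1, -2, -2, 3, 3, 0, 1, 1, 0]]) (L2 := lm [[1, 1, 0, 0, 1, 0, 1, 1,
  0, 0, 1, 1, 0, 1, 1, 0], [1, 1, 0, 0, 0, 1, 1, 0, 0, 1, 1, 1, 0, 1, 1, 0], [0, 0, 0, 0, 0, 0,
  0, 0, 0, 0, 0, 0, 0, 0, 0, 0], [0, 0, 0, 1, 1, 0, 1, 0, 0, 1, 0, 0, 0, 0, 0, 0], [1, 0, 0, 1,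
  0, 0, 0, 1, 1, 0, 1, 1, 0, 1, 1, 0], [0, 1, 0, 0, 0, 1, 1, 1, 1, 1, 0, 0, 0, 0, 0, 0], [1, 1,
  0, 1, 0, 1, 0, 0, 0, 1, 1, 1, 0, 1, 1, 0], [1, 0, 0, 0, 1, 1, 0, 1, 1, 1, 1, 1, 0, 1, 1, 0],
  [0, 0, 0, 0, 1, 1, 0, 1, 1, 1, 0, 0, 0, 0, 0, 0], [0, 1, 0, 1, 0, 1, 1, 1, 1, 0, 0, 0, 0, 0,
  0, 0], [1, 1, 0, 0, 1, 0, 1, 1, 0, 0, 1, 0, 1, 1, 1, 0], [1, 1, 0, 0, 1, 0, 1, 1, 0, 0, 0, 0,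
  1, 0, 0, 0], [0, 0, 0, 0, 0, 0, 0, 0, 0, 0, 1, 1, 0, 1, 1, 0], [1, 1, 1, 1, 0, 1, 1, 0, 0, 1,
  1, 1, 0, 1, 1, 0], [1, 1, 1, 1, 0, 1, 1, 0, 0, 1, 1, 1, 0, 0, 1, 0], [0, 0, 0, 0, 0, 0, 0, 0,
  0, 0, 0, 0, 0, 1, 1, 0]]) (δ := 1) (p := 0) (q := 2) (C := lm [[0, 1, 1, 0, 1, 0, 0, 0, 0, 1,
  0, 1, 0, 1, 1, 0], [1, 0, 0, 0, 0, 0, 1, 1, 0, 0, 1, 1, 1, 0, 0, 1], [1, 0, 0, 1, 0, 0, 0, 1,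
  1, 1, 1, 0, 1, 0, 0, 0], [0, 0, 1, 0, 0, 0, 1, 1, 0, 0, 1, 1, 1, 0, 1, 0], [1, 0, 0, 0, 0, 1,
  0, 0, 0, 0, 1, 0, 0, 1, 1, 1], [0, 0, 0, 0, 1, 0, 0, 0, 1, 0, 1, 0, 1, 1, 0, 1], [0, 1, 0, 1,
  0, 0, 0, 0, 0, 0, 1, 0, 0, 1, 1, 1], [0, 1, 1, 1, 0, 0, 0, 0, 1, 0, 1, 0, 0, 0, 0, 1], [0, 0,
  1, 0, 0, 1, 0, 1, 0, 0, 0, 1, 0, 1, 0, 1], [1, 0, 1, 0, 0, 0, 0, 0, 0, 0, 0, 1, 1, 1, 1, 0],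
  [0, 1, 1, 1, 1, 1, 1, 1, 0, 0, 0, 0, 0, 0, 0, 0], [1, 1, 0, 1, 0, 0, 0, 0, 1, 1, 0, 0, 0, 0,
  1, 1], [0, 1, 1, 1, 0, 1, 0, 0, 0, 1, 0, 0, 0, 1, 1, 0], [1, 0, 0, 0, 1, 1, 1, 0, 1, 1, 0, 0,
  1, 0, 0, 0], [1, 0, 0, 1, 1, 0, 1, 0, 0, 1, 0, 1, 1, 0, 0, 0], [0, 1, 0, 0, 1, 1, 1, 1, 1, 0,
  0, 1, 0, 0, 0, 0]])
    (by decide +kernel) (by decide +kernel)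

theorem cf7x17 : HasCf 7 17 :=
HasCf.of_ok (n := 17) (m := 5) (S := lm [[0, 1, 1, 0, 0, 1, 0, 0, 0, 0, 0, 0, 0, 0, 0, 0, 0],
  [1, 0, -1, 0, 1, 0, 0, 0, 0, 0, 0, 0, 0, 0, 0, 0, 0], [1, -1, 0, 0, 0, 0, 0, 1, 0, -1, 0, 0,
  0, 0, 0, 0, 0], [0, 0, 0, 0, 1, 0, 1, 1, 0, 0, 1, 0, 0, 0, 0, 0, 0], [0, 1, 0, 1, 0, 1, 0, 0,
  0, 1, 0, 0, 0, 0, 0, 0, 0], [1, 0, 0, 0, 1, 0, 0, 0, 0, 0, 0, 0, 0, 0, 0, 0, 0], [0, 0, 0, 1,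
  0, 0, 0, 0, 0, 0, 0, 0, 0, 0, 1, 0, 0], [0, 0, 1, 1, 0, 0, 0, 0, 0, 0, 0, 0, 0, 0, 0, 0, 0],
  [0, 0, 0, 0, 0, 0, 0, 0, 0, 0, 1, 0, 0, -1, 0, 0, 0], [0, 0, -1, 0, 1, 0, 0, 0, 0, 0, 0, 0, 0,
  0, 0, 0, 0], [0, 0, 0, 1, 0, 0, 0, 0, 1, 0, 0, 0, 0, 0, 0, 0, 0], [0, 0, 0, 0, 0, 0, 0, 0, 0,
  0, 0, 0, 1, 0, 0, 0, -1], [0, 0, 0, 0, 0, 0, 0, 0, 0, 0, 0, 1, 0, 1, 0, 0, 0], [0, 0, 0, 0, 0,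
  0, 0, 0, -1, 0, 0, 0, 1, 0, 0, 0, 0], [0, 0, 0, 0, 0, 0, 1, 0, 0, 0, 0, 0, 0, 0, 0, 1, 0], [0,
  0, 0, 0, 0, 0, 0, 0, 0, 0, 0, 0, 0, 0, 1, 0, 1], [0, 0, 0, 0, 0, 0, 0, 0, 0, 0, 0, -1, 0, 0,
  0, 1, 0]]) (D := lv [0, 0, 1, 1, 1, 1, 1, 1, 1, 1, 1, 1, 1, 1, 1, 1, 1]) (t := lv [1, 1, 1, 1,
  1, 0, 0, 0, 0, 0, 0, 0, 0, 0, 0, 0, 0]) (x := lv [2, 2, -1, -2, -3, -1, 2, -3, 4, -2, 2, 4, 2,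
  -2, 4, 2, -2]) (z := lv [0, 0, 1, 0, 1, 1, 0, 1, 0, 0, 0, 0, 0, 0, 0, 0, 0]) (γ := lv [1, 0,
  1, 1, 1, 0, 1, 0, 0, 0, 1, 0, 1, 1, 0, 1, 1]) (a := 5) (b := 6) (e := 7) (d := 10) (u := 6) (v
  := 14) (L := lm [[0, 0, 0, 0, 0, 0, 0, 0, 0, 0, 0, 0, 0, 0, 0, 0, 0], [0, -4, -2, 0, 2, 2, 0,
  -2, 0, 4, 0, 0, 0, 0, 0, 0, 0], [2, 0, 1, 0, -1, 1, 0, 1, 0, -2, 0, 0, 0, 0, 0, 0, 0], [0, 0,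
  2, 0, 2, 2, 0, 2, 0, 0, 0, 0, 0, 0, 0, 0, 0], [2, 4, 1, 0, -1, 1, 0, 1, 0, -2, 0, 0, 0, 0, 0,
  0, 0], [2, 4, 1, 0, -1, -3, 0, 1, 0, -2, 0, 0, 0, 0, 0, 0, 0], [0, 0, -2, 0, -2, -2, 0, -2, 4,
  0, 4, 4, 4, 0, 4, 4, 0], [2, 0, 3, 0, 1, 3, 0, -1, 0, -2, 0, 0, 0, 0, 0, 0, 0], [-4, -4, -2,
  4, 2, -2, 0, 2, -4, 4, 0, -4, -4, 0, -4, -4, 0], [0, 4, 0, 0, 0, 0, 0, 0, 0, -4, 0, 0, 0, 0,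
  0, 0, 0], [-4, -4, 0, 4, 4, 0, 0, 4, -4, 4, -4, -4, -4, 0, -4, -4, 0], [-4, -4, -2, 4, 2, -2,
  0, 2, -4, 4, 0, -4, 0, 4, -4, -4, 0], [-4, -4, 0, 4, 4, 0, 0, 4, -8, 4, -4, -4, -4, 4, -4, -4,
  0], [0, 0, 2, 0, 2, 2, 0, 2, -4, 0, -4, 0, 0, 0, 0, 0, 0], [0, 0, -4, 0, -4, -4, 4, -4, 4, 0,
  4, 4, 4, 0, 4, 4, 0], [0, 0, -2, 0, -2, -2, 4, -2, 0, 0, 0, 0, 0, 0, 4, 0, 0], [0, 0, 2, 0, 2,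
  2, 0, 2, -4, 0, -4, -4, -4, 0, 0, 0, 0]]) (L2 := lm [[0, 1, 1, 1, 1, 1, 1, 0, 0, 0, 1, 0, 1,
  1, 0, 1, 1], [1, 1, 0, 0, 0, 1, 0, 0, 0, 0, 0, 0, 0, 0, 0, 0, 0], [0, 0, 0, 0, 0, 0, 0, 0, 0,
  0, 0, 0, 0, 0, 0, 0, 0], [1, 0, 0, 0, 1, 0, 0, 0, 0, 1, 0, 0, 0, 0, 0, 0, 0], [0, 0, 1, 1, 1,
  1, 1, 0, 0, 0, 1, 0, 1, 1, 0, 1, 1], [0, 1, 0, 0, 0, 1, 0, 0, 0, 0, 0, 0, 0, 0, 0, 0, 0], [1,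
  0, 0, 0, 1, 0, 0, 0, 1, 1, 1, 1, 1, 0, 1, 1, 0], [1, 0, 1, 0, 0, 1, 0, 0, 0, 1, 0, 0, 0, 0, 0,
  0, 0], [0, 0, 0, 0, 0, 0, 1, 0, 1, 0, 1, 1, 0, 1, 1, 0, 1], [0, 0, 1, 1, 1, 1, 1, 0, 0, 1, 1,
  0, 1, 1, 0, 1, 1], [1, 0, 0, 0, 1, 0, 1, 0, 1, 1, 0, 1, 0, 1, 1, 0, 1], [0, 0, 0, 0, 0, 0, 1,
  0, 1, 0, 1, 1, 1, 0, 1, 0, 1], [1, 0, 0, 0, 1, 0, 1, 0, 0, 1, 0, 1, 0, 0, 1, 0, 1], [1, 0, 0,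
  0, 1, 0, 0, 0, 1, 1, 1, 0, 0, 0, 0, 0, 0], [0, 0, 0, 0, 0, 0, 1, 0, 1, 0, 1, 1, 1, 0, 1, 1,
  0], [1, 0, 0, 0, 1, 0, 1, 0, 0, 1, 0, 0, 0, 0, 1, 0, 0], [1, 0, 0, 0, 1, 0, 0, 0, 1, 1, 1, 1,
  1, 0, 0, 0, 0]]) (δ := 2) (p := 0) (q := 2) (C := lm [[0, 0, 0, 1, 1, 0, 1, 0, 0, 0, 0, 0, 1,
  1, 1, 1, 0], [0, 0, 0, 0, 0, 0, 1, 0, 1, 1, 1, 1, 0, 0, 1, 0, 1], [0, 0, 0, 1, 1, 1, 0, 0, 1,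
  0, 0, 1, 0, 1, 0, 0, 0], [1, 0, 1, 0, 0, 0, 0, 0, 0, 0, 0, 1, 1, 0, 1, 1, 0], [1, 0, 1, 0, 0,
  0, 0, 1, 1, 0, 1, 0, 0, 0, 0, 0, 1], [0, 0, 1, 0, 0, 0, 0, 0, 0, 1, 1, 1, 0, 1, 0, 0, 1], [1,
  1, 0, 0, 0, 0, 0, 0, 0, 0, 0, 1, 1, 0, 0, 1, 1], [0, 0, 0, 0, 1, 0, 0, 0, 0, 1, 0, 0, 1, 1, 1,
  1, 0], [0, 1, 1, 0, 1, 0, 0, 0, 0, 0, 0, 0, 1, 0, 1, 1, 1], [0, 1, 0, 0, 0, 1, 0, 1, 0, 0, 1,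
  1, 0, 1, 0, 0, 1], [0, 1, 0, 0, 1, 1, 0, 0, 0, 1, 0, 0, 1, 1, 0, 0, 0], [0, 1, 1, 1, 0, 1, 1,
  0, 0, 1, 0, 0, 0, 0, 0, 1, 0], [1, 0, 0, 1, 0, 0, 1, 1, 1, 0, 1, 0, 0, 0, 0, 1, 0], [1, 0, 1,
  0, 0, 1, 0, 1, 0, 1, 1, 0, 0, 0, 1, 0, 0], [1, 1, 0, 1, 0, 0, 0, 1, 1, 0, 0, 0, 0, 1, 0, 0,
  1], [1, 0, 0, 1, 0, 0, 1, 1, 1, 0, 0, 1, 1, 0, 0, 0, 0], [0, 1, 0, 0, 1, 1, 1, 0, 1, 1, 0, 0,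
  0, 0, 1, 0, 0]])
    (by decide +kernel) (by decide +kernel)

theorem cf8x13 : HasCf 8 13 :=
HasCf.of_ok (n := 13) (m := 6) (S := lm [[0, 0, 0, 0, 0, 0, 0, 1, 1, 0, 0, 0, -1], [0, 0, 0, 1,
  0, 0, 0, 0, 1, 1, 0, 0, 0], [0, 0, 0, 0, -1, -1, 0, 0, 0, 0, 1, 0, 0], [0, 1, 0, 0, 1, -1, 0,
  0, 0, 0, 0, 0, 0], [0, 0, -1, 1, 0, 0, 1, 0, 0, 1, 0, 0, 0], [0, 0, -1, -1, 0, 0, 1, 1, 0, 0,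
  0, 0, 0], [0, 0, 0, 0, 1, 1, 0, 0, 0, 0, 0, 0, 0], [1, 0, 0, 0, 0, 1, 0, 0, 0, 0, 0, 0, 0],
  [1, 1, 0, 0, 0, 0, 0, 0, 0, 0, 0, 0, 0], [0, 1, 0, 0, 1, 0, 0, 0, 0, 0, 0, 0, 0], [0, 0, 1, 0,
  0, 0, 0, 0, 0, 0, 0, 1, 0], [0, 0, 0, 0, 0, 0, 0, 0, 0, 0, 1, 0, 1], [-1, 0, 0, 0, 0, 0, 0, 0,
  0, 0, 0, 1, 0]]) (D := lv [0, 0, 0, 0, 1, 1, 1, 1, 1, 1, 1, 1, 1]) (t := lv [1, 1, 1, 1, 1, 1,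
  0, 0, 0, 0, 0, 0, 0]) (x := lv [-2, 4, -1, -3, -3, 1, -2, -1, 2, 1, -2, -1, 1]) (z := lv [0,
  0, 1, 1, 1, 1, 0, 1, 0, 1, 0, 1, 1]) (γ := lv [0, 0, 0, 1, 0, 1, 1, 1, 0, 0, 0, 0, 0]) (a :=
  6) (b := 7) (e := 8) (d := 9) (u := 2) (v := 10) (L := lm [[0, 0, 0, 0, 0, 0, 0, 0, 0, 0, 0,
  0, 0], [2, -6, 0, 4, 4, -2, 2, 0, -4, -2, 2, 2, 0], [-3, 5, 0, -4, -3, 2, -1, -1, 2, 2, -3,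
  -3, 0], [-1, 3, 0, -2, -3, 2, -1, 1, 2, 0, -1, -1, 0], [-3, 7, 0, -6, -5, 2, -3, -1, 4, 2, -3,
  -3, 0], [-1, 1, 0, 0, -1, 0, -1, -1, 0, 0, -1, -1, 0], [-4, 8, 0, -6, -6, 2, -2, -2, 4, 2, -4,
  -4, 0], [-1, 1, 0, 0, -1, 0, -1, 1, 0, 0, -1, -1, 0], [2, -6, 0, 4, 4, -2, 2, 0, -2, -2, 2, 2,
  0], [-1, 1, 0, -2, -1, 0, -1, -1, 0, 2, -1, -1, 0], [-4, 8, -2, -6, -6, 2, -4, -2, 4, 2, -4,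
  -4, 0], [-1, 3, -2, -2, -3, 0, -3, -1, 2, 0, -3, -1, 0], [3, -5, 0, 4, 3, -2, 1, 1, -2, -2, 1,
  1, 0]]) (L2 := lm [[1, 1, 0, 0, 1, 0, 1, 1, 0, 0, 1, 1, 0], [1, 1, 0, 0, 0, 1, 1, 0, 0, 1, 1,
  1, 0], [0, 0, 0, 0, 0, 0, 0, 0, 0, 0, 0, 0, 0], [0, 0, 0, 1, 1, 0, 1, 0, 0, 1, 0, 0, 0], [1,
  0, 0, 1, 0, 0, 0, 1, 1, 0, 1, 1, 0], [0, 1, 0, 0, 0, 1, 1, 1, 1, 1, 0, 0, 0], [1, 1, 0, 1, 0,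
  1, 0, 0, 0, 1, 1, 1, 0], [1, 0, 0, 0, 1, 1, 0, 1, 1, 1, 1, 1, 0], [0, 0, 0, 0, 1, 1, 0, 1, 1,
  1, 0, 0, 0], [0, 1, 0, 1, 0, 1, 1, 1, 1, 0, 0, 0, 0], [1, 1, 1, 1, 0, 1, 1, 0, 0, 1, 1, 1, 0],
  [1, 1, 1, 1, 0, 1, 1, 0, 0, 1, 0, 1, 0], [0, 0, 0, 0, 0, 0, 0, 0, 0, 0, 1, 1, 0]]) (δ := 1) (p
  := 0) (q := 2) (C := lm [[0, 1, 1, 1, 1, 1, 1, 0, 0, 1, 1, 0, 0], [1, 0, 1, 0, 0, 1, 1, 1, 0,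
  0, 1, 1, 1], [1, 1, 0, 1, 0, 0, 1, 1, 1, 0, 0, 1, 1], [1, 0, 1, 0, 0, 0, 1, 0, 1, 1, 1, 1, 1],
  [1, 0, 0, 0, 0, 1, 0, 1, 1, 0, 1, 1, 1], [1, 1, 0, 0, 1, 0, 0, 0, 1, 1, 1, 1, 0], [1, 1, 1, 1,
  0, 0, 0, 0, 0, 1, 1, 0, 1], [0, 1, 1, 0, 1, 0, 0, 0, 1, 0, 1, 1, 1], [0, 0, 1, 1, 1, 1, 0, 1,
  0, 0, 0, 1, 1], [1, 0, 0, 1, 0, 1, 1, 0, 0, 0, 1, 1, 1], [1, 1, 0, 1, 1, 1, 1, 1, 0, 1, 0, 0,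
  0], [0, 1, 1, 1, 1, 1, 0, 1, 1, 1, 0, 0, 0], [0, 1, 1, 1, 1, 0, 1, 1, 1, 1, 0, 0, 0]])
    (by decide +kernel) (by decide +kernel)

theorem cf9x19 : HasCf 9 19 :=
HasCf.of_ok (n := 19) (m := 5) (S := lm [[0, 0, 1, 0, 1, 0, 0, 0, 0, 0, 0, 0, -1, 0, 0, 0, 0, 0,
  0], [0, 0, 1, 0, 0, 0, 1, 0, 1, 0, 0, 0, 0, 0, 0, 0, 0, 0, 0], [1, 1, 0, 1, 0, 0, 0, 0, 0, 1,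
  0, 0, 0, 0, 0, 0, 0, 0, 0], [0, 0, 1, 0, 1, 1, 1, 0, 0, 0, 0, 0, 0, 0, 0, 0, 0, 0, 0], [1, 0,
  0, 1, 0, 0, 0, 1, 1, 0, 0, 0, 0, 0, 0, 0, 0, 0, 0], [0, 0, 0, 1, 0, 0, 0, 1, 0, 0, 0, 0, 0, 0,
  0, 0, 0, 0, 0], [0, 1, 0, 1, 0, 0, 0, 0, 0, 0, 0, 0, 0, 0, 0, 0, 0, 0, 0], [0, 0, 0, 0, 1, 1,
  0, 0, 0, 0, 0, 0, 0, 0, 0, 0, 0, 0, 0], [0, 1, 0, 0, 1, 0, 0, 0, 0, 0, 0, 0, 0, 0, 0, 0, 0, 0,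
  0], [0, 0, 1, 0, 0, 0, 0, 0, 0, 0, 0, 0, 0, 0, 0, 0, 1, 0, 0], [0, 0, 0, 0, 0, 0, 0, 0, 0, 0,
  0, 1, 0, 0, 0, -1, 0, 0, 0], [0, 0, 0, 0, 0, 0, 0, 0, 0, 0, 1, 0, 1, 0, 0, 0, 0, 0, 0], [-1,
  0, 0, 0, 0, 0, 0, 0, 0, 0, 0, 1, 0, 0, 0, 0, 0, 0, 0], [0, 0, 0, 0, 0, 0, 0, 0, 0, 0, 0, 0, 0,
  0, 1, 0, 0, 0, -1], [0, 0, 0, 0, 0, 0, 0, 0, 0, 0, 0, 0, 0, 1, 0, 1, 0, 0, 0], [0, 0, 0, 0, 0,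
  0, 0, 0, 0, 0, -1, 0, 0, 0, 1, 0, 0, 0, 0], [0, 0, 0, 0, 0, 0, 0, 0, 0, 1, 0, 0, 0, 0, 0, 0,
  0, 1, 0], [0, 0, 0, 0, 0, 0, 0, 0, 0, 0, 0, 0, 0, 0, 0, 0, 1, 0, 1], [0, 0, 0, 0, 0, 0, 0, 0,
  0, 0, 0, 0, 0, -1, 0, 0, 0, 1, 0]]) (D := lv [0, 0, 1, 1, 1, 1, 1, 1, 1, 1, 1, 1, 1, 1, 1, 1,
  1, 1, 1]) (t := lv [1, 1, 1, 1, 1, 0, 0, 0, 0, 0, 0, 0, 0, 0, 0, 0, 0, 0, 0]) (x := lv [-1,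
  -1, 2, 3, -3, 2, 2, -1, -4, 1, -1, -2, -1, -1, -2, -1, -1, -2, -1]) (z := lv [1, 1, 0, 1, 1,
  0, 0, 1, 0, 1, 1, 0, 1, 1, 0, 1, 1, 0, 1]) (γ := lv [1, 0, 1, 0, 0, 1, 0, 1, 0, 0, 1, 1, 0, 1,
  1, 0, 1, 1, 0]) (a := 5) (b := 6) (e := 9) (d := 7) (u := 9) (v := 16) (L := lm [[0, 0, 0, 0,
  0, 0, 0, 0, 0, 0, 0, 0, 0, 0, 0, 0, 0, 0, 0], [1, 0, -1, -2, 2, -1, -2, 1, 2, 0, 1, 1, 0, 1,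
  1, 0, 1, 1, 0], [-2, -1, 2, 4, -4, 3, 3, -1, -5, 0, -2, -2, 0, -2, -2, 0, -2, -2, 0], [-2, -1,
  2, 5, -5, 3, 4, -2, -6, 0, -2, -2, 0, -2, -2, 0, -2, -2, 0], [2, 1, -2, -5, 5, -4, -4, 1, 6,
  0, 2, 2, 0, 2, 2, 0, 2, 2, 0], [-1, 0, 1, 2, -3, 2, 2, -1, -3, 0, -1, -1, 0, -1, -1, 0, -1,
  -1, 0], [-1, -1, 1, 3, -3, 2, 3, -1, -4, 0, -1, -1, 0, -1, -1, 0, -1, -1, 0], [1, 1, -1, -3,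
  2, -2, -2, 1, 3, 0, 1, 1, 0, 1, 1, 0, 1, 1, 0], [3, 1, -3, -7, 7, -5, -6, 2, 9, 0, 3, 3, 0, 3,
  3, 0, 3, 3, 0], [-1, 0, 0, 1, -1, 1, 1, 0, -1, 0, -1, -1, 0, -1, -1, 0, -1, -1, 0], [0, 0, 0,
  0, 0, 0, 0, 0, 0, 0, 0, -1, -1, 0, 0, 0, 0, 0, 0], [1, 0, 0, -1, 1, -1, -1, 0, 1, 0, 0, 0, -1,
  0, 0, 0, 0, 0, 0], [1, 0, 0, -1, 1, -1, -1, 0, 1, 0, 0, 0, 0, 0, 0, 0, 0, 0, 0], [0, 0, 0, 0,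
  0, 0, 0, 0, 0, 0, 0, -1, -1, 0, -1, -1, 0, 0, 0], [1, 0, 0, -1, 1, -1, -1, 0, 1, 0, 1, 0, -1,
  0, 0, -1, 0, 0, 0], [1, 0, 0, -1, 1, -1, -1, 0, 1, 0, 1, 1, 0, 0, 0, 0, 0, 0, 0], [1, 1, -2,
  -3, 3, -2, -2, 1, 4, -1, 1, 1, 0, 1, 1, 0, 1, 1, 0], [2, 1, -2, -4, 4, -3, -3, 1, 5, -1, 2, 2,
  0, 2, 2, 0, 1, 2, 0], [1, 0, 0, -1, 1, -1, -1, 0, 1, 0, 1, 1, 0, 1, 1, 0, 0, 0, 0]]) (L2 := lm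
  [[0, 0, 0, 0, 0, 0, 0, 0, 0, 0, 0, 0, 0, 0, 0, 0, 0, 0, 0], [1, 0, 1, 0, 0, 1, 0, 1, 0, 0, 1,
  1, 0, 1, 1, 0, 1, 1, 0], [0, 1, 0, 0, 0, 1, 1, 1, 1, 0, 0, 0, 0, 0, 0, 0, 0, 0, 0], [0, 1, 0,
  1, 1, 1, 0, 0, 0, 0, 0, 0, 0, 0, 0, 0, 0, 0, 0], [0, 1, 0, 1, 1, 0, 0, 1, 0, 0, 0, 0, 0, 0, 0,
  0, 0, 0, 0], [1, 0, 1, 0, 1, 0, 0, 1, 1, 0, 1, 1, 0, 1, 1, 0, 1, 1, 0], [1, 1, 1, 1, 1, 0, 1,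
  1, 0, 0, 1, 1, 0, 1, 1, 0, 1, 1, 0], [1, 1, 1, 1, 0, 0, 0, 1, 1, 0, 1, 1, 0, 1, 1, 0, 1, 1,
  0], [1, 1, 1, 1, 1, 1, 0, 0, 1, 0, 1, 1, 0, 1, 1, 0, 1, 1, 0], [1, 0, 0, 1, 1, 1, 1, 0, 1, 0,
  1, 1, 0, 1, 1, 0, 1, 1, 0], [0, 0, 0, 0, 0, 0, 0, 0, 0, 0, 0, 1, 1, 0, 0, 0, 0, 0, 0], [1, 0,
  0, 1, 1, 1, 1, 0, 1, 0, 0, 0, 1, 0, 0, 0, 0, 0, 0], [1, 0, 0, 1, 1, 1, 1, 0, 1, 0, 0, 0, 0, 0,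
  0, 0, 0, 0, 0], [0, 0, 0, 0, 0, 0, 0, 0, 0, 0, 0, 1, 1, 0, 1, 1, 0, 0, 0], [1, 0, 0, 1, 1, 1,
  1, 0, 1, 0, 1, 0, 1, 0, 0, 1, 0, 0, 0], [1, 0, 0, 1, 1, 1, 1, 0, 1, 0, 1, 1, 0, 0, 0, 0, 0, 0,
  0], [1, 1, 0, 1, 1, 0, 0, 1, 0, 1, 1, 1, 0, 1, 1, 0, 1, 1, 0], [0, 1, 0, 0, 0, 1, 1, 1, 1, 1,
  0, 0, 0, 0, 0, 0, 1, 0, 0], [1, 0, 0, 1, 1, 1, 1, 0, 1, 0, 1, 1, 0, 1, 1, 0, 0, 0, 0]]) (δ :=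
  1) (p := 0) (q := 0) (C := lm [[0, 0, 0, 1, 0, 1, 1, 1, 1, 0, 0, 1, 0, 1, 0, 1, 1, 0, 0], [0,
  0, 0, 0, 1, 1, 0, 0, 0, 1, 1, 1, 1, 0, 0, 1, 0, 1, 1], [0, 0, 0, 0, 1, 1, 0, 0, 1, 0, 0, 1, 0,
  1, 1, 0, 0, 1, 1], [1, 0, 0, 0, 0, 0, 0, 0, 0, 1, 0, 0, 0, 1, 1, 1, 1, 1, 1], [0, 1, 1, 0, 0,
  1, 0, 0, 0, 1, 1, 1, 0, 1, 0, 0, 0, 1, 0], [1, 1, 1, 0, 1, 0, 0, 0, 0, 0, 0, 1, 0, 0, 0, 1, 1,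
  1, 0], [1, 0, 0, 0, 0, 0, 0, 0, 0, 1, 1, 0, 1, 0, 1, 1, 1, 1, 0], [1, 0, 0, 0, 0, 0, 0, 0, 0,
  0, 1, 0, 1, 1, 0, 1, 1, 1, 1], [1, 0, 1, 0, 0, 0, 0, 0, 0, 0, 1, 1, 1, 1, 1, 1, 1, 0, 0], [0,
  1, 0, 1, 1, 0, 1, 0, 0, 0, 1, 0, 1, 1, 1, 0, 0, 0, 0], [0, 1, 0, 0, 1, 0, 1, 1, 1, 1, 0, 0, 1,
  1, 0, 0, 0, 0, 1], [1, 1, 1, 0, 1, 1, 0, 0, 1, 0, 0, 0, 0, 0, 1, 0, 1, 0, 1], [0, 1, 0, 0, 0,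
  0, 1, 1, 1, 1, 1, 0, 0, 0, 1, 0, 0, 1, 1], [1, 0, 1, 1, 1, 0, 0, 1, 1, 1, 1, 0, 0, 0, 0, 0, 1,
  0, 0], [0, 0, 1, 1, 0, 0, 1, 0, 1, 1, 0, 1, 1, 0, 0, 0, 1, 0, 1], [1, 1, 0, 1, 0, 1, 1, 1, 1,
  0, 0, 0, 0, 0, 0, 0, 0, 1, 1], [1, 0, 0, 1, 0, 1, 1, 1, 1, 0, 0, 1, 0, 1, 1, 0, 0, 0, 0], [0,
  1, 1, 1, 1, 1, 1, 1, 0, 0, 0, 0, 1, 0, 0, 1, 0, 0, 0], [0, 1, 1, 1, 0, 0, 0, 1, 0, 0, 1, 1, 1,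
  0, 1, 1, 0, 0, 0]])
    (by decide +kernel) (by decide +kernel)

end Pool.Agent.H93.Nut
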