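import Pool.Agent.H93.Nut.SeedsOne
import Pool.Agent.H93.Nut.SeedsTwo

/-!
Odd degrees.
-/

set_option autoImplicit false
set_option linter.unusedVariables false

namespace Pool.Agent.H93.Nut

open Finset Pool.Agent.TH296.Nut

/-- there is a skeleton of order `N` -/
def HasSk (m : ℤ) (N : ℕ) : Prop :=
  ∃ (P : Type) (_ : Fintype P) (_ : DecidableEq P) (S : P → P → ℤ) (D t x : P → ℤ)
    (z γ : P → ZMod 2) (a b e d u v : P), Sk m S D t x z γ a b e d u v ∧ Fintype.card P = N

theorem HasSk.grow {m : ℤ} {N : ℕ} (h : HasSk m N) : HasSk m (N + 3) := by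
  obtain ⟨P, _, _, S, D, t, x, z, γ, a, b, e, d, u, v, h, rfl⟩ := h
  exact ⟨O3 P, inferInstance, inferInstance, _, _, _, _, _, _, _, _, _, _, _, _, h.grow, by
    rw [Fintype.card_option, Fintype.card_option, Fintype.card_option]⟩

theorem HasSk.grows {m : ℤ} {N : ℕ} (h : HasSk m N) (k : ℕ) : HasSk m (N + 3 * k) := by
  induction k with
  | zero => exact h
  | succ k ih => exact ih.grow

theorem HasSk.base {m : ℤ} {N : ℕ} (h : HasSk m N) (c r : ℕ) (hr : 1 ≤ r)
    (hN : N = r + 3 + c) (hm : m + 4 < r * (c - 1 - r))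
    (hev : Even ((r : ℤ) * N - m)) : HasCf c N := by
  obtain ⟨P, _, _, S, D, t, x, z, γ, a, b, e, d, u, v, h, rfl⟩ := h
  exact h.base c r hr hN hm hev

theorem sk_even {N : ℕ} (hN : 9 ≤ N) : (N % 3 = 0 ∧ HasSk 2 N) ∨ (N % 3 = 1 ∧ HasSk 6 N) ∨
    (N % 3 = 2 ∧ HasSk 4 N) := by
  have h : N % 3 = 0 ∨ N % 3 = 1 ∨ N % 3 = 2 := by omega
  rcases h with h | h | h
  · left
    refine ⟨h, ?_⟩
    obtain ⟨k, rfl⟩ : ∃ k, N = 9 + 3 * k := ⟨(N - 9) / 3, by omega⟩
    exact HasSk.grows ⟨_, _, _, _, _, _, _, _, _, _, _, _, _, _, _, skA, Fintype.card_fin 9⟩ k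
  · right; left
    refine ⟨h, ?_⟩
    obtain ⟨k, rfl⟩ : ∃ k, N = 10 + 3 * k := ⟨(N - 10) / 3, by omega⟩
    exact HasSk.grows ⟨_, _, _, _, _, _, _, _, _, _, _, _, _, _, _, skB, Fintype.card_fin 10⟩ k
  · right; right
    refine ⟨h, ?_⟩
    obtain ⟨k, rfl⟩ : ∃ k, N = 11 + 3 * k := ⟨(N - 11) / 3, by omega⟩
    exact HasSk.grows ⟨_, _, _, _, _, _, _, _, _, _, _, _, _, _, _, skC, Fintype.card_fin 11⟩ k

theorem sk_odd {N : ℕ} (hN : 10 ≤ N) : HasSk 5 N := by
  have h : N % 3 = 0 ∨ N % 3 = 1 ∨ N % 3 = 2 := by omega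
  rcases h with h | h | h
  · obtain ⟨k, rfl⟩ : ∃ k, N = 12 + 3 * k := ⟨(N - 12) / 3, by omega⟩
    exact HasSk.grows ⟨_, _, _, _, _, _, _, _, _, _, _, _, _, _, _, skF, Fintype.card_fin 12⟩ k
  · obtain ⟨k, rfl⟩ : ∃ k, N = 10 + 3 * k := ⟨(N - 10) / 3, by omega⟩
    exact HasSk.grows ⟨_, _, _, _, _, _, _, _, _, _, _, _, _, _, _, skD, Fintype.card_fin 10⟩ k
  · obtain ⟨k, rfl⟩ : ∃ k, N = 11 + 3 * k := ⟨(N - 11) / 3, by omega⟩
    exact HasSk.grows ⟨_, _, _, _, _, _, _, _, _, _, _, _, _, _, _, skE, Fintype.card_fin 11⟩ k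

theorem base_ten {c r : ℕ} (hr : 1 ≤ r) (hN : 10 ≤ r + 3 + c)
    (hm : (10 : ℤ) < r * (c - 1 - r)) : HasCf c (r + 3 + c) := by
  by_cases hev : Even (r * (r + 3 + c))
  · have hev' : Even ((r : ℤ) * ((r + 3 + c : ℕ) : ℤ)) := by exact_mod_cast hev
    rcases sk_even (N := r + 3 + c) (by omega) with ⟨-, h⟩ | ⟨-, h⟩ | ⟨-, h⟩
    · exact h.base c r hr rfl (by linarith) (hev'.sub ⟨1, by norm_num⟩)
    · exact h.base c r hr rfl (by linarith) (hev'.sub ⟨3, by norm_num⟩)
    · exact h.base c r hr rfl (by linarith) (hev'.sub ⟨2, by norm_num⟩)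
  · have hev' : Odd ((r : ℤ) * ((r + 3 + c : ℕ) : ℤ)) := by
      exact_mod_cast Nat.not_even_iff_odd.1 hev
    exact (sk_odd hN).base c r hr rfl (by linarith) (hev'.sub_odd ⟨2, by norm_num⟩)

theorem cf_base {c r : ℕ} (hc : 6 ≤ c) (hr : 2 ≤ r) (hr7 : r ≤ 7) (hrc : Even c → r ≤ 4) :
    HasCf c (r + 3 + c) := by
  rcases Nat.even_or_odd c with he | ho
  · have hr4 := hrc he
    by_cases h10 : 10 ≤ c
    · apply base_ten (by omega) (by omega)
      have h : r = 2 ∨ r = 3 ∨ r = 4 := by omega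
      rcases h with h | h | h <;> subst h <;> push_cast <;> omega
    · have h : c = 6 ∨ c = 8 := by
        obtain ⟨k, rfl⟩ := he
        omega
      rcases h with h | h
      · subst h
        have h : r = 2 ∨ r = 3 ∨ r = 4 := by omega
        rcases h with h | h | h <;> subst h
        · exact cf6x11
        · exact cf6x12
        · exact cf6x13
      · subst h
        have h : r = 2 ∨ r = 3 ∨ r = 4 := by omega
        rcases h with h | h | h <;> subst h
        · exact cf8x13
        · exact base_ten (by omega) (by omega) (by norm_num)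
        · exact base_ten (by omega) (by omega) (by norm_num)
  · by_cases h11 : 11 ≤ c
    · apply base_ten (by omega) (by omega)
      have h : r = 2 ∨ r = 3 ∨ r = 4 ∨ r = 5 ∨ r = 6 ∨ r = 7 := by omega
      rcases h with h | h | h | h | h | h <;> subst h <;> push_cast <;> omega
    · have h : c = 7 ∨ c = 9 := by
        obtain ⟨k, rfl⟩ := ho
        omega
      rcases h with h | h
      · subst h
        have h : r = 2 ∨ r = 3 ∨ r = 4 ∨ r = 5 ∨ r = 6 ∨ r = 7 := by omega
        rcases h with h | h | h | h | h | h <;> subst h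
        · rcases sk_even (N := 12) (by norm_num) with ⟨-, h⟩ | ⟨h, -⟩ | ⟨h, -⟩
          · exact h.base 7 2 (by norm_num) rfl (by norm_num) (by decide)
          · norm_num at h
          · norm_num at h
        · exact cf7x13
        · exact cf7x14
        · exact cf7x15
        · exact cf7x16
        · exact cf7x17
      · subst h
        have h : r = 2 ∨ r = 3 ∨ r = 4 ∨ r = 5 ∨ r = 6 ∨ r = 7 := by omega
        rcases h with h | h | h | h | h | h <;> subst h
        · exact base_ten (by omega) (by omega) (by norm_num)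
        · exact base_ten (by omega) (by omega) (by norm_num)
        · exact base_ten (by omega) (by omega) (by norm_num)
        · exact base_ten (by omega) (by omega) (by norm_num)
        · exact base_ten (by omega) (by omega) (by norm_num)
        · exact cf9x19

theorem cf_all {c : ℕ} (hc : 6 ≤ c) : ∀ N : ℕ, c + 5 ≤ N → HasCf c N := by
  intro N
  induction N using Nat.strong_induction_on with
  | _ N ih =>
    intro hN
    rcases Nat.even_or_odd c with he | ho
    · by_cases h : N ≤ c + 7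
      · have := cf_base (c := c) (r := N - 3 - c) hc (by omega) (by omega) (fun _ => by omega)
        rwa [show N - 3 - c + 3 + c = N by omega] at this
      · have := (ih (N - 3) (by omega) (by omega)).even he hc (by omega)
        rwa [show N - 3 + 3 = N by omega] at this
    · have hc7 : 7 ≤ c := by
        obtain ⟨k, rfl⟩ := ho
        omega
      by_cases h : N ≤ c + 10
      · have := cf_base (c := c) (r := N - 3 - c) hc (by omega) (by omega)
          (fun he => absurd he (Nat.not_even_iff_odd.2 ho))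
        rwa [show N - 3 - c + 3 + c = N by omega] at this
      · have := (ih (N - 6) (by omega) (by omega)).odd hc7 (by omega)
        rwa [show N - 6 + 6 = N by omega] at this

/-- Odd degrees at least fifteen. -/
theorem good_odd {ρ n : ℕ} (hρ : Odd ρ) (h15 : 15 ≤ ρ) (hn : Even n) (hn2 : ρ + 5 ≤ n) :
    Good ρ n := by
  obtain ⟨k, rfl⟩ := hρ
  obtain ⟨N, rfl⟩ := hn
  by_cases h : N + N = 2 * k + 1 + 5
  · have := seed_five (n := N + N) (by omega)
    rwa [show N + N - 5 = 2 * k + 1 by omega] at this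
  · have := (cf_all (c := k - 1) (by omega) N (by omega)).good
    rwa [show 2 * (k - 1) + 3 = 2 * k + 1 by omega, show 2 * N = N + N by omega] at this

end Pool.Agent.H93.Nut
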