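import Pool.Agent.H93.Nut.Seed

/-!
Six skeletons.
-/

set_option autoImplicit false
set_option maxRecDepth 100000

namespace Pool.Agent.H93.Nut

theorem skA : Sk (P := Fin 9) 2 (lm [[0, 1, 0, 0, 0, 1, 1, 0, 0], [1, 0, 1, 1, 0, 0, 0, 0, 0],
  [0, 1, 0, 0, 0, 0, 0, 0, -1], [0, 1, 0, 0, 1, 0, 0, 0, 0], [0, 0, 0, 1, 0, 0, 0, 1, 0], [1, 0,
  0, 0, 0, 0, 0, 0, 1], [1, 0, 0, 0, 0, 0, 0, 1, 0], [0, 0, 0, 0, 1, 0, 1, 0, 0], [0, 0, -1, 0,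
  0, 1, 0, 0, 0]]) (lv [0, 0, 1, 1, 1, 1, 1, 1, 1]) (lv [1, 1, 0, 0, 0, 0, 0, 0, 0]) (lv [-1, 1,
  -1, 2, 1, 1, -2, -1, 2]) (fun i => ((lv [1, 1, 1, 0, 1, 1, 0, 1, 0] i : ℤ) : ZMod 2)) (fun i
  => ((lv [1, 0, 1, 1, 1, 0, 1, 0, 1] i : ℤ) : ZMod 2)) 2 3 4 6 7 6 :=
Sk.of_ok (L := lm [[0, 0, 0, 0, 0, 0, 0, 0, 0], [-1, -1, -1, 0, 1, -1, 0, 1, 0], [1, -1, 1, -2,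
  -1, 1, 2, 1, 0], [-1, -1, -1, 2, 1, -1, -2, -1, 0], [0, 0, 0, 0, 0, 0, -2, -2, 0], [-2, 0, 0,
  2, 2, 0, -2, 0, 0], [1, 1, 1, -2, -3, 1, 2, -1, 0], [1, 1, 1, -2, -3, 1, 0, -1, 0], [-2, 0, 0,
  2, 2, -2, -2, 0, 0]]) (L2 := lm [[0, 0, 0, 0, 0, 0, 0, 0, 0], [1, 0, 1, 1, 1, 0, 1, 0, 1], [0,
  0, 0, 0, 0, 1, 0, 0, 1], [0, 1, 0, 0, 0, 1, 0, 0, 1], [1, 1, 1, 0, 1, 1, 1, 0, 0], [1, 0, 0,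
  1, 1, 0, 1, 0, 0], [1, 0, 1, 0, 0, 0, 0, 0, 1], [1, 0, 1, 0, 0, 0, 1, 0, 1], [1, 0, 0, 1, 1,
  1, 1, 0, 0]]) (δ := 2) (p := 0) (q := 0)
    (by decide +kernel)

theorem skB : Sk (P := Fin 10) 6 (lm [[0, 0, 1, 0, 0, 0, 0, 1, 1, 0], [0, 0, 0, 1, 0, 0, 0, 0,
  1, 1], [1, 0, 0, 0, -1, -1, 0, 0, 0, 0], [0, 1, 0, 0, 1, -1, 0, 0, 0, 0], [0, 0, -1, 1, 0, 0,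
  1, 0, 0, 1], [0, 0, -1, -1, 0, 0, 1, 1, 0, 0], [0, 0, 0, 0, 1, 1, 0, 0, 0, 0], [1, 0, 0, 0, 0,
  1, 0, 0, 0, 0], [1, 1, 0, 0, 0, 0, 0, 0, 0, 0], [0, 1, 0, 0, 1, 0, 0, 0, 0, 0]]) (lv [0, 0, 0,
  0, 1, 1, 1, 1, 1, 1]) (lv [1, 1, 1, 1, 1, 1, 0, 0, 0, 0]) (lv [-2, 4, -1, -3, -3, 1, -2, -1,
  2, 1]) (fun i => ((lv [0, 0, 1, 1, 1, 1, 0, 1, 0, 1] i : ℤ) : ZMod 2)) (fun i => ((lv [0, 0,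
  0, 1, 0, 1, 1, 1, 0, 0] i : ℤ) : ZMod 2)) 6 7 8 9 2 0 :=
Sk.of_ok (L := lm [[0, 0, 0, 0, 0, 0, 0, 0, 0, 0], [-2, 2, -2, -2, -2, 0, -2, -2, 0, 0], [1, -3,
  2, 2, 3, 0, 3, 1, -2, 0], [-1, 3, 0, -2, -3, 2, -1, 1, 2, 0], [1, -1, 2, 0, 1, 0, 1, 1, 0, 0],
  [-1, 1, 0, 0, -1, 0, -1, -1, 0, 0], [0, 0, 2, 0, 0, 0, 2, 0, 0, 0], [-1, 1, 0, 0, -1, 0, -1,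
  1, 0, 0], [-2, 2, -2, -2, -2, 0, -2, -2, 2, 0], [3, -7, 2, 4, 5, -2, 3, 1, -4, 0]]) (L2 := lm
  [[1, 1, 0, 0, 1, 0, 1, 1, 0, 0], [1, 1, 1, 1, 1, 0, 1, 1, 0, 0], [0, 0, 0, 0, 0, 0, 0, 0, 0,
  0], [0, 0, 1, 0, 0, 1, 1, 1, 0, 0], [1, 0, 0, 1, 0, 0, 0, 1, 1, 0], [0, 1, 1, 1, 1, 0, 1, 0,
  1, 0], [1, 1, 1, 0, 1, 0, 0, 1, 0, 0], [1, 0, 1, 1, 0, 0, 0, 0, 1, 0], [0, 0, 1, 1, 0, 0, 0,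
  0, 1, 0], [0, 1, 0, 1, 0, 1, 1, 1, 1, 0]]) (δ := 1) (p := 0) (q := 2)
    (by decide +kernel)

theorem skC : Sk (P := Fin 11) 4 (lm [[0, 0, 1, 1, 0, 0, 0, 0, 1, 0, 0], [0, 0, 0, 0, 0, 1, 0,
  1, 0, 0, 1], [1, 0, 0, 0, 0, 1, 1, 0, 1, 0, 0], [1, 0, 0, 0, -1, 0, 0, 1, 0, -1, 0], [0, 0, 0,
  -1, 0, 0, 0, 0, 0, 0, 1], [0, 1, 1, 0, 0, 0, 0, 0, 0, 0, 0], [0, 0, 1, 0, 0, 0, 0, 0, 0, 1,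
  0], [0, 1, 0, 1, 0, 0, 0, 0, 0, 0, 0], [1, 0, 1, 0, 0, 0, 0, 0, 0, 0, 0], [0, 0, 0, -1, 0, 0,
  1, 0, 0, 0, 0], [0, 1, 0, 0, 1, 0, 0, 0, 0, 0, 0]]) (lv [0, 0, 1, 1, 1, 1, 1, 1, 1, 1, 1]) (lv
  [1, 1, 1, 1, 0, 0, 0, 0, 0, 0, 0]) (lv [3, -1, -1, -1, 5, -2, -4, -2, 2, -3, 4]) (fun i =>
  ((lv [1, 1, 1, 1, 1, 0, 0, 0, 0, 1, 0] i : ℤ) : ZMod 2)) (fun i => ((lv [1, 0, 0, 0, 1, 0, 0,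
  0, 1, 0, 1] i : ℤ) : ZMod 2)) 4 5 9 8 2 0 :=
Sk.of_ok (L := lm [[0, 0, 0, 0, 0, 0, 0, 0, 0, 0, 0], [-5, 3, 3, 3, -3, 6, 4, 6, -2, 1, 0], [4,
  0, 0, 0, 0, 0, 4, 0, 4, 4, 0], [4, 0, 0, 0, 0, 0, -8, 0, 4, -8, 0], [-2, 6, -6, -6, -6, 0, 4,
  0, -8, 10, 0], [-1, 3, 3, 3, -3, -6, 8, 6, 2, 5, 0], [1, -3, 9, -3, 3, 6, -8, -6, 10, -5, 0],
  [-1, 3, 3, 3, -3, 6, -4, -6, 2, -7, 0], [4, 0, 0, 0, 0, 0, 4, 0, -8, 4, 0], [-3, -3, 9, -3, 3,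
  6, 0, -6, 6, -9, 0], [2, 6, -6, -6, 6, 0, -4, 0, -4, 2, 0]]) (L2 := lm [[0, 0, 0, 0, 0, 0, 0,
  0, 0, 0, 0], [1, 0, 0, 0, 1, 0, 0, 0, 1, 0, 1], [0, 1, 1, 1, 1, 0, 1, 0, 1, 0, 0], [1, 0, 0,
  0, 0, 0, 0, 0, 1, 0, 0], [0, 0, 1, 1, 0, 1, 1, 1, 1, 0, 0], [1, 1, 1, 1, 0, 1, 1, 0, 0, 0, 1],
  [1, 1, 0, 1, 0, 1, 1, 0, 1, 0, 1], [0, 0, 0, 0, 1, 0, 0, 1, 0, 0, 1], [0, 1, 1, 1, 1, 0, 1, 0,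
  0, 0, 0], [1, 0, 1, 0, 1, 1, 1, 0, 0, 0, 1], [1, 0, 1, 1, 1, 1, 1, 1, 0, 0, 0]]) (δ := 4) (p
  := 0) (q := 0)
    (by decide +kernel)

theorem skD : Sk (P := Fin 10) 5 (lm [[0, 0, 1, 0, 1, 0, 0, 0, 0, 1], [0, 0, 1, 0, 0, 0, 1, 0,
  1, 0], [1, 1, 0, 1, 0, 0, 0, 0, 0, 1], [0, 0, 1, 0, 1, 1, 1, 0, 0, 0], [1, 0, 0, 1, 0, 0, 0,
  1, 1, 0], [0, 0, 0, 1, 0, 0, 0, 1, 0, 0], [0, 1, 0, 1, 0, 0, 0, 0, 0, 0], [0, 0, 0, 0, 1, 1,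
  0, 0, 0, 0], [0, 1, 0, 0, 1, 0, 0, 0, 0, 0], [1, 0, 1, 0, 0, 0, 0, 0, 0, 0]]) (lv [0, 0, 1, 1,
  1, 1, 1, 1, 1, 1]) (lv [1, 1, 1, 1, 1, 0, 0, 0, 0, 0]) (lv [-1, -1, 2, 3, -3, 2, 2, -1, -4,
  1]) (fun i => ((lv [1, 1, 0, 1, 1, 0, 0, 1, 0, 1] i : ℤ) : ZMod 2)) (fun i => ((lv [1, 0, 1,
  0, 0, 1, 0, 1, 0, 0] i : ℤ) : ZMod 2)) 5 6 9 7 9 0 :=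
Sk.of_ok (L := lm [[0, 0, 0, 0, 0, 0, 0, 0, 0, 0], [1, 0, -1, -2, 2, -1, -2, 1, 2, 0], [-2, -1,
  2, 4, -4, 3, 3, -1, -5, 0], [-2, -1, 2, 5, -5, 3, 4, -2, -6, 0], [2, 1, -2, -5, 5, -4, -4, 1,
  6, 0], [-1, 0, 1, 2, -3, 2, 2, -1, -3, 0], [-1, -1, 1, 3, -3, 2, 3, -1, -4, 0], [1, 1, -1, -3,
  2, -2, -2, 1, 3, 0], [3, 1, -3, -7, 7, -5, -6, 2, 9, 0], [-1, 0, 0, 1, -1, 1, 1, 0, -1, 0]])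
  (L2 := lm [[0, 0, 0, 0, 0, 0, 0, 0, 0, 0], [1, 0, 1, 0, 0, 1, 0, 1, 0, 0], [0, 1, 0, 0, 0, 1,
  1, 1, 1, 0], [0, 1, 0, 1, 1, 1, 0, 0, 0, 0], [0, 1, 0, 1, 1, 0, 0, 1, 0, 0], [1, 0, 1, 0, 1,
  0, 0, 1, 1, 0], [1, 1, 1, 1, 1, 0, 1, 1, 0, 0], [1, 1, 1, 1, 0, 0, 0, 1, 1, 0], [1, 1, 1, 1,
  1, 1, 0, 0, 1, 0], [1, 0, 0, 1, 1, 1, 1, 0, 1, 0]]) (δ := 1) (p := 0) (q := 0)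
    (by decide +kernel)

theorem skE : Sk (P := Fin 11) 5 (lm [[0, 1, 1, 0, 0, 1, 0, 0, 0, 0, 0], [1, 0, -1, 0, 1, 0, 0,
  0, 0, 0, 0], [1, -1, 0, 0, 0, 0, 0, 1, 0, -1, 0], [0, 0, 0, 0, 1, 0, 1, 1, 0, 0, 1], [0, 1, 0,
  1, 0, 1, 0, 0, 0, 1, 0], [1, 0, 0, 0, 1, 0, 0, 0, 0, 0, 0], [0, 0, 0, 1, 0, 0, 0, 0, 1, 0, 0],
  [0, 0, 1, 1, 0, 0, 0, 0, 0, 0, 0], [0, 0, 0, 0, 0, 0, 1, 0, 0, 0, 1], [0, 0, -1, 0, 1, 0, 0,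
  0, 0, 0, 0], [0, 0, 0, 1, 0, 0, 0, 0, 1, 0, 0]]) (lv [0, 0, 1, 1, 1, 1, 1, 1, 1, 1, 1]) (lv
  [1, 1, 1, 1, 1, 0, 0, 0, 0, 0, 0]) (lv [2, 2, -1, -2, -3, -1, 2, -3, 4, -2, 2]) (fun i => ((lv
  [0, 0, 1, 0, 1, 1, 0, 1, 0, 0, 0] i : ℤ) : ZMod 2)) (fun i => ((lv [1, 0, 1, 1, 1, 0, 1, 0, 0,
  0, 1] i : ℤ) : ZMod 2)) 5 6 7 10 6 8 :=
Sk.of_ok (L := lm [[0, 0, 0, 0, 0, 0, 0, 0, 0, 0, 0], [0, -4, -2, 0, 2, 2, 0, -2, 0, 4, 0], [2,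
  0, 1, 0, -1, 1, 0, 1, 0, -2, 0], [0, 0, 2, 0, 2, 2, 0, 2, 0, 0, 0], [2, 4, 1, 0, -1, 1, 0, 1,
  0, -2, 0], [2, 4, 1, 0, -1, -3, 0, 1, 0, -2, 0], [-4, -4, 0, 4, 4, 0, -4, 4, -4, 4, 0], [2, 0,
  3, 0, 1, 3, 0, -1, 0, -2, 0], [-4, -4, -2, 4, 2, -2, 0, 2, -4, 4, 0], [0, 4, 0, 0, 0, 0, 0, 0,
  0, -4, 0], [0, 0, -2, 0, -2, -2, 4, -2, 4, 0, 0]]) (L2 := lm [[0, 1, 1, 1, 1, 1, 1, 0, 0, 0,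
  1], [1, 1, 0, 0, 0, 1, 0, 0, 0, 0, 0], [0, 0, 0, 0, 0, 0, 0, 0, 0, 0, 0], [1, 0, 0, 0, 1, 0,
  0, 0, 0, 1, 0], [0, 0, 1, 1, 1, 1, 1, 0, 0, 0, 1], [0, 1, 0, 0, 0, 1, 0, 0, 0, 0, 0], [1, 0,
  0, 0, 1, 0, 0, 0, 1, 1, 1], [1, 0, 1, 0, 0, 1, 0, 0, 0, 1, 0], [0, 0, 0, 0, 0, 0, 1, 0, 1, 0,
  1], [0, 0, 1, 1, 1, 1, 1, 0, 0, 1, 1], [1, 0, 0, 0, 1, 0, 1, 0, 1, 1, 0]]) (δ := 2) (p := 0)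
  (q := 2)
    (by decide +kernel)

theorem skF : Sk (P := Fin 12) 5 (lm [[0, 1, 0, 1, 1, 0, 0, 0, 0, 0, 0, 0], [1, 0, -1, 0, 0, 0,
  0, 1, 0, 0, 0, 0], [0, -1, 0, 0, 1, 1, 0, 0, 1, 0, 0, 0], [1, 0, 0, 0, 0, 0, 0, 0, 0, 1, 1,
  1], [1, 0, 1, 0, 0, 0, 0, 0, -1, 0, 0, -1], [0, 0, 1, 0, 0, 0, 0, 1, 0, 0, 0, 0], [0, 0, 0, 0,
  0, 0, 0, 0, 0, 1, 1, 0], [0, 1, 0, 0, 0, 1, 0, 0, 0, 0, 0, 0], [0, 0, 1, 0, -1, 0, 0, 0, 0, 0,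
  0, 0], [0, 0, 0, 1, 0, 0, 1, 0, 0, 0, 0, 0], [0, 0, 0, 1, 0, 0, 1, 0, 0, 0, 0, 0], [0, 0, 0,
  1, -1, 0, 0, 0, 0, 0, 0, 0]]) (lv [0, 0, 1, 1, 1, 1, 1, 1, 1, 1, 1, 1]) (lv [1, 1, 1, 1, 1, 0,
  0, 0, 0, 0, 0, 0]) (lv [3, -1, 1, 2, -1, -1, -4, -2, 2, -2, -2, 3]) (fun i => ((lv [1, 1, 1,
  0, 1, 1, 0, 0, 0, 0, 0, 1] i : ℤ) : ZMod 2)) (fun i => ((lv [0, 1, 1, 0, 0, 1, 0, 0, 1, 0, 0,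
  0] i : ℤ) : ZMod 2)) 5 6 11 8 6 10 :=
Sk.of_ok (L := lm [[0, 0, 0, 0, 0, 0, 0, 0, 0, 0, 0, 0], [0, 1, -1, 0, 0, 1, 0, 2, -1, 0, 0, 0],
  [0, -1, 1, 0, 0, 2, 0, 1, 1, 0, 0, 0], [0, 0, 0, -1, -1, 0, 2, 0, 1, 1, 1, 0], [3, -1, 1, 1,
  1, -1, -2, -2, 0, -1, -1, 0], [0, 1, 2, 0, 0, 1, 0, 2, 2, 0, 0, 0], [0, 0, 0, 2, 2, 0, -1, 0,
  -2, 1, 1, 0], [0, 2, 1, 0, 0, 2, 0, 1, 1, 0, 0, 0], [-3, 0, 0, -1, -1, 3, 2, 3, -2, 1, 1, 0],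
  [0, 0, 0, 1, 1, 0, 1, 0, -1, -1, 2, 0], [0, 0, 0, 1, 1, 0, 1, 0, -1, 2, -1, 0], [0, 0, 0, 0,
  -3, 0, 0, 0, 3, 0, 0, 0]]) (L2 := lm [[0, 0, 0, 0, 0, 0, 0, 0, 0, 0, 0, 0], [0, 1, 1, 0, 0, 1,
  0, 0, 1, 0, 0, 0], [0, 1, 1, 0, 0, 0, 0, 1, 1, 0, 0, 0], [0, 0, 0, 1, 1, 0, 0, 0, 1, 1, 1, 0],
  [1, 1, 1, 1, 1, 1, 0, 0, 0, 1, 1, 0], [0, 1, 0, 0, 0, 1, 0, 0, 0, 0, 0, 0], [0, 0, 0, 0, 0, 0,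
  1, 0, 0, 1, 1, 0], [0, 0, 1, 0, 0, 0, 0, 1, 1, 0, 0, 0], [1, 0, 0, 1, 1, 1, 0, 1, 0, 1, 1, 0],
  [0, 0, 0, 1, 1, 0, 1, 0, 1, 1, 0, 0], [0, 0, 0, 1, 1, 0, 1, 0, 1, 0, 1, 0], [0, 0, 0, 0, 1, 0,
  0, 0, 1, 0, 0, 0]]) (δ := 1) (p := 0) (q := 0)
    (by decide +kernel)

end Pool.Agent.H93.Nut
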