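import Pool.Agent.H93.Nut.Dich

/-!
Skeletons: signed graphs with marked vertices, and the insertion of three vertices on an edge.
-/

set_option autoImplicit false
set_option linter.unusedSectionVars false
set_option linter.unusedVariables false

namespace Pool.Agent.H93.Nut

open Finset

/-- three more points -/
abbrev O3 (P : Type) := Option (Option (Option P))

section

variable {P : Type}

/-- an old point -/
abbrev oo (i : P) : O3 P := some (some (some i))

/-- the first new point -/
abbrev op : O3 P := some (some none)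

/-- the second new point -/
abbrev oq : O3 P := some none

/-- the third new point -/
abbrev or : O3 P := none

/-- the number of marks on `i` -/
def mrk [DecidableEq P] (a b c d i : P) : ℤ :=
  (if i = a then 1 else 0) + (if i = b then 1 else 0) + (if i = c then 1 else 0) +
    (if i = d then 1 else 0)

/-- the signed graph after the insertion of three vertices on the edge `u v` -/
def tS [DecidableEq P] (S : P → P → ℤ) (u v : P) : O3 P → O3 P → ℤ
  | some (some (some i)), some (some (some j)) => S i j - ew u v i j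
  | some (some (some i)), some (some none) => if i = u then 1 else 0
  | some (some (some _)), some none => 0
  | some (some (some i)), none => if i = v then -1 else 0
  | some (some none), some (some (some j)) => if j = u then 1 else 0
  | some (some none), some (some none) => 0
  | some (some none), some none => 1
  | some (some none), none => 0
  | some none, some (some (some _)) => 0
  | some none, some (some none) => 1
  | some none, some none => 0
  | some none, none => 1
  | none, some (some (some j)) => if j = v then -1 else 0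
  | none, some (some none) => 0
  | none, some none => 1
  | none, none => 0

/-- extension of a function to three more points -/
def ex3 {A : Type} (f : P → A) (fp fq fr : A) : O3 P → A
  | some (some (some i)) => f i
  | some (some none) => fp
  | some none => fq
  | none => fr

theorem ex3_all {R : O3 P → Prop} (h0 : ∀ i, R (oo i)) (h1 : R op) (h2 : R oq)
    (h3 : R or) : ∀ i, R i
  | some (some (some i)) => h0 i
  | some (some none) => h1
  | some none => h2
  | none => h3

variable [Fintype P] [DecidableEq P]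

theorem sum_o3 {A : Type} [AddCommMonoid A] (f : O3 P → A) :
    ∑ j, f j = f or + (f oq + (f op + ∑ i, f (oo i))) := by
  rw [Fintype.sum_option, Fintype.sum_option, Fintype.sum_option]

section rows

variable {A : Type} [CommRing A] (S : P → P → ℤ) (u v : P) (y : O3 P → A)

theorem row_old (i : P) :
    ∑ j, (tS S u v (oo i) j : A) * y j = ∑ j, (S i j : A) * y (oo j) +
      (if i = u then (y op - y (oo v)) else 0) - (if i = v then (y or + y (oo u)) else 0) := by
  have e : ∀ j, ((ew u v i j : ℤ) : A) * y (oo j) = (if i = u then (if j = v then y (oo v) else 0)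
      else 0) + (if i = v then (if j = u then y (oo u) else 0) else 0) := by
    intro j
    unfold ew
    by_cases h1 : i = u <;> by_cases h2 : i = v <;> by_cases h3 : j = v <;> by_cases h4 : j = u <;>
      simp [h1, h2, h3, h4] <;> (subst_vars; simp_all) <;> ring
  rw [sum_o3]
  simp only [tS, Int.cast_sub, sub_mul, Finset.sum_sub_distrib, e, Finset.sum_add_distrib]
  have e1 : ∑ j : P, (if i = u then (if j = v then y (oo v) else 0) else 0) =
      if i = u then y (oo v) else 0 := by
    split_ifs <;> simp
  have e2 : ∑ j : P, (if i = v then (if j = u then y (oo u) else 0) else 0) =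
      if i = v then y (oo u) else 0 := by
    split_ifs <;> simp
  rw [e1, e2]
  split_ifs <;> push_cast <;> ring

theorem row_p : ∑ j, (tS S u v op j : A) * y j = y (oo u) + y oq := by
  rw [sum_o3]
  simp only [tS, Int.cast_ite, Int.cast_one, Int.cast_zero, ite_mul, one_mul, zero_mul,
    Finset.sum_ite_eq', Finset.mem_univ, if_true]
  ring

theorem row_q : ∑ j, (tS S u v oq j : A) * y j = y op + y or := by
  rw [sum_o3]
  simp only [tS, Int.cast_one, Int.cast_zero, one_mul, zero_mul, Finset.sum_const_zero]
  ring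

theorem row_r : ∑ j, (tS S u v or j : A) * y j = y oq - y (oo v) := by
  rw [sum_o3]
  simp only [tS, Int.cast_ite, Int.cast_one, Int.cast_zero, Int.cast_neg, ite_mul, one_mul,
    zero_mul, neg_mul, Finset.sum_ite_eq', Finset.mem_univ, if_true]
  ring

end rows

/-- the system of the extended skeleton -/
theorem sys_iff {A : Type} [CommRing A] (S : P → P → ℤ) (D : P → ℤ) (u v : P) (y : O3 P → A)
    (e : P → A) :
    (∀ i, ∑ j, (tS S u v i j : A) * y j - ((ex3 D 1 1 1 i : ℤ) : A) * y i = ex3 e 0 0 0 i) ↔
      (∀ i, ∑ j, (S i j : A) * y (oo j) - (D i : A) * y (oo i) = e i) ∧ y op = y (oo v) ∧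
        y oq = y (oo v) - y (oo u) ∧ y or = - y (oo u) := by
  constructor
  · intro h
    have hp := h op
    have hq := h oq
    have hr := h or
    rw [row_p] at hp
    rw [row_q] at hq
    rw [row_r] at hr
    simp only [ex3, Int.cast_one, one_mul] at hp hq hr
    have k3 : y or = - y (oo u) := by linear_combination hp + hq
    have k2 : y oq = y (oo v) - y (oo u) := by linear_combination hr + k3
    have k1 : y op = y (oo v) := by linear_combination k2 - hp
    refine ⟨?_, k1, k2, k3⟩
    intro i
    have h1 := h (oo i)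
    rw [row_old, k1, k3] at h1
    simp only [ex3] at h1
    rw [← h1]
    split_ifs <;> ring
  · rintro ⟨h, k1, k2, k3⟩
    refine ex3_all ?_ ?_ ?_ ?_
    · intro i
      rw [row_old, k1, k3]
      simp only [ex3]
      rw [← h i]
      split_ifs <;> ring
    · rw [row_p, k1, k2]
      simp only [ex3, Int.cast_one]
      ring
    · rw [row_q, k1, k2, k3]
      simp only [ex3, Int.cast_one]
      ring
    · rw [row_r, k2, k3]
      simp only [ex3, Int.cast_one]
      ring

/-- A skeleton: a signed graph `S` with the set `D` of marked vertices, a kernel vector `x`, the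
kernel `z` modulo two, the vector `γ`, the switch `a b c d` and an edge `u v`. -/
structure Sk (m : ℤ) (S : P → P → ℤ) (D t x : P → ℤ) (z γ : P → ZMod 2) (a b c d u v : P) :
    Prop where
  val : ∀ i j, S i j = 0 ∨ S i j = 1 ∨ S i j = -1
  symm : ∀ i j, S i j = S j i
  diag : ∀ i, S i i = 0
  dval : ∀ i, D i = 0 ∨ D i = 1
  t0 : ∀ i, 0 ≤ t i
  tdef : ∀ i, 2 * t i = ∑ j, (S i j) ^ 2 - D i - 1
  tmk : ∀ i, t i + mrk a b c d i ≤ 1
  smk : ∀ i, ∑ j, (S i j) ^ 2 - t i + mrk a b c d i ≤ 3
  tsum : ∑ i, t i = m
  nz : ∀ i, x i ≠ 0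
  ker : ∀ i, ∑ j, S i j * x j - D i * x i = 0
  uniq : ∀ y : P → ℝ, (∀ i, ∑ j, (S i j : ℝ) * y j - D i * y i = 0) →
    ∃ c : ℝ, ∀ i, y i = c * x i
  zu : ∀ y : P → ZMod 2, (∀ i, ∑ j, (S i j : ZMod 2) * y j - D i * y i = 0) →
    (∀ i, y i = 0) ∨ (∀ i, y i = z i)
  za : z a + z d = 1
  zb : z b + z c = 1
  g : ∀ i, ∑ j, (S i j : ZMod 2) * γ j - D i * γ i = 1 + D i
  g' : γ a + γ b + γ c + γ d = 0
  ab : a ≠ b
  cd : c ≠ d
  ac : a ≠ c
  bd : b ≠ d
  nab : S a b = 0
  ncd : S c d = 0
  nac : S a c = 0
  nbd : S b d = 0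
  uv : S u v = 1
  xuv : x u ≠ x v

theorem ew_zero_of {S : P → P → ℤ} (hs : ∀ i j, S i j = S j i) {u v : P} (huv : S u v = 1)
    {i j : P} (h : S i j = 0) : ew u v i j = 0 := by
  unfold ew
  have h1 : ¬ (i = u ∧ j = v) := by
    rintro ⟨rfl, rfl⟩
    rw [huv] at h; exact one_ne_zero h
  have h2 : ¬ (i = v ∧ j = u) := by
    rintro ⟨rfl, rfl⟩
    rw [hs, huv] at h; exact one_ne_zero h
  split_ifs <;> simp_all

theorem ew_S {S : P → P → ℤ} (hs : ∀ i j, S i j = S j i) {u v : P} (huv : S u v = 1)
    (hne : u ≠ v) (i j : P) : ew u v i j = 0 ∨ (ew u v i j = 1 ∧ S i j = 1) := by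
  rcases ew_cases hne i j with h | ⟨h, ⟨rfl, rfl⟩ | ⟨rfl, rfl⟩⟩
  · exact Or.inl h
  · exact Or.inr ⟨h, huv⟩
  · exact Or.inr ⟨h, by rw [hs]; exact huv⟩

theorem Sk.grow {m : ℤ} {S : P → P → ℤ} {D t x : P → ℤ} {z γ : P → ZMod 2} {a b c d u v : P}
    (h : Sk m S D t x z γ a b c d u v) :
    Sk m (tS S u v) (ex3 D 1 1 1) (ex3 t 0 0 0) (ex3 x (x v) (x v - x u) (- x u))
      (ex3 z (z v) (z v - z u) (- z u)) (ex3 γ (γ v) (γ v - γ u) (- γ u)) (oo a) (oo b) (oo c)
      (oo d) (oo u) op := by
  have hne : u ≠ v := by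
    rintro rfl
    exact h.xuv rfl
  have hsq : ∀ i, ∑ j, (tS S u v i j) ^ 2 = ex3 (fun i => ∑ j, (S i j) ^ 2) 2 2 2 i := by
    refine ex3_all ?_ ?_ ?_ ?_
    · intro i
      rw [sum_o3]
      simp only [tS, ex3]
      have e1 : ∀ j, (S i j - ew u v i j) ^ 2 = (S i j) ^ 2 - ew u v i j := by
        intro j
        rcases ew_S h.symm h.uv hne i j with e | ⟨e, e'⟩
        · rw [e]; ring
        · rw [e, e']; norm_num
      simp only [e1, Finset.sum_sub_distrib, ew_sum]
      split_ifs <;> ring
    · rw [sum_o3]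
      simp only [tS, ex3, ite_pow, one_pow, zero_pow two_ne_zero]
      simp
    · rw [sum_o3]
      simp [tS, ex3]
    · rw [sum_o3]
      simp only [tS, ex3, ite_pow, one_pow, zero_pow two_ne_zero]
      simp
  have hmk : ∀ i, mrk (oo a) (oo b) (oo c) (oo d) i = ex3 (mrk a b c d) 0 0 0 i := by
    refine ex3_all ?_ ?_ ?_ ?_
    · intro i
      simp [mrk, ex3]
    · simp [mrk, ex3]
    · simp [mrk, ex3]
    · simp [mrk, ex3]
  refine
    { val := ?_, symm := ?_, diag := ?_, dval := ?_, t0 := ?_, tdef := ?_, tmk := ?_, smk := ?_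
      tsum := ?_, nz := ?_, ker := ?_, uniq := ?_, zu := ?_, za := ?_, zb := ?_, g := ?_, g' := ?_
      ab := ?_, cd := ?_, ac := ?_, bd := ?_, nab := ?_, ncd := ?_, nac := ?_, nbd := ?_, uv := ?_
      xuv := ?_ }
  · refine ex3_all ?_ ?_ ?_ ?_
    · intro i
      refine ex3_all ?_ ?_ ?_ ?_
      · intro j
        simp only [tS]
        rcases ew_S h.symm h.uv hne i j with e | ⟨e, e'⟩
        · rw [e, sub_zero]; exact h.val i j
        · rw [e, e']; left; norm_num
      · simp only [tS]; split_ifs <;> simp
      · simp [tS]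
      · simp only [tS]; split_ifs <;> simp
    · refine ex3_all ?_ ?_ ?_ ?_
      · intro j
        simp only [tS]; split_ifs <;> simp
      · simp [tS]
      · simp [tS]
      · simp [tS]
    · refine ex3_all ?_ ?_ ?_ ?_
      · intro j; simp [tS]
      · simp [tS]
      · simp [tS]
      · simp [tS]
    · refine ex3_all ?_ ?_ ?_ ?_
      · intro j
        simp only [tS]; split_ifs <;> simp
      · simp [tS]
      · simp [tS]
      · simp [tS]
  · refine ex3_all ?_ ?_ ?_ ?_
    · intro i
      refine ex3_all ?_ ?_ ?_ ?_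
      · intro j
        simp only [tS]
        rw [h.symm i j, ew_symm]
      · rfl
      · rfl
      · rfl
    · refine ex3_all ?_ ?_ ?_ ?_
      · intro j; rfl
      · rfl
      · rfl
      · rfl
    · refine ex3_all ?_ ?_ ?_ ?_
      · intro j; rfl
      · rfl
      · rfl
      · rfl
    · refine ex3_all ?_ ?_ ?_ ?_
      · intro j; rfl
      · rfl
      · rfl
      · rfl
  · refine ex3_all ?_ ?_ ?_ ?_
    · intro i
      simp only [tS]
      rw [h.diag, ew_diag hne, sub_zero]
    · rfl
    · rfl
    · rfl
  · refine ex3_all ?_ ?_ ?_ ?_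
    · intro i; exact h.dval i
    · right; rfl
    · right; rfl
    · right; rfl
  · refine ex3_all ?_ ?_ ?_ ?_
    · intro i; exact h.t0 i
    · exact le_rfl
    · exact le_rfl
    · exact le_rfl
  · intro i
    rw [hsq]
    revert i
    refine ex3_all ?_ ?_ ?_ ?_
    · intro i; exact h.tdef i
    · rfl
    · rfl
    · rfl
  · intro i
    rw [hmk]
    revert i
    refine ex3_all ?_ ?_ ?_ ?_
    · intro i; exact h.tmk i
    · simp [ex3]
    · simp [ex3]
    · simp [ex3]
  · intro i
    rw [hsq, hmk]
    revert i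
    refine ex3_all ?_ ?_ ?_ ?_
    · intro i; exact h.smk i
    · simp [ex3]
    · simp [ex3]
    · simp [ex3]
  · rw [sum_o3]
    simp only [ex3, zero_add]
    exact h.tsum
  · refine ex3_all ?_ ?_ ?_ ?_
    · intro i; exact h.nz i
    · exact h.nz v
    · exact sub_ne_zero.2 (Ne.symm h.xuv)
    · exact neg_ne_zero.2 (h.nz u)
  · have := (sys_iff (A := ℤ) S D u v (ex3 x (x v) (x v - x u) (- x u)) (fun _ => 0)).2
      ⟨fun i => by simpa [ex3] using h.ker i, rfl, rfl, rfl⟩
    have h2 : ∀ i : O3 P, ex3 (fun _ : P => (0 : ℤ)) 0 0 0 i = 0 := by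
      refine ex3_all ?_ ?_ ?_ ?_ <;> intros <;> rfl
    intro i
    have h1 := this i
    simp only [Int.cast_id] at h1
    rw [h1, h2]
  · intro y hy
    have h1 := (sys_iff (A := ℝ) S D u v y (fun _ => 0)).1 (by
      intro i
      rw [hy i]
      revert i
      refine ex3_all ?_ ?_ ?_ ?_ <;> intros <;> rfl)
    obtain ⟨h2, k1, k2, k3⟩ := h1
    obtain ⟨s, hs⟩ := h.uniq (fun i => y (oo i)) h2
    refine ⟨s, ?_⟩
    refine ex3_all ?_ ?_ ?_ ?_
    · intro i; exact hs i
    · rw [k1]; exact hs v
    · rw [k2]
      show y (oo v) - y (oo u) = s * ((x v - x u : ℤ) : ℝ)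
      have e1 := hs v
      have e2 := hs u
      push_cast
      rw [e1, e2]; ring
    · rw [k3]
      show - y (oo u) = s * ((- x u : ℤ) : ℝ)
      have e2 := hs u
      push_cast
      rw [e2]; ring
  · intro y hy
    have h1 := (sys_iff (A := ZMod 2) S D u v y (fun _ => 0)).1 (by
      intro i
      rw [hy i]
      revert i
      refine ex3_all ?_ ?_ ?_ ?_ <;> intros <;> rfl)
    obtain ⟨h2, k1, k2, k3⟩ := h1
    rcases h.zu (fun i => y (oo i)) h2 with h3 | h3
    · left
      refine ex3_all ?_ ?_ ?_ ?_
      · intro i; exact h3 i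
      · rw [k1]; exact h3 v
      · rw [k2]
        have e1 := h3 v
        have e2 := h3 u
        show y (oo v) - y (oo u) = _
        rw [e1, e2]; rfl
      · rw [k3]
        have e2 := h3 u
        show - y (oo u) = _
        rw [e2]; rfl
    · right
      refine ex3_all ?_ ?_ ?_ ?_
      · intro i; exact h3 i
      · rw [k1]; exact h3 v
      · rw [k2]
        have e1 := h3 v
        have e2 := h3 u
        show y (oo v) - y (oo u) = _
        rw [e1, e2]; rfl
      · rw [k3]
        have e2 := h3 u
        show - y (oo u) = _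
        rw [e2]; rfl
  · exact h.za
  · exact h.zb
  · have := (sys_iff (A := ZMod 2) S D u v (ex3 γ (γ v) (γ v - γ u) (- γ u))
      (fun i => 1 + (D i : ZMod 2))).2 ⟨fun i => by simpa [ex3] using h.g i, rfl, rfl, rfl⟩
    have h2 : ∀ i : O3 P, ex3 (fun i => 1 + (D i : ZMod 2)) 0 0 0 i =
        1 + ((ex3 D 1 1 1 i : ℤ) : ZMod 2) := by
      have h3 : (0 : ZMod 2) = 1 + ((1 : ℤ) : ZMod 2) := by decide
      refine ex3_all ?_ ?_ ?_ ?_
      · intro i; rfl
      · exact h3
      · exact h3
      · exact h3
    intro i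
    rw [this i, h2]
  · exact h.g'
  · intro e; exact h.ab (by simpa using e)
  · intro e; exact h.cd (by simpa using e)
  · intro e; exact h.ac (by simpa using e)
  · intro e; exact h.bd (by simpa using e)
  · simp only [tS]; rw [h.nab, ew_zero_of h.symm h.uv h.nab, sub_zero]
  · simp only [tS]; rw [h.ncd, ew_zero_of h.symm h.uv h.ncd, sub_zero]
  · simp only [tS]; rw [h.nac, ew_zero_of h.symm h.uv h.nac, sub_zero]
  · simp only [tS]; rw [h.nbd, ew_zero_of h.symm h.uv h.nbd, sub_zero]
  · simp [tS]
  · exact h.xuv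

end

end Pool.Agent.H93.Nut
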