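import Pool.Agent.H93.Nut.Main
import Pool.Agent.H93.Nut.ExpFive
import Pool.Agent.H93.Nut.ExpSix
import Pool.Agent.H93.Nut.ExpSeven
import Pool.Agent.H93.Nut.ExpEight
import Pool.Agent.H93.Nut.ExpNine
import Pool.Agent.H93.Nut.ExpTen
import Pool.Agent.H93.Nut.ExpEleven
import Pool.Agent.H93.Nut.ExpTwelve
import Pool.Agent.H93.Nut.ExpThirteen
import Pool.Agent.H93.Nut.ExpFourteen

/-!
Regular nut graphs of degree five to fourteen.
-/

set_option autoImplicit false

namespace Pool.Agent.H93.Nut

open Pool.Agent.TH296.Nut

theorem window {ρ a : ℕ} (hρ : 2 ≤ ρ) (ha : 0 < a)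
    (h : ∀ n, a ≤ n → n < a + 2 * ρ → Even (n * ρ) → Good ρ n) :
    ∀ n, a ≤ n → Even (n * ρ) → Good ρ n := by
  intro n
  induction n using Nat.strong_induction_on with
  | _ n ih =>
    intro h1 h2
    by_cases h3 : n < a + 2 * ρ
    · exact h n h1 h3 h2
    · have h4 : n - 2 * ρ + 2 * ρ = n := by omega
      have h5 : Good ρ (n - 2 * ρ) := by
        refine ih _ (by omega) (by omega) ?_
        have h6 : n * ρ = (n - 2 * ρ) * ρ + 2 * ρ * ρ := by
          rw [← add_mul, h4]
        rw [h6, Nat.even_add] at h2
        exact h2.2 (by rw [mul_assoc]; exact even_two_mul _)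
      have := h5.step (by omega) hρ
      rwa [h4] at this

theorem good_deg5 {n : ℕ} (h1 : 10 ≤ n) (h2 : Even (n * 5)) : Good 5 n := by
  refine window (by norm_num) (by norm_num : 0 < 10) ?_ n h1 h2
  clear h1 h2 n
  intro n h1 h2 h3
  norm_num at h2
  interval_cases n
  · exact e5_10
  · exact absurd h3 (by decide)
  · exact e5_12
  · exact absurd h3 (by decide)
  · exact e5_14
  · exact absurd h3 (by decide)
  · exact e5_16
  · exact absurd h3 (by decide)
  · exact e5_18
  · exact absurd h3 (by decide)

theorem good_deg6 {n : ℕ} (h1 : 12 ≤ n) (h2 : Even (n * 6)) : Good 6 n := by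
  refine window (by norm_num) (by norm_num : 0 < 12) ?_ n h1 h2
  clear h1 h2 n
  intro n h1 h2 h3
  norm_num at h2
  interval_cases n
  · exact good_four_mod (by decide) (by norm_num) (by norm_num) (by norm_num)
  · exact e6_13
  · exact e6_14
  · exact e6_15
  · exact good_four_mod (by decide) (by norm_num) (by norm_num) (by norm_num)
  · exact e6_17
  · exact e6_18
  · exact e6_19
  · exact good_four_mod (by decide) (by norm_num) (by norm_num) (by norm_num)
  · exact e6_21
  · exact e6_22
  · exact e6_23

theorem good_deg7 {n : ℕ} (h1 : 12 ≤ n) (h2 : Even (n * 7)) : Good 7 n := by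
  refine window (by norm_num) (by norm_num : 0 < 12) ?_ n h1 h2
  clear h1 h2 n
  intro n h1 h2 h3
  norm_num at h2
  interval_cases n
  · exact e7_12
  · exact absurd h3 (by decide)
  · exact e7_14
  · exact absurd h3 (by decide)
  · exact e7_16
  · exact absurd h3 (by decide)
  · exact e7_18
  · exact absurd h3 (by decide)
  · exact e7_20
  · exact absurd h3 (by decide)
  · exact e7_22
  · exact absurd h3 (by decide)
  · exact e7_24
  · exact absurd h3 (by decide)

theorem good_deg8 {n : ℕ} (h1 : 14 ≤ n) (h2 : Even (n * 8)) : Good 8 n := by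
  refine window (by norm_num) (by norm_num : 0 < 14) ?_ n h1 h2
  clear h1 h2 n
  intro n h1 h2 h3
  norm_num at h2
  interval_cases n
  · exact e8_14
  · exact e8_15
  · exact good_four_mod (by decide) (by norm_num) (by norm_num) (by norm_num)
  · exact e8_17
  · exact e8_18
  · exact e8_19
  · exact good_four_mod (by decide) (by norm_num) (by norm_num) (by norm_num)
  · exact e8_21
  · exact e8_22
  · exact e8_23
  · exact good_four_mod (by decide) (by norm_num) (by norm_num) (by norm_num)
  · exact e8_25
  · exact e8_26
  · exact e8_27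
  · exact good_four_mod (by decide) (by norm_num) (by norm_num) (by norm_num)
  · exact e8_29

theorem good_deg9 {n : ℕ} (h1 : 16 ≤ n) (h2 : Even (n * 9)) : Good 9 n := by
  refine window (by norm_num) (by norm_num : 0 < 16) ?_ n h1 h2
  clear h1 h2 n
  intro n h1 h2 h3
  norm_num at h2
  interval_cases n
  · exact e9_16
  · exact absurd h3 (by decide)
  · exact e9_18
  · exact absurd h3 (by decide)
  · exact e9_20
  · exact absurd h3 (by decide)
  · exact e9_22
  · exact absurd h3 (by decide)
  · exact e9_24
  · exact absurd h3 (by decide)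
  · exact e9_26
  · exact absurd h3 (by decide)
  · exact e9_28
  · exact absurd h3 (by decide)
  · exact e9_30
  · exact absurd h3 (by decide)
  · exact e9_32
  · exact absurd h3 (by decide)

theorem good_deg10 {n : ℕ} (h1 : 15 ≤ n) (h2 : Even (n * 10)) : Good 10 n := by
  refine window (by norm_num) (by norm_num : 0 < 15) ?_ n h1 h2
  clear h1 h2 n
  intro n h1 h2 h3
  norm_num at h2
  interval_cases n
  · exact seed_five (n := 15) (by norm_num)
  · exact good_four_mod (by decide) (by norm_num) (by norm_num) (by norm_num)
  · exact e10_17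
  · exact e10_18
  · exact e10_19
  · exact good_four_mod (by decide) (by norm_num) (by norm_num) (by norm_num)
  · exact e10_21
  · exact e10_22
  · exact e10_23
  · exact good_four_mod (by decide) (by norm_num) (by norm_num) (by norm_num)
  · exact e10_25
  · exact e10_26
  · exact e10_27
  · exact good_four_mod (by decide) (by norm_num) (by norm_num) (by norm_num)
  · exact e10_29
  · exact e10_30
  · exact e10_31
  · exact good_four_mod (by decide) (by norm_num) (by norm_num) (by norm_num)
  · exact e10_33
  · exact e10_34

theorem good_deg11 {n : ℕ} (h1 : 16 ≤ n) (h2 : Even (n * 11)) : Good 11 n := by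
  refine window (by norm_num) (by norm_num : 0 < 16) ?_ n h1 h2
  clear h1 h2 n
  intro n h1 h2 h3
  norm_num at h2
  interval_cases n
  · exact seed_five (n := 16) (by norm_num)
  · exact absurd h3 (by decide)
  · exact e11_18
  · exact absurd h3 (by decide)
  · exact e11_20
  · exact absurd h3 (by decide)
  · exact e11_22
  · exact absurd h3 (by decide)
  · exact e11_24
  · exact absurd h3 (by decide)
  · exact e11_26
  · exact absurd h3 (by decide)
  · exact e11_28
  · exact absurd h3 (by decide)
  · exact e11_30
  · exact absurd h3 (by decide)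
  · exact e11_32
  · exact absurd h3 (by decide)
  · exact e11_34
  · exact absurd h3 (by decide)
  · exact e11_36
  · exact absurd h3 (by decide)

theorem good_deg12 {n : ℕ} (h1 : 16 ≤ n) (h2 : Even (n * 12)) : Good 12 n := by
  refine window (by norm_num) (by norm_num : 0 < 16) ?_ n h1 h2
  clear h1 h2 n
  intro n h1 h2 h3
  norm_num at h2
  interval_cases n
  · exact good_four_zero (n := 16) (by norm_num) (by norm_num)
  · exact seed_five (n := 17) (by norm_num)
  · exact e12_18
  · exact e12_19
  · exact good_four_mod (by decide) (by norm_num) (by norm_num) (by norm_num)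
  · exact e12_21
  · exact e12_22
  · exact e12_23
  · exact good_four_mod (by decide) (by norm_num) (by norm_num) (by norm_num)
  · exact e12_25
  · exact e12_26
  · exact e12_27
  · exact good_four_mod (by decide) (by norm_num) (by norm_num) (by norm_num)
  · exact e12_29
  · exact e12_30
  · exact e12_31
  · exact good_four_mod (by decide) (by norm_num) (by norm_num) (by norm_num)
  · exact e12_33
  · exact e12_34
  · exact e12_35
  · exact good_four_mod (by decide) (by norm_num) (by norm_num) (by norm_num)
  · exact e12_37
  · exact e12_38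
  · exact e12_39

theorem good_deg13 {n : ℕ} (h1 : 18 ≤ n) (h2 : Even (n * 13)) : Good 13 n := by
  refine window (by norm_num) (by norm_num : 0 < 18) ?_ n h1 h2
  clear h1 h2 n
  intro n h1 h2 h3
  norm_num at h2
  interval_cases n
  · exact seed_five (n := 18) (by norm_num)
  · exact absurd h3 (by decide)
  · exact e13_20
  · exact absurd h3 (by decide)
  · exact e13_22
  · exact absurd h3 (by decide)
  · exact e13_24
  · exact absurd h3 (by decide)
  · exact e13_26
  · exact absurd h3 (by decide)
  · exact e13_28
  · exact absurd h3 (by decide)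
  · exact e13_30
  · exact absurd h3 (by decide)
  · exact e13_32
  · exact absurd h3 (by decide)
  · exact e13_34
  · exact absurd h3 (by decide)
  · exact e13_36
  · exact absurd h3 (by decide)
  · exact e13_38
  · exact absurd h3 (by decide)
  · exact e13_40
  · exact absurd h3 (by decide)
  · exact e13_42
  · exact absurd h3 (by decide)

theorem good_deg14 {n : ℕ} (h1 : 19 ≤ n) (h2 : Even (n * 14)) : Good 14 n := by
  refine window (by norm_num) (by norm_num : 0 < 19) ?_ n h1 h2
  clear h1 h2 n
  intro n h1 h2 h3
  norm_num at h2
  interval_cases n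
  · exact seed_five (n := 19) (by norm_num)
  · exact good_four_mod (by decide) (by norm_num) (by norm_num) (by norm_num)
  · exact e14_21
  · exact e14_22
  · exact e14_23
  · exact good_four_mod (by decide) (by norm_num) (by norm_num) (by norm_num)
  · exact e14_25
  · exact e14_26
  · exact e14_27
  · exact good_four_mod (by decide) (by norm_num) (by norm_num) (by norm_num)
  · exact e14_29
  · exact e14_30
  · exact e14_31
  · exact good_four_mod (by decide) (by norm_num) (by norm_num) (by norm_num)
  · exact e14_33
  · exact e14_34
  · exact e14_35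
  · exact good_four_mod (by decide) (by norm_num) (by norm_num) (by norm_num)
  · exact e14_37
  · exact e14_38
  · exact e14_39
  · exact good_four_mod (by decide) (by norm_num) (by norm_num) (by norm_num)
  · exact e14_41
  · exact e14_42
  · exact e14_43
  · exact good_four_mod (by decide) (by norm_num) (by norm_num) (by norm_num)
  · exact e14_45
  · exact e14_46

theorem good_8_12 : Good 8 12 := good_four_zero (n := 12) (by norm_num) (by norm_num)

/-- Existence for all degrees at least five. -/
theorem good_all {ρ n : ℕ} (h5 : 5 ≤ ρ) (hn : ρ + 4 ≤ n) (he : Even (n * ρ))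
    (h1 : ¬ (ρ = 6 ∧ (n = 10 ∨ n = 11))) (h2 : ¬ (ρ = 8 ∧ n = 13)) (h3 : ¬ (ρ = 9 ∧ n = 14))
    (h4 : ¬ (ρ = 10 ∧ n = 14)) (h6 : ¬ (ρ = 14 ∧ n = 18)) : Good ρ n := by
  by_cases h15 : 15 ≤ ρ
  · rcases Nat.even_or_odd ρ with h | h
    · have h16 : 16 ≤ ρ := by
        obtain ⟨k, rfl⟩ := h
        omega
      exact good_even_all h h16 hn
    · have hn' : Even n := by
        rcases Nat.even_mul.1 he with h' | h'
        · exact h'
        · exact absurd h' (Nat.not_even_iff_odd.2 h)
      have h3 : ρ + 5 ≤ n := by
        obtain ⟨k, rfl⟩ := h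
        obtain ⟨l, rfl⟩ := hn'
        omega
      exact good_odd h h15 hn' h3
  · have hpar : ∀ k, n = 2 * k + 1 → ρ % 2 = 0 := by
      rintro k rfl
      rcases Nat.even_mul.1 he with h' | h'
      · exact absurd h' (by rw [Nat.not_even_iff_odd]; exact ⟨k, rfl⟩)
      · exact Nat.even_iff.1 h'
    have hodd : ρ % 2 = 1 → n % 2 = 0 := by
      intro h
      by_contra hcon
      have := hpar (n / 2) (by omega)
      omega
    interval_cases ρ
    · exact good_deg5 (by omega) he
    · exact good_deg6 (by omega) he
    · exact good_deg7 (by omega) he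
    · by_cases h : n = 12
      · subst h; exact good_8_12
      · exact good_deg8 (by omega) he
    · exact good_deg9 (by omega) he
    · exact good_deg10 (by omega) he
    · exact good_deg11 (by omega) he
    · exact good_deg12 (by omega) he
    · exact good_deg13 (by omega) he
    · exact good_deg14 (by omega) he

end Pool.Agent.H93.Nut
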